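import Mathlib

set_option autoImplicit false

namespace Pool.Agent.Helper606.Fek

open Complex Set Filter Topology

/-- principal square root -/
noncomputable def csq (z : ℂ) : ℂ := z ^ (1 / 2 : ℂ)

/-- normalising constant -/
noncomputable def cA : ℝ := 1 / ∫ t in (0:ℝ)..(Real.pi / 4), Real.sqrt (2 * Real.cos (2 * t))

/-- `P x = ∫_0^x s^2/(1+√(1+s^4)) ds` -/
noncomputable def P (x : ℂ) : ℂ :=
  ∫ t in (0:ℝ)..1, x ^ 3 * (t:ℂ) ^ 2 / (1 + csq (1 + (x * (t:ℂ)) ^ 4))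

/-- exterior conformal map of the square -/
noncomputable def psi (w : ℂ) : ℂ := (cA : ℂ) * (w - P w⁻¹)

/-- its derivative -/
noncomputable def dpsi (w : ℂ) : ℂ := (cA : ℂ) * csq (1 + (w⁻¹) ^ 4)

/-- position on the right side -/
noncomputable def yy (θ : ℝ) : ℝ := cA * ∫ t in (0:ℝ)..θ, Real.sqrt (2 * Real.cos (2 * t))

/-- the boundary of the square -/
def sq : Set ℂ := {z : ℂ | max |z.re| |z.im| = 1}

/-- local scale -/
noncomputable def rho (n : ℕ) (u : ℂ) : ℝ := (1 / (n:ℝ)) * Real.sqrt (‖u ^ 4 + 1‖ + 1 / (n:ℝ))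

/-- the numbers `M_k` -/
noncomputable def MM {n : ℕ} (u : Fin n → ℂ) (k : Fin n) : ℝ :=
  ∏ j ∈ Finset.univ.erase k, ‖psi (u k) - psi (u j)‖

/-- what is used about Fekete points `psi (u k)` -/
structure FekData (n : ℕ) (u : Fin n → ℂ) : Prop where
  norm_u : ∀ k, ‖u k‖ = 1
  pos : ∀ k, 0 < MM u k
  max : ∀ k, ∀ x ∈ sq, ∏ j ∈ Finset.univ.erase k, ‖x - psi (u j)‖ ≤ MM u k

end Pool.Agent.Helper606.Fek
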