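import Pool.Agent.Helper606.Fek.Defs

set_option autoImplicit false

namespace Pool.Agent.Helper606.Fek
open Complex Set Filter Topology


theorem csq_sq (z : ℂ) : csq z ^ 2 = z := by
  unfold csq
  have h := Complex.cpow_nat_inv_pow z (n := 2) two_ne_zero
  rw [← h]
  congr 2
  norm_num

theorem csq_re_nonneg (z : ℂ) : 0 ≤ (csq z).re := by
  by_cases hz : z = 0
  · subst hz
    unfold csq
    rw [Complex.zero_cpow (by norm_num)]
    simp
  · unfold csq
    rw [Complex.cpow_def_of_ne_zero hz, Complex.exp_re]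
    refine mul_nonneg (Real.exp_pos _).le ?_
    have h1 : (Complex.log z * (1 / 2)).im = z.arg / 2 := by
      have : (Complex.log z * (1 / 2)).im = (Complex.log z).im / 2 := by
        have e : (1 / 2 : ℂ) = ((1 / 2 : ℝ) : ℂ) := by push_cast; rfl
        rw [e, Complex.im_mul_ofReal]
        ring
      rw [this, Complex.log_im]
    rw [h1]
    have h2 := Complex.arg_le_pi z
    have h3 := Complex.neg_pi_lt_arg z
    exact Real.cos_nonneg_of_neg_pi_div_two_le_of_le (by linarith) (by linarith)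

theorem csq_sector (z : ℂ) (hz : 0 ≤ z.re) : |(csq z).im| ≤ (csq z).re := by
  have h1 := csq_sq z
  have h2 := csq_re_nonneg z
  have h3 : z.re = (csq z).re ^ 2 - (csq z).im ^ 2 := by
    conv_lhs => rw [← h1]
    rw [pow_two, Complex.mul_re]
    ring
  rw [h3] at hz
  exact abs_le_of_sq_le_sq (by linarith) h2

theorem csq_norm (z : ℂ) : ‖csq z‖ = Real.sqrt ‖z‖ := by
  have h1 : ‖csq z‖ ^ 2 = ‖z‖ := by rw [← norm_pow, csq_sq]
  rw [← h1, Real.sqrt_sq (norm_nonneg _)]

theorem csq_conj (z : ℂ) (hz : 0 ≤ z.re) : csq (starRingEnd ℂ z) = starRingEnd ℂ (csq z) := by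
  have h1 := csq_sq z
  have h2 := csq_sq (starRingEnd ℂ z)
  have h3 : csq (starRingEnd ℂ z) ^ 2 = (starRingEnd ℂ (csq z)) ^ 2 := by
    rw [h2, ← map_pow, h1]
  rcases sq_eq_sq_iff_eq_or_eq_neg.1 h3 with h | h
  · exact h
  · have a1 := csq_re_nonneg z
    have a2 := csq_re_nonneg (starRingEnd ℂ z)
    have a3 := csq_sector z hz
    have a4 : (csq (starRingEnd ℂ z)).re = -(csq z).re := by
      rw [h, Complex.neg_re, Complex.conj_re]
    have a5 : (csq z).re = 0 := by linarith
    have a6 : (csq z).im = 0 := by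
      rw [a5] at a3
      exact abs_eq_zero.1 (le_antisymm a3 (abs_nonneg _))
    have a7 : csq z = 0 := Complex.ext a5 a6
    rw [h, a7]
    simp

theorem csq_ne (z : ℂ) : 1 + csq z ≠ 0 := by
  intro h
  have h1 := congrArg Complex.re h
  rw [Complex.add_re, Complex.one_re, Complex.zero_re] at h1
  have := csq_re_nonneg z
  linarith

theorem csq_one_le (z : ℂ) : 1 ≤ ‖1 + csq z‖ := by
  have h1 := Complex.re_le_norm (1 + csq z)
  rw [Complex.add_re, Complex.one_re] at h1
  have := csq_re_nonneg z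
  linarith

end Pool.Agent.Helper606.Fek
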