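import Pool.Agent.Helper606.Fek.Defs
import Pool.Agent.Helper606.Fek.P_csq_basic

set_option autoImplicit false

namespace Pool.Agent.Helper606.Fek
open Complex Set Filter Topology


theorem P_bound (x : ℂ) (hx : ‖x‖ ≤ 1) : ‖P x‖ ≤ ‖x‖ ^ 3 / 3 := by
  unfold P
  have h1 : ‖∫ t in (0:ℝ)..1, x ^ 3 * (t:ℂ) ^ 2 / (1 + csq (1 + (x * (t:ℂ)) ^ 4))‖
      ≤ ∫ t in (0:ℝ)..1, ‖x‖ ^ 3 * t ^ 2 := by
    apply intervalIntegral.norm_integral_le_of_norm_le zero_le_one
    · refine Filter.Eventually.of_forall (fun t ht => ?_)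
      have hc := csq_one_le (1 + (x * (t:ℂ)) ^ 4)
      have h0 : (0:ℝ) < ‖1 + csq (1 + (x * (t:ℂ)) ^ 4)‖ := lt_of_lt_of_le one_pos hc
      rw [norm_div, norm_mul, norm_pow, norm_pow, Complex.norm_real, Real.norm_eq_abs, sq_abs]
      rw [div_le_iff₀ h0]
      have : 0 ≤ ‖x‖ ^ 3 * t ^ 2 := by positivity
      nlinarith
    · exact (Continuous.intervalIntegrable (by fun_prop) _ _)
  refine h1.trans (le_of_eq ?_)
  rw [intervalIntegral.integral_const_mul, integral_pow]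
  norm_num
  ring

end Pool.Agent.Helper606.Fek
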