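import Pool.Agent.Helper606.Fek.Defs
import Pool.Agent.Helper606.Fek.P_csq_basic

set_option autoImplicit false

namespace Pool.Agent.Helper606.Fek
open Complex Set Filter Topology


theorem csq_contOn : ContinuousOn csq {z : ℂ | 0 ≤ z.re} := by
  intro z hz
  apply ContinuousAt.continuousWithinAt
  by_cases h : z = 0
  · subst h
    have h0 : csq 0 = 0 := by
      rw [← norm_eq_zero, csq_norm, norm_zero, Real.sqrt_zero]
    have h1 : Tendsto csq (𝓝 0) (𝓝 0) := by
      rw [tendsto_zero_iff_norm_tendsto_zero]
      have h2 : Tendsto (fun z : ℂ => Real.sqrt ‖z‖) (𝓝 0) (𝓝 0) := by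
        have h3 : Continuous (fun z : ℂ => Real.sqrt ‖z‖) := by fun_prop
        have h4 := h3.tendsto 0
        simpa using h4
      exact h2.congr (fun z => (csq_norm z).symm)
    unfold ContinuousAt
    rw [h0]
    exact h1
  · have hs : z ∈ Complex.slitPlane := by
      rw [Complex.mem_slitPlane_iff]
      rcases lt_or_eq_of_le (show 0 ≤ z.re from hz) with h1 | h1
      · exact Or.inl h1
      · right
        intro h2
        exact h (Complex.ext h1.symm h2)
    exact continuousAt_cpow_const hs

theorem csq_diffOn : DifferentiableOn ℂ csq {z : ℂ | 0 < z.re} := by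
  intro z hz
  apply DifferentiableAt.differentiableWithinAt
  exact DifferentiableAt.cpow differentiableAt_id (differentiableAt_const _) (Or.inl hz)

end Pool.Agent.Helper606.Fek
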