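import Pool.Agent.Helper606.Fek.Defs
import Pool.Agent.Helper606.Fek.P_csq_basic
import Pool.Agent.Helper606.Fek.P_csq_cont

set_option autoImplicit false

namespace Pool.Agent.Helper606.Fek
open Complex Set Filter Topology


theorem P_cont_re {x : ℂ} (hx : x ∈ Metric.closedBall (0:ℂ) 1) {t : ℝ} (ht : t ∈ Icc (0:ℝ) 1) :
    1 + (x * (t:ℂ)) ^ 4 ∈ {z : ℂ | 0 ≤ z.re} := by
  have h1 : ‖(x * (t:ℂ)) ^ 4‖ ≤ 1 := by
    rw [norm_pow]
    apply pow_le_one₀ (norm_nonneg _)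
    rw [norm_mul, Complex.norm_real, Real.norm_eq_abs, abs_of_nonneg ht.1]
    rw [mem_closedBall_zero_iff] at hx
    exact mul_le_one₀ hx ht.1 ht.2
  show 0 ≤ (1 + (x * (t:ℂ)) ^ 4).re
  rw [Complex.add_re, Complex.one_re]
  have h2 := Complex.abs_re_le_norm ((x * (t:ℂ)) ^ 4)
  have h3 := (abs_le.1 (h2.trans h1)).1
  linarith

theorem P_cont_joint : ContinuousOn
    (fun q : ℂ × ℝ => q.1 ^ 3 * (q.2:ℂ) ^ 2 / (1 + csq (1 + (q.1 * (q.2:ℂ)) ^ 4)))
    (Metric.closedBall (0:ℂ) 1 ×ˢ Icc (0:ℝ) 1) := by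
  have hi : Continuous (fun q : ℂ × ℝ => 1 + (q.1 * (q.2:ℂ)) ^ 4) := by fun_prop
  have hnum : Continuous (fun q : ℂ × ℝ => q.1 ^ 3 * (q.2:ℂ) ^ 2) := by fun_prop
  have hc : ContinuousOn (fun q : ℂ × ℝ => csq (1 + (q.1 * (q.2:ℂ)) ^ 4))
      (Metric.closedBall (0:ℂ) 1 ×ˢ Icc (0:ℝ) 1) := by
    refine ContinuousOn.comp csq_contOn hi.continuousOn ?_
    rintro ⟨x, t⟩ ⟨hx, ht⟩
    exact P_cont_re hx ht
  exact hnum.continuousOn.div (continuousOn_const.add hc) (fun q _ => csq_ne _)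

theorem P_cont : ContinuousOn P (Metric.closedBall (0:ℂ) 1) := by
  intro x₀ hx₀
  unfold P
  refine intervalIntegral.continuousWithinAt_of_dominated_interval (bound := fun _ => 1) ?_ ?_ ?_ ?_
  · filter_upwards [self_mem_nhdsWithin] with x hx
    rw [uIoc_of_le zero_le_one]
    refine ContinuousOn.aestronglyMeasurable ?_ measurableSet_Ioc
    have hm : ContinuousOn (fun t : ℝ => (x, t)) (Ioc (0:ℝ) 1) := by fun_prop
    have hmaps : MapsTo (fun t : ℝ => (x, t)) (Ioc (0:ℝ) 1)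
        (Metric.closedBall (0:ℂ) 1 ×ˢ Icc (0:ℝ) 1) := by
      intro t ht
      exact ⟨hx, Ioc_subset_Icc_self ht⟩
    have h := ContinuousOn.comp P_cont_joint hm hmaps
    simp only [Function.comp_def] at h
    exact h
  · filter_upwards [self_mem_nhdsWithin] with x hx
    filter_upwards with t ht
    rw [uIoc_of_le zero_le_one] at ht
    have ht' := Ioc_subset_Icc_self ht
    rw [mem_closedBall_zero_iff] at hx
    rw [norm_div, norm_mul, norm_pow, norm_pow, Complex.norm_real, Real.norm_eq_abs,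
      abs_of_nonneg ht'.1]
    have h1 := csq_one_le (1 + (x * (t:ℂ)) ^ 4)
    rw [div_le_one (by linarith)]
    have h2 : ‖x‖ ^ 3 ≤ 1 := pow_le_one₀ (norm_nonneg _) hx
    have h3 : t ^ 2 ≤ 1 := pow_le_one₀ ht'.1 ht'.2
    calc ‖x‖ ^ 3 * t ^ 2 ≤ 1 := mul_le_one₀ h2 (sq_nonneg _) h3
      _ ≤ _ := h1
  · exact intervalIntegrable_const
  · filter_upwards with t ht
    rw [uIoc_of_le zero_le_one] at ht
    have ht' := Ioc_subset_Icc_self ht
    have hm : ContinuousOn (fun x : ℂ => (x, t)) (Metric.closedBall (0:ℂ) 1) := by fun_prop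
    have hmaps : MapsTo (fun x : ℂ => (x, t)) (Metric.closedBall (0:ℂ) 1)
        (Metric.closedBall (0:ℂ) 1 ×ˢ Icc (0:ℝ) 1) := by
      intro x hx
      exact ⟨hx, ht'⟩
    have h := ContinuousOn.comp P_cont_joint hm hmaps
    simp only [Function.comp_def] at h
    exact h x₀ hx₀

end Pool.Agent.Helper606.Fek
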