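import Pool.Agent.Helper606.Fek.Defs
import Pool.Agent.Helper606.Fek.P_csq_basic
import Pool.Agent.Helper606.Fek.P_csq_cont

set_option autoImplicit false

namespace Pool.Agent.Helper606.Fek
open Complex Set Filter Topology


theorem re_pos_of (z : ℂ) (hz : ‖z‖ < 1) : 0 < (1 + z ^ 4).re := by
  have h1 : ‖z ^ 4‖ < 1 := by
    rw [norm_pow]
    exact pow_lt_one₀ (norm_nonneg _) hz (by norm_num)
  have h2 : |(z ^ 4).re| ≤ ‖z ^ 4‖ := Complex.abs_re_le_norm _
  have h3 := (abs_le.1 h2).1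
  rw [Complex.add_re, Complex.one_re]
  linarith

theorem hfun_diff : DifferentiableOn ℂ (fun z : ℂ => z ^ 2 / (1 + csq (1 + z ^ 4)))
    (Metric.ball 0 1) := by
  apply DifferentiableOn.div
  · fun_prop
  · apply DifferentiableOn.add
    · fun_prop
    · apply csq_diffOn.comp (g := csq) (f := fun z : ℂ => 1 + z ^ 4)
      · fun_prop
      · intro z hz
        rw [mem_ball_zero_iff] at hz
        exact re_pos_of z hz
  · intro z _
    exact csq_ne _

theorem P_deriv (x : ℂ) (hx : ‖x‖ < 1) : HasDerivAt P (x ^ 2 / (1 + csq (1 + x ^ 4))) x := by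
  obtain ⟨H, hH⟩ := hfun_diff.isExactOn_ball
  have key : ∀ y : ℂ, ‖y‖ < 1 → P y = H y - H 0 := by
    intro y hy
    have hmem : ∀ t ∈ Set.uIcc (0:ℝ) 1, y * (t:ℂ) ∈ Metric.ball (0:ℂ) 1 := by
      intro t ht
      rw [Set.uIcc_of_le zero_le_one] at ht
      rw [mem_ball_zero_iff, norm_mul, Complex.norm_real, Real.norm_eq_abs, abs_of_nonneg ht.1]
      calc ‖y‖ * t ≤ ‖y‖ * 1 := mul_le_mul_of_nonneg_left ht.2 (norm_nonneg _)
        _ < 1 := by rw [mul_one]; exact hy
    have h1 : ∀ t ∈ Set.uIcc (0:ℝ) 1, HasDerivAt (fun t : ℝ => H (y * (t:ℂ)))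
        (y ^ 3 * (t:ℂ) ^ 2 / (1 + csq (1 + (y * (t:ℂ)) ^ 4))) t := by
      intro t ht
      have a1 := hH (y * (t:ℂ)) (hmem t ht)
      have a2 : HasDerivAt (fun s : ℂ => y * s) y (t:ℂ) := by
        simpa using (hasDerivAt_id (t:ℂ)).const_mul y
      have a3 := (HasDerivAt.comp (t:ℂ) a1 a2).comp_ofReal
      refine HasDerivAt.congr_deriv a3 ?_
      have : 1 + csq (1 + (y * (t:ℂ)) ^ 4) ≠ 0 := csq_ne _
      field_simp
    have h2 : IntervalIntegrable (fun t : ℝ => y ^ 3 * (t:ℂ) ^ 2 /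
        (1 + csq (1 + (y * (t:ℂ)) ^ 4))) MeasureTheory.volume 0 1 := by
      apply ContinuousOn.intervalIntegrable
      have c1 : ContinuousOn (fun t : ℝ => (fun z : ℂ => z ^ 2 / (1 + csq (1 + z ^ 4)))
          (y * (t:ℂ)) * y) (Set.uIcc 0 1) := by
        apply ContinuousOn.mul _ continuousOn_const
        apply hfun_diff.continuousOn.comp
        · fun_prop
        · intro t ht
          exact hmem t ht
      apply c1.congr
      intro t _
      have : 1 + csq (1 + (y * (t:ℂ)) ^ 4) ≠ 0 := csq_ne _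
      show y ^ 3 * (t:ℂ) ^ 2 / (1 + csq (1 + (y * (t:ℂ)) ^ 4)) =
        (y * (t:ℂ)) ^ 2 / (1 + csq (1 + (y * (t:ℂ)) ^ 4)) * y
      field_simp
    have h3 := intervalIntegral.integral_eq_sub_of_hasDerivAt h1 h2
    unfold P
    rw [h3]
    simp
  have h0 : HasDerivAt (fun y => H y - H 0) (x ^ 2 / (1 + csq (1 + x ^ 4))) x :=
    (hH x (by rwa [mem_ball_zero_iff])).sub_const _
  apply h0.congr_of_eventuallyEq
  have : Metric.ball (0:ℂ) 1 ∈ 𝓝 x := Metric.isOpen_ball.mem_nhds (by rwa [mem_ball_zero_iff])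
  filter_upwards [this] with y hy
  rw [mem_ball_zero_iff] at hy
  exact key y hy

end Pool.Agent.Helper606.Fek
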