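import Pool.Agent.Helper606.Fek.Defs
import Pool.Agent.Helper606.Fek.P_csq_basic
import Pool.Agent.Helper606.Fek.P_csq_cont

set_option autoImplicit false

namespace Pool.Agent.Helper606.Fek
open Complex Set Filter Topology


theorem P_rot (x : ℂ) : P (-I * x) = I * P x := by
  unfold P
  rw [← intervalIntegral.integral_const_mul]
  congr 1
  funext t
  have h3 : (-I * x) ^ 3 = I * x ^ 3 := by
    have : (-I * x) ^ 3 = -(I ^ 2 * I) * x ^ 3 := by ring
    rw [this, I_sq]
    ring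
  have h4 : (-I * x * (t:ℂ)) ^ 4 = (x * (t:ℂ)) ^ 4 := by
    have : (-I * x * (t:ℂ)) ^ 4 = (I ^ 2) ^ 2 * (x * (t:ℂ)) ^ 4 := by ring
    rw [this, I_sq]
    ring
  rw [h3, h4]
  ring

theorem P_conj (x : ℂ) (hx : ‖x‖ ≤ 1) : P (starRingEnd ℂ x) = starRingEnd ℂ (P x) := by
  unfold P
  rw [intervalIntegral.integral_of_le zero_le_one, intervalIntegral.integral_of_le zero_le_one,
    ← integral_conj]
  apply MeasureTheory.setIntegral_congr_fun measurableSet_Ioc
  intro t ht
  have hre : 0 ≤ (1 + (x * (t:ℂ)) ^ 4).re := by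
    rw [add_re, one_re]
    have h1 : |((x * (t:ℂ)) ^ 4).re| ≤ ‖(x * (t:ℂ)) ^ 4‖ := abs_re_le_norm _
    have h2 : ‖(x * (t:ℂ)) ^ 4‖ ≤ 1 := by
      rw [norm_pow, norm_mul, norm_real]
      have h3 : ‖t‖ ≤ 1 := by
        rw [Real.norm_eq_abs, abs_of_nonneg ht.1.le]
        exact ht.2
      exact pow_le_one₀ (by positivity) (mul_le_one₀ hx (norm_nonneg _) h3)
    have h4 := (abs_le.1 h1).1
    linarith
  simp only [map_div₀, map_mul, map_add, map_one, map_pow, conj_ofReal]
  have h5 := csq_conj _ hre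
  simp only [map_mul, map_add, map_one, map_pow, conj_ofReal] at h5
  rw [h5]

end Pool.Agent.Helper606.Fek
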