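import Pool.Agent.Helper606.Fek.Defs

set_option autoImplicit false

namespace Pool.Agent.Helper606.Fek
open Complex Set Filter Topology


theorem adiabatic_alg (s W W1 W2 q1 q2 : ℝ) (hs : 0 < s) :
    (2 * (q1 / (2 * s)) * W + 2 * s * W1) +
      (((-4 * s ^ 2 * W1 - 2 * q1 * W) * (2 * s) - W2 * (2 * (q1 / (2 * s)))) / (2 * s) ^ 2) +
      (((q2 * (2 * (s ^ 2 * s)) - q1 * (2 * (q1 * s + s ^ 2 * (q1 / (2 * s))))) /
        (2 * (s ^ 2 * s)) ^ 2) * (W1 / 2) + q1 / (2 * (s ^ 2 * s)) * (W2 / 2)) =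
      (q2 / (2 * (s ^ 2 * s)) - 3 / 4 * (q1 ^ 2 / ((s ^ 2) ^ 2 * s))) * (W1 / 2) := by
  field_simp
  ring

theorem adiabatic_bd (s W W1 W2 q1 : ℝ) (hs : 0 < s) (hW : 0 ≤ W) (hE : 0 ≤ W2 / 2 + s ^ 2 * W)
    (id2 : W1 ^ 2 - 2 * W * W2 = 4 * s ^ 2 * W ^ 2) (hk : |q1| ≤ 2 * (s ^ 2 * s)) :
    |W1 / 2| ≤ 2 * s * W + W2 / (2 * s) + q1 / (2 * (s ^ 2 * s)) * (W1 / 2) := by
  have hA : 2 * s * W + W2 / (2 * s) = s * W + (W2 / 2 + s ^ 2 * W) / s := by
    field_simp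
    ring
  have h1 : 0 ≤ s * W := mul_nonneg hs.le hW
  have h2 : 0 ≤ (W2 / 2 + s ^ 2 * W) / s := div_nonneg hE hs.le
  have h3 : (W1 / 2) ^ 2 = (s * W) * ((W2 / 2 + s ^ 2 * W) / s) := by
    have : (s * W) * ((W2 / 2 + s ^ 2 * W) / s) = W * (W2 / 2 + s ^ 2 * W) := by
      field_simp
    rw [this]
    linarith
  rw [hA]
  generalize s * W = u at *
  generalize (W2 / 2 + s ^ 2 * W) / s = v at *
  have h4 : |W1 / 2| ≤ (u + v) / 2 := by
    apply abs_le_of_sq_le_sq _ (by linarith)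
    nlinarith [sq_nonneg (u - v)]
  have hp : 0 < 2 * (s ^ 2 * s) := by positivity
  have h5 : |q1 / (2 * (s ^ 2 * s))| ≤ 1 := by
    rw [abs_div, abs_of_pos hp, div_le_one hp]
    exact hk
  have h6 : |q1 / (2 * (s ^ 2 * s)) * (W1 / 2)| ≤ |W1 / 2| := by
    rw [abs_mul]
    exact mul_le_of_le_one_left (abs_nonneg _) h5
  have h7 := neg_abs_le (q1 / (2 * (s ^ 2 * s)) * (W1 / 2))
  linarith

theorem adiabatic (a b : ℝ) (hab : a ≤ b) (W W₁ W₂ W₃ q q₁ q₂ G g : ℝ → ℝ)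
    (hW : ∀ x ∈ Icc a b, HasDerivAt W (W₁ x) x) (hW1 : ∀ x ∈ Icc a b, HasDerivAt W₁ (W₂ x) x)
    (hW2 : ∀ x ∈ Icc a b, HasDerivAt W₂ (W₃ x) x) (hq : ∀ x ∈ Icc a b, HasDerivAt q (q₁ x) x)
    (hq1 : ∀ x ∈ Icc a b, HasDerivAt q₁ (q₂ x) x) (hG : ∀ x ∈ Icc a b, HasDerivAt G (g x) x)
    (hpos : ∀ x ∈ Icc a b, 0 < q x) (hWn : ∀ x ∈ Icc a b, 0 ≤ W x)
    (hE : ∀ x ∈ Icc a b, 0 ≤ W₂ x / 2 + q x * W x)
    (id2 : ∀ x ∈ Icc a b, W₁ x ^ 2 - 2 * W x * W₂ x = 4 * q x * W x ^ 2)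
    (id3 : ∀ x ∈ Icc a b, W₃ x = - 4 * q x * W₁ x - 2 * q₁ x * W x)
    (hk : ∀ x ∈ Icc a b, |q₁ x| ≤ 2 * (q x * Real.sqrt (q x)))
    (hk' : ∀ x ∈ Icc a b, |q₂ x / (2 * (q x * Real.sqrt (q x))) -
      3 / 4 * (q₁ x ^ 2 / (q x ^ 2 * Real.sqrt (q x)))| ≤ g x)
    (B : ℝ → ℝ) (hB : ∀ x, B x = 2 * Real.sqrt (q x) * W x + W₂ x / (2 * Real.sqrt (q x)) +
      q₁ x / (2 * (q x * Real.sqrt (q x))) * (W₁ x / 2)) :
    B a ≤ Real.exp (G b - G a) * B b ∧ B b ≤ Real.exp (G b - G a) * B a := by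
  have hs : ∀ x ∈ Icc a b, 0 < Real.sqrt (q x) := fun x hx => Real.sqrt_pos.2 (hpos x hx)
  have hsq : ∀ x ∈ Icc a b, q x = Real.sqrt (q x) ^ 2 := fun x hx =>
    (Real.sq_sqrt (hpos x hx).le).symm
  have hds : ∀ x ∈ Icc a b, HasDerivAt (fun y => Real.sqrt (q y)) (q₁ x / (2 * Real.sqrt (q x))) x :=
    fun x hx => (hq x hx).sqrt (hpos x hx).ne'
  have hBfun : B = fun x => 2 * Real.sqrt (q x) * W x + W₂ x / (2 * Real.sqrt (q x)) +
      q₁ x / (2 * (q x * Real.sqrt (q x))) * (W₁ x / 2) := funext hB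
  have hdB : ∀ x ∈ Icc a b, HasDerivAt B ((q₂ x / (2 * (q x * Real.sqrt (q x))) -
      3 / 4 * (q₁ x ^ 2 / (q x ^ 2 * Real.sqrt (q x)))) * (W₁ x / 2)) x := by
    intro x hx
    have h0 := hs x hx
    have hqp := hpos x hx
    have h1 := ((hds x hx).const_mul 2).mul (hW x hx)
    have h2 := (hW2 x hx).div ((hds x hx).const_mul 2) (by positivity)
    have h3 := ((hq1 x hx).div (((hq x hx).mul (hds x hx)).const_mul 2)
      (mul_ne_zero two_ne_zero (mul_pos hqp h0).ne')).mul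
      ((hW1 x hx).div_const 2)
    have h4 := (h1.add h2).add h3
    rw [hBfun]
    refine h4.congr_deriv ?_
    rw [id3 x hx]
    have e := adiabatic_alg (Real.sqrt (q x)) (W x) (W₁ x) (W₂ x) (q₁ x) (q₂ x) h0
    rw [Real.sq_sqrt hqp.le] at e
    exact e
  have hbd : ∀ x ∈ Icc a b, |W₁ x / 2| ≤ B x := by
    intro x hx
    have h0 := hs x hx
    have hqp := hpos x hx
    rw [hB]
    have e := adiabatic_bd (Real.sqrt (q x)) (W x) (W₁ x) (W₂ x) (q₁ x) h0 (hWn x hx)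
    rw [Real.sq_sqrt hqp.le] at e
    exact e (hE x hx) (id2 x hx) (hk x hx)
  have hdB2 : ∀ x ∈ Icc a b, |(q₂ x / (2 * (q x * Real.sqrt (q x))) -
      3 / 4 * (q₁ x ^ 2 / (q x ^ 2 * Real.sqrt (q x)))) * (W₁ x / 2)| ≤ g x * B x := by
    intro x hx
    rw [abs_mul]
    exact mul_le_mul (hk' x hx) (hbd x hx) (abs_nonneg _) ((abs_nonneg _).trans (hk' x hx))
  have hI : interior (Icc a b) ⊆ Icc a b := interior_subset
  have ha : a ∈ Icc a b := left_mem_Icc.2 hab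
  have hb : b ∈ Icc a b := right_mem_Icc.2 hab
  constructor
  · have hd : ∀ x ∈ Icc a b, HasDerivAt (fun y => Real.exp (G y) * B y)
        (Real.exp (G x) * g x * B x + Real.exp (G x) * ((q₂ x / (2 * (q x * Real.sqrt (q x))) -
        3 / 4 * (q₁ x ^ 2 / (q x ^ 2 * Real.sqrt (q x)))) * (W₁ x / 2))) x := fun x hx =>
      ((hG x hx).exp).mul (hdB x hx)
    have hm : MonotoneOn (fun y => Real.exp (G y) * B y) (Icc a b) := by
      apply monotoneOn_of_deriv_nonneg (convex_Icc a b)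
      · exact fun x hx => (hd x hx).continuousAt.continuousWithinAt
      · exact fun x hx => (hd x (hI hx)).differentiableAt.differentiableWithinAt
      · intro x hx
        rw [(hd x (hI hx)).deriv, mul_assoc, ← mul_add]
        apply mul_nonneg (Real.exp_pos _).le
        have := (abs_le.1 (hdB2 x (hI hx))).1
        linarith
    have h1 : Real.exp (G a) * B a ≤ Real.exp (G b) * B b := hm ha hb hab
    rw [Real.exp_sub, div_mul_eq_mul_div, le_div_iff₀ (Real.exp_pos _), mul_comm]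
    exact h1
  · have hd : ∀ x ∈ Icc a b, HasDerivAt (fun y => Real.exp (- G y) * B y)
        (Real.exp (- G x) * (- g x) * B x +
        Real.exp (- G x) * ((q₂ x / (2 * (q x * Real.sqrt (q x))) -
        3 / 4 * (q₁ x ^ 2 / (q x ^ 2 * Real.sqrt (q x)))) * (W₁ x / 2))) x := fun x hx =>
      ((hG x hx).neg.exp).mul (hdB x hx)
    have hm : AntitoneOn (fun y => Real.exp (- G y) * B y) (Icc a b) := by
      apply antitoneOn_of_deriv_nonpos (convex_Icc a b)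
      · exact fun x hx => (hd x hx).continuousAt.continuousWithinAt
      · exact fun x hx => (hd x (hI hx)).differentiableAt.differentiableWithinAt
      · intro x hx
        rw [(hd x (hI hx)).deriv, mul_assoc, ← mul_add]
        apply mul_nonpos_of_nonneg_of_nonpos (Real.exp_pos _).le
        have := (abs_le.1 (hdB2 x (hI hx))).2
        linarith
    have h1 : Real.exp (- G b) * B b ≤ Real.exp (- G a) * B a := hm ha hb hab
    have h2 : Real.exp (G b) * (Real.exp (- G b) * B b) ≤ Real.exp (G b) * (Real.exp (- G a) * B a) :=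
      mul_le_mul_of_nonneg_left h1 (Real.exp_pos _).le
    rw [← mul_assoc, ← mul_assoc, ← Real.exp_add, ← Real.exp_add, add_neg_cancel, Real.exp_zero,
      one_mul, ← sub_eq_add_neg] at h2
    exact h2

end Pool.Agent.Helper606.Fek
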