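import Pool.Agent.Helper606.Fek.Defs

set_option autoImplicit false

namespace Pool.Agent.Helper606.Fek
open Complex Set Filter Topology


theorem cA_pos : 0 < cA := by
  unfold cA
  apply one_div_pos.mpr
  have hpi := Real.pi_pos
  apply intervalIntegral.intervalIntegral_pos_of_pos_on
  · apply Continuous.intervalIntegrable
    fun_prop
  · intro t ht
    apply Real.sqrt_pos.mpr
    have : 0 < Real.cos (2 * t) := by
      apply Real.cos_pos_of_mem_Ioo
      constructor
      · linarith [ht.1]
      · linarith [ht.2]
    linarith
  · positivity

end Pool.Agent.Helper606.Fek
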