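import Pool.Agent.Helper606.Fek.Defs

set_option autoImplicit false

namespace Pool.Agent.Helper606.Fek
open Complex Set Filter Topology


theorem ext_max (Y : ℂ → ℂ) (r B : ℝ) (L : ℂ) (hr : 0 < r)
    (hd : DifferentiableOn ℂ Y {w : ℂ | r < ‖w‖}) (hc : ContinuousOn Y {w : ℂ | r ≤ ‖w‖})
    (hl : Tendsto Y (cocompact ℂ) (𝓝 L)) (hB : ∀ w : ℂ, ‖w‖ = r → ‖Y w‖ ≤ B) :
    (∀ w : ℂ, r ≤ ‖w‖ → ‖Y w‖ ≤ B) ∧ ‖L‖ ≤ B := by
  classical
  set Z : ℂ → ℂ := fun x => if x = 0 then L else Y x⁻¹ with hZ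
  have hZ0 : Z 0 = L := by simp [hZ]
  have hZn : ∀ x : ℂ, x ≠ 0 → Z x = Y x⁻¹ := fun x hx => by simp [hZ, hx]
  have hri : 0 < r⁻¹ := inv_pos.2 hr
  have hinv : ∀ x : ℂ, x ≠ 0 → ‖x‖ < r⁻¹ → r < ‖x⁻¹‖ := by
    intro x hx h
    rw [norm_inv]
    exact (lt_inv_comm₀ hr (norm_pos_iff.2 hx)).2 h
  have hinv' : ∀ x : ℂ, x ≠ 0 → ‖x‖ ≤ r⁻¹ → r ≤ ‖x⁻¹‖ := by
    intro x hx h
    rw [norm_inv]
    exact (le_inv_comm₀ hr (norm_pos_iff.2 hx)).2 h
  have hcont0 : ContinuousAt Z 0 := by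
    rw [continuousAt_iff_punctured_nhds, hZ0]
    have h1 : Tendsto (fun x : ℂ => Y x⁻¹) (𝓝[≠] 0) (𝓝 L) := by
      rw [← Metric.cobounded_eq_cocompact] at hl
      exact hl.comp tendsto_inv₀_nhdsNE_zero
    refine h1.congr' ?_
    filter_upwards [self_mem_nhdsWithin] with x hx
    exact (hZn x hx).symm
  have hdiff : DifferentiableOn ℂ Z (Metric.ball 0 r⁻¹) := by
    rw [← Complex.differentiableOn_compl_singleton_and_continuousAt_iff
      (Metric.ball_mem_nhds (0:ℂ) hri)]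
    refine ⟨?_, hcont0⟩
    have h2 : DifferentiableOn ℂ (fun x : ℂ => Y x⁻¹) (Metric.ball 0 r⁻¹ \ {0}) := by
      refine hd.comp ?_ ?_
      · intro x hx
        exact (differentiableAt_inv hx.2).differentiableWithinAt
      · intro x hx
        exact hinv x hx.2 (by simpa using hx.1)
    exact h2.congr (fun x hx => hZn x hx.2)
  have hcontc : ContinuousOn Z (Metric.closedBall 0 r⁻¹) := by
    intro x hx
    by_cases h0 : x = 0
    · subst h0; exact hcont0.continuousWithinAt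
    · have h3 : ContinuousWithinAt (fun x : ℂ => Y x⁻¹) (Metric.closedBall 0 r⁻¹ \ {0}) x := by
        have h4 : ContinuousOn (fun x : ℂ => Y x⁻¹) (Metric.closedBall 0 r⁻¹ \ {0}) := by
          refine hc.comp ?_ ?_
          · intro x hx
            exact (continuousAt_inv₀ hx.2).continuousWithinAt
          · intro x hx
            exact hinv' x hx.2 (by simpa using hx.1)
        exact h4 x ⟨hx, h0⟩
      have h5 : ContinuousWithinAt Z (Metric.closedBall 0 r⁻¹ \ {0}) x :=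
        h3.congr (fun z hz => hZn z hz.2) (hZn x h0)
      refine h5.mono_of_mem_nhdsWithin ?_
      exact Filter.inter_mem self_mem_nhdsWithin
        (mem_nhdsWithin_of_mem_nhds (isOpen_ne.mem_nhds h0))
  have hDC : DiffContOnCl ℂ Z (Metric.ball 0 r⁻¹) :=
    ⟨hdiff, by rw [closure_ball (0:ℂ) hri.ne']; exact hcontc⟩
  have hfr : ∀ z ∈ frontier (Metric.ball (0:ℂ) r⁻¹), ‖Z z‖ ≤ B := by
    intro z hz
    rw [frontier_ball (0:ℂ) hri.ne', mem_sphere_zero_iff_norm] at hz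
    have hz0 : z ≠ 0 := by
      intro h
      rw [h, norm_zero] at hz
      exact hri.ne hz
    rw [hZn z hz0]
    apply hB
    rw [norm_inv, hz, inv_inv]
  have key : ∀ z : ℂ, ‖z‖ ≤ r⁻¹ → ‖Z z‖ ≤ B := by
    intro z hz
    refine Complex.norm_le_of_forall_mem_frontier_norm_le Metric.isBounded_ball hDC hfr ?_
    rw [closure_ball (0:ℂ) hri.ne']
    simpa using hz
  refine ⟨?_, ?_⟩
  · intro w hw
    have hw0 : w ≠ 0 := by
      intro h
      rw [h, norm_zero] at hw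
      linarith
    have h6 := key w⁻¹ (by rw [norm_inv]; exact inv_anti₀ hr hw)
    rwa [hZn _ (inv_ne_zero hw0), inv_inv] at h6
  · have h7 := key 0 (by rw [norm_zero]; exact hri.le)
    rwa [hZ0] at h7

end Pool.Agent.Helper606.Fek
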