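import Pool.Agent.Helper606.Fek.Defs
import Pool.Agent.Helper606.Fek.P_csq_basic

set_option autoImplicit false

namespace Pool.Agent.Helper606.Fek
open Complex Set Filter Topology


theorem arc_dpsi (θ : ℝ) (h : |θ| ≤ Real.pi / 4) :
    exp (θ * I) * dpsi (exp (θ * I)) = ((cA * Real.sqrt (2 * Real.cos (2 * θ)) : ℝ) : ℂ) := by
  obtain ⟨hl, hu⟩ := abs_le.1 h
  have hpi := Real.pi_pos
  have hcos2 : 0 ≤ Real.cos (2 * θ) :=
    Real.cos_nonneg_of_neg_pi_div_two_le_of_le (by linarith) (by linarith)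
  have hcos : 0 ≤ Real.cos θ :=
    Real.cos_nonneg_of_neg_pi_div_two_le_of_le (by linarith) (by linarith)
  have hsin : |Real.sin θ| ≤ Real.cos θ := by
    apply abs_le_of_sq_le_sq _ hcos
    have h1 := Real.cos_two_mul' θ
    linarith
  set e : ℂ := exp (θ * I) with he
  have he0 : e ≠ 0 := Complex.exp_ne_zero _
  have hinv4 : (e⁻¹) ^ 4 = ((Real.cos (4 * θ) : ℝ) : ℂ) - ((Real.sin (4 * θ) : ℝ) : ℂ) * I := by
    rw [he, ← Complex.exp_neg, ← Complex.exp_nat_mul]
    have e1 : ((4 : ℕ) : ℂ) * -(θ * I) = ((-(4 * θ) : ℝ) : ℂ) * I := by push_cast; ring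
    rw [e1, Complex.exp_mul_I, ← Complex.ofReal_cos, ← Complex.ofReal_sin, Real.cos_neg, Real.sin_neg]
    push_cast
    ring
  have hre : 0 ≤ (1 + (e⁻¹) ^ 4).re := by
    rw [hinv4]
    simp only [Complex.add_re, Complex.one_re, Complex.sub_re, Complex.ofReal_re, Complex.mul_re,
      Complex.ofReal_im, Complex.I_re, Complex.I_im, mul_zero, zero_mul, sub_zero]
    linarith [Real.neg_one_le_cos (4 * θ)]
  have hsec := csq_sector _ hre
  have hcre := csq_re_nonneg (1 + (e⁻¹) ^ 4)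
  have hcsq := csq_sq (1 + (e⁻¹) ^ 4)
  set c : ℂ := csq (1 + (e⁻¹) ^ 4) with hc
  have hev : e = ((Real.cos θ : ℝ) : ℂ) + ((Real.sin θ : ℝ) : ℂ) * I := by
    rw [he, Complex.exp_mul_I, ← Complex.ofReal_cos, ← Complex.ofReal_sin]
  have hvre : 0 ≤ (e * c).re := by
    rw [hev]
    simp only [Complex.add_re, Complex.add_im, Complex.ofReal_re, Complex.mul_re, Complex.mul_im,
      Complex.ofReal_im, Complex.I_re, Complex.I_im, mul_zero, zero_mul, sub_zero, add_zero, mul_one,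
      zero_add]
    have h1 : |Real.sin θ * c.im| ≤ Real.cos θ * c.re := by
      rw [abs_mul]
      exact mul_le_mul hsin hsec (abs_nonneg _) hcos
    have h2 := le_abs_self (Real.sin θ * c.im)
    linarith
  have hv2 : (e * c) ^ 2 = ((2 * Real.cos (2 * θ) : ℝ) : ℂ) := by
    have h1 : (e * c) ^ 2 = e ^ 2 + (e⁻¹) ^ 2 := by
      rw [mul_pow, hcsq]
      field_simp
    rw [h1, he, ← Complex.exp_neg, ← Complex.exp_nat_mul, ← Complex.exp_nat_mul]
    have e1 : ((2 : ℕ) : ℂ) * (θ * I) = ((2 * θ : ℝ) : ℂ) * I := by push_cast; ring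
    have e2 : ((2 : ℕ) : ℂ) * -(θ * I) = ((-(2 * θ) : ℝ) : ℂ) * I := by push_cast; ring
    rw [e1, e2, Complex.exp_mul_I, Complex.exp_mul_I, ← Complex.ofReal_cos, ← Complex.ofReal_sin,
      ← Complex.ofReal_cos, ← Complex.ofReal_sin, Real.cos_neg, Real.sin_neg]
    push_cast
    ring
  have hr0 : 0 ≤ 2 * Real.cos (2 * θ) := by linarith
  have hsq : (((Real.sqrt (2 * Real.cos (2 * θ))) : ℝ) : ℂ) ^ 2 = ((2 * Real.cos (2 * θ) : ℝ) : ℂ) := by
    rw [← Complex.ofReal_pow, Real.sq_sqrt hr0]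
  have hv : e * c = ((Real.sqrt (2 * Real.cos (2 * θ)) : ℝ) : ℂ) := by
    rcases sq_eq_sq_iff_eq_or_eq_neg.1 (hv2.trans hsq.symm) with h1 | h1
    · exact h1
    · rw [h1, Complex.neg_re, Complex.ofReal_re] at hvre
      have h2 := Real.sqrt_nonneg (2 * Real.cos (2 * θ))
      have h3 : Real.sqrt (2 * Real.cos (2 * θ)) = 0 := by linarith
      rw [h1, h3]
      simp
  have hd : e * dpsi e = (cA : ℂ) * (e * c) := by
    unfold dpsi
    rw [← hc]
    ring
  rw [hd, hv]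
  push_cast
  ring

end Pool.Agent.Helper606.Fek
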