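import Pool.Agent.Helper606.Fek.Defs
import Pool.Agent.Helper606.Fek.P_csq_basic
import Pool.Agent.Helper606.Fek.P_csq_cont
import Pool.Agent.Helper606.Fek.P_P_cont

set_option autoImplicit false

namespace Pool.Agent.Helper606.Fek
open Complex Set Filter Topology


theorem PC_inv_cont : ContinuousOn (fun w : ℂ => w⁻¹) {w : ℂ | 1 ≤ ‖w‖} := by
  apply continuousOn_inv₀.mono
  intro w hw h
  have hw' : 1 ≤ ‖w‖ := hw
  rw [Set.mem_singleton_iff.1 h, norm_zero] at hw'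
  linarith

theorem PC_inv_norm (w : ℂ) (hw : 1 ≤ ‖w‖) : ‖w⁻¹‖ ≤ 1 := by
  rw [norm_inv]
  exact inv_le_one_of_one_le₀ hw

theorem psi_cont : ContinuousOn psi {w : ℂ | 1 ≤ ‖w‖} := by
  unfold psi
  refine continuousOn_const.mul (continuousOn_id.sub ?_)
  refine P_cont.comp PC_inv_cont ?_
  intro w hw
  rw [mem_closedBall_zero_iff]
  exact PC_inv_norm w hw

theorem dpsi_cont : ContinuousOn dpsi {w : ℂ | 1 ≤ ‖w‖} := by
  unfold dpsi
  refine continuousOn_const.mul ?_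
  have h1 : ContinuousOn (fun w : ℂ => 1 + (w⁻¹) ^ 4) {w : ℂ | 1 ≤ ‖w‖} :=
    continuousOn_const.add (PC_inv_cont.pow 4)
  refine csq_contOn.comp h1 ?_
  intro w hw
  have h2 := PC_inv_norm w hw
  have h3 : ‖(w⁻¹) ^ 4‖ ≤ 1 := by
    rw [norm_pow]
    exact pow_le_one₀ (norm_nonneg _) h2
  have h4 := Complex.abs_re_le_norm ((w⁻¹) ^ 4)
  have h5 := neg_abs_le ((w⁻¹) ^ 4).re
  change 0 ≤ (1 + (w⁻¹) ^ 4).re
  rw [Complex.add_re, Complex.one_re]
  linarith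

end Pool.Agent.Helper606.Fek
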