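import Pool.Agent.Helper606.Fek.Defs
import Pool.Agent.Helper606.Fek.P_csq_basic
import Pool.Agent.Helper606.Fek.P_P_deriv

set_option autoImplicit false

namespace Pool.Agent.Helper606.Fek
open Complex Set Filter Topology


theorem psi_deriv (w : ℂ) (hw : 1 < ‖w‖) : HasDerivAt psi (dpsi w) w := by
  have hw0 : w ≠ 0 := by
    rintro rfl
    simp at hw
    linarith
  have hx : ‖w⁻¹‖ < 1 := by
    rw [norm_inv]
    exact inv_lt_one_of_one_lt₀ hw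
  have h1 := P_deriv w⁻¹ hx
  have h2 : HasDerivAt (fun z : ℂ => z⁻¹) (-(w ^ 2)⁻¹) w := hasDerivAt_inv hw0
  have h3 : HasDerivAt (fun z : ℂ => P z⁻¹)
      ((w⁻¹) ^ 2 / (1 + csq (1 + (w⁻¹) ^ 4)) * (-(w ^ 2)⁻¹)) w :=
    HasDerivAt.comp w h1 h2
  have h4 := ((hasDerivAt_id w).sub h3).const_mul (cA : ℂ)
  have h5 : dpsi w = (cA : ℂ) * (1 - (w⁻¹) ^ 2 / (1 + csq (1 + (w⁻¹) ^ 4)) * (-(w ^ 2)⁻¹)) := by
    unfold dpsi
    congr 1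
    have h6 := csq_sq (1 + (w⁻¹) ^ 4)
    have h7 := csq_ne (1 + (w⁻¹) ^ 4)
    obtain ⟨c, hc⟩ : ∃ c, c = csq (1 + (w⁻¹) ^ 4) := ⟨_, rfl⟩
    rw [← hc] at h6 h7 ⊢
    obtain ⟨x, hxx⟩ : ∃ x, x = w⁻¹ := ⟨_, rfl⟩
    have h8 : (w ^ 2)⁻¹ = x ^ 2 := by rw [hxx, inv_pow]
    rw [h8, ← hxx]
    rw [← hxx] at h6
    field_simp
    linear_combination h6
  rw [h5]
  exact h4

end Pool.Agent.Helper606.Fek
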