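import Pool.Agent.Helper606.Fek.Defs
import Pool.Agent.Helper606.Fek.P_csq_basic
import Pool.Agent.Helper606.Fek.P_psi_deriv
import Pool.Agent.Helper606.Fek.P_psi_cont
import Pool.Agent.Helper606.Fek.P_arc_dpsi

set_option autoImplicit false

namespace Pool.Agent.Helper606.Fek
open Complex Set Filter Topology


theorem psi_arc (a b : ℝ) (ha : |a| ≤ Real.pi / 4) (hb : |b| ≤ Real.pi / 4) :
    psi (exp (b * I)) - psi (exp (a * I)) = I * ((yy b - yy a : ℝ) : ℂ) := by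
  have hq : Continuous (fun p : ℝ × ℝ => ((max p.1 1 : ℝ) : ℂ) * exp ((p.2 : ℂ) * I)) := by
    fun_prop
  have hqm : ∀ p : ℝ × ℝ, ((max p.1 1 : ℝ) : ℂ) * exp ((p.2 : ℂ) * I) ∈ {w : ℂ | 1 ≤ ‖w‖} := by
    intro p
    simp only [mem_setOf_eq, norm_mul, Complex.norm_exp_ofReal_mul_I, mul_one, Complex.norm_real,
      Real.norm_eq_abs]
    exact le_trans (le_max_right p.1 1) (le_abs_self _)
  have hd : Continuous (fun p : ℝ × ℝ => dpsi (((max p.1 1 : ℝ) : ℂ) * exp ((p.2 : ℂ) * I))) :=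
    dpsi_cont.comp_continuous hq hqm
  have hp : Continuous (fun p : ℝ × ℝ => psi (((max p.1 1 : ℝ) : ℂ) * exp ((p.2 : ℂ) * I))) :=
    psi_cont.comp_continuous hq hqm
  have hG : Continuous (Function.uncurry (fun r θ : ℝ =>
      dpsi (((max r 1 : ℝ) : ℂ) * exp ((θ : ℂ) * I)) *
        (((max r 1 : ℝ) : ℂ) * (exp ((θ : ℂ) * I) * I)))) := by
    have h2 : Continuous (fun p : ℝ × ℝ => ((max p.1 1 : ℝ) : ℂ) * (exp ((p.2 : ℂ) * I) * I)) := by
      fun_prop
    exact hd.mul h2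
  have hI : Continuous (fun r : ℝ => ∫ θ in a..b, dpsi (((max r 1 : ℝ) : ℂ) * exp ((θ : ℂ) * I)) *
        (((max r 1 : ℝ) : ℂ) * (exp ((θ : ℂ) * I) * I))) :=
    intervalIntegral.continuous_parametric_intervalIntegral_of_continuous' hG a b
  have hL : Continuous (fun r : ℝ => psi (((max r 1 : ℝ) : ℂ) * exp ((b : ℂ) * I)) -
      psi (((max r 1 : ℝ) : ℂ) * exp ((a : ℂ) * I))) :=
    (hp.comp (Continuous.prodMk_left b)).sub (hp.comp (Continuous.prodMk_left a))
  have heq : ∀ r : ℝ, 1 < r → psi (((max r 1 : ℝ) : ℂ) * exp ((b : ℂ) * I)) -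
      psi (((max r 1 : ℝ) : ℂ) * exp ((a : ℂ) * I)) =
      ∫ θ in a..b, dpsi (((max r 1 : ℝ) : ℂ) * exp ((θ : ℂ) * I)) *
        (((max r 1 : ℝ) : ℂ) * (exp ((θ : ℂ) * I) * I)) := by
    intro r hr
    symm
    refine intervalIntegral.integral_eq_sub_of_hasDerivAt
      (f := fun θ : ℝ => psi (((max r 1 : ℝ) : ℂ) * exp ((θ : ℂ) * I))) ?_ ?_
    · intro θ _
      have h1 : HasDerivAt (fun z : ℂ => ((max r 1 : ℝ) : ℂ) * exp (z * I))
          (((max r 1 : ℝ) : ℂ) * (exp ((θ : ℂ) * I) * I)) (θ : ℂ) := by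
        have h0 : HasDerivAt (fun z : ℂ => z * I) I (θ : ℂ) := by
          simpa using (hasDerivAt_id (θ : ℂ)).mul_const I
        exact (h0.cexp).const_mul _
      have hn : 1 < ‖((max r 1 : ℝ) : ℂ) * exp ((θ : ℂ) * I)‖ := by
        rw [norm_mul, Complex.norm_exp_ofReal_mul_I, mul_one, Complex.norm_real, Real.norm_eq_abs,
          max_eq_left hr.le]
        exact lt_of_lt_of_le hr (le_abs_self _)
      have h2 := (psi_deriv _ hn).comp (θ : ℂ) h1
      exact h2.comp_ofReal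
    · exact (hG.comp (Continuous.prodMk_right r)).intervalIntegrable a b
  have h1 : psi (((max (1:ℝ) 1 : ℝ) : ℂ) * exp ((b : ℂ) * I)) -
      psi (((max (1:ℝ) 1 : ℝ) : ℂ) * exp ((a : ℂ) * I)) =
      ∫ θ in a..b, dpsi (((max (1:ℝ) 1 : ℝ) : ℂ) * exp ((θ : ℂ) * I)) *
        (((max (1:ℝ) 1 : ℝ) : ℂ) * (exp ((θ : ℂ) * I) * I)) := by
    have t1 := (hL.tendsto 1).mono_left (nhdsWithin_le_nhds (s := Ioi (1:ℝ)))
    have t2 := (hI.tendsto 1).mono_left (nhdsWithin_le_nhds (s := Ioi (1:ℝ)))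
    refine tendsto_nhds_unique t1 (t2.congr' ?_)
    filter_upwards [self_mem_nhdsWithin] with r hr
    exact (heq r hr).symm
  simp only [max_self, ofReal_one, one_mul] at h1
  rw [h1]
  have hθ : ∀ θ ∈ uIcc a b, |θ| ≤ Real.pi / 4 := by
    intro θ hθ
    rw [abs_le] at ha hb ⊢
    rcases le_total a b with hab | hab
    · rw [uIcc_of_le hab] at hθ
      exact ⟨by linarith [hθ.1, ha.1], by linarith [hθ.2, hb.2]⟩
    · rw [uIcc_of_ge hab] at hθ
      exact ⟨by linarith [hθ.1, hb.1], by linarith [hθ.2, ha.2]⟩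
  have h2 : ∫ θ in a..b, dpsi (exp ((θ : ℂ) * I)) * (exp ((θ : ℂ) * I) * I) =
      ∫ θ in a..b, I * ((cA * Real.sqrt (2 * Real.cos (2 * θ)) : ℝ) : ℂ) := by
    refine intervalIntegral.integral_congr fun θ hh => ?_
    have := arc_dpsi θ (hθ θ hh)
    show dpsi (exp ((θ : ℂ) * I)) * (exp ((θ : ℂ) * I) * I) = _
    rw [← this]
    ring
  rw [h2, intervalIntegral.integral_const_mul, intervalIntegral.integral_ofReal,
    intervalIntegral.integral_const_mul]
  congr 2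
  have hcont : Continuous (fun θ : ℝ => Real.sqrt (2 * Real.cos (2 * θ))) := by fun_prop
  unfold yy
  rw [← mul_sub, intervalIntegral.integral_interval_sub_left
    (hcont.intervalIntegrable 0 b) (hcont.intervalIntegrable 0 a)]

end Pool.Agent.Helper606.Fek
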