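import Pool.Agent.Helper606.Fek.Defs
import Pool.Agent.Helper606.Fek.P_csq_basic
import Pool.Agent.Helper606.Fek.P_P_sym

set_option autoImplicit false

namespace Pool.Agent.Helper606.Fek
open Complex Set Filter Topology


theorem psi_rot (w : ℂ) : psi (I * w) = I * psi w := by
  have h : (I * w)⁻¹ = -I * w⁻¹ := by
    rw [mul_inv, Complex.inv_I]
  unfold psi
  rw [h, P_rot]
  ring

theorem psi_conj (w : ℂ) (hw : 1 ≤ ‖w‖) : psi (starRingEnd ℂ w) = starRingEnd ℂ (psi w) := by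
  have h : (starRingEnd ℂ w)⁻¹ = starRingEnd ℂ (w⁻¹) := by
    rw [map_inv₀]
  have hn : ‖w⁻¹‖ ≤ 1 := by
    rw [norm_inv]
    exact inv_le_one_of_one_le₀ hw
  unfold psi
  rw [h, P_conj _ hn, map_mul, map_sub, Complex.conj_ofReal]

theorem dpsi_rot (w : ℂ) : dpsi (I * w) = dpsi w := by
  have h : ((I * w)⁻¹) ^ 4 = (w⁻¹) ^ 4 := by
    rw [mul_inv, mul_pow, Complex.inv_I, neg_pow, Complex.I_pow_four]
    norm_num
  unfold dpsi
  rw [h]

end Pool.Agent.Helper606.Fek
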