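import Pool.Agent.Helper606.Fek.Defs
import Pool.Agent.Helper606.Fek.P_cA_pos

set_option autoImplicit false

namespace Pool.Agent.Helper606.Fek
open Complex Set Filter Topology


theorem yy_integrand_cont : Continuous (fun t : ℝ => Real.sqrt (2 * Real.cos (2 * t))) := by
  fun_prop

theorem yy_zero : yy 0 = 0 := by
  simp [yy]

theorem yy_quarter : yy (Real.pi / 4) = 1 := by
  have h := cA_pos
  unfold yy
  unfold cA at *
  have h2 : (∫ t in (0:ℝ)..(Real.pi / 4), Real.sqrt (2 * Real.cos (2 * t))) ≠ 0 := by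
    intro h0
    rw [h0] at h
    simp at h
  exact one_div_mul_cancel h2

theorem yy_neg (θ : ℝ) : yy (-θ) = - yy θ := by
  unfold yy
  have h := intervalIntegral.integral_comp_neg (a := 0) (b := θ)
    (fun t : ℝ => Real.sqrt (2 * Real.cos (2 * t)))
  have h2 : (∫ x in (0:ℝ)..θ, (fun t : ℝ => Real.sqrt (2 * Real.cos (2 * t))) (-x)) =
      ∫ x in (0:ℝ)..θ, Real.sqrt (2 * Real.cos (2 * x)) := by
    refine intervalIntegral.integral_congr fun x _ => ?_
    simp only [mul_neg, Real.cos_neg]
  rw [h2, neg_zero] at h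
  rw [h, intervalIntegral.integral_symm 0 (-θ)]
  ring

theorem yy_hasDeriv (θ : ℝ) : HasDerivAt yy (cA * Real.sqrt (2 * Real.cos (2 * θ))) θ := by
  unfold yy
  exact (intervalIntegral.integral_hasDerivAt_right
    (yy_integrand_cont.intervalIntegrable _ _)
    (yy_integrand_cont.stronglyMeasurableAtFilter _ _)
    yy_integrand_cont.continuousAt).const_mul cA

theorem yy_cont : Continuous yy :=
  continuous_iff_continuousAt.mpr fun θ => (yy_hasDeriv θ).continuousAt

theorem yy_strictMono : StrictMonoOn yy (Icc (-(Real.pi / 4)) (Real.pi / 4)) := by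
  refine strictMonoOn_of_deriv_pos (convex_Icc _ _) yy_cont.continuousOn fun θ hθ => ?_
  rw [interior_Icc] at hθ
  rw [(yy_hasDeriv θ).deriv]
  refine mul_pos cA_pos (Real.sqrt_pos.mpr ?_)
  have : 0 < Real.cos (2 * θ) := by
    apply Real.cos_pos_of_mem_Ioo
    constructor <;> linarith [hθ.1, hθ.2]
  linarith

end Pool.Agent.Helper606.Fek
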