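import Pool.Agent.Helper606.Fek.Defs
import Pool.Agent.Helper606.Fek.P_psi_sym
import Pool.Agent.Helper606.Fek.P_psi_arc
import Pool.Agent.Helper606.Fek.P_yy_basic

set_option autoImplicit false

namespace Pool.Agent.Helper606.Fek
open Complex Set Filter Topology


theorem psi_one : psi 1 = 1 := by
  have hpi := Real.pi_pos
  have h1 : starRingEnd ℂ (psi 1) = psi 1 := by
    have h := psi_conj 1 (by simp)
    rw [map_one] at h
    exact h.symm
  have h2 := psi_arc 0 (Real.pi / 4) (by simp; positivity) (by rw [abs_of_pos (by positivity)])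
  rw [yy_quarter, yy_zero] at h2
  simp only [Complex.ofReal_zero, zero_mul, Complex.exp_zero, sub_zero, Complex.ofReal_one,
    mul_one] at h2
  set e : ℂ := Complex.exp (((Real.pi / 4 : ℝ) : ℂ) * Complex.I) with he
  have hn : ‖e‖ = 1 := Complex.norm_exp_ofReal_mul_I _
  have h3 : Complex.I * starRingEnd ℂ e = e := by
    rw [he, ← Complex.exp_conj, map_mul, Complex.conj_I, Complex.conj_ofReal]
    have hI : Complex.I = Complex.exp (((Real.pi / 2 : ℝ) : ℂ) * Complex.I) := by
      push_cast
      exact Complex.exp_pi_div_two_mul_I.symm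
    have h9 : Complex.I * Complex.exp (((Real.pi / 4 : ℝ) : ℂ) * -Complex.I) =
        Complex.exp (((Real.pi / 2 : ℝ) : ℂ) * Complex.I) *
          Complex.exp (((Real.pi / 4 : ℝ) : ℂ) * -Complex.I) := by rw [← hI]
    rw [h9, ← Complex.exp_add]
    congr 1
    push_cast
    ring
  have h4 : psi e = Complex.I * starRingEnd ℂ (psi e) := by
    conv_lhs => rw [← h3]
    rw [psi_rot, psi_conj e hn.ge]
  have h5 : psi e = psi 1 + Complex.I := by linear_combination h2
  rw [h5, map_add, h1, Complex.conj_I] at h4
  have hI2 : Complex.I * Complex.I = -1 := Complex.I_mul_I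
  have h6 : (psi 1 - 1) * (1 - Complex.I) = 0 := by linear_combination h4 - hI2
  have h7 : (1 - Complex.I : ℂ) ≠ 0 := by
    intro h
    have := congrArg Complex.re h
    simp at this
  have h8 := (mul_eq_zero.1 h6).resolve_right h7
  linear_combination h8

end Pool.Agent.Helper606.Fek
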