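import Pool.Agent.Helper606.Fek.Defs
import Pool.Agent.Helper606.Fek.P_psi_arc
import Pool.Agent.Helper606.Fek.P_yy_basic
import Pool.Agent.Helper606.Fek.P_psi_one

set_option autoImplicit false

namespace Pool.Agent.Helper606.Fek
open Complex Set Filter Topology


theorem psi_arc_val (θ : ℝ) (h : |θ| ≤ Real.pi / 4) : psi (exp (θ * I)) = 1 + I * (yy θ : ℂ) := by
  have h1 := psi_arc 0 θ (by rw [abs_zero]; positivity) h
  rw [yy_zero, sub_zero, Complex.ofReal_zero, zero_mul, Complex.exp_zero, psi_one] at h1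
  rw [← h1]
  ring

end Pool.Agent.Helper606.Fek
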