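import Pool.Agent.Helper606.Fek.Defs

set_option autoImplicit false

namespace Pool.Agent.Helper606.Fek
open Complex Set Filter Topology


/-- every nonzero `w` is, after multiplication by a power of `I`, in the sector `|arg| ≤ π/4` -/
theorem sector_decomp (w : ℂ) (hw : w ≠ 0) :
    ∃ m : ℕ, ∃ θ : ℝ, |θ| ≤ Real.pi / 4 ∧ I ^ m * w = ‖w‖ * exp (θ * I) := by
  have h1 : (‖w‖ : ℂ) * Complex.exp (Complex.arg w * Complex.I) = w :=
    Complex.norm_mul_exp_arg_mul_I w
  have hlo := Complex.neg_pi_lt_arg w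
  have hhi := Complex.arg_le_pi w
  have hpi := Real.pi_pos
  generalize Complex.arg w = φ at h1 hlo hhi
  have key : ∀ (m : ℕ) (δ : ℝ), Complex.exp (δ * Complex.I) = Complex.I ^ m →
      |φ + δ| ≤ Real.pi / 4 →
      ∃ m : ℕ, ∃ θ : ℝ, |θ| ≤ Real.pi / 4 ∧
        Complex.I ^ m * w = ‖w‖ * Complex.exp (θ * Complex.I) := by
    intro m δ h2 h3
    refine ⟨m, φ + δ, h3, ?_⟩
    rw [← h2]
    push_cast
    rw [add_mul, Complex.exp_add, ← mul_assoc, h1]
    ring
  by_cases c1 : φ < -(3 * Real.pi / 4)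
  · refine key 2 Real.pi ?_ ?_
    · rw [Complex.exp_pi_mul_I]; simp
    · rw [abs_le]; constructor <;> linarith
  by_cases c2 : φ < -(Real.pi / 4)
  · refine key 1 (Real.pi / 2) ?_ ?_
    · push_cast
      rw [Complex.exp_pi_div_two_mul_I]; simp
    · push Not at c1
      rw [abs_le]; constructor <;> linarith
  by_cases c3 : φ ≤ Real.pi / 4
  · refine key 0 0 ?_ ?_
    · simp
    · push Not at c2
      rw [abs_le]; constructor <;> linarith
  by_cases c4 : φ ≤ 3 * Real.pi / 4
  · refine key 3 (-(Real.pi / 2)) ?_ ?_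
    · push_cast
      rw [neg_mul, Complex.exp_neg, Complex.exp_pi_div_two_mul_I, Complex.inv_I, Complex.I_pow_three]
    · push Not at c3
      rw [abs_le]; constructor <;> linarith
  · refine key 2 (-Real.pi) ?_ ?_
    · push_cast
      rw [neg_mul, Complex.exp_neg, Complex.exp_pi_mul_I]; simp
    · push Not at c4
      rw [abs_le]; constructor <;> linarith

end Pool.Agent.Helper606.Fek
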