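import Pool.Agent.Helper606.Fek.Defs

set_option autoImplicit false

namespace Pool.Agent.Helper606.Fek
open Complex Set Filter Topology


theorem sq_rot (z : ℂ) (m : ℕ) : max |(I ^ m * z).re| |(I ^ m * z).im| = max |z.re| |z.im| := by
  induction m with
  | zero => simp
  | succ m ih =>
    have h : I ^ (m + 1) * z = I * (I ^ m * z) := by ring
    rw [h]
    have h1 : (I * (I ^ m * z)).re = -(I ^ m * z).im := by
      simp [Complex.mul_re]
    have h2 : (I * (I ^ m * z)).im = (I ^ m * z).re := by
      simp [Complex.mul_im]
    rw [h1, h2, abs_neg, max_comm]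
    exact ih

end Pool.Agent.Helper606.Fek
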