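import Pool.Agent.Helper606.Fek.Defs
import Pool.Agent.Helper606.Fek.P_psi_sym
import Pool.Agent.Helper606.Fek.P_yy_basic
import Pool.Agent.Helper606.Fek.P_psi_arc_val
import Pool.Agent.Helper606.Fek.P_sector_decomp
import Pool.Agent.Helper606.Fek.P_sq_rot

set_option autoImplicit false

namespace Pool.Agent.Helper606.Fek
open Complex Set Filter Topology


theorem pb_rot (m : ℕ) (w : ℂ) : psi (I ^ m * w) = I ^ m * psi w := by
  induction m with
  | zero => simp
  | succ m ih => rw [pow_succ', mul_assoc, psi_rot, ih, mul_assoc]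

theorem pb_yy (θ : ℝ) (h : |θ| ≤ Real.pi / 4) : |yy θ| ≤ 1 := by
  have hpi := Real.pi_pos
  obtain ⟨h1, h2⟩ := abs_le.1 h
  rw [abs_le]
  constructor
  · have := yy_strictMono.monotoneOn (a := -(Real.pi / 4)) ⟨le_rfl, by linarith⟩ ⟨h1, h2⟩ h1
    rwa [yy_neg, yy_quarter] at this
  · have := yy_strictMono.monotoneOn (b := Real.pi / 4) ⟨h1, h2⟩ ⟨by linarith, le_rfl⟩ h2
    rwa [yy_quarter] at this

theorem psi_bdry (u : ℂ) (hu : ‖u‖ = 1) : psi u ∈ sq := by
  have hu0 : u ≠ 0 := by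
    rintro rfl
    rw [norm_zero] at hu
    exact zero_ne_one hu
  obtain ⟨m, θ, hθ, e⟩ := sector_decomp u hu0
  rw [hu, ofReal_one, one_mul] at e
  have h1 := pb_rot m u
  rw [e, psi_arc_val θ hθ] at h1
  show max |(psi u).re| |(psi u).im| = 1
  rw [← sq_rot (psi u) m, ← h1]
  have h2 := pb_yy θ hθ
  have e1 : (1 + I * (yy θ : ℂ)).re = 1 := by simp
  have e2 : (1 + I * (yy θ : ℂ)).im = yy θ := by simp
  rw [e1, e2, abs_one]
  exact max_eq_left h2

theorem psi_surj (z : ℂ) (hz : z ∈ sq) : ∃ u : ℂ, ‖u‖ = 1 ∧ psi u = z := by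
  have hz' : max |z.re| |z.im| = 1 := hz
  have hr : |z.re| ≤ 1 := by rw [← hz']; exact le_max_left _ _
  have hi : |z.im| ≤ 1 := by rw [← hz']; exact le_max_right _ _
  have hpi := Real.pi_pos
  have hm : ∃ m : ℕ, (I ^ m * z).re = 1 ∧ |(I ^ m * z).im| ≤ 1 := by
    rcases max_choice |z.re| |z.im| with h | h
    · rw [hz'] at h
      rcases (abs_eq (zero_le_one)).1 h.symm with h' | h'
      · exact ⟨0, by simpa using h', by simpa using hi⟩
      · refine ⟨2, ?_, ?_⟩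
        · rw [I_sq]; simp [h']
        · rw [I_sq]; simpa using hi
    · rw [hz'] at h
      rcases (abs_eq (zero_le_one)).1 h.symm with h' | h'
      · refine ⟨3, ?_, ?_⟩
        · rw [I_pow_three]; simp [h']
        · rw [I_pow_three]; simpa using hr
      · refine ⟨1, ?_, ?_⟩
        · rw [pow_one]; simp [h']
        · rw [pow_one]; simpa using hr
  obtain ⟨m, h1, h2⟩ := hm
  obtain ⟨h3, h4⟩ := abs_le.1 h2
  have hivt := intermediate_value_Icc (a := -(Real.pi / 4)) (b := Real.pi / 4) (by linarith)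
    yy_cont.continuousOn
  rw [yy_neg, yy_quarter] at hivt
  obtain ⟨θ, hθ, hy⟩ := hivt ⟨h3, h4⟩
  have hθ' : |θ| ≤ Real.pi / 4 := abs_le.2 hθ
  have hIm : (I ^ m : ℂ) ≠ 0 := pow_ne_zero _ I_ne_zero
  refine ⟨(I ^ m)⁻¹ * exp (θ * I), ?_, ?_⟩
  · rw [norm_mul, norm_inv, norm_pow, norm_I, one_pow, inv_one, one_mul, norm_exp_ofReal_mul_I]
  · apply mul_left_cancel₀ hIm
    rw [← pb_rot, ← mul_assoc, mul_inv_cancel₀ hIm, one_mul, psi_arc_val θ hθ']
    apply Complex.ext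
    · rw [h1]; simp
    · rw [← hy]; simp

end Pool.Agent.Helper606.Fek
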