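import Pool.Agent.Helper606.Fek.Defs
import Pool.Agent.Helper606.Fek.P_csq_basic
import Pool.Agent.Helper606.Fek.P_csq_cont
import Pool.Agent.Helper606.Fek.P_cA_pos
import Pool.Agent.Helper606.Fek.P_P_bound

set_option autoImplicit false

namespace Pool.Agent.Helper606.Fek
open Complex Set Filter Topology


theorem psi_near (w : ℂ) (hw : 1 ≤ ‖w‖) : ‖psi w - cA * w‖ ≤ cA / 3 := by
  have h1 : psi w - cA * w = -((cA : ℂ) * P w⁻¹) := by
    unfold psi
    ring
  have hinv : ‖w⁻¹‖ ≤ 1 := by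
    rw [norm_inv]
    exact inv_le_one_of_one_le₀ hw
  have h2 := P_bound w⁻¹ hinv
  have h3 : ‖w⁻¹‖ ^ 3 ≤ 1 := pow_le_one₀ (norm_nonneg _) hinv
  have h4 : ‖P w⁻¹‖ ≤ 1 / 3 := by linarith
  rw [h1, norm_neg, norm_mul, Complex.norm_real, Real.norm_eq_abs, abs_of_pos cA_pos]
  have h5 := mul_le_mul_of_nonneg_left h4 cA_pos.le
  linarith

theorem ev_20285 : ∀ᶠ w : ℂ in cocompact ℂ, 1 ≤ ‖w‖ :=
  tendsto_norm_cocompact_atTop.eventually (eventually_ge_atTop 1)

theorem psi_div_tendsto : Tendsto (fun w : ℂ => psi w / w) (cocompact ℂ) (𝓝 (cA : ℂ)) := by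
  rw [tendsto_iff_norm_sub_tendsto_zero]
  have h0 : Tendsto (fun w : ℂ => (cA / 3) / ‖w‖) (cocompact ℂ) (𝓝 0) :=
    tendsto_const_nhds.div_atTop tendsto_norm_cocompact_atTop
  refine squeeze_zero' (Eventually.of_forall fun w => norm_nonneg _) ?_ h0
  filter_upwards [ev_20285] with w hw
  have hw0 : w ≠ 0 := by
    intro h
    rw [h, norm_zero] at hw
    linarith
  have h1 : psi w / w - cA = (psi w - cA * w) / w := by
    field_simp
  rw [h1, norm_div]
  exact div_le_div_of_nonneg_right (psi_near w hw) (norm_nonneg _)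

theorem dpsi_tendsto : Tendsto dpsi (cocompact ℂ) (𝓝 (cA : ℂ)) := by
  have h1 : Tendsto (fun w : ℂ => w⁻¹) (cocompact ℂ) (𝓝 0) := by
    rw [← Metric.cobounded_eq_cocompact]
    exact tendsto_inv₀_cobounded
  have h2 : Tendsto (fun w : ℂ => 1 + (w⁻¹) ^ 4) (cocompact ℂ) (𝓝 1) := by
    have := (h1.pow 4).const_add 1
    simpa using this
  have h3 : ContinuousAt csq 1 := by
    apply csq_contOn.continuousAt
    have : {z : ℂ | 0 < z.re} ∈ 𝓝 (1 : ℂ) :=
      (isOpen_lt continuous_const Complex.continuous_re).mem_nhds (by simp)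
    filter_upwards [this] with z hz
    exact le_of_lt hz
  have h4 : csq 1 = 1 := by
    unfold csq
    exact Complex.one_cpow _
  have h5 : Tendsto (fun w : ℂ => csq (1 + (w⁻¹) ^ 4)) (cocompact ℂ) (𝓝 (csq 1)) :=
    h3.tendsto.comp h2
  rw [h4] at h5
  have h6 := h5.const_mul (cA : ℂ)
  rw [mul_one] at h6
  exact h6

theorem psi_tendsto_cocompact : Tendsto psi (cocompact ℂ) (cocompact ℂ) := by
  have h1 : Tendsto (fun w : ℂ => cA * ‖w‖ - cA / 3) (cocompact ℂ) atTop := by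
    have := (tendsto_norm_cocompact_atTop (E := ℂ)).const_mul_atTop cA_pos
    exact tendsto_atTop_add_const_right _ (-(cA / 3)) this
  have h2 : Tendsto (fun w : ℂ => ‖psi w‖) (cocompact ℂ) atTop := by
    apply tendsto_atTop_mono' _ _ h1
    filter_upwards [ev_20285] with w hw
    have h3 := psi_near w hw
    have h4 : ‖(cA : ℂ) * w‖ = cA * ‖w‖ := by
      rw [norm_mul, Complex.norm_real, Real.norm_eq_abs, abs_of_pos cA_pos]
    have h5 : ‖(cA : ℂ) * w‖ ≤ ‖psi w‖ + ‖psi w - cA * w‖ := by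
      have : (cA : ℂ) * w = psi w - (psi w - cA * w) := by ring
      calc ‖(cA : ℂ) * w‖ = ‖psi w - (psi w - cA * w)‖ := by rw [← this]
        _ ≤ _ := norm_sub_le _ _
    rw [h4] at h5
    show cA * ‖w‖ - cA / 3 ≤ ‖psi w‖
    linarith
  have h6 := tendsto_norm_atTop_iff_cobounded.1 h2
  rw [Metric.cobounded_eq_cocompact] at h6
  exact h6

end Pool.Agent.Helper606.Fek
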