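import Pool.Agent.Helper606.Fek.Defs
import Pool.Agent.Helper606.Fek.P_cA_pos
import Pool.Agent.Helper606.Fek.P_psi_deriv
import Pool.Agent.Helper606.Fek.P_psi_cont
import Pool.Agent.Helper606.Fek.P_psi_near
import Pool.Agent.Helper606.Fek.P_psi_bdry
import Pool.Agent.Helper606.Fek.P_ext_max

set_option autoImplicit false

namespace Pool.Agent.Helper606.Fek
open Complex Set Filter Topology


theorem bern_walsh (p : Polynomial ℂ) (m : ℕ) (B : ℝ) (hp : p.natDegree ≤ m)
    (hB : ∀ z ∈ sq, ‖p.eval z‖ ≤ B) (w : ℂ) (hw : 1 ≤ ‖w‖) : ‖p.eval (psi w)‖ ≤ B * ‖w‖ ^ m := by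
  have hne : ∀ w : ℂ, 1 ≤ ‖w‖ → w ≠ 0 := by
    intro w hw h0
    rw [h0, norm_zero] at hw
    linarith
  have hinv : Tendsto (fun w : ℂ => w⁻¹) (cocompact ℂ) (𝓝 0) := by
    rw [← Metric.cobounded_eq_cocompact]
    exact tendsto_inv₀_cobounded
  have hl : Tendsto (fun w : ℂ => p.eval (psi w) / w ^ m) (cocompact ℂ)
      (𝓝 (∑ k ∈ Finset.range (m + 1), p.coeff k * ((cA : ℂ) ^ k * 0 ^ (m - k)))) := by
    have h1 : Tendsto (fun w : ℂ => ∑ k ∈ Finset.range (m + 1),
        p.coeff k * ((psi w / w) ^ k * (w⁻¹) ^ (m - k))) (cocompact ℂ)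
        (𝓝 (∑ k ∈ Finset.range (m + 1), p.coeff k * ((cA : ℂ) ^ k * 0 ^ (m - k)))) := by
      refine tendsto_finsetSum _ fun k _ => ?_
      exact ((psi_div_tendsto.pow k).mul (hinv.pow (m - k))).const_mul (p.coeff k)
    refine h1.congr' ?_
    have h2 : ∀ᶠ w : ℂ in cocompact ℂ, w ≠ 0 := by
      have h3 := (isCompact_singleton (x := (0 : ℂ))).compl_mem_cocompact
      filter_upwards [h3] with w hw
      exact hw
    filter_upwards [h2] with w hw
    rw [Polynomial.eval_eq_sum_range' (Nat.lt_succ_of_le hp) (psi w), Finset.sum_div]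
    refine Finset.sum_congr rfl fun k hk => ?_
    have hk' : k ≤ m := Nat.lt_succ_iff.1 (Finset.mem_range.1 hk)
    obtain ⟨j, rfl⟩ : ∃ j, m = k + j := ⟨m - k, by omega⟩
    rw [Nat.add_sub_cancel_left, div_pow, inv_pow, pow_add]
    field_simp
  have hdp : Differentiable ℂ (fun z : ℂ => p.eval z) := p.differentiable
  have hd : DifferentiableOn ℂ (fun w : ℂ => p.eval (psi w) / w ^ m) {w : ℂ | 1 < ‖w‖} := by
    intro w hw
    have hw' : 1 < ‖w‖ := hw
    have h1 : DifferentiableAt ℂ (fun w : ℂ => p.eval (psi w)) w :=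
      DifferentiableAt.comp w hdp.differentiableAt (psi_deriv w hw').differentiableAt
    exact (h1.div (differentiableAt_id.pow m) (pow_ne_zero m (hne w hw'.le))).differentiableWithinAt
  have hc : ContinuousOn (fun w : ℂ => p.eval (psi w) / w ^ m) {w : ℂ | 1 ≤ ‖w‖} := by
    refine ContinuousOn.div ?_ (continuousOn_id.pow m) (fun w hw => pow_ne_zero m (hne w hw))
    exact hdp.continuous.comp_continuousOn psi_cont
  have hB' : ∀ w : ℂ, ‖w‖ = 1 → ‖p.eval (psi w) / w ^ m‖ ≤ B := by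
    intro w hw
    rw [norm_div, norm_pow, hw, one_pow, div_one]
    exact hB _ (psi_bdry w hw)
  have h4 := (ext_max (fun w : ℂ => p.eval (psi w) / w ^ m) 1 B _ one_pos hd hc hl hB').1 w hw
  beta_reduce at h4
  rw [norm_div, norm_pow, div_le_iff₀ (by positivity)] at h4
  exact h4

end Pool.Agent.Helper606.Fek
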