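import Pool.Agent.Helper606.Fek.Defs

set_option autoImplicit false

namespace Pool.Agent.Helper606.Fek
open Complex Set Filter Topology


theorem max_square (p : Polynomial ℂ) (B : ℝ) (hB : ∀ z ∈ sq, ‖p.eval z‖ ≤ B)
    (z : ℂ) (hz : max |z.re| |z.im| ≤ 1) : ‖p.eval z‖ ≤ B := by
  rcases eq_or_lt_of_le hz with h | h
  · exact hB z h
  · have hcont : Continuous (fun z : ℂ => max |z.re| |z.im|) :=
      (Complex.continuous_re.abs).max (Complex.continuous_im.abs)
    have hbd : Bornology.IsBounded {z : ℂ | max |z.re| |z.im| < 1} := by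
      refine (Metric.isBounded_closedBall (x := (0:ℂ)) (r := 2)).subset ?_
      intro w hw
      have h1 : |w.re| < 1 := lt_of_le_of_lt (le_max_left _ _) hw
      have h2 : |w.im| < 1 := lt_of_le_of_lt (le_max_right _ _) hw
      rw [mem_closedBall_zero_iff]
      have := Complex.norm_le_abs_re_add_abs_im w
      linarith
    have hd : DiffContOnCl ℂ (fun w : ℂ => p.eval w) {z : ℂ | max |z.re| |z.im| < 1} :=
      (Polynomial.differentiable p).diffContOnCl
    refine Complex.norm_le_of_forall_mem_frontier_norm_le hbd hd ?_ (subset_closure h)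
    intro w hw
    have := frontier_lt_subset_eq hcont continuous_const hw
    exact hB w this

end Pool.Agent.Helper606.Fek
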