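import Pool.Agent.Helper606.Fek.Defs
import Pool.Agent.Helper606.Fek.P_csq_basic
import Pool.Agent.Helper606.Fek.P_cA_pos
import Pool.Agent.Helper606.Fek.P_psi_deriv
import Pool.Agent.Helper606.Fek.P_psi_cont
import Pool.Agent.Helper606.Fek.P_psi_sym
import Pool.Agent.Helper606.Fek.P_psi_arc_val
import Pool.Agent.Helper606.Fek.P_sector_decomp
import Pool.Agent.Helper606.Fek.P_sq_rot

set_option autoImplicit false

namespace Pool.Agent.Helper606.Fek
open Complex Set Filter Topology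


theorem psi_rot_pow (m : ℕ) (w : ℂ) : psi (I ^ m * w) = I ^ m * psi w := by
  induction m with
  | zero => simp
  | succ m ih => rw [pow_succ', mul_assoc, psi_rot, ih, mul_assoc]

theorem j20523_re_v (t θ : ℝ) (ht : 1 < t) (hθ : |θ| ≤ Real.pi / 4) :
    0 ≤ (exp (θ * I) * csq (1 + ((t * exp (θ * I))⁻¹) ^ 4)).re ∧
      (1 - 1 / t) / 2 ≤ (exp (θ * I) * csq (1 + ((t * exp (θ * I))⁻¹) ^ 4)).re ^ 2 := by
  have hpi := Real.pi_pos
  obtain ⟨hθ1, hθ2⟩ := abs_le.1 hθ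
  have ht0 : 0 < t := by linarith
  -- trigonometric facts
  have hcos : 0 < Real.cos θ := Real.cos_pos_of_mem_Ioo ⟨by linarith, by linarith⟩
  have hcos2 : 0 ≤ Real.cos (2 * θ) := Real.cos_nonneg_of_mem_Icc ⟨by linarith, by linarith⟩
  have hsc : Real.sin θ ^ 2 ≤ Real.cos θ ^ 2 := by
    rw [Real.cos_two_mul] at hcos2
    nlinarith [Real.sin_sq_add_cos_sq θ]
  have hs : |Real.sin θ| ≤ Real.cos θ := by
    have := sq_le_sq.1 hsc
    rwa [abs_of_pos hcos] at this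
  set z : ℂ := 1 + ((t * exp (θ * I))⁻¹) ^ 4 with hz
  have hu : ((t * exp (θ * I))⁻¹) ^ 4 = ((t⁻¹ ^ 4 : ℝ) : ℂ) * exp (((-(4 * θ)) : ℝ) * I) := by
    rw [mul_inv, mul_pow, ← Complex.exp_neg, ← Complex.exp_nat_mul]
    push_cast
    congr 2
    ring
  have ht4 : 0 < t⁻¹ ^ 4 := by positivity
  have ht4' : t⁻¹ ^ 4 ≤ 1 / t := by
    have h1 : t⁻¹ ≤ 1 := inv_le_one_of_one_le₀ ht.le
    have h2 : 0 < t⁻¹ := by positivity
    calc t⁻¹ ^ 4 = t⁻¹ ^ 3 * t⁻¹ := by ring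
      _ ≤ 1 * t⁻¹ := mul_le_mul_of_nonneg_right (pow_le_one₀ h2.le h1) h2.le
      _ = 1 / t := by ring
  have ht1 : t⁻¹ ^ 4 ≤ 1 := by
    have : 1 / t ≤ 1 := by rw [div_le_one ht0]; exact ht.le
    linarith
  have hzre : 0 ≤ z.re := by
    rw [hz, hu, add_re, one_re, re_ofReal_mul, exp_ofReal_mul_I_re]
    nlinarith [Real.neg_one_le_cos (-(4 * θ))]
  have hznorm : 1 - 1 / t ≤ ‖z‖ := by
    have h1 : ‖((t⁻¹ ^ 4 : ℝ) : ℂ) * exp (((-(4 * θ)) : ℝ) * I)‖ = t⁻¹ ^ 4 := by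
      rw [norm_mul, Complex.norm_exp_ofReal_mul_I, mul_one, Complex.norm_real,
        Real.norm_of_nonneg ht4.le]
    have h2 : ‖(1:ℂ)‖ - ‖((t⁻¹ ^ 4 : ℝ) : ℂ) * exp (((-(4 * θ)) : ℝ) * I)‖ ≤ ‖z‖ := by
      have h3 := norm_sub_le_norm_add (1:ℂ) (((t⁻¹ ^ 4 : ℝ) : ℂ) * exp (((-(4 * θ)) : ℝ) * I))
      rw [hz, hu]
      exact h3
    rw [h1, norm_one] at h2
    linarith
  have hsec := csq_sector z hzre
  have hsq := csq_sq z
  have hnn := csq_norm z
  set s : ℂ := csq z with hs'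
  have hre : (exp (θ * I) * s).re = Real.cos θ * s.re - Real.sin θ * s.im := by
    rw [mul_re, exp_ofReal_mul_I_re, exp_ofReal_mul_I_im]
  have h0 : 0 ≤ (exp (θ * I) * s).re := by
    rw [hre]
    have h1 : Real.sin θ * s.im ≤ |Real.sin θ| * |s.im| := by
      rw [← abs_mul]; exact le_abs_self _
    have h2 : |Real.sin θ| * |s.im| ≤ Real.cos θ * s.re :=
      mul_le_mul hs hsec (abs_nonneg _) hcos.le
    linarith
  refine ⟨h0, ?_⟩
  -- the square
  have hv2 : (exp (θ * I) * s) ^ 2 = exp (((2 * θ : ℝ)) * I) +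
      ((t⁻¹ ^ 4 : ℝ) : ℂ) * exp (((-(2 * θ)) : ℝ) * I) := by
    have a1 : exp (θ * I) ^ 2 = exp (((2 * θ : ℝ)) * I) := by
      rw [← Complex.exp_nat_mul]
      congr 1
      push_cast
      ring
    have a2 : exp (((2 * θ : ℝ)) * I) * exp (((-(4 * θ)) : ℝ) * I) =
        exp (((-(2 * θ)) : ℝ) * I) := by
      rw [← Complex.exp_add]
      congr 1
      push_cast
      ring
    rw [mul_pow, hsq, hz, hu, a1, ← a2]
    ring
  have hv2re : 0 ≤ ((exp (θ * I) * s) ^ 2).re := by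
    rw [hv2, add_re, re_ofReal_mul, exp_ofReal_mul_I_re, exp_ofReal_mul_I_re, Real.cos_neg]
    nlinarith
  have hn2 : (exp (θ * I) * s).re ^ 2 + (exp (θ * I) * s).im ^ 2 = ‖z‖ := by
    have h1 : ‖exp (θ * I) * s‖ ^ 2 = ‖z‖ := by
      rw [norm_mul, Complex.norm_exp_ofReal_mul_I, one_mul, hnn, Real.sq_sqrt (norm_nonneg _)]
    rw [← h1, ← Complex.normSq_eq_norm_sq, Complex.normSq_apply]
    ring
  have hre2 : ((exp (θ * I) * s) ^ 2).re = (exp (θ * I) * s).re ^ 2 - (exp (θ * I) * s).im ^ 2 := by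
    rw [pow_two (exp (θ * I) * s), mul_re]
    ring
  rw [hre2] at hv2re
  linarith

theorem j20523_key (θ : ℝ) (hθ : |θ| ≤ Real.pi / 4) (r : ℝ) (hr : 1 ≤ r) :
    1 + cA / 4 * (min (r - 1) 1) ^ 2 ≤ (psi (r * exp (θ * I))).re := by
  have hcA := cA_pos
  set e : ℂ := exp (θ * I) with he
  have hen : ‖e‖ = 1 := Complex.norm_exp_ofReal_mul_I θ
  have hnorm : ∀ t : ℝ, 1 ≤ t → ‖(t : ℂ) * e‖ = t := by
    intro t ht
    rw [norm_mul, hen, mul_one, Complex.norm_real, Real.norm_of_nonneg (by linarith)]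
  have hd : ∀ t : ℝ, 1 < t → HasDerivAt (fun t : ℝ => (psi (t * e)).re)
      (cA * (e * csq (1 + ((t * e)⁻¹) ^ 4)).re) t := by
    intro t ht
    have h1 := psi_deriv ((t : ℂ) * e) (by rw [hnorm t ht.le]; exact ht)
    have h2 : HasDerivAt (fun z : ℂ => z * e) e (t : ℂ) := by
      simpa using (hasDerivAt_id (t : ℂ)).mul_const e
    have h3 : HasDerivAt (fun z : ℂ => psi (z * e)) (dpsi (t * e) * e) (t : ℂ) :=
      HasDerivAt.comp (h₂ := psi) (h := fun z : ℂ => z * e) (t : ℂ) h1 h2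
    have h4 := h3.real_of_complex
    refine h4.congr_deriv ?_
    unfold dpsi
    rw [mul_assoc, re_ofReal_mul, mul_comm (csq _) e]
  have hc : ContinuousOn (fun t : ℝ => (psi (t * e)).re) (Ici 1) := by
    apply Complex.continuous_re.comp_continuousOn
    apply psi_cont.comp (by fun_prop)
    intro t ht
    show 1 ≤ ‖(t : ℂ) * e‖
    rw [hnorm t ht]
    exact ht
  have h1 : (psi (((1:ℝ) : ℂ) * e)).re = 1 := by
    rw [Complex.ofReal_one, one_mul, he, psi_arc_val θ hθ]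
    simp
  -- global monotonicity
  have hmono : MonotoneOn (fun t : ℝ => (psi (t * e)).re) (Ici 1) := by
    apply monotoneOn_of_deriv_nonneg (convex_Ici 1) hc
    · intro x hx
      rw [interior_Ici] at hx
      exact (hd x hx).differentiableAt.differentiableWithinAt
    · intro x hx
      rw [interior_Ici] at hx
      rw [(hd x hx).deriv]
      exact mul_nonneg hcA.le (j20523_re_v x θ hx hθ).1
  -- quadratic growth
  have hmono2 : MonotoneOn (fun t : ℝ => (psi (t * e)).re - cA / 4 * (t - 1) ^ 2) (Icc 1 2) := by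
    have hd2 : ∀ t : ℝ, 1 < t → HasDerivAt (fun t : ℝ => (psi (t * e)).re - cA / 4 * (t - 1) ^ 2)
        (cA * (e * csq (1 + ((t * e)⁻¹) ^ 4)).re - cA / 2 * (t - 1)) t := by
      intro t ht
      have h3 : HasDerivAt (fun t : ℝ => cA / 4 * (t - 1) ^ 2) (cA / 2 * (t - 1)) t := by
        have h4 := ((((hasDerivAt_id t).sub_const 1).pow 2).const_mul (cA / 4))
        refine h4.congr_deriv ?_
        simp
        ring
      exact (hd t ht).sub h3
    apply monotoneOn_of_deriv_nonneg (convex_Icc 1 2)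
    · apply ContinuousOn.sub (hc.mono Icc_subset_Ici_self)
      fun_prop
    · intro x hx
      rw [interior_Icc] at hx
      exact (hd2 x hx.1).differentiableAt.differentiableWithinAt
    · intro x hx
      rw [interior_Icc] at hx
      rw [(hd2 x hx.1).deriv]
      obtain ⟨k1, k2⟩ := j20523_re_v x θ hx.1 hθ
      have hx0 : 0 < x := by linarith [hx.1]
      have k3 : (x - 1) ^ 2 / 4 ≤ (1 - 1 / x) / 2 := by
        have k4 : (x - 1) ^ 2 / 2 ≤ 1 - 1 / x := by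
          have k5 : 1 - 1 / x = (x - 1) / x := by field_simp
          rw [k5, le_div_iff₀ hx0]
          nlinarith [hx.1, hx.2, mul_nonneg (sub_nonneg.2 hx.1.le) (sub_nonneg.2 hx.2.le)]
        linarith
      have k6 : (x - 1) / 2 ≤ (e * csq (1 + ((x * e)⁻¹) ^ 4)).re := by
        apply le_of_sq_le_sq _ k1
        calc ((x - 1) / 2) ^ 2 = (x - 1) ^ 2 / 4 := by ring
          _ ≤ _ := k3.trans k2
      nlinarith
  rcases le_total r 2 with h2 | h2
  · have h3 := hmono2 (left_mem_Icc.2 one_le_two) (show r ∈ Icc 1 2 from ⟨hr, h2⟩) hr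
    simp only at h3
    rw [h1] at h3
    rw [min_eq_left (by linarith)]
    simp at h3
    linarith
  · have h3 := hmono2 (left_mem_Icc.2 one_le_two) (right_mem_Icc.2 one_le_two) one_le_two
    have h4 := hmono (mem_Ici.2 one_le_two : (2:ℝ) ∈ Ici 1) (mem_Ici.2 hr) h2
    simp only at h3 h4
    rw [h1] at h3
    rw [min_eq_right (by linarith)]
    norm_num at h3 h4 ⊢
    linarith

theorem psi_grow : ∃ c : ℝ, 0 < c ∧ ∀ w : ℂ, 1 ≤ ‖w‖ →
    1 + c * (min (‖w‖ - 1) 1) ^ 2 ≤ max |(psi w).re| |(psi w).im| := by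
  refine ⟨cA / 4, by have := cA_pos; positivity, ?_⟩
  intro w hw
  have hw0 : w ≠ 0 := by
    intro h
    rw [h, norm_zero] at hw
    linarith
  obtain ⟨m, θ, hθ, h⟩ := sector_decomp w hw0
  have h1 := j20523_key θ hθ ‖w‖ hw
  rw [← h, psi_rot_pow] at h1
  rw [← sq_rot (psi w) m]
  exact h1.trans ((le_abs_self _).trans (le_max_left _ _))

end Pool.Agent.Helper606.Fek
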