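import Pool.Agent.Helper606.Fek.Defs
import Pool.Agent.Helper606.Fek.P_psi_deriv
import Pool.Agent.Helper606.Fek.P_psi_cont
import Pool.Agent.Helper606.Fek.P_psi_near
import Pool.Agent.Helper606.Fek.P_psi_bdry
import Pool.Agent.Helper606.Fek.P_psi_grow

set_option autoImplicit false

namespace Pool.Agent.Helper606.Fek
open Complex Set Filter Topology


theorem pes_cA_pos : 0 < cA := by
  have h1 : 0 ≤ cA := by
    have := psi_near 1 (by simp)
    have h2 := (norm_nonneg _).trans this
    linarith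
  rcases h1.lt_or_eq with h | h
  · exact h
  · exfalso
    have h2 := psi_bdry 1 (by simp)
    have h3 : psi 1 = 0 := by
      unfold psi; rw [← h]; simp
    rw [h3] at h2
    simp [sq] at h2

theorem pes_dpsi_ne (w : ℂ) (hw : 1 < ‖w‖) : dpsi w ≠ 0 := by
  unfold dpsi csq
  refine mul_ne_zero (by exact_mod_cast pes_cA_pos.ne') ?_
  intro h
  rw [Complex.cpow_eq_zero_iff] at h
  have h1 : (w⁻¹) ^ 4 = -1 := by linear_combination h.1
  have h2 : ‖(w⁻¹) ^ 4‖ = 1 := by rw [h1]; simp
  rw [norm_pow, norm_inv] at h2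
  have h3 : ‖w‖⁻¹ < 1 := inv_lt_one_of_one_lt₀ hw
  have h4 : ‖w‖⁻¹ ^ 4 < 1 := pow_lt_one₀ (inv_nonneg.mpr (norm_nonneg _)) h3 (by norm_num)
  linarith

theorem pes_open : IsOpen (psi '' {w : ℂ | 1 < ‖w‖}) := by
  rw [isOpen_iff_mem_nhds]
  rintro _ ⟨w, hw, rfl⟩
  have hO : IsOpen {w : ℂ | 1 < ‖w‖} := isOpen_lt continuous_const continuous_norm
  have hd : DifferentiableOn ℂ psi {w : ℂ | 1 < ‖w‖} := fun z hz =>
    (psi_deriv z hz).differentiableAt.differentiableWithinAt
  have ha : AnalyticAt ℂ psi w := hd.analyticAt (hO.mem_nhds hw)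
  have hs := ha.hasStrictDerivAt
  rw [(psi_deriv w hw).deriv] at hs
  have hm := hs.map_nhds_eq (pes_dpsi_ne w hw)
  rw [← hm]
  exact Filter.image_mem_map (hO.mem_nhds hw)

theorem pes_conn : IsPreconnected {x : ℂ | 1 < max |x.re| |x.im|} := by
  have e : {x : ℂ | 1 < max |x.re| |x.im|}
      = (({c : ℂ | 1 < c.re} ∪ {c : ℂ | 1 < c.im}) ∪ {c : ℂ | c.re < -1}) ∪ {c : ℂ | c.im < -1} := by
    ext x
    simp only [mem_setOf_eq, mem_union, lt_max_iff, lt_abs]
    constructor
    · rintro ((h | h) | (h | h))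
      · exact Or.inl (Or.inl (Or.inl h))
      · exact Or.inl (Or.inr (by linarith))
      · exact Or.inl (Or.inl (Or.inr h))
      · exact Or.inr (by linarith)
    · rintro (((h | h) | h) | h)
      · exact Or.inl (Or.inl h)
      · exact Or.inr (Or.inl h)
      · exact Or.inl (Or.inr (by linarith))
      · exact Or.inr (Or.inr (by linarith))
  rw [e]
  refine IsPreconnected.union (⟨-2, -2⟩ : ℂ) (Or.inr ?_) ?_
    (IsPreconnected.union (⟨-2, 2⟩ : ℂ) (Or.inr ?_) ?_
      (IsPreconnected.union (⟨2, 2⟩ : ℂ) ?_ ?_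
        (convex_halfSpace_re_gt 1).isPreconnected (convex_halfSpace_im_gt 1).isPreconnected)
      (convex_halfSpace_re_lt (-1)).isPreconnected)
    (convex_halfSpace_im_lt (-1)).isPreconnected
  all_goals (simp only [mem_setOf_eq]; norm_num)

theorem psi_ext_surj (x : ℂ) (hx : 1 < max |x.re| |x.im|) : ∃ w : ℂ, 1 < ‖w‖ ∧ psi w = x := by
  have hsub : {x : ℂ | 1 < max |x.re| |x.im|} ⊆ psi '' {w : ℂ | 1 < ‖w‖} := by
    refine IsPreconnected.subset_of_closure_inter_subset pes_conn pes_open ?_ ?_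
    · obtain ⟨c, hc, h⟩ := psi_grow
      have h2 := h 2 (by norm_num)
      have h3 : ‖(2:ℂ)‖ = 2 := by norm_num
      rw [h3] at h2
      have h4 : min ((2:ℝ) - 1) 1 = 1 := by norm_num
      rw [h4] at h2
      have h5 : 1 < max |(psi 2).re| |(psi 2).im| := by linarith
      exact ⟨psi 2, h5, ⟨2, by simp, rfl⟩⟩
    · rintro y ⟨hy, hyS⟩
      obtain ⟨s, hsT, hsy⟩ := mem_closure_iff_seq_limit.mp hy
      choose w hw1' hw2 using hsT
      have hw1 : ∀ j, 1 < ‖w j‖ := fun j => hw1' j
      have hbd : Bornology.IsBounded (range s) := Metric.isBounded_range_of_tendsto s hsy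
      obtain ⟨R, hR⟩ := hbd.subset_closedBall 0
      have hwb : ∀ j, w j ∈ Metric.closedBall (0:ℂ) ((R + cA / 3) / cA) := by
        intro j
        rw [mem_closedBall_zero_iff, le_div_iff₀ pes_cA_pos]
        have h1 : ‖s j‖ ≤ R := by
          have := hR (mem_range_self j)
          rwa [mem_closedBall_zero_iff] at this
        have h2 := psi_near (w j) (le_of_lt (hw1 j))
        rw [hw2 j] at h2
        have h3 : ‖(cA:ℂ) * w j‖ = ‖w j‖ * cA := by
          rw [norm_mul, Complex.norm_real, Real.norm_of_nonneg pes_cA_pos.le, mul_comm]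
        have h4 : ‖(cA:ℂ) * w j‖ ≤ ‖s j‖ + ‖s j - cA * w j‖ := by
          have := norm_sub_norm_le ((cA:ℂ) * w j) (s j)
          rw [norm_sub_rev] at this
          linarith
        rw [← h3]; linarith
      obtain ⟨a, _, φ, hφ, hlim⟩ := tendsto_subseq_of_bounded Metric.isBounded_closedBall hwb
      have ha1 : 1 ≤ ‖a‖ := by
        refine ge_of_tendsto (hlim.norm) (Eventually.of_forall fun j => ?_)
        exact le_of_lt (hw1 (φ j))
      have hpsi : Tendsto (fun j => psi (w (φ j))) atTop (𝓝 (psi a)) := by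
        have h1 := psi_cont a ha1
        refine h1.tendsto.comp (tendsto_nhdsWithin_iff.mpr ⟨hlim, Eventually.of_forall fun j => ?_⟩)
        exact le_of_lt (hw1 (φ j))
      have hpsi2 : Tendsto (fun j => psi (w (φ j))) atTop (𝓝 y) := by
        have : (fun j => psi (w (φ j))) = s ∘ φ := by
          funext j; exact hw2 (φ j)
        rw [this]
        exact hsy.comp hφ.tendsto_atTop
      have hya : psi a = y := tendsto_nhds_unique hpsi hpsi2
      refine ⟨a, ?_, hya⟩
      rcases ha1.lt_or_eq with h | h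
      · exact h
      · exfalso
        have h1 := psi_bdry a h.symm
        rw [hya] at h1
        have h2 : max |y.re| |y.im| = 1 := h1
        have h3 : 1 < max |y.re| |y.im| := hyS
        linarith
  obtain ⟨w, hw, hwx⟩ := hsub hx
  exact ⟨w, hw, hwx⟩

end Pool.Agent.Helper606.Fek
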