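import Pool.Agent.Helper606.Fek.Defs
import Pool.Agent.Helper606.Fek.P_psi_bdry
import Pool.Agent.Helper606.Fek.P_psi_grow

set_option autoImplicit false

namespace Pool.Agent.Helper606.Fek
open Complex Set Filter Topology


theorem psi_far : ∃ c : ℝ, 0 < c ∧ ∀ w u : ℂ, 2 ≤ ‖w‖ → ‖u‖ = 1 → c ≤ ‖psi w - psi u‖ := by
  obtain ⟨c, hc, h⟩ := psi_grow
  refine ⟨c, hc, fun w u hw hu => ?_⟩
  have h1 := h w (by linarith)
  have h2 : min (‖w‖ - 1) 1 = 1 := min_eq_right (by linarith)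
  rw [h2] at h1
  have h3 : max |(psi u).re| |(psi u).im| = 1 := psi_bdry u hu
  have h4 : |(psi u).re| ≤ 1 := h3 ▸ le_max_left _ _
  have h5 : |(psi u).im| ≤ 1 := h3 ▸ le_max_right _ _
  have h6 := Complex.abs_re_le_norm (psi w - psi u)
  have h7 := Complex.abs_im_le_norm (psi w - psi u)
  rw [Complex.sub_re] at h6
  rw [Complex.sub_im] at h7
  have h8 := abs_sub_abs_le_abs_sub (psi w).re (psi u).re
  have h9 := abs_sub_abs_le_abs_sub (psi w).im (psi u).im
  rcases le_max_iff.mp h1 with h10 | h10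
  · nlinarith
  · nlinarith

end Pool.Agent.Helper606.Fek
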