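import Pool.Agent.Helper606.Fek.Defs
import Pool.Agent.Helper606.Fek.P_psi_sym
import Pool.Agent.Helper606.Fek.P_yy_basic
import Pool.Agent.Helper606.Fek.P_psi_arc_val
import Pool.Agent.Helper606.Fek.P_sector_decomp
import Pool.Agent.Helper606.Fek.P_sq_rot

set_option autoImplicit false

namespace Pool.Agent.Helper606.Fek
open Complex Set Filter Topology


theorem pic_rot (m : ℕ) (w : ℂ) : psi (I ^ m * w) = I ^ m * psi w := by
  induction m with
  | zero => simp
  | succ m ih => rw [pow_succ', mul_assoc, psi_rot, ih, mul_assoc]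

theorem pic_expI : exp (((Real.pi / 2 : ℝ) : ℂ) * I) = I := by
  rw [Complex.exp_mul_I, ← ofReal_cos, ← ofReal_sin, Real.cos_pi_div_two, Real.sin_pi_div_two]
  simp

theorem pic_e1 : I * exp (((-(Real.pi / 4) : ℝ) : ℂ) * I) = exp (((Real.pi / 4 : ℝ) : ℂ) * I) := by
  conv_lhs => rw [← pic_expI]
  rw [pic_expI]
  conv_lhs => lhs; rw [← pic_expI]
  rw [← Complex.exp_add]
  congr 1
  push_cast
  ring

theorem pic_mem {θ : ℝ} (h : |θ| ≤ Real.pi / 4) : θ ∈ Icc (-(Real.pi / 4)) (Real.pi / 4) :=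
  abs_le.1 h

theorem pic_inj {θ α : ℝ} (h : |θ| ≤ Real.pi / 4) (h' : |α| ≤ Real.pi / 4) (he : yy θ = yy α) :
    θ = α := yy_strictMono.injOn (pic_mem h) (pic_mem h') he

theorem pic_core (k : ℕ) (hk : k < 4) {θ α : ℝ} (h : |θ| ≤ Real.pi / 4) (h' : |α| ≤ Real.pi / 4)
    (he : I ^ k * (1 + I * (yy θ : ℂ)) = 1 + I * (yy α : ℂ)) :
    I ^ k * exp (θ * I) = exp (α * I) := by
  have hpi : |Real.pi / 4| ≤ Real.pi / 4 := by
    rw [abs_of_pos (by positivity)]
  have hpi' : |-(Real.pi / 4)| ≤ Real.pi / 4 := by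
    rw [abs_neg, abs_of_pos (by positivity)]
  have hq : yy (-(Real.pi / 4)) = -1 := by rw [yy_neg, yy_quarter]
  interval_cases k
  · rw [pow_zero, one_mul] at he ⊢
    have h1 := congrArg Complex.im he
    simp at h1
    rw [pic_inj h h' h1]
  · rw [pow_one] at he ⊢
    have h1 := congrArg Complex.im he
    have h2 := congrArg Complex.re he
    simp at h1 h2
    have h3 : θ = -(Real.pi / 4) := pic_inj h hpi' (by rw [hq]; linarith)
    have h4 : α = Real.pi / 4 := pic_inj h' hpi (by rw [yy_quarter]; linarith)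
    rw [h3, h4]
    exact pic_e1
  · exfalso
    rw [I_sq] at he
    have h2 := congrArg Complex.re he
    simp at h2
    norm_num at h2
  · rw [I_pow_three] at he ⊢
    have h1 := congrArg Complex.im he
    have h2 := congrArg Complex.re he
    simp at h1 h2
    have h3 : θ = Real.pi / 4 := pic_inj h hpi (by rw [yy_quarter]; linarith)
    have h4 : α = -(Real.pi / 4) := pic_inj h' hpi' (by rw [hq]; linarith)
    rw [h3, h4, ← pic_e1, ← mul_assoc]
    simp

theorem psi_inj_circle (u v : ℂ) (hu : ‖u‖ = 1) (hv : ‖v‖ = 1) (h : psi u = psi v) : u = v := by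
  have hu0 : u ≠ 0 := by
    rintro rfl
    simp at hu
  have hv0 : v ≠ 0 := by
    rintro rfl
    simp at hv
  obtain ⟨m, θ, hθ, hmu⟩ := sector_decomp u hu0
  obtain ⟨n, α, hα, hnv⟩ := sector_decomp v hv0
  rw [hu, ofReal_one, one_mul] at hmu
  rw [hv, ofReal_one, one_mul] at hnv
  have e1 := pic_rot m u
  rw [hmu, psi_arc_val θ hθ] at e1
  have e2 := pic_rot n v
  rw [hnv, psi_arc_val α hα] at e2
  have hI4 : ∀ j : ℕ, I ^ (4 * j) = 1 := by
    intro j
    rw [pow_mul, I_pow_four, one_pow]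
  have hmod : I ^ (n + 3 * m) = I ^ ((n + 3 * m) % 4) := by
    conv_lhs => rw [← Nat.div_add_mod (n + 3 * m) 4]
    rw [pow_add, hI4, one_mul]
  have key : I ^ (n + 3 * m) * (1 + I * (yy θ : ℂ)) = 1 + I * (yy α : ℂ) := by
    rw [e1, e2, h, ← mul_assoc, ← pow_add]
    have : n + 3 * m + m = 4 * m + n := by ring
    rw [this, pow_add, hI4, one_mul]
  rw [hmod] at key
  have h3 := pic_core _ (Nat.mod_lt _ (by norm_num)) hθ hα key
  rw [← hmod, ← hmu, ← hnv, ← mul_assoc, ← pow_add] at h3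
  have : n + 3 * m + m = 4 * m + n := by ring
  rw [this, pow_add, hI4, one_mul] at h3
  exact mul_left_cancel₀ (pow_ne_zero _ I_ne_zero) h3

end Pool.Agent.Helper606.Fek
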