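import Pool.Agent.Helper606.Fek.Defs
import Pool.Agent.Helper606.Fek.P_psi_cont
import Pool.Agent.Helper606.Fek.P_psi_bdry
import Pool.Agent.Helper606.Fek.P_psi_inj_circle
import Pool.Agent.Helper606.Fek.P_psi_grow

set_option autoImplicit false

namespace Pool.Agent.Helper606.Fek
open Complex Set Filter Topology


theorem psi_far_pairs (ε : ℝ) (hε : 0 < ε) : ∃ c : ℝ, 0 < c ∧ ∀ w u : ℂ, 1 ≤ ‖w‖ → ‖w‖ ≤ 2 →
    ‖u‖ = 1 → ε ≤ ‖w - u‖ → c ≤ ‖psi w - psi u‖ := by
  set K : Set (ℂ × ℂ) := {p | 1 ≤ ‖p.1‖ ∧ ‖p.1‖ ≤ 2 ∧ ‖p.2‖ = 1 ∧ ε ≤ ‖p.1 - p.2‖} with hKdef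
  have hclosed : IsClosed K := by
    have h1 : IsClosed {p : ℂ × ℂ | 1 ≤ ‖p.1‖} :=
      isClosed_le continuous_const (continuous_norm.comp continuous_fst)
    have h2 : IsClosed {p : ℂ × ℂ | ‖p.1‖ ≤ 2} :=
      isClosed_le (continuous_norm.comp continuous_fst) continuous_const
    have h3 : IsClosed {p : ℂ × ℂ | ‖p.2‖ = 1} :=
      isClosed_eq (continuous_norm.comp continuous_snd) continuous_const
    have h4 : IsClosed {p : ℂ × ℂ | ε ≤ ‖p.1 - p.2‖} :=
      isClosed_le continuous_const (continuous_norm.comp (continuous_fst.sub continuous_snd))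
    exact h1.inter (h2.inter (h3.inter h4))
  have hcomp : IsCompact K := by
    refine IsCompact.of_isClosed_subset ((isCompact_closedBall (0:ℂ) 2).prod
      (isCompact_closedBall (0:ℂ) 2)) hclosed ?_
    rintro ⟨w, u⟩ ⟨h1, h2, h3, h4⟩
    simp only at h1 h2 h3 h4
    refine ⟨?_, ?_⟩
    · simpa using h2
    · simp only [Metric.mem_closedBall, dist_zero_right]
      linarith
  have hcont : ContinuousOn (fun p : ℂ × ℂ => ‖psi p.1 - psi p.2‖) K := by
    have ha : ContinuousOn (fun p : ℂ × ℂ => psi p.1) K :=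
      psi_cont.comp continuousOn_fst (fun p hp => hp.1)
    have hb : ContinuousOn (fun p : ℂ × ℂ => psi p.2) K :=
      psi_cont.comp continuousOn_snd (fun p hp => hp.2.2.1.ge)
    exact (ha.sub hb).norm
  by_cases hne : K.Nonempty
  · obtain ⟨p₀, hp₀, hmin⟩ := hcomp.exists_isMinOn hne hcont
    refine ⟨‖psi p₀.1 - psi p₀.2‖, ?_, ?_⟩
    · rw [norm_pos_iff, sub_ne_zero]
      intro heq
      obtain ⟨h1, h2, h3, h4⟩ := hp₀
      obtain ⟨c, hc, hgrow⟩ := psi_grow
      have hsq : max |(psi p₀.1).re| |(psi p₀.1).im| = 1 := by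
        rw [heq]
        exact psi_bdry p₀.2 h3
      have hg := hgrow p₀.1 h1
      rw [hsq] at hg
      have hm : c * (min (‖p₀.1‖ - 1) 1) ^ 2 ≤ 0 := by linarith
      have hm0 : min (‖p₀.1‖ - 1) 1 = 0 := by
        by_contra hne0
        have : 0 < (min (‖p₀.1‖ - 1) 1) ^ 2 := by positivity
        have := mul_pos hc this
        linarith
      have hn1 : ‖p₀.1‖ = 1 := by
        rcases min_choice (‖p₀.1‖ - 1) 1 with h | h
        · rw [h] at hm0; linarith
        · rw [h] at hm0; norm_num at hm0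
      have := psi_inj_circle p₀.1 p₀.2 hn1 h3 heq
      rw [this, sub_self, norm_zero] at h4
      linarith
    · intro w u h1 h2 h3 h4
      exact hmin (show (w, u) ∈ K from ⟨h1, h2, h3, h4⟩)
  · refine ⟨1, one_pos, ?_⟩
    intro w u h1 h2 h3 h4
    exact absurd ⟨(w, u), h1, h2, h3, h4⟩ hne

end Pool.Agent.Helper606.Fek
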