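import Pool.Agent.Helper606.Fek.Defs
import Pool.Agent.Helper606.Fek.P_csq_basic
import Pool.Agent.Helper606.Fek.P_cA_pos
import Pool.Agent.Helper606.Fek.P_psi_deriv
import Pool.Agent.Helper606.Fek.P_psi_cont

set_option autoImplicit false

namespace Pool.Agent.Helper606.Fek
open Complex Set Filter Topology


theorem strip_corner_sinh (a b : ℝ) :
    (sinh ((a : ℂ) + (b : ℂ) * I)).re = Real.sinh a * Real.cos b ∧
      (sinh ((a : ℂ) + (b : ℂ) * I)).im = Real.cosh a * Real.sin b := by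
  have h : sinh ((a : ℂ) + (b : ℂ) * I) =
      ((Real.sinh a * Real.cos b : ℝ) : ℂ) + ((Real.cosh a * Real.sin b : ℝ) : ℂ) * I := by
    rw [Complex.sinh_add, Complex.sinh_mul_I, Complex.cosh_mul_I]
    push_cast
    ring
  rw [h]
  constructor
  · rw [Complex.add_re, Complex.ofReal_re, Complex.re_ofReal_mul, Complex.I_re, mul_zero, add_zero]
  · rw [Complex.add_im, Complex.ofReal_im, Complex.im_ofReal_mul, Complex.I_im, mul_one, zero_add]

/-- the rotated derivative -/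
theorem strip_corner_v (ξ : ℂ) (h0 : 0 < ξ.re) (h1 : 0 ≤ ξ.im) (h2 : ξ.im ≤ Real.pi / 2) :
    cA * Real.sqrt ‖ξ - (Real.pi / 4 : ℝ) * I‖ ≤
      (exp (-((Real.pi / 4 : ℝ) * I)) * (exp ξ * dpsi (exp ξ))).re := by
  have hcA := cA_pos
  set η : ℂ := ξ - (Real.pi / 4 : ℝ) * I with hη
  have hre : η.re = ξ.re := by simp [hη]
  have him : η.im = ξ.im - Real.pi / 4 := by simp [hη]
  set s : ℂ := csq (1 + exp (-(4 * ξ))) with hs
  set v : ℂ := exp (-((Real.pi / 4 : ℝ) * I)) * (exp ξ * dpsi (exp ξ)) with hv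
  have hexp4 : ((exp ξ)⁻¹) ^ 4 = exp (-(4 * ξ)) := by
    rw [← Complex.exp_neg, ← Complex.exp_nat_mul]
    congr 1
    push_cast
    ring
  have hv1 : v = (cA : ℂ) * (exp η * s) := by
    have : exp η = exp (-((Real.pi / 4 : ℝ) * I)) * exp ξ := by
      rw [← Complex.exp_add]
      congr 1
      rw [hη]
      ring
    rw [hv, hs, this, dpsi, hexp4]
    ring
  have hpi : exp (-(4 * ξ)) = - exp (-(4 * η)) := by
    have e1 : -(4 * ξ) = -(4 * η) + -(Real.pi * I) := by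
      rw [hη]
      push_cast
      ring
    rw [e1, Complex.exp_add]
    have e2 : exp (-(Real.pi * I)) = -1 := by
      rw [Complex.exp_neg, Complex.exp_pi_mul_I]
      norm_num
    rw [e2]
    ring
  have hv2 : v ^ 2 = ((2 * cA ^ 2 : ℝ) : ℂ) * sinh (2 * η) := by
    have e3 : s ^ 2 = 1 - exp (-(4 * η)) := by
      rw [hs, csq_sq, hpi]
      ring
    have e4 : exp η ^ 2 = exp (2 * η) := by
      rw [← Complex.exp_nat_mul]
      push_cast
      rfl
    have e5 : exp (2 * η) * exp (-(4 * η)) = exp (-(2 * η)) := by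
      rw [← Complex.exp_add]
      congr 1
      ring
    rw [hv1, mul_pow, mul_pow, e3, e4, Complex.sinh]
    push_cast
    linear_combination (-(cA : ℂ) ^ 2) * e5
  have hb1 : -(Real.pi / 4) ≤ η.im := by rw [him]; linarith
  have hb2 : η.im ≤ Real.pi / 4 := by rw [him]; linarith
  have ha : 0 < η.re := by rw [hre]; exact h0
  -- the sector of `exp η`
  have hcos : 0 ≤ Real.cos (2 * η.im) :=
    Real.cos_nonneg_of_mem_Icc ⟨by linarith, by linarith⟩
  have hcos1 : 0 ≤ Real.cos η.im :=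
    Real.cos_nonneg_of_mem_Icc ⟨by linarith [Real.pi_pos], by linarith [Real.pi_pos]⟩
  have hsc : |Real.sin η.im| ≤ Real.cos η.im := by
    apply abs_le_of_sq_le_sq _ hcos1
    have := Real.cos_two_mul' η.im
    nlinarith
  have hsec1 : |(exp η).im| ≤ (exp η).re := by
    rw [Complex.exp_re, Complex.exp_im, abs_mul, abs_of_pos (Real.exp_pos _)]
    exact mul_le_mul_of_nonneg_left hsc (Real.exp_pos _).le
  have hnorm4 : ‖exp (-(4 * ξ))‖ ≤ 1 := by
    rw [Complex.norm_exp]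
    apply Real.exp_le_one_iff.mpr
    simp
    linarith
  have hre1 : 0 ≤ (1 + exp (-(4 * ξ))).re := by
    have := Complex.abs_re_le_norm (exp (-(4 * ξ)))
    have h3 := (abs_le.mp (this.trans hnorm4)).1
    simp only [Complex.add_re, Complex.one_re]
    linarith
  have hsec2 : |s.im| ≤ s.re := csq_sector _ hre1
  have hvre : 0 ≤ v.re := by
    rw [hv1, Complex.re_ofReal_mul, Complex.mul_re]
    apply mul_nonneg hcA.le
    have h3 : (exp η).im * s.im ≤ (exp η).re * s.re := by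
      calc (exp η).im * s.im ≤ |(exp η).im * s.im| := le_abs_self _
        _ = |(exp η).im| * |s.im| := abs_mul _ _
        _ ≤ (exp η).re * s.re :=
          mul_le_mul hsec1 hsec2 (abs_nonneg _) ((abs_nonneg _).trans hsec1)
    linarith
  -- real part of `v ^ 2`
  have hsinh_re : (sinh (2 * η)).re = Real.sinh (2 * η.re) * Real.cos (2 * η.im) := by
    have : (2 * η) = ((2 * η.re : ℝ) : ℂ) + ((2 * η.im : ℝ) : ℂ) * I := by
      apply Complex.ext <;> simp
    rw [this]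
    exact (strip_corner_sinh _ _).1
  have hsinh_im : (sinh (2 * η)).im = Real.cosh (2 * η.re) * Real.sin (2 * η.im) := by
    have : (2 * η) = ((2 * η.re : ℝ) : ℂ) + ((2 * η.im : ℝ) : ℂ) * I := by
      apply Complex.ext <;> simp
    rw [this]
    exact (strip_corner_sinh _ _).2
  have hsh : 2 * η.re ≤ Real.sinh (2 * η.re) := Real.self_le_sinh_iff.mpr (by linarith)
  have hch : 1 ≤ Real.cosh (2 * η.re) := Real.one_le_cosh _
  have hvsq : (v ^ 2).re = v.re ^ 2 - v.im ^ 2 := by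
    rw [pow_two, Complex.mul_re]
    ring
  have hv2re : 0 ≤ (v ^ 2).re := by
    rw [hv2, Complex.re_ofReal_mul, hsinh_re]
    have : 0 ≤ Real.sinh (2 * η.re) := by linarith
    positivity
  have hvle : v.im ^ 2 ≤ v.re ^ 2 := by linarith
  have hnv : ‖v‖ ^ 2 = v.re ^ 2 + v.im ^ 2 := by
    rw [Complex.sq_norm, Complex.normSq_apply]
    ring
  have hnv2 : ‖v‖ ^ 2 = 2 * cA ^ 2 * ‖sinh (2 * η)‖ := by
    rw [← norm_pow, hv2, norm_mul, Complex.norm_real, Real.norm_of_nonneg (by positivity)]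
  -- lower bound for `sinh`
  have hsin : 16 / Real.pi ^ 2 * η.im ^ 2 ≤ Real.sin (2 * η.im) ^ 2 := by
    have h3 : 2 / Real.pi * |2 * η.im| ≤ Real.sin |2 * η.im| :=
      Real.mul_le_sin (abs_nonneg _) (by
        rw [abs_le]
        constructor <;> linarith)
    have h4 : Real.sin |2 * η.im| ^ 2 = Real.sin (2 * η.im) ^ 2 := by
      rcases abs_choice (2 * η.im) with h | h
      · rw [h]
      · rw [h, Real.sin_neg]
        ring
    rw [← h4]
    have h5 : 0 ≤ 2 / Real.pi * |2 * η.im| := by positivity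
    have h6 := pow_le_pow_left₀ h5 h3 2
    refine le_trans (le_of_eq ?_) h6
    rw [mul_pow, sq_abs]
    field_simp
    ring
  have hpi2 : (16:ℝ) / Real.pi ^ 2 ≤ 4 := by
    rw [div_le_iff₀ (by positivity)]
    nlinarith [Real.pi_gt_three]
  have hpi3 : (1:ℝ) ≤ 16 / Real.pi ^ 2 := by
    rw [le_div_iff₀ (by positivity)]
    nlinarith [Real.pi_le_four, Real.pi_pos]
  have hshn : ‖η‖ ≤ ‖sinh (2 * η)‖ := by
    apply (sq_le_sq₀ (norm_nonneg _) (norm_nonneg _)).mp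
    rw [Complex.sq_norm, Complex.sq_norm, Complex.normSq_apply, Complex.normSq_apply, hsinh_re,
      hsinh_im]
    have h7 := Real.cosh_sq (2 * η.re)
    have h8 := Real.sin_sq_add_cos_sq (2 * η.im)
    have h9 : Real.sinh (2 * η.re) * Real.cos (2 * η.im) *
        (Real.sinh (2 * η.re) * Real.cos (2 * η.im)) +
        Real.cosh (2 * η.re) * Real.sin (2 * η.im) * (Real.cosh (2 * η.re) * Real.sin (2 * η.im))
        = Real.sinh (2 * η.re) ^ 2 + Real.sin (2 * η.im) ^ 2 := by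
      have h10 : Real.cos (2 * η.im) ^ 2 = 1 - Real.sin (2 * η.im) ^ 2 := by linarith
      calc _ = Real.sinh (2 * η.re) ^ 2 * Real.cos (2 * η.im) ^ 2 +
            Real.cosh (2 * η.re) ^ 2 * Real.sin (2 * η.im) ^ 2 := by ring
        _ = _ := by
            rw [h10, h7]
            ring
    rw [h9]
    have h11 : (2 * η.re) ^ 2 ≤ Real.sinh (2 * η.re) ^ 2 := pow_le_pow_left₀ (by linarith) hsh 2
    nlinarith [sq_nonneg η.im, sq_nonneg η.re]
  have hmain : (cA * Real.sqrt ‖η‖) ^ 2 ≤ v.re ^ 2 := by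
    rw [mul_pow, Real.sq_sqrt (norm_nonneg _)]
    have h12 : 2 * cA ^ 2 * ‖η‖ ≤ 2 * cA ^ 2 * ‖sinh (2 * η)‖ :=
      mul_le_mul_of_nonneg_left hshn (by positivity)
    rw [← hnv2, hnv] at h12
    linarith
  exact (sq_le_sq₀ (by positivity) hvre).mp hmain

theorem strip_corner_aux (x y : ℂ) (hx0 : 0 < x.re) (hx1 : 0 ≤ x.im) (hx2 : x.im ≤ Real.pi / 2)
    (hy0 : 0 < y.re) (hy1 : 0 ≤ y.im) (hy2 : y.im ≤ Real.pi / 2)
    (hle : ‖y - (Real.pi / 4 : ℝ) * I‖ ≤ ‖x - (Real.pi / 4 : ℝ) * I‖) :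
    cA / 8 * ‖x - y‖ * Real.sqrt (‖x - (Real.pi / 4 : ℝ) * I‖ + ‖y - (Real.pi / 4 : ℝ) * I‖) ≤
      ‖psi (exp x) - psi (exp y)‖ := by
  have hcA := cA_pos
  rcases eq_or_ne x y with rfl | hxy
  · simp
  have hxy0 : x - y ≠ 0 := sub_ne_zero.mpr hxy
  set ζ : ℝ → ℂ := fun s => y + (s : ℂ) * (x - y) with hζ
  set e0 : ℂ := exp (-((Real.pi / 4 : ℝ) * I)) with he0
  have he0n : ‖e0‖ = 1 := by
    rw [he0]
    have : -(((Real.pi / 4 : ℝ) : ℂ) * I) = ((-(Real.pi / 4) : ℝ) : ℂ) * I := by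
      push_cast
      ring
    rw [this, Complex.norm_exp_ofReal_mul_I]
  set f : ℝ → ℝ := fun s => (e0 * (psi (exp (ζ s)) / (x - y))).re with hf
  set f' : ℝ → ℝ := fun s => (e0 * (exp (ζ s) * dpsi (exp (ζ s)))).re with hf'
  have hζre : ∀ s ∈ Icc (0:ℝ) 1, 0 < (ζ s).re := by
    intro s hs
    have : (ζ s).re = (1 - s) * y.re + s * x.re := by
      simp [hζ]
      ring
    rw [this]
    rcases eq_or_lt_of_le hs.1 with h | h
    · rw [← h]; simpa using hy0
    · have := mul_pos h hx0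
      have h3 := mul_nonneg (sub_nonneg.mpr hs.2) hy0.le
      linarith
  have hζim : ∀ s, (ζ s).im = (1 - s) * y.im + s * x.im := by
    intro s
    simp [hζ]
    ring
  have hζim1 : ∀ s ∈ Icc (0:ℝ) 1, 0 ≤ (ζ s).im := by
    intro s hs
    rw [hζim]
    have h3 := mul_nonneg (sub_nonneg.mpr hs.2) hy1
    have h4 := mul_nonneg hs.1 hx1
    linarith
  have hζim2 : ∀ s ∈ Icc (0:ℝ) 1, (ζ s).im ≤ Real.pi / 2 := by
    intro s hs
    rw [hζim]
    have h3 := mul_le_mul_of_nonneg_left hy2 (sub_nonneg.mpr hs.2)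
    have h4 := mul_le_mul_of_nonneg_left hx2 hs.1
    linarith
  have hder : ∀ s ∈ Icc (0:ℝ) 1, HasDerivAt f (f' s) s := by
    intro s hs
    have h1 : HasDerivAt ζ (x - y) s := by
      have h2 : HasDerivAt (fun s : ℝ => (s : ℂ)) 1 s := Complex.ofRealCLM.hasDerivAt
      have h7 := (h2.mul_const (x - y)).const_add y
      rw [one_mul] at h7
      exact h7
    have h2 : HasDerivAt (fun z : ℂ => psi (exp z)) (dpsi (exp (ζ s)) * exp (ζ s)) (ζ s) := by
      have h3 := psi_deriv (exp (ζ s)) (by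
        rw [Complex.norm_exp]
        exact Real.one_lt_exp_iff.mpr (hζre s hs))
      exact h3.comp (ζ s) (Complex.hasDerivAt_exp (ζ s))
    have h3 : HasDerivAt (fun s : ℝ => psi (exp (ζ s)))
        ((dpsi (exp (ζ s)) * exp (ζ s)) * (x - y)) s := h2.comp s h1
    have h4 : HasDerivAt (fun s : ℝ => e0 * (psi (exp (ζ s)) / (x - y)))
        (e0 * (((dpsi (exp (ζ s)) * exp (ζ s)) * (x - y)) / (x - y))) s :=
      (h3.div_const (x - y)).const_mul e0
    have h5 : e0 * (((dpsi (exp (ζ s)) * exp (ζ s)) * (x - y)) / (x - y)) =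
        e0 * (exp (ζ s) * dpsi (exp (ζ s))) := by
      rw [mul_div_cancel_right₀ _ hxy0]
      ring
    rw [h5] at h4
    have h6 : HasDerivAt (fun s : ℝ => Complex.reCLM (e0 * (psi (exp (ζ s)) / (x - y))))
        (Complex.reCLM (e0 * (exp (ζ s) * dpsi (exp (ζ s))))) s :=
      Complex.reCLM.hasFDerivAt.comp_hasDerivAt s h4
    exact h6
  have hlow : ∀ s ∈ Icc (0:ℝ) 1,
      cA * Real.sqrt ‖ζ s - (Real.pi / 4 : ℝ) * I‖ ≤ f' s := by
    intro s hs
    exact strip_corner_v (ζ s) (hζre s hs) (hζim1 s hs) (hζim2 s hs)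
  have hfc : ContinuousOn f (Icc 0 1) := fun s hs => (hder s hs).continuousAt.continuousWithinAt
  -- first part
  have hp1 : f 0 ≤ f (3 / 4) := by
    obtain ⟨c, hc, hc'⟩ := exists_hasDerivAt_eq_slope f f' (by norm_num : (0:ℝ) < 3 / 4)
      (hfc.mono (Icc_subset_Icc_right (by norm_num)))
      (fun s hs => hder s ⟨hs.1.le, by linarith [hs.2]⟩)
    have h1 := hlow c ⟨hc.1.le, by linarith [hc.2]⟩
    have h2 : 0 ≤ f' c := le_trans (by positivity) h1
    rw [hc'] at h2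
    have h3 : 0 ≤ (f (3 / 4) - f 0) / (3 / 4 - 0) * (3 / 4 - 0) := mul_nonneg h2 (by norm_num)
    rw [div_mul_cancel₀ _ (by norm_num)] at h3
    linarith
  -- second part
  have hp2 : 1 / 4 * (cA * Real.sqrt (‖x - (Real.pi / 4 : ℝ) * I‖ / 2)) ≤ f 1 - f (3 / 4) := by
    obtain ⟨c, hc, hc'⟩ := exists_hasDerivAt_eq_slope f f' (by norm_num : (3 / 4:ℝ) < 1)
      (hfc.mono (Icc_subset_Icc_left (by norm_num)))
      (fun s hs => hder s ⟨by linarith [hs.1], hs.2.le⟩)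
    have h1 := hlow c ⟨by linarith [hc.1], hc.2.le⟩
    have h2 : ‖x - (Real.pi / 4 : ℝ) * I‖ / 2 ≤ ‖ζ c - (Real.pi / 4 : ℝ) * I‖ := by
      have h3 : (c : ℂ) * (x - (Real.pi / 4 : ℝ) * I) =
          (ζ c - (Real.pi / 4 : ℝ) * I) - ((1 - c : ℝ) : ℂ) * (y - (Real.pi / 4 : ℝ) * I) := by
        simp only [hζ]
        push_cast
        ring
      have h4 := norm_sub_le (ζ c - (Real.pi / 4 : ℝ) * I)
        (((1 - c : ℝ) : ℂ) * (y - (Real.pi / 4 : ℝ) * I))
      rw [← h3, norm_mul, norm_mul, Complex.norm_real, Complex.norm_real,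
        Real.norm_of_nonneg (by linarith [hc.1] : 0 ≤ c),
        Real.norm_of_nonneg (by linarith [hc.2] : 0 ≤ 1 - c)] at h4
      have h5 := norm_nonneg (x - (Real.pi / 4 : ℝ) * I)
      have h6 := mul_le_mul_of_nonneg_left hle (by linarith [hc.2] : 0 ≤ 1 - c)
      nlinarith [hc.1, hc.2]
    have h7 : cA * Real.sqrt (‖x - (Real.pi / 4 : ℝ) * I‖ / 2) ≤ f' c :=
      le_trans (mul_le_mul_of_nonneg_left (Real.sqrt_le_sqrt h2) hcA.le) h1
    rw [hc'] at h7
    have h8 := mul_le_mul_of_nonneg_right h7 (by norm_num : (0:ℝ) ≤ 1 - 3 / 4)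
    rw [div_mul_cancel₀ _ (by norm_num)] at h8
    linarith
  have hsq : 1 / 2 * Real.sqrt (‖x - (Real.pi / 4 : ℝ) * I‖ + ‖y - (Real.pi / 4 : ℝ) * I‖) ≤
      Real.sqrt (‖x - (Real.pi / 4 : ℝ) * I‖ / 2) := by
    have h9 : (1 / 2 : ℝ) = Real.sqrt (1 / 4) := by
      rw [show (1 / 4 : ℝ) = (1 / 2) ^ 2 by norm_num, Real.sqrt_sq (by norm_num)]
    rw [h9, ← Real.sqrt_mul (by norm_num)]
    apply Real.sqrt_le_sqrt
    linarith
  have hfin : cA / 8 * Real.sqrt (‖x - (Real.pi / 4 : ℝ) * I‖ + ‖y - (Real.pi / 4 : ℝ) * I‖) ≤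
      f 1 - f 0 := by
    have := mul_le_mul_of_nonneg_left hsq hcA.le
    linarith
  have hnorm : (f 1 - f 0) ≤ ‖psi (exp x) - psi (exp y)‖ / ‖x - y‖ := by
    have h10 : f 1 - f 0 = (e0 * ((psi (exp x) - psi (exp y)) / (x - y))).re := by
      simp only [hf, hζ]
      rw [← Complex.sub_re]
      congr 1
      simp
      ring
    rw [h10]
    refine (Complex.re_le_norm _).trans (le_of_eq ?_)
    rw [norm_mul, he0n, norm_div, one_mul]
  have hpos : 0 < ‖x - y‖ := norm_pos_iff.mpr hxy0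
  rw [le_div_iff₀ hpos] at hnorm
  calc _ = (cA / 8 * Real.sqrt (‖x - (Real.pi / 4 : ℝ) * I‖ + ‖y - (Real.pi / 4 : ℝ) * I‖)) *
        ‖x - y‖ := by ring
    _ ≤ (f 1 - f 0) * ‖x - y‖ := mul_le_mul_of_nonneg_right hfin hpos.le
    _ ≤ _ := hnorm

theorem strip_corner_pos (x y : ℂ) (hx0 : 0 < x.re) (hx1 : 0 ≤ x.im) (hx2 : x.im ≤ Real.pi / 2)
    (hy0 : 0 < y.re) (hy1 : 0 ≤ y.im) (hy2 : y.im ≤ Real.pi / 2) :
    cA / 8 * ‖x - y‖ * Real.sqrt (‖x - (Real.pi / 4 : ℝ) * I‖ + ‖y - (Real.pi / 4 : ℝ) * I‖) ≤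
      ‖psi (exp x) - psi (exp y)‖ := by
  rcases le_total ‖y - (Real.pi / 4 : ℝ) * I‖ ‖x - (Real.pi / 4 : ℝ) * I‖ with h | h
  · exact strip_corner_aux x y hx0 hx1 hx2 hy0 hy1 hy2 h
  · have := strip_corner_aux y x hy0 hy1 hy2 hx0 hx1 hx2 h
    rw [norm_sub_rev y x, norm_sub_rev (psi (exp y)),
      add_comm ‖y - (Real.pi / 4 : ℝ) * I‖] at this
    exact this

theorem strip_corner : ∃ c : ℝ, 0 < c ∧ ∀ x y : ℂ, 0 ≤ x.re → x.re ≤ 1 → 0 ≤ x.im →
    x.im ≤ Real.pi / 2 → 0 ≤ y.re → y.re ≤ 1 → 0 ≤ y.im → y.im ≤ Real.pi / 2 →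
    c * ‖x - y‖ * Real.sqrt (‖x - (Real.pi / 4 : ℝ) * I‖ + ‖y - (Real.pi / 4 : ℝ) * I‖) ≤
      ‖psi (exp x) - psi (exp y)‖ := by
  refine ⟨cA / 8, by have := cA_pos; positivity, ?_⟩
  intro x y hx0 _ hx1 hx2 hy0 _ hy1 hy2
  have hshift : ∀ z : ℂ, 0 ≤ z.re →
      Tendsto (fun t : ℝ => psi (exp (z + (t : ℂ)))) (𝓝[>] 0) (𝓝 (psi (exp z))) := by
    intro z hz
    have h1 : ContinuousWithinAt psi {w : ℂ | 1 ≤ ‖w‖} (exp z) := by
      apply psi_cont
      show 1 ≤ ‖exp z‖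
      rw [Complex.norm_exp]
      exact Real.one_le_exp_iff.mpr hz
    refine h1.tendsto.comp ?_
    refine tendsto_nhdsWithin_iff.mpr ⟨?_, ?_⟩
    · have h2 : Continuous (fun t : ℝ => exp (z + (t : ℂ))) := by fun_prop
      have h3 := h2.tendsto 0
      simp only [Complex.ofReal_zero, add_zero] at h3
      exact h3.mono_left nhdsWithin_le_nhds
    · filter_upwards [self_mem_nhdsWithin] with t ht
      show 1 ≤ ‖exp (z + (t : ℂ))‖
      rw [Complex.norm_exp]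
      apply Real.one_le_exp_iff.mpr
      have : (0:ℝ) < t := ht
      simp
      linarith
  have hR : Tendsto (fun t : ℝ => ‖psi (exp (x + (t : ℂ))) - psi (exp (y + (t : ℂ)))‖) (𝓝[>] 0)
      (𝓝 ‖psi (exp x) - psi (exp y)‖) := ((hshift x hx0).sub (hshift y hy0)).norm
  have hL : Tendsto (fun t : ℝ => cA / 8 * ‖(x + (t : ℂ)) - (y + (t : ℂ))‖ *
      Real.sqrt (‖(x + (t : ℂ)) - (Real.pi / 4 : ℝ) * I‖ +
        ‖(y + (t : ℂ)) - (Real.pi / 4 : ℝ) * I‖)) (𝓝[>] 0)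
      (𝓝 (cA / 8 * ‖x - y‖ * Real.sqrt (‖x - (Real.pi / 4 : ℝ) * I‖ +
        ‖y - (Real.pi / 4 : ℝ) * I‖))) := by
    have h2 : Continuous (fun t : ℝ => cA / 8 * ‖(x + (t : ℂ)) - (y + (t : ℂ))‖ *
      Real.sqrt (‖(x + (t : ℂ)) - (Real.pi / 4 : ℝ) * I‖ +
        ‖(y + (t : ℂ)) - (Real.pi / 4 : ℝ) * I‖)) := by fun_prop
    have h3 := h2.tendsto 0
    simp only [Complex.ofReal_zero, add_zero] at h3
    exact h3.mono_left nhdsWithin_le_nhds
  refine le_of_tendsto_of_tendsto hL hR ?_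
  filter_upwards [self_mem_nhdsWithin] with t ht
  have ht' : (0:ℝ) < t := ht
  apply strip_corner_pos
  · simp; linarith
  · simpa using hx1
  · simpa using hx2
  · simp; linarith
  · simpa using hy1
  · simpa using hy2

end Pool.Agent.Helper606.Fek
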