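import Pool.Agent.Helper606.Fek.Defs
import Pool.Agent.Helper606.Fek.P_csq_basic
import Pool.Agent.Helper606.Fek.P_cA_pos
import Pool.Agent.Helper606.Fek.P_psi_deriv
import Pool.Agent.Helper606.Fek.P_psi_cont

set_option autoImplicit false

namespace Pool.Agent.Helper606.Fek
open Complex Set Filter Topology


theorem strip_side_T (ξ : ℂ) (ha : 0 ≤ ξ.re) (hb : |ξ.im| ≤ Real.pi / 4) :
    0 ≤ (csq (1 + ((exp ξ)⁻¹) ^ 4) * exp ξ).re ∧
      2 * Real.cos (2 * ξ.im) ≤ (csq (1 + ((exp ξ)⁻¹) ^ 4) * exp ξ).re ^ 2 := by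
  set S : ℂ := csq (1 + ((exp ξ)⁻¹) ^ 4) with hS
  have hpi := Real.pi_pos
  have hb' := abs_le.mp hb
  have hcos2 : 0 ≤ Real.cos (2 * ξ.im) :=
    Real.cos_nonneg_of_neg_pi_div_two_le_of_le (by linarith) (by linarith)
  have hcos : 0 ≤ Real.cos ξ.im :=
    Real.cos_nonneg_of_neg_pi_div_two_le_of_le (by linarith) (by linarith)
  have hsc : |Real.sin ξ.im| ≤ Real.cos ξ.im := by
    apply abs_le_of_sq_le_sq _ hcos
    have h1 := Real.cos_two_mul' ξ.im
    linarith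
  have hEre : (exp ξ).re = Real.exp ξ.re * Real.cos ξ.im := Complex.exp_re ξ
  have hEim : (exp ξ).im = Real.exp ξ.re * Real.sin ξ.im := Complex.exp_im ξ
  have hea : 0 < Real.exp ξ.re := Real.exp_pos _
  have hE : |(exp ξ).im| ≤ (exp ξ).re := by
    rw [hEre, hEim, abs_mul, abs_of_pos hea]
    exact mul_le_mul_of_nonneg_left hsc hea.le
  have hinv4 : ((exp ξ)⁻¹) ^ 4 = exp (-(4 * ξ)) := by
    rw [← Complex.exp_neg, ← Complex.exp_nat_mul]
    congr 1
    push_cast; ring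
  have hre1 : 0 ≤ (1 + ((exp ξ)⁻¹) ^ 4).re := by
    have h1 : |(((exp ξ)⁻¹) ^ 4).re| ≤ ‖((exp ξ)⁻¹) ^ 4‖ := Complex.abs_re_le_norm _
    have h2 : ‖((exp ξ)⁻¹) ^ 4‖ ≤ 1 := by
      rw [hinv4, Complex.norm_exp]
      rw [← Real.exp_zero]
      apply Real.exp_le_exp.mpr
      simp
      exact ha
    have h3 := (abs_le.mp (h1.trans h2)).1
    rw [Complex.add_re, Complex.one_re]
    linarith
  have hSs : |S.im| ≤ S.re := csq_sector _ hre1
  have hSre : 0 ≤ S.re := (abs_nonneg _).trans hSs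
  have hTre : (S * exp ξ).re = S.re * (exp ξ).re - S.im * (exp ξ).im := Complex.mul_re _ _
  constructor
  · rw [hTre]
    have h1 : S.im * (exp ξ).im ≤ |S.im| * |(exp ξ).im| := by
      rw [← abs_mul]; exact le_abs_self _
    have h2 : |S.im| * |(exp ξ).im| ≤ S.re * (exp ξ).re :=
      mul_le_mul hSs hE (abs_nonneg _) hSre
    linarith
  · have hT2 : (S * exp ξ) ^ 2 = exp (2 * ξ) + exp (-(2 * ξ)) := by
      rw [mul_pow, hS, csq_sq, hinv4, ← Complex.exp_nat_mul, add_mul, one_mul, ← Complex.exp_add]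
      congr 2
      push_cast; ring
    have hre : ((S * exp ξ) ^ 2).re = (S * exp ξ).re ^ 2 - (S * exp ξ).im ^ 2 := by
      rw [pow_two, Complex.mul_re]; ring
    have hre2 : (exp (2 * ξ) + exp (-(2 * ξ))).re =
        (Real.exp (2 * ξ.re) + Real.exp (-(2 * ξ.re))) * Real.cos (2 * ξ.im) := by
      rw [Complex.add_re, Complex.exp_re, Complex.exp_re]
      simp only [Complex.neg_re, Complex.neg_im, Complex.mul_re, Complex.mul_im, Complex.re_ofNat,
        Complex.im_ofNat, zero_mul, sub_zero, add_zero, Real.cos_neg]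
      ring
    have hcosh : 2 ≤ Real.exp (2 * ξ.re) + Real.exp (-(2 * ξ.re)) := by
      have h1 := Real.one_le_cosh (2 * ξ.re)
      rw [Real.cosh_eq] at h1
      linarith
    have h3 : 2 * Real.cos (2 * ξ.im) ≤
        (Real.exp (2 * ξ.re) + Real.exp (-(2 * ξ.re))) * Real.cos (2 * ξ.im) :=
      mul_le_mul_of_nonneg_right hcosh hcos2
    have h4 := sq_nonneg (S * exp ξ).im
    rw [hT2, hre2] at hre
    linarith

theorem strip_side_G (ξ : ℂ) (ha : 0 ≤ ξ.re) (hb : |ξ.im| ≤ Real.pi / 4) :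
    0 ≤ (dpsi (exp ξ) * exp ξ).re ∧ (|ξ.im| ≤ 3 * Real.pi / 16 →
      cA * Real.sqrt (2 * Real.cos (3 * Real.pi / 8)) ≤ (dpsi (exp ξ) * exp ξ).re) := by
  obtain ⟨h1, h2⟩ := strip_side_T ξ ha hb
  have hG : (dpsi (exp ξ) * exp ξ).re = cA * (csq (1 + ((exp ξ)⁻¹) ^ 4) * exp ξ).re := by
    unfold dpsi
    rw [mul_assoc, Complex.re_ofReal_mul]
  rw [hG]
  refine ⟨mul_nonneg cA_pos.le h1, fun hb2 => ?_⟩
  apply mul_le_mul_of_nonneg_left _ cA_pos.le
  have hpi := Real.pi_pos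
  have h3 : Real.cos (3 * Real.pi / 8) ≤ Real.cos (2 * ξ.im) := by
    rw [← Real.cos_abs (2 * ξ.im), abs_mul, abs_two]
    apply Real.cos_le_cos_of_nonneg_of_le_pi (by positivity) (by linarith) (by linarith)
  rw [Real.sqrt_le_left h1]
  linarith

theorem strip_side_pos (x y : ℂ) (hx0 : 0 < x.re) (hx1 : 0 ≤ x.im)
    (hx2 : x.im ≤ Real.pi / 4) (hy0 : 0 < y.re) (hy1 : -(Real.pi / 4) ≤ y.im) (hy2 : y.im ≤ 0) :
    (cA * Real.sqrt (2 * Real.cos (3 * Real.pi / 8)) / 2) * ‖x - y‖ ≤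
      ‖psi (exp x) - psi (exp y)‖ := by
  have hpi := Real.pi_pos
  rcases eq_or_ne x y with rfl | hxy
  · simp
  have hd : x - y ≠ 0 := sub_ne_zero.mpr hxy
  set c0 : ℝ := cA * Real.sqrt (2 * Real.cos (3 * Real.pi / 8)) with hc0
  set ξ : ℝ → ℂ := fun s => y + (s : ℂ) * (x - y) with hξ
  have hξre : ∀ s : ℝ, (ξ s).re = (1 - s) * y.re + s * x.re := by
    intro s
    simp only [hξ, Complex.add_re, Complex.re_ofReal_mul, Complex.sub_re]; ring
  have hξim : ∀ s : ℝ, (ξ s).im = (1 - s) * y.im + s * x.im := by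
    intro s
    simp only [hξ, Complex.add_im, Complex.im_ofReal_mul, Complex.sub_im]; ring
  have hpos : ∀ s ∈ Icc (0 : ℝ) 1, 0 < (ξ s).re := by
    intro s hs
    rw [hξre]
    rcases eq_or_lt_of_le hs.1 with h0 | h0
    · rw [← h0]; simpa using hy0
    · have := mul_pos h0 hx0
      have := mul_nonneg (sub_nonneg.mpr hs.2) hy0.le
      linarith
  have him : ∀ s ∈ Icc (0 : ℝ) 1, |(ξ s).im| ≤ Real.pi / 4 := by
    intro s hs
    rw [hξim, abs_le]
    have h1s : 0 ≤ 1 - s := sub_nonneg.mpr hs.2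
    have e1 := mul_le_mul_of_nonneg_left hy1 h1s
    have e2 := mul_le_mul_of_nonneg_left hy2 h1s
    have e3 := mul_le_mul_of_nonneg_left hx1 hs.1
    have e4 := mul_le_mul_of_nonneg_left hx2 hs.1
    have e5 := mul_nonneg hs.1 hpi.le
    have e6 := mul_nonneg h1s hpi.le
    constructor <;> linarith
  have him2 : ∀ s ∈ Icc (1 / 4 : ℝ) (3 / 4), |(ξ s).im| ≤ 3 * Real.pi / 16 := by
    intro s hs
    rw [hξim, abs_le]
    have h0s : 0 ≤ s := by linarith [hs.1]
    have h1s : 0 ≤ 1 - s := by linarith [hs.2]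
    have e1 := mul_le_mul_of_nonneg_left hy1 h1s
    have e2 := mul_le_mul_of_nonneg_left hy2 h1s
    have e3 := mul_le_mul_of_nonneg_left hx1 h0s
    have e4 := mul_le_mul_of_nonneg_left hx2 h0s
    have e5 := mul_nonneg (sub_nonneg.mpr hs.1) hpi.le
    have e6 := mul_nonneg (sub_nonneg.mpr hs.2) hpi.le
    constructor <;> linarith
  have hder : ∀ s ∈ Icc (0 : ℝ) 1, HasDerivAt (fun s => (psi (exp (ξ s)) / (x - y)).re)
      ((dpsi (exp (ξ s)) * exp (ξ s)).re) s := by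
    intro s hs
    have h1 : 1 < ‖exp (ξ s)‖ := by
      rw [Complex.norm_exp]
      exact Real.one_lt_exp_iff.mpr (hpos s hs)
    have h2 : HasDerivAt (fun z => psi (exp z)) (dpsi (exp (ξ s)) * exp (ξ s)) (ξ s) :=
      HasDerivAt.comp (h₂ := psi) (ξ s) (psi_deriv _ h1) (Complex.hasDerivAt_exp (ξ s))
    have h3 : HasDerivAt ξ (x - y) s := by
      have := ((Complex.ofRealCLM.hasDerivAt (x := s)).mul_const (x - y)).const_add y
      simpa [hξ] using this
    have h4 : HasDerivAt (fun s => psi (exp (ξ s))) (dpsi (exp (ξ s)) * exp (ξ s) * (x - y)) s :=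
      HasDerivAt.comp (h₂ := fun z => psi (exp z)) s h2 h3
    have h5 := h4.div_const (x - y)
    rw [mul_div_cancel_right₀ _ hd] at h5
    exact (Complex.reCLM.hasFDerivAt (x := psi (exp (ξ s)) / (x - y))).comp_hasDerivAt s h5
  set φ : ℝ → ℝ := fun s => (psi (exp (ξ s)) / (x - y)).re with hφ
  have hseg : ∀ (a b C : ℝ), 0 ≤ a → a ≤ b → b ≤ 1 →
      (∀ s ∈ Icc a b, C ≤ (dpsi (exp (ξ s)) * exp (ξ s)).re) → C * (b - a) ≤ φ b - φ a := by
    intro a b C ha hab hb hC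
    have hsub : ∀ s ∈ Icc a b, s ∈ Icc (0 : ℝ) 1 := fun s hs => ⟨ha.trans hs.1, hs.2.trans hb⟩
    apply Convex.mul_sub_le_image_sub_of_le_deriv (convex_Icc a b)
      (fun s hs => (hder s (hsub s hs)).continuousAt.continuousWithinAt)
      (fun s hs => (hder s (hsub s (interior_subset hs))).differentiableAt.differentiableWithinAt)
      (fun s hs => by
        rw [(hder s (hsub s (interior_subset hs))).deriv]
        exact hC s (interior_subset hs)) a (left_mem_Icc.mpr hab) b (right_mem_Icc.mpr hab) hab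
  have s1 := hseg 0 (1 / 4) 0 le_rfl (by norm_num) (by norm_num)
    (fun s hs => (strip_side_G _ (hpos s ⟨hs.1, by linarith [hs.2]⟩).le
      (him s ⟨hs.1, by linarith [hs.2]⟩)).1)
  have s2 := hseg (1 / 4) (3 / 4) c0 (by norm_num) (by norm_num) (by norm_num)
    (fun s hs => (strip_side_G _ (hpos s ⟨by linarith [hs.1], by linarith [hs.2]⟩).le
      (him s ⟨by linarith [hs.1], by linarith [hs.2]⟩)).2 (him2 s hs))
  have s3 := hseg (3 / 4) 1 0 (by norm_num) (by norm_num) le_rfl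
    (fun s hs => (strip_side_G _ (hpos s ⟨by linarith [hs.1], hs.2⟩).le
      (him s ⟨by linarith [hs.1], hs.2⟩)).1)
  have htot : c0 / 2 ≤ φ 1 - φ 0 := by linarith
  have hφ10 : φ 1 - φ 0 = ((psi (exp x) - psi (exp y)) / (x - y)).re := by
    simp only [hφ, hξ]
    rw [sub_div, Complex.sub_re]
    simp
  have hle : ((psi (exp x) - psi (exp y)) / (x - y)).re ≤
      ‖psi (exp x) - psi (exp y)‖ / ‖x - y‖ := by
    rw [← norm_div]; exact Complex.re_le_norm _
  have hnp : 0 < ‖x - y‖ := norm_pos_iff.mpr hd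
  have hfin : c0 / 2 ≤ ‖psi (exp x) - psi (exp y)‖ / ‖x - y‖ := by
    rw [hφ10] at htot; linarith
  exact (le_div_iff₀ hnp).mp hfin

theorem strip_side : ∃ c : ℝ, 0 < c ∧ ∀ x y : ℂ, 0 ≤ x.re → x.re ≤ 1 → 0 ≤ x.im →
    x.im ≤ Real.pi / 4 → 0 ≤ y.re → y.re ≤ 1 → -(Real.pi / 4) ≤ y.im → y.im ≤ 0 →
    c * ‖x - y‖ ≤ ‖psi (exp x) - psi (exp y)‖ := by
  have hpi := Real.pi_pos
  refine ⟨cA * Real.sqrt (2 * Real.cos (3 * Real.pi / 8)) / 2, ?_, ?_⟩
  · have h1 : 0 < Real.cos (3 * Real.pi / 8) :=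
      Real.cos_pos_of_mem_Ioo ⟨by linarith, by linarith⟩
    have h2 : 0 < Real.sqrt (2 * Real.cos (3 * Real.pi / 8)) := Real.sqrt_pos.mpr (by linarith)
    have h3 := mul_pos cA_pos h2
    linarith
  · intro x y hx0 _ hx1 hx2 hy0 _ hy1 hy2
    have hcont : ∀ z : ℂ, 0 ≤ z.re →
        Tendsto (fun ε : ℝ => psi (exp (z + (ε : ℂ)))) (𝓝[>] 0) (𝓝 (psi (exp z))) := by
      intro z hz
      have h1 : ContinuousOn (fun ε : ℝ => psi (exp (z + (ε : ℂ)))) (Ici 0) := by
        apply psi_cont.comp (by fun_prop)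
        intro ε hε
        change 1 ≤ ‖exp (z + (ε : ℂ))‖
        rw [Complex.norm_exp]
        apply Real.one_le_exp
        rw [Complex.add_re, Complex.ofReal_re]
        exact add_nonneg hz hε
      have h2 := (h1 0 self_mem_Ici).tendsto
      simp only [Complex.ofReal_zero, add_zero] at h2
      exact h2.mono_left (nhdsWithin_mono _ Ioi_subset_Ici_self)
    have hlim : Tendsto (fun ε : ℝ => ‖psi (exp (x + (ε : ℂ))) - psi (exp (y + (ε : ℂ)))‖)
        (𝓝[>] 0) (𝓝 ‖psi (exp x) - psi (exp y)‖) :=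
      ((hcont x hx0).sub (hcont y hy0)).norm
    apply ge_of_tendsto hlim
    filter_upwards [self_mem_nhdsWithin] with ε hε
    have hε' : 0 < ε := hε
    have := strip_side_pos (x + (ε : ℂ)) (y + (ε : ℂ)) (by simp; linarith) (by simpa using hx1)
      (by simpa using hx2) (by simp; linarith) (by simpa using hy1) (by simpa using hy2)
    rwa [add_sub_add_right_eq_sub] at this

end Pool.Agent.Helper606.Fek
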