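import Pool.Agent.Helper606.Fek.Defs
import Pool.Agent.Helper606.Fek.P_psi_sym
import Pool.Agent.Helper606.Fek.P_sector_decomp
import Pool.Agent.Helper606.Fek.P_psi_far_pairs
import Pool.Agent.Helper606.Fek.P_strip_corner
import Pool.Agent.Helper606.Fek.P_strip_side

set_option autoImplicit false

namespace Pool.Agent.Helper606.Fek
open Complex Set Filter Topology


theorem psi_lower_S (w u : ℂ) (hw : ‖w‖ ≤ 2) (hu : ‖u‖ = 1) :
    ‖w ^ 4 + 1‖ ≤ 17 ∧ ‖u ^ 4 + 1‖ ≤ 17 ∧ ‖w - u‖ ≤ 3 ∧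
    Real.sqrt (‖w ^ 4 + 1‖ + ‖u ^ 4 + 1‖ + ‖w - u‖) ≤ 5 := by
  have h1 : ‖w ^ 4 + 1‖ ≤ 17 := by
    refine (norm_add_le _ _).trans ?_
    rw [norm_pow, norm_one]
    have := pow_le_pow_left₀ (norm_nonneg w) hw 4
    linarith
  have h2 : ‖u ^ 4 + 1‖ ≤ 2 := by
    refine (norm_add_le _ _).trans ?_
    rw [norm_pow, norm_one, hu]
    norm_num
  have h3 : ‖w - u‖ ≤ 3 := (norm_sub_le _ _).trans (by linarith)
  refine ⟨h1, by linarith, h3, ?_⟩
  rw [Real.sqrt_le_iff]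
  constructor
  · norm_num
  · linarith

theorem psi_lower_pow (ξ : ℂ) (hb : ‖exp ξ ^ 4 + 1‖ ≤ 17) :
    ‖(exp ξ) ^ 4 + 1‖ ≤ 68 * ‖ξ - (Real.pi / 4 : ℝ) * I‖ := by
  by_cases hs : ‖ξ - (Real.pi / 4 : ℝ) * I‖ ≤ 1 / 4
  · have e : exp ξ ^ 4 + 1 = -(exp (4 * (ξ - (Real.pi / 4 : ℝ) * I)) - 1) := by
      have h1 : 4 * (ξ - (Real.pi / 4 : ℝ) * I) = (4 : ℕ) * ξ - Real.pi * I := by
        push_cast
        ring
      rw [h1, Complex.exp_sub, Complex.exp_pi_mul_I, Complex.exp_nat_mul]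
      ring
    rw [e, norm_neg]
    have h2 : ‖4 * (ξ - (Real.pi / 4 : ℝ) * I)‖ = 4 * ‖ξ - (Real.pi / 4 : ℝ) * I‖ := by
      rw [norm_mul]
      norm_num
    have h := Complex.norm_exp_sub_one_le (x := 4 * (ξ - (Real.pi / 4 : ℝ) * I))
      (by rw [h2]; linarith)
    rw [h2] at h
    linarith [norm_nonneg (ξ - (Real.pi / 4 : ℝ) * I)]
  · push Not at hs
    linarith

theorem psi_lower_core : ∃ c : ℝ, 0 < c ∧ ∀ (α : ℝ) (w : ℂ), 0 ≤ α → α ≤ Real.pi / 4 →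
    1 ≤ ‖w‖ → ‖w‖ ≤ 2 → ‖w - exp (α * I)‖ < 1 / 10 →
    c * ‖w - exp (α * I)‖ * Real.sqrt (‖w ^ 4 + 1‖ + ‖exp (α * I) ^ 4 + 1‖ + ‖w - exp (α * I)‖)
      ≤ ‖psi w - psi (exp (α * I))‖ := by
  obtain ⟨c2, hc2, h2⟩ := strip_corner
  obtain ⟨c3, hc3, h3⟩ := strip_side
  refine ⟨min (c2 / 18) (c3 / 10), by positivity, ?_⟩
  intro α w hα0 hα1 hw1 hw2 hd
  have hpi := Real.pi_gt_three
  have hu : ‖exp (α * I)‖ = 1 := Complex.norm_exp_ofReal_mul_I α
  have hune : exp (α * I) ≠ 0 := Complex.exp_ne_zero _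
  obtain ⟨b1, b2, b3, b4⟩ := psi_lower_S w (exp (α * I)) hw2 hu
  obtain ⟨z, hz⟩ : ∃ z : ℂ, z = w / exp (α * I) - 1 := ⟨_, rfl⟩
  have hzn : ‖z‖ = ‖w - exp (α * I)‖ := by
    have : z = (w - exp (α * I)) / exp (α * I) := by
      rw [hz]
      field_simp
    rw [this, norm_div, hu, div_one]
  have h1z : 1 + z = w / exp (α * I) := by rw [hz]; ring
  have hwne : w ≠ 0 := by
    intro h0
    rw [h0, norm_zero] at hw1
    linarith
  have h1zne : 1 + z ≠ 0 := by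
    rw [h1z]
    exact div_ne_zero hwne hune
  obtain ⟨η, hη⟩ : ∃ η : ℂ, η = Complex.log (1 + z) := ⟨_, rfl⟩
  have hηn : ‖η‖ ≤ 3 / 2 * ‖z‖ := by
    rw [hη]
    exact Complex.norm_log_one_add_half_le_self (by rw [hzn]; linarith)
  have hexpη : exp η = 1 + z := by rw [hη]; exact Complex.exp_log h1zne
  have hw : exp (α * I + η) = w := by
    rw [Complex.exp_add, hexpη, h1z]
    field_simp
  have hηre : η.re = Real.log ‖w‖ := by
    rw [hη, Complex.log_re, h1z, norm_div, hu, div_one]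
  have hre0 : 0 ≤ η.re := by rw [hηre]; exact Real.log_nonneg hw1
  have hre1 : η.re ≤ 1 := by
    have := Complex.abs_re_le_norm η
    have := le_abs_self η.re
    rw [hzn] at hηn
    linarith
  have him : |η.im| ≤ 3 / 20 := by
    have := Complex.abs_im_le_norm η
    rw [hzn] at hηn
    linarith
  rw [abs_le] at him
  have hwu : ‖w - exp (α * I)‖ ≤ 2 * ‖η‖ := by
    rw [← hzn]
    have : z = exp η - 1 := by rw [hexpη]; ring
    rw [this]
    exact Complex.norm_exp_sub_one_le (by rw [hzn] at hηn; linarith)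
  have e1 : (α * I + η).re = η.re := by simp
  have e2 : (α * I + η).im = α + η.im := by simp
  have e3 : (α * I : ℂ).re = 0 := by simp
  have e4 : (α * I : ℂ).im = α := by simp
  have hS0 : 0 ≤ Real.sqrt (‖w ^ 4 + 1‖ + ‖exp (α * I) ^ 4 + 1‖ + ‖w - exp (α * I)‖) :=
    Real.sqrt_nonneg _
  by_cases hβ : 0 ≤ α + η.im
  · have k := h2 (α * I + η) (α * I) (by rw [e1]; exact hre0) (by rw [e1]; exact hre1)
      (by rw [e2]; exact hβ) (by rw [e2]; linarith) (by rw [e3]) (by rw [e3]; norm_num)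
      (by rw [e4]; exact hα0) (by rw [e4]; linarith)
    rw [hw, add_sub_cancel_left] at k
    have p1 := psi_lower_pow (α * I + η) (by rw [hw]; exact b1)
    have p2 := psi_lower_pow (α * I) b2
    rw [hw] at p1
    have p3 : ‖η‖ ≤ ‖(α * I + η) - (Real.pi / 4 : ℝ) * I‖ + ‖α * I - (Real.pi / 4 : ℝ) * I‖ := by
      have : η = ((α * I + η) - (Real.pi / 4 : ℝ) * I) - (α * I - (Real.pi / 4 : ℝ) * I) := by
        ring
      calc ‖η‖ = ‖((α * I + η) - (Real.pi / 4 : ℝ) * I) - (α * I - (Real.pi / 4 : ℝ) * I)‖ := by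
            rw [← this]
        _ ≤ _ := norm_sub_le _ _
    generalize ‖(α * I + η) - (Real.pi / 4 : ℝ) * I‖ = D1 at *
    generalize ‖α * I - (Real.pi / 4 : ℝ) * I‖ = D2 at *
    have p4 : Real.sqrt (‖w ^ 4 + 1‖ + ‖exp (α * I) ^ 4 + 1‖ + ‖w - exp (α * I)‖)
        ≤ 9 * Real.sqrt (D1 + D2) := by
      have h81 : (9:ℝ) = Real.sqrt 81 := by
        rw [show (81:ℝ) = 9 ^ 2 by norm_num, Real.sqrt_sq (by norm_num)]
      rw [h81, ← Real.sqrt_mul (by norm_num)]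
      apply Real.sqrt_le_sqrt
      have := norm_nonneg η
      linarith
    generalize Real.sqrt (‖w ^ 4 + 1‖ + ‖exp (α * I) ^ 4 + 1‖ + ‖w - exp (α * I)‖) = S at *
    have hS' : 0 ≤ Real.sqrt (D1 + D2) := Real.sqrt_nonneg _
    generalize Real.sqrt (D1 + D2) = S' at *
    have hη0 := norm_nonneg η
    calc min (c2 / 18) (c3 / 10) * ‖w - exp (α * I)‖ * S
        ≤ c2 / 18 * (2 * ‖η‖) * (9 * S') := by
          apply mul_le_mul _ p4 hS0 (by positivity)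
          exact mul_le_mul (min_le_left _ _) hwu (norm_nonneg _) (by positivity)
      _ = c2 * ‖η‖ * S' := by ring
      _ ≤ _ := k
  · push Not at hβ
    have k := h3 (α * I) (α * I + η) (by rw [e3]) (by rw [e3]; norm_num)
      (by rw [e4]; exact hα0) (by rw [e4]; linarith) (by rw [e1]; exact hre0)
      (by rw [e1]; exact hre1) (by rw [e2]; linarith) (by rw [e2]; linarith)
    rw [hw, norm_sub_rev, add_sub_cancel_left, norm_sub_rev (psi _)] at k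
    have hη0 := norm_nonneg η
    calc min (c2 / 18) (c3 / 10) * ‖w - exp (α * I)‖ * _
        ≤ c3 / 10 * (2 * ‖η‖) * 5 := by
          apply mul_le_mul _ b4 hS0 (by positivity)
          exact mul_le_mul (min_le_right _ _) hwu (norm_nonneg _) (by positivity)
      _ = c3 * ‖η‖ := by ring
      _ ≤ _ := k

theorem psi_lower_core' : ∃ c : ℝ, 0 < c ∧ ∀ (α : ℝ) (w : ℂ), |α| ≤ Real.pi / 4 →
    1 ≤ ‖w‖ → ‖w‖ ≤ 2 → ‖w - exp (α * I)‖ < 1 / 10 →
    c * ‖w - exp (α * I)‖ * Real.sqrt (‖w ^ 4 + 1‖ + ‖exp (α * I) ^ 4 + 1‖ + ‖w - exp (α * I)‖)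
      ≤ ‖psi w - psi (exp (α * I))‖ := by
  obtain ⟨c, hc, h⟩ := psi_lower_core
  refine ⟨c, hc, fun α w hα hw1 hw2 hd => ?_⟩
  rw [abs_le] at hα
  by_cases h0 : 0 ≤ α
  · exact h α w h0 hα.2 hw1 hw2 hd
  · push Not at h0
    have ec : exp (((-α : ℝ) : ℂ) * I) = (starRingEnd ℂ) (exp (α * I)) := by
      rw [← Complex.exp_conj]
      congr 1
      simp
    have hnw : ‖(starRingEnd ℂ) w‖ = ‖w‖ := Complex.norm_conj w
    have hsub : ‖(starRingEnd ℂ) w - (starRingEnd ℂ) (exp (α * I))‖ = ‖w - exp (α * I)‖ := by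
      rw [← map_sub, Complex.norm_conj]
    have hp : ∀ v : ℂ, ‖(starRingEnd ℂ) v ^ 4 + 1‖ = ‖v ^ 4 + 1‖ := by
      intro v
      have : (starRingEnd ℂ) v ^ 4 + 1 = (starRingEnd ℂ) (v ^ 4 + 1) := by simp
      rw [this, Complex.norm_conj]
    have k := h (-α) ((starRingEnd ℂ) w) (by linarith) (by linarith) (by rw [hnw]; exact hw1)
      (by rw [hnw]; exact hw2) (by rw [ec, hsub]; exact hd)
    rw [ec, hsub, hp, hp, psi_conj w hw1,
      psi_conj _ (le_of_eq (Complex.norm_exp_ofReal_mul_I α).symm), ← map_sub,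
      Complex.norm_conj] at k
    exact k

theorem psi_lower : ∃ c : ℝ, 0 < c ∧ ∀ w u : ℂ, 1 ≤ ‖w‖ → ‖w‖ ≤ 2 → ‖u‖ = 1 →
    c * ‖w - u‖ * Real.sqrt (‖w ^ 4 + 1‖ + ‖u ^ 4 + 1‖ + ‖w - u‖) ≤ ‖psi w - psi u‖ := by
  obtain ⟨c1, hc1, h1⟩ := psi_far_pairs (1 / 10) (by norm_num)
  obtain ⟨c2, hc2, h2⟩ := psi_lower_core'
  refine ⟨min (c1 / 15) c2, by positivity, ?_⟩
  intro w u hw1 hw2 hu
  obtain ⟨b1, b2, b3, b4⟩ := psi_lower_S w u hw2 hu
  have hS0 : 0 ≤ Real.sqrt (‖w ^ 4 + 1‖ + ‖u ^ 4 + 1‖ + ‖w - u‖) := Real.sqrt_nonneg _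
  by_cases hd : 1 / 10 ≤ ‖w - u‖
  · have k := h1 w u hw1 hw2 hu hd
    calc min (c1 / 15) c2 * ‖w - u‖ * Real.sqrt (‖w ^ 4 + 1‖ + ‖u ^ 4 + 1‖ + ‖w - u‖)
        ≤ c1 / 15 * 3 * 5 := by
          apply mul_le_mul _ b4 hS0 (by positivity)
          exact mul_le_mul (min_le_left _ _) b3 (norm_nonneg _) (by positivity)
      _ = c1 := by ring
      _ ≤ _ := k
  · push Not at hd
    have hu0 : u ≠ 0 := by
      intro h0
      rw [h0, norm_zero] at hu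
      exact zero_ne_one hu
    obtain ⟨m, θ, hθ, hm⟩ := sector_decomp u hu0
    rw [hu, Complex.ofReal_one, one_mul] at hm
    have hIm : ‖(I:ℂ) ^ m‖ = 1 := by rw [norm_pow, Complex.norm_I, one_pow]
    have hrot : ∀ v : ℂ, psi (I ^ m * v) = I ^ m * psi v := by
      intro v
      clear hm hIm
      induction m with
      | zero => simp
      | succ m ih => rw [pow_succ', mul_assoc, psi_rot, ih, mul_assoc]
    have hp : ∀ v : ℂ, (I ^ m * v) ^ 4 = v ^ 4 := by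
      intro v
      rw [mul_pow, ← pow_mul, mul_comm m 4, pow_mul, Complex.I_pow_four, one_pow, one_mul]
    have hnw : ‖I ^ m * w‖ = ‖w‖ := by rw [norm_mul, hIm, one_mul]
    have hsub : ‖I ^ m * w - I ^ m * u‖ = ‖w - u‖ := by
      rw [← mul_sub, norm_mul, hIm, one_mul]
    have k := h2 θ (I ^ m * w) hθ (by rw [hnw]; exact hw1) (by rw [hnw]; exact hw2)
      (by rw [← hm, hsub]; exact hd)
    rw [← hm, hsub, hp, hp, hrot, hrot, ← mul_sub, norm_mul, hIm, one_mul] at k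
    refine le_trans ?_ k
    apply mul_le_mul_of_nonneg_right _ hS0
    exact mul_le_mul_of_nonneg_right (min_le_right _ _) (norm_nonneg _)

end Pool.Agent.Helper606.Fek
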