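import Pool.Agent.Helper606.Fek.Defs
import Pool.Agent.Helper606.Fek.P_psi_far
import Pool.Agent.Helper606.Fek.P_psi_lower

set_option autoImplicit false

namespace Pool.Agent.Helper606.Fek
open Complex Set Filter Topology


theorem rho_away : ∃ c : ℝ, 0 < c ∧ ∀ n : ℕ, 1 ≤ n → ∀ w u : ℂ, 1 + 1 / (n:ℝ) ≤ ‖w‖ → ‖u‖ = 1 →
    c * rho n u ≤ ‖psi w - psi u‖ := by
  obtain ⟨c1, hc1, h1⟩ := psi_far
  obtain ⟨c2, hc2, h2⟩ := psi_lower
  refine ⟨min (c1 / 2) c2, lt_min (by linarith) hc2, ?_⟩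
  intro n hn w u hw hu
  have hn1 : (1 : ℝ) ≤ n := by exact_mod_cast hn
  have hn0 : (0 : ℝ) < n := by linarith
  have hinv : 1 / (n : ℝ) ≤ 1 := by rw [div_le_one hn0]; exact hn1
  have hinv0 : 0 < 1 / (n : ℝ) := by positivity
  have hrho0 : 0 ≤ rho n u := by unfold rho; positivity
  have hu4 : ‖u ^ 4 + 1‖ ≤ 2 := by
    refine (norm_add_le _ _).trans ?_
    rw [norm_pow, hu, norm_one]
    norm_num
  rcases le_total 2 ‖w‖ with h | h
  · refine le_trans ?_ (h1 w u h hu)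
    have hs : Real.sqrt (‖u ^ 4 + 1‖ + 1 / (n : ℝ)) ≤ 2 := by
      rw [Real.sqrt_le_left (by norm_num)]
      linarith
    have hr : rho n u ≤ 2 := by
      unfold rho
      calc 1 / (n : ℝ) * Real.sqrt (‖u ^ 4 + 1‖ + 1 / (n : ℝ)) ≤ 1 * 2 :=
            mul_le_mul hinv hs (Real.sqrt_nonneg _) (by norm_num)
        _ = 2 := by norm_num
    calc min (c1 / 2) c2 * rho n u ≤ (c1 / 2) * 2 :=
          mul_le_mul (min_le_left _ _) hr hrho0 (by linarith)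
      _ = c1 := by ring
  · have hw1 : 1 ≤ ‖w‖ := by linarith
    refine le_trans ?_ (h2 w u hw1 h hu)
    have hd : 1 / (n : ℝ) ≤ ‖w - u‖ := by
      have := norm_sub_norm_le w u
      rw [hu] at this
      linarith
    have hs : Real.sqrt (‖u ^ 4 + 1‖ + 1 / (n : ℝ)) ≤
        Real.sqrt (‖w ^ 4 + 1‖ + ‖u ^ 4 + 1‖ + ‖w - u‖) := by
      apply Real.sqrt_le_sqrt
      have := norm_nonneg (w ^ 4 + 1)
      linarith
    calc min (c1 / 2) c2 * rho n u ≤ c2 * rho n u :=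
          mul_le_mul_of_nonneg_right (min_le_right _ _) hrho0
      _ = c2 * (1 / (n : ℝ)) * Real.sqrt (‖u ^ 4 + 1‖ + 1 / (n : ℝ)) := by unfold rho; ring
      _ ≤ c2 * ‖w - u‖ * Real.sqrt (‖w ^ 4 + 1‖ + ‖u ^ 4 + 1‖ + ‖w - u‖) := by
          apply mul_le_mul _ hs (Real.sqrt_nonneg _) (by positivity)
          exact mul_le_mul_of_nonneg_left hd hc2.le

end Pool.Agent.Helper606.Fek
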