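import Pool.Agent.Helper606.Fek.Defs
import Pool.Agent.Helper606.Fek.P_psi_ext_surj
import Pool.Agent.Helper606.Fek.P_rho_away
import Pool.Agent.Helper606.Fek.P_bern_walsh
import Pool.Agent.Helper606.Fek.P_max_square

set_option autoImplicit false

namespace Pool.Agent.Helper606.Fek
open Complex Set Filter Topology


theorem local_bern : ∃ c : ℝ, 0 < c ∧ ∀ n : ℕ, 1 ≤ n → ∀ p : Polynomial ℂ, p.natDegree ≤ n →
    ∀ B : ℝ, (∀ z ∈ sq, ‖p.eval z‖ ≤ B) → ∀ u : ℂ, ‖u‖ = 1 → ∀ z : ℂ,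
    ‖z - psi u‖ ≤ c * rho n u → ‖p.eval z‖ ≤ 3 * B := by
  obtain ⟨c, hc, H⟩ := rho_away
  refine ⟨c / 2, by positivity, ?_⟩
  intro n hn p hp B hB u hu z hz
  have hn0 : (0 : ℝ) < n := by exact_mod_cast hn
  have hB0 : 0 ≤ B := by
    have h1 : (1 : ℂ) ∈ sq := by
      change max |(1 : ℂ).re| |(1 : ℂ).im| = 1
      simp
    exact (norm_nonneg _).trans (hB 1 h1)
  by_cases h : max |z.re| |z.im| ≤ 1
  · exact (max_square p B hB z h).trans (by linarith)
  · obtain ⟨w, hw, rfl⟩ := psi_ext_surj z (not_le.mp h)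
    have hrho : 0 < rho n u := by
      unfold rho
      have h1 : (0 : ℝ) < 1 / (n : ℝ) := by positivity
      have h2 : 0 < Real.sqrt (‖u ^ 4 + 1‖ + 1 / (n:ℝ)) :=
        Real.sqrt_pos.mpr (by have := norm_nonneg (u ^ 4 + 1); linarith)
      exact mul_pos h1 h2
    by_cases h2 : 1 + 1 / (n:ℝ) ≤ ‖w‖
    · have h3 := H n hn w u h2 hu
      nlinarith
    · have h3 := bern_walsh p n B hp hB w hw.le
      have h4 : ‖w‖ ^ n ≤ 3 := by
        have h5 : ‖w‖ ≤ Real.exp (1 / (n:ℝ)) := by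
          have := Real.add_one_le_exp (1 / (n:ℝ))
          linarith [not_le.mp h2]
        calc ‖w‖ ^ n ≤ Real.exp (1 / (n:ℝ)) ^ n := pow_le_pow_left₀ (norm_nonneg _) h5 n
          _ = Real.exp 1 := by
            rw [← Real.exp_nat_mul]
            congr 1
            field_simp
          _ ≤ 3 := Real.exp_one_lt_three.le
      calc ‖p.eval (psi w)‖ ≤ B * ‖w‖ ^ n := h3
        _ ≤ B * 3 := mul_le_mul_of_nonneg_left h4 hB0
        _ = 3 * B := mul_comm _ _

end Pool.Agent.Helper606.Fek
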