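import Pool.Agent.Helper606.Fek.Defs
import Pool.Agent.Helper606.Fek.P_local_bern

set_option autoImplicit false

namespace Pool.Agent.Helper606.Fek
open Complex Set Filter Topology


theorem local_lip : ∃ c : ℝ, 0 < c ∧ ∀ n : ℕ, 1 ≤ n → ∀ p : Polynomial ℂ, p.natDegree ≤ n →
    ∀ B : ℝ, (∀ z ∈ sq, ‖p.eval z‖ ≤ B) → ∀ u : ℂ, ‖u‖ = 1 → ∀ z : ℂ,
    ‖z - psi u‖ ≤ c * rho n u → ‖p.eval z - p.eval (psi u)‖ ≤ B / 2 := by
  obtain ⟨c0, hc0, hb⟩ := local_bern
  refine ⟨c0 / 12, by positivity, fun n hn p hp B hB u hu z hz => ?_⟩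
  have hn' : (0:ℝ) < n := by exact_mod_cast hn
  have hrho : 0 < rho n u := by
    unfold rho
    have : 0 < ‖u ^ 4 + 1‖ + 1 / (n:ℝ) := by positivity
    positivity
  have hB0 : 0 ≤ B := by
    have h1 : (1:ℂ) ∈ sq := by simp [sq]
    exact (norm_nonneg _).trans (hB 1 h1)
  set R : ℝ := c0 * rho n u with hR
  have hRpos : 0 < R := by positivity
  have hd : ∀ w ∈ Metric.closedBall (psi u) (R / 2), ‖deriv (fun z => p.eval z) w‖ ≤ 6 * B / R := by
    intro w hw
    rw [Metric.mem_closedBall, dist_eq_norm] at hw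
    have := Complex.norm_deriv_le_of_forall_mem_sphere_norm_le (c := w) (R := R / 2) (C := 3 * B)
      (f := fun z => p.eval z) (by positivity) p.differentiable.diffContOnCl (by
        intro z hz
        rw [mem_sphere_iff_norm] at hz
        apply hb n hn p hp B hB u hu z
        calc ‖z - psi u‖ ≤ ‖z - w‖ + ‖w - psi u‖ := norm_sub_le_norm_sub_add_norm_sub _ _ _
          _ ≤ R := by linarith)
    refine this.trans (le_of_eq ?_)
    field_simp
    ring
  have h1 := Convex.norm_image_sub_le_of_norm_deriv_le (𝕜 := ℂ) (f := fun z => p.eval z)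
    (s := Metric.closedBall (psi u) (R / 2)) (x := psi u) (y := z) (C := 6 * B / R)
    (fun x _ => p.differentiable.differentiableAt) hd (convex_closedBall _ _)
    (Metric.mem_closedBall_self (by positivity)) (by
      rw [Metric.mem_closedBall, dist_eq_norm]
      have : c0 / 12 * rho n u = R / 12 := by rw [hR]; ring
      linarith)
  refine h1.trans ?_
  have h2 : ‖z - psi u‖ ≤ R / 12 := by
    have : c0 / 12 * rho n u = R / 12 := by rw [hR]; ring
    linarith
  calc 6 * B / R * ‖z - psi u‖ ≤ 6 * B / R * (R / 12) :=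
        mul_le_mul_of_nonneg_left h2 (by positivity)
    _ = B / 2 := by field_simp; ring

end Pool.Agent.Helper606.Fek
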