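import Pool.Agent.Helper606.Fek.Defs
import Pool.Agent.Helper606.Fek.P_csq_basic
import Pool.Agent.Helper606.Fek.P_cA_pos

set_option autoImplicit false

namespace Pool.Agent.Helper606.Fek
open Complex Set Filter Topology


theorem dpsi_sq (w : ℂ) : dpsi w ^ 2 = (cA : ℂ) ^ 2 * (1 + (w⁻¹) ^ 4) := by
  rw [dpsi, mul_pow, csq_sq]

theorem dpsi_norm (w : ℂ) (hw : w ≠ 0) : ‖w * dpsi w‖ = cA * Real.sqrt (‖w ^ 4 + 1‖) / ‖w‖ := by
  have hn : 0 < ‖w‖ := norm_pos_iff.mpr hw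
  have h1 : (1 + (w⁻¹) ^ 4 : ℂ) = (w ^ 4 + 1) / (w ^ 2) ^ 2 := by
    field_simp
  rw [dpsi, norm_mul, norm_mul, csq_norm, h1, norm_div, norm_pow (w ^ 2) 2, Real.sqrt_div (norm_nonneg _),
    Real.sqrt_sq (norm_nonneg _), norm_pow, Complex.norm_real, Real.norm_of_nonneg cA_pos.le]
  field_simp

end Pool.Agent.Helper606.Fek
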