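import Pool.Agent.Helper606.Fek.Defs
import Pool.Agent.Helper606.Fek.P_cA_pos
import Pool.Agent.Helper606.Fek.P_psi_deriv
import Pool.Agent.Helper606.Fek.P_psi_cont
import Pool.Agent.Helper606.Fek.P_psi_near
import Pool.Agent.Helper606.Fek.P_dpsi_sq

set_option autoImplicit false

namespace Pool.Agent.Helper606.Fek
open Complex Set Filter Topology


theorem pu_eps (w u : ℂ) (hw1 : 1 ≤ ‖w‖) (hw2 : ‖w‖ ≤ 2) (hu : ‖u‖ = 1)
    (hwu : ‖w - u‖ < 1 / 4) (ε : ℝ) (hε : 0 < ε) (hε1 : ε ≤ 1 / 2) :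
    ‖psi (((1 + ε : ℝ) : ℂ) * w) - psi (((1 + ε : ℝ) : ℂ) * u)‖ ≤
      (3 / 2 * ‖w - u‖) * (cA * Real.sqrt (‖u ^ 4 + 1‖ + 120 * ‖w - u‖ + 80 * ε)) := by
  have hu0 : u ≠ 0 := by
    intro h; rw [h, norm_zero] at hu; exact zero_ne_one hu
  have hw0 : w ≠ 0 := by
    intro h; rw [h, norm_zero] at hw1; linarith
  have hq0 : w / u ≠ 0 := div_ne_zero hw0 hu0
  obtain ⟨η, hη⟩ : ∃ η, η = Complex.log (w / u) := ⟨_, rfl⟩
  have hexp : Complex.exp η = w / u := by rw [hη, Complex.exp_log hq0]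
  have hz : w / u = 1 + (w - u) / u := by field_simp; ring
  have hzn : ‖(w - u) / u‖ = ‖w - u‖ := by rw [norm_div, hu, div_one]
  have hηn : ‖η‖ ≤ 3 / 2 * ‖w - u‖ := by
    rw [hη, hz, ← hzn]
    apply Complex.norm_log_one_add_half_le_self
    rw [hzn]; linarith
  have hηre : η.re = Real.log ‖w‖ := by
    rw [hη, Complex.log_re, norm_div, hu, div_one]
  have hre0 : 0 ≤ η.re := by rw [hηre]; exact Real.log_nonneg hw1
  have hcA := cA_pos
  set W : ℝ → ℂ := fun s => ((1 + ε : ℝ) : ℂ) * (u * Complex.exp ((s : ℂ) * η)) with hW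
  have hWd : ∀ s : ℝ, HasDerivAt W (W s * η) s := by
    intro s
    have h1 : HasDerivAt (fun s : ℝ => (s : ℂ) * η) η s := by
      simpa using (Complex.ofRealCLM.hasDerivAt (x := s)).mul_const η
    have h2 := ((h1.cexp).const_mul u).const_mul (((1 + ε : ℝ) : ℂ))
    have h3 : W s * η = ((1 + ε : ℝ) : ℂ) * (u * (Complex.exp ((s : ℂ) * η) * η)) := by
      simp only [hW]; ring
    rw [h3]
    exact h2
  have hnexp : ∀ s : ℝ, ‖Complex.exp ((s : ℂ) * η)‖ = Real.exp (s * η.re) := by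
    intro s
    rw [Complex.norm_exp]; simp
  have hWn : ∀ s : ℝ, ‖W s‖ = (1 + ε) * Real.exp (s * η.re) := by
    intro s
    simp only [hW]
    rw [norm_mul, norm_mul, hu, hnexp, one_mul, Complex.norm_real, Real.norm_eq_abs,
      abs_of_pos (by linarith)]
  have hWgt : ∀ s : ℝ, 0 ≤ s → 1 < ‖W s‖ := by
    intro s hs
    rw [hWn]
    have : 1 ≤ Real.exp (s * η.re) := Real.one_le_exp (mul_nonneg hs hre0)
    nlinarith
  have hele : ∀ s : ℝ, 0 ≤ s → s ≤ 1 → Real.exp (s * η.re) ≤ 2 := by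
    intro s hs0 hs1
    have h1 : Real.exp (s * η.re) ≤ Real.exp η.re := by
      apply Real.exp_le_exp.2
      nlinarith
    rw [hηre, Real.exp_log (by linarith)] at h1
    rw [hηre]
    linarith
  have hWle : ∀ s : ℝ, 0 ≤ s → s ≤ 1 → ‖W s‖ ≤ 3 := by
    intro s hs0 hs1
    rw [hWn]
    have := hele s hs0 hs1
    have h0 := Real.exp_pos (s * η.re)
    nlinarith
  have hWu : ∀ s : ℝ, 0 ≤ s → s ≤ 1 → ‖W s - u‖ ≤ 3 * ‖w - u‖ + 2 * ε := by
    intro s hs0 hs1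
    have h1 : W s - u = u * (Complex.exp ((s : ℂ) * η) - 1) +
        (ε : ℂ) * (u * Complex.exp ((s : ℂ) * η)) := by
      simp only [hW]; push_cast; ring
    have hsn : ‖(s : ℂ) * η‖ ≤ ‖η‖ := by
      rw [norm_mul, Complex.norm_real, Real.norm_eq_abs, abs_of_nonneg hs0]
      have := norm_nonneg η
      nlinarith
    have h2 : ‖Complex.exp ((s : ℂ) * η) - 1‖ ≤ 2 * ‖(s : ℂ) * η‖ :=
      Complex.norm_exp_sub_one_le (by linarith)
    rw [h1]
    refine (norm_add_le _ _).trans ?_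
    rw [norm_mul, norm_mul, norm_mul, hu, one_mul, one_mul, hnexp, Complex.norm_real,
      Real.norm_eq_abs, abs_of_pos hε]
    have h3 := hele s hs0 hs1
    have h4 : ε * Real.exp (s * η.re) ≤ ε * 2 := mul_le_mul_of_nonneg_left h3 hε.le
    linarith
  have hW4 : ∀ s : ℝ, 0 ≤ s → s ≤ 1 →
      ‖(W s) ^ 4 + 1‖ ≤ ‖u ^ 4 + 1‖ + 120 * ‖w - u‖ + 80 * ε := by
    intro s hs0 hs1
    have h1 : (W s) ^ 4 + 1 = (u ^ 4 + 1) + (W s - u) * ((W s) ^ 3 + (W s) ^ 2 * u +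
        (W s) * u ^ 2 + u ^ 3) := by ring
    have h2 := hWle s hs0 hs1
    have h3 : ‖(W s) ^ 3 + (W s) ^ 2 * u + (W s) * u ^ 2 + u ^ 3‖ ≤ 40 := by
      have a0 := norm_nonneg (W s)
      have a1 : ‖(W s) ^ 3‖ ≤ 27 := by
        rw [norm_pow]
        calc ‖W s‖ ^ 3 ≤ 3 ^ 3 := pow_le_pow_left₀ a0 h2 3
          _ = 27 := by norm_num
      have a2 : ‖(W s) ^ 2 * u‖ ≤ 9 := by
        rw [norm_mul, norm_pow, hu, mul_one]
        calc ‖W s‖ ^ 2 ≤ 3 ^ 2 := pow_le_pow_left₀ a0 h2 2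
          _ = 9 := by norm_num
      have a3 : ‖(W s) * u ^ 2‖ ≤ 3 := by
        rw [norm_mul, norm_pow, hu]; simpa using h2
      have a4 : ‖u ^ 3‖ ≤ 1 := by rw [norm_pow, hu]; simp
      have b1 := norm_add_le ((W s) ^ 3 + (W s) ^ 2 * u + (W s) * u ^ 2) (u ^ 3)
      have b2 := norm_add_le ((W s) ^ 3 + (W s) ^ 2 * u) ((W s) * u ^ 2)
      have b3 := norm_add_le ((W s) ^ 3) ((W s) ^ 2 * u)
      linarith
    rw [h1]
    refine (norm_add_le _ _).trans ?_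
    rw [norm_mul]
    have h4 := hWu s hs0 hs1
    have h5 : ‖W s - u‖ * ‖(W s) ^ 3 + (W s) ^ 2 * u + (W s) * u ^ 2 + u ^ 3‖ ≤
        (3 * ‖w - u‖ + 2 * ε) * 40 :=
      mul_le_mul h4 h3 (norm_nonneg _) (by positivity)
    linarith
  have hmv := norm_image_sub_le_of_norm_deriv_le_segment_01' (f := fun s => psi (W s))
    (f' := fun s => dpsi (W s) * (W s * η))
    (C := (3 / 2 * ‖w - u‖) * (cA * Real.sqrt (‖u ^ 4 + 1‖ + 120 * ‖w - u‖ + 80 * ε)))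
    (by
      intro s hs
      have h1 := psi_deriv (W s) (hWgt s hs.1)
      exact (h1.comp_of_eq s (hWd s) rfl).hasDerivWithinAt)
    (by
      intro s hs
      have h0 : W s ≠ 0 := by
        intro h
        have := hWgt s hs.1
        rw [h, norm_zero] at this
        linarith
      have h1 : dpsi (W s) * (W s * η) = η * (W s * dpsi (W s)) := by ring
      rw [h1, norm_mul, dpsi_norm (W s) h0]
      apply mul_le_mul hηn _ (by positivity) (by positivity)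
      have h2 := hWgt s hs.1
      rw [div_le_iff₀ (by linarith)]
      have h3 : Real.sqrt ‖(W s) ^ 4 + 1‖ ≤
          Real.sqrt (‖u ^ 4 + 1‖ + 120 * ‖w - u‖ + 80 * ε) :=
        Real.sqrt_le_sqrt (hW4 s hs.1 hs.2.le)
      have h4 : cA * Real.sqrt ‖(W s) ^ 4 + 1‖ ≤
          cA * Real.sqrt (‖u ^ 4 + 1‖ + 120 * ‖w - u‖ + 80 * ε) :=
        mul_le_mul_of_nonneg_left h3 hcA.le
      have h5 : 0 ≤ cA * Real.sqrt (‖u ^ 4 + 1‖ + 120 * ‖w - u‖ + 80 * ε) := by positivity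
      nlinarith)
  have hW1 : W 1 = ((1 + ε : ℝ) : ℂ) * w := by
    simp only [hW]
    rw [Complex.ofReal_one, one_mul, hexp]
    congr 1
    field_simp
  have hW0 : W 0 = ((1 + ε : ℝ) : ℂ) * u := by
    simp only [hW]
    simp
  simp only [hW1, hW0] at hmv
  exact hmv

theorem pu_lim (w : ℂ) (hw : 1 ≤ ‖w‖) :
    Tendsto (fun ε : ℝ => psi (((1 + ε : ℝ) : ℂ) * w)) (𝓝[>] 0) (𝓝 (psi w)) := by
  have h1 : Tendsto (fun ε : ℝ => (((1 + ε : ℝ) : ℂ) * w)) (𝓝[>] 0) (𝓝 w) := by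
    have h2 : Continuous (fun ε : ℝ => (((1 + ε : ℝ) : ℂ) * w)) := by fun_prop
    have h3 := h2.tendsto 0
    simp only [add_zero, Complex.ofReal_one, one_mul] at h3
    exact h3.mono_left nhdsWithin_le_nhds
  have h4 : Tendsto (fun ε : ℝ => (((1 + ε : ℝ) : ℂ) * w)) (𝓝[>] 0)
      (𝓝[{w : ℂ | 1 ≤ ‖w‖}] w) := by
    rw [tendsto_nhdsWithin_iff]
    refine ⟨h1, ?_⟩
    filter_upwards [self_mem_nhdsWithin] with ε hε
    have hε' : 0 < ε := hε
    change 1 ≤ ‖((1 + ε : ℝ) : ℂ) * w‖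
    rw [norm_mul, Complex.norm_real, Real.norm_eq_abs, abs_of_pos (by linarith)]
    nlinarith
  exact (psi_cont w hw).tendsto.comp h4

theorem psi_upper : ∃ C : ℝ, 0 < C ∧ ∀ w u : ℂ, 1 ≤ ‖w‖ → ‖w‖ ≤ 2 → ‖u‖ = 1 →
    ‖psi w - psi u‖ ≤ C * ‖w - u‖ * Real.sqrt (‖u ^ 4 + 1‖ + ‖w - u‖) := by
  have hcA := cA_pos
  refine ⟨17 * cA, by positivity, ?_⟩
  intro w u hw1 hw2 hu
  have hnn := norm_nonneg (w - u)
  by_cases hwu : ‖w - u‖ < 1 / 4
  · have hl : Tendsto (fun ε : ℝ => ‖psi (((1 + ε : ℝ) : ℂ) * w) -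
        psi (((1 + ε : ℝ) : ℂ) * u)‖) (𝓝[>] 0) (𝓝 ‖psi w - psi u‖) :=
      ((pu_lim w hw1).sub (pu_lim u hu.ge)).norm
    have hr : Tendsto (fun ε : ℝ => (3 / 2 * ‖w - u‖) *
        (cA * Real.sqrt (‖u ^ 4 + 1‖ + 120 * ‖w - u‖ + 80 * ε))) (𝓝[>] 0)
        (𝓝 ((3 / 2 * ‖w - u‖) * (cA * Real.sqrt (‖u ^ 4 + 1‖ + 120 * ‖w - u‖ + 80 * 0)))) := by
      have hc : Continuous (fun ε : ℝ => (3 / 2 * ‖w - u‖) *
        (cA * Real.sqrt (‖u ^ 4 + 1‖ + 120 * ‖w - u‖ + 80 * ε))) := by fun_prop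
      exact (hc.tendsto 0).mono_left nhdsWithin_le_nhds
    have hle := le_of_tendsto_of_tendsto hl hr (by
      filter_upwards [Ioo_mem_nhdsGT (show (0 : ℝ) < 1 / 2 by norm_num)] with ε hε
      exact pu_eps w u hw1 hw2 hu hwu ε hε.1 hε.2.le)
    refine hle.trans ?_
    rw [mul_zero, add_zero]
    have h1 : Real.sqrt (‖u ^ 4 + 1‖ + 120 * ‖w - u‖) ≤
        11 * Real.sqrt (‖u ^ 4 + 1‖ + ‖w - u‖) := by
      rw [Real.sqrt_le_left (by positivity), mul_pow, Real.sq_sqrt (by positivity)]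
      have := norm_nonneg (u ^ 4 + 1)
      linarith
    have h2 : (3 / 2 * ‖w - u‖) * (cA * Real.sqrt (‖u ^ 4 + 1‖ + 120 * ‖w - u‖)) ≤
        (3 / 2 * ‖w - u‖) * (cA * (11 * Real.sqrt (‖u ^ 4 + 1‖ + ‖w - u‖))) := by
      apply mul_le_mul_of_nonneg_left _ (by positivity)
      exact mul_le_mul_of_nonneg_left h1 hcA.le
    refine h2.trans ?_
    have h3 : 0 ≤ cA * ‖w - u‖ * Real.sqrt (‖u ^ 4 + 1‖ + ‖w - u‖) := by positivity
    nlinarith
  · push Not at hwu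
    have h1 := psi_near w hw1
    have h2 := psi_near u hu.ge
    have h3 : psi w - psi u = (psi w - cA * w) + (cA : ℂ) * (w - u) - (psi u - cA * u) := by ring
    have h4 : ‖psi w - psi u‖ ≤ cA / 3 + cA * ‖w - u‖ + cA / 3 := by
      rw [h3]
      refine (norm_sub_le _ _).trans (add_le_add ((norm_add_le _ _).trans (add_le_add h1 ?_)) h2)
      rw [norm_mul, Complex.norm_real, Real.norm_eq_abs, abs_of_pos hcA]
    have h5 : 1 / 2 ≤ Real.sqrt (‖u ^ 4 + 1‖ + ‖w - u‖) := by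
      apply Real.le_sqrt_of_sq_le
      have := norm_nonneg (u ^ 4 + 1)
      norm_num
      linarith
    refine h4.trans ?_
    have h6 : 17 * cA * ‖w - u‖ * (1 / 2) ≤
        17 * cA * ‖w - u‖ * Real.sqrt (‖u ^ 4 + 1‖ + ‖w - u‖) :=
      mul_le_mul_of_nonneg_left h5 (by positivity)
    refine le_trans ?_ h6
    nlinarith

end Pool.Agent.Helper606.Fek
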