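import Pool.Agent.Helper606.Fek.Defs
import Pool.Agent.Helper606.Fek.P_psi_upper

set_option autoImplicit false

namespace Pool.Agent.Helper606.Fek
open Complex Set Filter Topology


theorem rho_pos (n : ℕ) (hn : 1 ≤ n) (u : ℂ) : 0 < rho n u := by
  have hn0 : (0 : ℝ) < n := by exact_mod_cast hn
  unfold rho
  positivity

theorem rho_compare (n : ℕ) (hn : 1 ≤ n) (u v : ℂ) (hu : ‖u‖ = 1) (hv : ‖v‖ = 1) :
    rho n u ≤ 2 * Real.sqrt (1 + n * ‖u - v‖) * rho n v := by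
  have hn0 : (0 : ℝ) < n := by exact_mod_cast hn
  have h4 : ‖u ^ 4 - v ^ 4‖ ≤ 4 * ‖u - v‖ := by
    have e : u ^ 4 - v ^ 4 = (u - v) * (u ^ 3 + u ^ 2 * v + u * v ^ 2 + v ^ 3) := by ring
    rw [e, norm_mul, mul_comm]
    refine mul_le_mul_of_nonneg_right ?_ (norm_nonneg _)
    calc ‖u ^ 3 + u ^ 2 * v + u * v ^ 2 + v ^ 3‖
        ≤ ‖u ^ 3‖ + ‖u ^ 2 * v‖ + ‖u * v ^ 2‖ + ‖v ^ 3‖ :=
          (norm_add_le _ _).trans (add_le_add ((norm_add_le _ _).trans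
            (add_le_add (norm_add_le _ _) le_rfl)) le_rfl)
      _ = 4 := by
          simp only [norm_mul, norm_pow, hu, hv]
          norm_num
  have h5 : ‖u ^ 4 + 1‖ ≤ ‖v ^ 4 + 1‖ + 4 * ‖u - v‖ := by
    have e : u ^ 4 + 1 = (v ^ 4 + 1) + (u ^ 4 - v ^ 4) := by ring
    rw [e]
    exact (norm_add_le _ _).trans (add_le_add le_rfl h4)
  have hd := norm_nonneg (u - v)
  have hX := norm_nonneg (v ^ 4 + 1)
  have h6 : ‖u ^ 4 + 1‖ + 1 / (n : ℝ) ≤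
      (2 ^ 2 * (1 + n * ‖u - v‖)) * (‖v ^ 4 + 1‖ + 1 / (n : ℝ)) := by
    have e1 : (2 ^ 2 * (1 + n * ‖u - v‖)) * (‖v ^ 4 + 1‖ + 1 / (n : ℝ)) =
        4 * ‖v ^ 4 + 1‖ + 4 * (1 / (n : ℝ)) + 4 * (n * ‖u - v‖ * ‖v ^ 4 + 1‖) +
          4 * ‖u - v‖ := by
      field_simp
      ring
    rw [e1]
    have h7 : 0 ≤ 1 / (n : ℝ) := by positivity
    have h8 : 0 ≤ n * ‖u - v‖ * ‖v ^ 4 + 1‖ := by positivity
    linarith
  unfold rho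
  calc 1 / (n : ℝ) * Real.sqrt (‖u ^ 4 + 1‖ + 1 / (n : ℝ))
      ≤ 1 / (n : ℝ) * Real.sqrt ((2 ^ 2 * (1 + n * ‖u - v‖)) * (‖v ^ 4 + 1‖ + 1 / (n : ℝ))) :=
        mul_le_mul_of_nonneg_left (Real.sqrt_le_sqrt h6) (by positivity)
    _ = 2 * Real.sqrt (1 + n * ‖u - v‖) * (1 / (n : ℝ) *
          Real.sqrt (‖v ^ 4 + 1‖ + 1 / (n : ℝ))) := by
        rw [Real.sqrt_mul (by positivity), Real.sqrt_mul (by norm_num),
          Real.sqrt_sq (by norm_num)]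
        ring

theorem psi_upper_rho : ∃ C : ℝ, 0 < C ∧ ∀ n : ℕ, 1 ≤ n → ∀ w u : ℂ, 1 ≤ ‖w‖ → ‖w‖ ≤ 2 →
    ‖u‖ = 1 → ‖psi w - psi u‖ ≤ C * (n * ‖w - u‖) * Real.sqrt (1 + n * ‖w - u‖) * rho n u := by
  obtain ⟨C, hC, h⟩ := psi_upper
  refine ⟨C, hC, fun n hn w u hw1 hw2 hu => (h w u hw1 hw2 hu).trans ?_⟩
  have hn0 : (0 : ℝ) < n := by exact_mod_cast hn
  have hd := norm_nonneg (w - u)
  have hX := norm_nonneg (u ^ 4 + 1)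
  have h6 : ‖u ^ 4 + 1‖ + ‖w - u‖ ≤ (1 + n * ‖w - u‖) * (‖u ^ 4 + 1‖ + 1 / (n : ℝ)) := by
    have e1 : (1 + n * ‖w - u‖) * (‖u ^ 4 + 1‖ + 1 / (n : ℝ)) =
        ‖u ^ 4 + 1‖ + 1 / (n : ℝ) + n * ‖w - u‖ * ‖u ^ 4 + 1‖ + ‖w - u‖ := by
      field_simp
      ring
    rw [e1]
    have h7 : 0 ≤ 1 / (n : ℝ) := by positivity
    have h8 : 0 ≤ n * ‖w - u‖ * ‖u ^ 4 + 1‖ := by positivity
    linarith
  unfold rho
  calc C * ‖w - u‖ * Real.sqrt (‖u ^ 4 + 1‖ + ‖w - u‖)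
      ≤ C * ‖w - u‖ * Real.sqrt ((1 + n * ‖w - u‖) * (‖u ^ 4 + 1‖ + 1 / (n : ℝ))) :=
        mul_le_mul_of_nonneg_left (Real.sqrt_le_sqrt h6) (by positivity)
    _ = C * (n * ‖w - u‖) * Real.sqrt (1 + n * ‖w - u‖) *
          (1 / (n : ℝ) * Real.sqrt (‖u ^ 4 + 1‖ + 1 / (n : ℝ))) := by
        rw [Real.sqrt_mul (by positivity)]
        field_simp

end Pool.Agent.Helper606.Fek
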