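import Pool.Agent.Helper606.Fek.Defs
import Pool.Agent.Helper606.Fek.P_local_lip
import Pool.Agent.Helper606.Fek.P_rho_basic

set_option autoImplicit false

namespace Pool.Agent.Helper606.Fek
open Complex Set Filter Topology


theorem fek_low : ∃ c : ℝ, 0 < c ∧ c ≤ 1 ∧ ∀ n : ℕ, 1 ≤ n → ∀ u : Fin n → ℂ, FekData n u →
    ∀ k : Fin n, ∀ z : ℂ, ‖z - psi (u k)‖ ≤ c * rho n (u k) →
      MM u k / 2 ≤ ∏ j ∈ Finset.univ.erase k, ‖z - psi (u j)‖ := by
  obtain ⟨c0, hc0, hlip⟩ := local_lip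
  refine ⟨min c0 1, lt_min hc0 one_pos, min_le_right _ _, ?_⟩
  intro n hn u hu k z hz
  obtain ⟨p, hp⟩ : ∃ p : Polynomial ℂ,
      p = ∏ j ∈ Finset.univ.erase k, (Polynomial.X - Polynomial.C (psi (u j))) := ⟨_, rfl⟩
  have hev : ∀ w : ℂ, ‖p.eval w‖ = ∏ j ∈ Finset.univ.erase k, ‖w - psi (u j)‖ := by
    intro w
    rw [hp, Polynomial.eval_prod, norm_prod]
    simp
  have hdeg : p.natDegree ≤ n := by
    rw [hp]
    refine le_trans (Polynomial.natDegree_prod_le _ _) ?_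
    simp only [Polynomial.natDegree_X_sub_C, Finset.sum_const, smul_eq_mul, mul_one]
    rw [Finset.card_erase_of_mem (Finset.mem_univ k), Finset.card_univ, Fintype.card_fin]
    omega
  have hB : ∀ w ∈ sq, ‖p.eval w‖ ≤ MM u k := by
    intro w hw
    rw [hev]
    exact hu.max k w hw
  have hz' : ‖z - psi (u k)‖ ≤ c0 * rho n (u k) := by
    refine le_trans hz ?_
    exact mul_le_mul_of_nonneg_right (min_le_left _ _) (rho_pos n hn (u k)).le
  have h1 := hlip n hn p hdeg (MM u k) hB (u k) (hu.norm_u k) z hz'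
  have h2 : ‖p.eval (psi (u k))‖ = MM u k := hev _
  have h3 : ‖p.eval (psi (u k))‖ ≤ ‖p.eval z‖ + ‖p.eval z - p.eval (psi (u k))‖ := by
    have h4 : p.eval (psi (u k)) = p.eval z - (p.eval z - p.eval (psi (u k))) := by ring
    calc ‖p.eval (psi (u k))‖ = ‖p.eval z - (p.eval z - p.eval (psi (u k)))‖ := by rw [← h4]
      _ ≤ ‖p.eval z‖ + ‖p.eval z - p.eval (psi (u k))‖ := norm_sub_le _ _
  rw [← hev]
  linarith

end Pool.Agent.Helper606.Fek
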