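import Pool.Agent.Helper606.Fek.Defs
import Pool.Agent.Helper606.Fek.P_psi_bdry
import Pool.Agent.Helper606.Fek.P_max_square
import Pool.Agent.Helper606.Fek.P_fek_low
import Pool.Agent.Helper606.Fek.P_rho_basic

set_option autoImplicit false

namespace Pool.Agent.Helper606.Fek
open Complex Set Filter Topology


theorem fek_mu_rho_le (n : ℕ) (hn : 1 ≤ n) (v : ℂ) (hv : ‖v‖ = 1) : rho n v ≤ 2 := by
  unfold rho
  have hn' : (1 : ℝ) ≤ n := by exact_mod_cast hn
  have h1 : 1 / (n : ℝ) ≤ 1 := by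
    rw [div_le_one (by linarith)]; exact hn'
  have h0 : 0 ≤ 1 / (n : ℝ) := by positivity
  have h2 : ‖v ^ 4 + 1‖ ≤ 2 := by
    refine (norm_add_le _ _).trans ?_
    rw [norm_pow, hv, norm_one]; norm_num
  have h3 : Real.sqrt (‖v ^ 4 + 1‖ + 1 / (n : ℝ)) ≤ 2 := by
    rw [Real.sqrt_le_iff]
    refine ⟨by norm_num, ?_⟩
    linarith
  have h4 : 0 ≤ Real.sqrt (‖v ^ 4 + 1‖ + 1 / (n : ℝ)) := Real.sqrt_nonneg _
  nlinarith

theorem fek_mu_norm_ge (z : ℂ) (hz : z ∈ sq) : 1 ≤ ‖z‖ := by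
  have h : max |z.re| |z.im| = 1 := hz
  rw [← h]
  exact max_le (Complex.abs_re_le_norm z) (Complex.abs_im_le_norm z)

theorem fek_mu_poly {n : ℕ} (u : Fin n → ℂ) (hu : FekData n u) (j : Fin n) (z : ℂ)
    (hz : max |z.re| |z.im| ≤ 1) :
    ∏ k ∈ Finset.univ.erase j, ‖z - psi (u k)‖ ≤ MM u j := by
  have h := max_square (∏ k ∈ Finset.univ.erase j, (Polynomial.X - Polynomial.C (psi (u k))))
    (MM u j) (by
      intro x hx
      rw [Polynomial.eval_prod, norm_prod]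
      simpa using hu.max j x hx) z hz
  rw [Polynomial.eval_prod, norm_prod] at h
  simpa using h

theorem fek_mu : ∃ C : ℝ, 0 < C ∧ ∀ n : ℕ, 1 ≤ n → ∀ u : Fin n → ℂ, FekData n u →
    ∀ i j : Fin n, MM u i * rho n (u i) ≤
      C * (1 + n * ‖u i - u j‖) ^ 2 * (MM u j * rho n (u j)) := by
  obtain ⟨c, hc, hc1, hlow⟩ := fek_low
  obtain ⟨C, hC, hup⟩ := psi_upper_rho
  refine ⟨(2 / (c / 2)) * (C + 2 * (c / 2)), by positivity, fun n hn u hu i j => ?_⟩
  have hi1 := hu.norm_u i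
  have hj1 := hu.norm_u j
  have hsi := psi_bdry (u i) hi1
  have hni := fek_mu_norm_ge _ hsi
  have hρi := rho_pos n hn (u i)
  have hρj := rho_pos n hn (u j)
  have hρ2 := fek_mu_rho_le n hn (u i) hi1
  set δ := c / 2 * rho n (u i) with hδ
  have hδ0 : 0 < δ := by positivity
  have hδ1 : δ ≤ 1 := by nlinarith
  obtain ⟨t, ht⟩ : ∃ t, t = δ / ‖psi (u i)‖ := ⟨_, rfl⟩
  have hn0 : 0 < ‖psi (u i)‖ := by linarith
  have ht0 : 0 ≤ t := by rw [ht]; positivity
  have ht1 : t ≤ 1 := by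
    rw [ht, div_le_one hn0]; linarith
  have htm : t * ‖psi (u i)‖ = δ := by rw [ht]; field_simp
  obtain ⟨z, hz⟩ : ∃ z, z = (((1 - t : ℝ)) : ℂ) * psi (u i) := ⟨_, rfl⟩
  have hzsub : ‖z - psi (u i)‖ = δ := by
    have : z - psi (u i) = ((-t : ℝ) : ℂ) * psi (u i) := by rw [hz]; push_cast; ring
    rw [this, norm_mul, Complex.norm_real, norm_neg, Real.norm_of_nonneg ht0, htm]
  have hzsq : max |z.re| |z.im| ≤ 1 := by
    have h : max |(psi (u i)).re| |(psi (u i)).im| = 1 := hsi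
    rw [hz, Complex.re_ofReal_mul, Complex.im_ofReal_mul, abs_mul, abs_mul,
      abs_of_nonneg (by linarith : 0 ≤ 1 - t)]
    have h1 : |(psi (u i)).re| ≤ 1 := h ▸ le_max_left _ _
    have h2 : |(psi (u i)).im| ≤ 1 := h ▸ le_max_right _ _
    have h3 := abs_nonneg (psi (u i)).re
    have h4 := abs_nonneg (psi (u i)).im
    refine max_le ?_ ?_ <;> nlinarith
  have hl := hlow n hn u hu i z (by rw [hzsub, hδ]; nlinarith)
  have hm := fek_mu_poly u hu j z hzsq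
  have e1 : ‖z - psi (u i)‖ * ∏ k ∈ Finset.univ.erase i, ‖z - psi (u k)‖ =
      ‖z - psi (u j)‖ * ∏ k ∈ Finset.univ.erase j, ‖z - psi (u k)‖ := by
    rw [Finset.mul_prod_erase Finset.univ (fun k => ‖z - psi (u k)‖) (Finset.mem_univ i),
      Finset.mul_prod_erase Finset.univ (fun k => ‖z - psi (u k)‖) (Finset.mem_univ j)]
  set s := (n : ℝ) * ‖u i - u j‖ with hs
  have hs0 : 0 ≤ s := by positivity
  have hzj : ‖z - psi (u j)‖ ≤ ‖psi (u i) - psi (u j)‖ + δ := by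
    have : z - psi (u j) = (psi (u i) - psi (u j)) + (z - psi (u i)) := by ring
    rw [this]
    refine (norm_add_le _ _).trans ?_
    rw [hzsub]
  have hpsi := hup n hn (u i) (u j) hi1.ge (by rw [hi1]; norm_num) hj1
  have hcmp := rho_compare n hn (u i) (u j) hi1 hj1
  have hsq : Real.sqrt (1 + s) ≤ 1 + s := by
    rw [Real.sqrt_le_iff]
    refine ⟨by linarith, ?_⟩
    nlinarith
  have hsq0 : 0 ≤ Real.sqrt (1 + s) := Real.sqrt_nonneg _
  have hMj := hu.pos j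
  have hMi := hu.pos i
  have hA : ‖z - psi (u j)‖ ≤ (C + 2 * (c / 2)) * (1 + s) ^ 2 * rho n (u j) := by
    have h1 : C * s * Real.sqrt (1 + s) * rho n (u j) ≤ C * (1 + s) ^ 2 * rho n (u j) := by
      have : s * Real.sqrt (1 + s) ≤ (1 + s) ^ 2 := by nlinarith
      have h2 : C * (s * Real.sqrt (1 + s)) * rho n (u j) ≤ C * (1 + s) ^ 2 * rho n (u j) := by
        gcongr
      linarith [mul_assoc C s (Real.sqrt (1 + s))]
    have h2 : δ ≤ 2 * (c / 2) * (1 + s) ^ 2 * rho n (u j) := by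
      have h3 : Real.sqrt (1 + s) ≤ (1 + s) ^ 2 := by nlinarith
      calc δ = c / 2 * rho n (u i) := hδ
        _ ≤ c / 2 * (2 * Real.sqrt (1 + s) * rho n (u j)) := by gcongr
        _ ≤ c / 2 * (2 * (1 + s) ^ 2 * rho n (u j)) := by gcongr
        _ = _ := by ring
    calc ‖z - psi (u j)‖ ≤ ‖psi (u i) - psi (u j)‖ + δ := hzj
      _ ≤ C * s * Real.sqrt (1 + s) * rho n (u j) + δ := by linarith
      _ ≤ C * (1 + s) ^ 2 * rho n (u j) + 2 * (c / 2) * (1 + s) ^ 2 * rho n (u j) := by linarith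
      _ = _ := by ring
  have hfin : δ * (MM u i / 2) ≤ (C + 2 * (c / 2)) * (1 + s) ^ 2 * rho n (u j) * MM u j := by
    calc δ * (MM u i / 2) ≤ δ * ∏ k ∈ Finset.univ.erase i, ‖z - psi (u k)‖ := by gcongr
      _ = ‖z - psi (u j)‖ * ∏ k ∈ Finset.univ.erase j, ‖z - psi (u k)‖ := by rw [← e1, hzsub]
      _ ≤ ((C + 2 * (c / 2)) * (1 + s) ^ 2 * rho n (u j)) * MM u j := by
          refine mul_le_mul hA hm ?_ (by positivity)
          exact Finset.prod_nonneg fun k _ => norm_nonneg _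
  calc MM u i * rho n (u i) = (2 / (c / 2)) * (δ * (MM u i / 2)) := by
        rw [hδ]; field_simp
    _ ≤ (2 / (c / 2)) * ((C + 2 * (c / 2)) * (1 + s) ^ 2 * rho n (u j) * MM u j) := by gcongr
    _ = _ := by ring

end Pool.Agent.Helper606.Fek
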