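import Pool.Agent.Helper606.Fek.Defs
import Pool.Agent.Helper606.Fek.P_rho_basic
import Pool.Agent.Helper606.Fek.P_fek_mu

set_option autoImplicit false

namespace Pool.Agent.Helper606.Fek
open Complex Set Filter Topology


theorem chain_near (T : ℝ) (hT : 0 < T) : ∃ C : ℝ, 0 < C ∧ ∀ n : ℕ, 1 ≤ n →
    ∀ u : Fin n → ℂ, FekData n u → ∀ i j : Fin n, n * ‖u i - u j‖ ≤ T →
    MM u i ^ 2 * rho n (u i) ≤ C * (MM u j ^ 2 * rho n (u j)) := by
  obtain ⟨C₀, hC₀, hmu⟩ := fek_mu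
  refine ⟨(C₀ * (1 + T) ^ 2) ^ 2 * (2 * Real.sqrt (1 + T)), by positivity, ?_⟩
  intro n hn u hu i j hij
  have hρi := rho_pos n hn (u i)
  have hρj := rho_pos n hn (u j)
  have hMi := hu.pos i
  have hMj := hu.pos j
  have h1 : MM u i * rho n (u i) ≤ (C₀ * (1 + T) ^ 2) * (MM u j * rho n (u j)) := by
    refine (hmu n hn u hu i j).trans (mul_le_mul_of_nonneg_right ?_ (by positivity))
    refine mul_le_mul_of_nonneg_left ?_ hC₀.le
    exact pow_le_pow_left₀ (by positivity) (by linarith) 2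
  have h2 : rho n (u j) ≤ 2 * Real.sqrt (1 + T) * rho n (u i) := by
    refine (rho_compare n hn (u j) (u i) (hu.norm_u j) (hu.norm_u i)).trans ?_
    refine mul_le_mul_of_nonneg_right (mul_le_mul_of_nonneg_left ?_ (by norm_num)) hρi.le
    refine Real.sqrt_le_sqrt ?_
    rw [norm_sub_rev]; linarith
  have h3 := pow_le_pow_left₀ (by positivity) h1 2
  refine le_of_mul_le_mul_right ?_ hρi
  calc MM u i ^ 2 * rho n (u i) * rho n (u i) = (MM u i * rho n (u i)) ^ 2 := by ring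
    _ ≤ ((C₀ * (1 + T) ^ 2) * (MM u j * rho n (u j))) ^ 2 := h3
    _ = (C₀ * (1 + T) ^ 2) ^ 2 * (MM u j ^ 2 * rho n (u j)) * rho n (u j) := by ring
    _ ≤ (C₀ * (1 + T) ^ 2) ^ 2 * (MM u j ^ 2 * rho n (u j)) *
        (2 * Real.sqrt (1 + T) * rho n (u i)) := mul_le_mul_of_nonneg_left h2 (by positivity)
    _ = (C₀ * (1 + T) ^ 2) ^ 2 * (2 * Real.sqrt (1 + T)) * (MM u j ^ 2 * rho n (u j)) *
        rho n (u i) := by ring

end Pool.Agent.Helper606.Fek
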