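import Pool.Agent.Helper606.Fek.Defs
import Pool.Agent.Helper606.Fek.P_psi_sym
import Pool.Agent.Helper606.Fek.P_sq_rot

set_option autoImplicit false

namespace Pool.Agent.Helper606.Fek
open Complex Set Filter Topology


theorem psi_rot_pow_cr (m : ℕ) (w : ℂ) : psi (I ^ m * w) = I ^ m * psi w := by
  induction m with
  | zero => simp
  | succ m ih =>
    have e : I ^ (m + 1) * w = I * (I ^ m * w) := by ring
    rw [e, psi_rot, ih]
    ring

theorem norm_I_pow (m : ℕ) : ‖I ^ m‖ = 1 := by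
  rw [norm_pow, Complex.norm_I, one_pow]

theorem MM_rot_aux (n : ℕ) (u : Fin n → ℂ) (m : ℕ) (k : Fin n) :
    MM (fun k => I ^ m * u k) k = MM u k := by
  unfold MM
  refine Finset.prod_congr rfl fun j _ => ?_
  rw [psi_rot_pow_cr, psi_rot_pow_cr, ← mul_sub, norm_mul, norm_I_pow, one_mul]

theorem fek_rot (n : ℕ) (u : Fin n → ℂ) (h : FekData n u) (m : ℕ) :
    FekData n (fun k => I ^ m * u k) := by
  refine ⟨fun k => ?_, fun k => ?_, fun k x hx => ?_⟩
  · rw [norm_mul, norm_I_pow, one_mul, h.norm_u k]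
  · rw [MM_rot_aux]
    exact h.pos k
  · rw [MM_rot_aux]
    have hx' : I ^ (3 * m) * x ∈ sq := by
      unfold sq at hx ⊢
      have hx2 : max |x.re| |x.im| = 1 := hx
      show max |(I ^ (3 * m) * x).re| |(I ^ (3 * m) * x).im| = 1
      rw [sq_rot, hx2]
    refine le_trans (le_of_eq ?_) (h.max k _ hx')
    refine Finset.prod_congr rfl fun j _ => ?_
    rw [psi_rot_pow_cr]
    have e : I ^ (3 * m) * x - psi (u j) = I ^ (3 * m) * (x - I ^ m * psi (u j)) := by
      have h4 : I ^ (3 * m) * I ^ m = 1 := by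
        rw [← pow_add]
        have : 3 * m + m = 4 * m := by ring
        rw [this, pow_mul, Complex.I_pow_four, one_pow]
      rw [mul_sub, ← mul_assoc, h4, one_mul]
    rw [e, norm_mul, norm_I_pow, one_mul]

theorem MM_rot (n : ℕ) (u : Fin n → ℂ) (m : ℕ) (k : Fin n) :
    MM (fun k => I ^ m * u k) k = MM u k := MM_rot_aux n u m k

theorem rho_rot (n : ℕ) (u : ℂ) (m : ℕ) : rho n (I ^ m * u) = rho n u := by
  unfold rho
  have e : (I ^ m * u) ^ 4 = u ^ 4 := by
    rw [mul_pow, ← pow_mul, mul_comm m 4, pow_mul, Complex.I_pow_four, one_pow, one_mul]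
  rw [e]

end Pool.Agent.Helper606.Fek
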