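import Pool.Agent.Helper606.Fek.Defs
import Pool.Agent.Helper606.Fek.P_fek_low
import Pool.Agent.Helper606.Fek.P_rho_basic

set_option autoImplicit false

namespace Pool.Agent.Helper606.Fek
open Complex Set Filter Topology


theorem fek_sep : ∃ c : ℝ, 0 < c ∧ c ≤ 1 ∧ ∀ n : ℕ, 1 ≤ n → ∀ u : Fin n → ℂ, FekData n u →
    ∀ j k : Fin n, j ≠ k → c * rho n (u k) ≤ ‖psi (u j) - psi (u k)‖ := by
  obtain ⟨c, hc, hc1, H⟩ := fek_low
  refine ⟨c, hc, hc1, ?_⟩
  intro n hn u hu j k hjk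
  by_contra hlt
  push Not at hlt
  have h1 := H n hn u hu k (psi (u j)) hlt.le
  have h2 : ∏ i ∈ Finset.univ.erase k, ‖psi (u j) - psi (u i)‖ = 0 := by
    apply Finset.prod_eq_zero (i := j)
    · simp [hjk]
    · simp
  rw [h2] at h1
  have h3 := hu.pos k
  linarith

end Pool.Agent.Helper606.Fek
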