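import Pool.Agent.Helper606.Fek.Defs
import Pool.Agent.Helper606.Fek.P_psi_upper
import Pool.Agent.Helper606.Fek.P_fek_sep

set_option autoImplicit false

namespace Pool.Agent.Helper606.Fek
open Complex Set Filter Topology


theorem fek_sep_u : ∃ c : ℝ, 0 < c ∧ c ≤ 1 ∧ ∀ n : ℕ, 1 ≤ n → ∀ u : Fin n → ℂ, FekData n u →
    ∀ j k : Fin n, j ≠ k → c / n ≤ ‖u j - u k‖ := by
  obtain ⟨C, hC, hup⟩ := psi_upper
  obtain ⟨c, hc, hc1, hsep⟩ := fek_sep
  refine ⟨min 1 (c / C), by positivity, min_le_left _ _, ?_⟩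
  intro n hn u hu j k hjk
  by_contra hlt
  push Not at hlt
  have hn0 : (0 : ℝ) < n := by exact_mod_cast hn
  have h1 : ‖u j - u k‖ < 1 / n :=
    lt_of_lt_of_le hlt (by gcongr; exact min_le_left _ _)
  have h2 : ‖u j - u k‖ < c / C / n :=
    lt_of_lt_of_le hlt (by gcongr; exact min_le_right _ _)
  have h3 := hup (u j) (u k) (hu.norm_u j).ge (by rw [hu.norm_u j]; norm_num) (hu.norm_u k)
  have h4 := hsep n hn u hu j k hjk
  unfold rho at h4
  obtain ⟨X, hX⟩ : ∃ X, X = Real.sqrt (‖u k ^ 4 + 1‖ + 1 / (n : ℝ)) := ⟨_, rfl⟩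
  rw [← hX] at h4
  have hX0 : 0 < X := by rw [hX]; positivity
  have h5 : Real.sqrt (‖u k ^ 4 + 1‖ + ‖u j - u k‖) ≤ X := by
    rw [hX]
    exact Real.sqrt_le_sqrt (by linarith)
  have h6 : c * (1 / (n : ℝ) * X) ≤ C * ‖u j - u k‖ * X :=
    (h4.trans h3).trans (by gcongr)
  have h7 : c * (1 / (n : ℝ)) ≤ C * ‖u j - u k‖ := by
    rw [← mul_assoc] at h6
    exact le_of_mul_le_mul_right h6 hX0
  have h8 : C * ‖u j - u k‖ < C * (c / C / n) := mul_lt_mul_of_pos_left h2 hC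
  have h9 : C * (c / C / n) = c * (1 / (n : ℝ)) := by field_simp
  linarith

end Pool.Agent.Helper606.Fek
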