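import Pool.Agent.Helper606.Fek.Defs

set_option autoImplicit false

namespace Pool.Agent.Helper606.Fek
open Complex Set Filter Topology


theorem lagrange_ineq (n : ℕ) (u : Fin n → ℂ) (h : FekData n u) (Q : Polynomial ℂ)
    (hQ : Q.natDegree < n) (z : ℂ) :
    ‖Q.eval z‖ ≤ ∑ k, ‖Q.eval (psi (u k))‖ *
      ((∏ j ∈ Finset.univ.erase k, ‖z - psi (u j)‖) / MM u k) := by
  classical
  have hinj : Set.InjOn (fun k => psi (u k)) (Finset.univ : Finset (Fin n)) := by
    intro i _ j _ hij
    by_contra hne
    have h1 := (h.pos i).ne'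
    rw [MM, Finset.prod_ne_zero_iff] at h1
    have h2 := h1 j (Finset.mem_erase.mpr ⟨Ne.symm hne, Finset.mem_univ _⟩)
    apply h2
    simp only at hij
    rw [hij, sub_self, norm_zero]
  have hdeg : Q.degree < (Finset.univ : Finset (Fin n)).card := by
    rw [Finset.card_univ, Fintype.card_fin]
    exact Polynomial.degree_le_natDegree.trans_lt (by exact_mod_cast hQ)
  have hI := Lagrange.eq_interpolate_of_eval_eq (s := (Finset.univ : Finset (Fin n)))
    (v := fun k => psi (u k)) (f := Q) (fun k => Q.eval (psi (u k))) hinj hdeg (fun i _ => rfl)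
  have hE : Q.eval z = ∑ k, Q.eval (psi (u k)) *
      ∏ j ∈ Finset.univ.erase k, ((psi (u k) - psi (u j))⁻¹ * (z - psi (u j))) := by
    conv_lhs => rw [hI, Lagrange.interpolate_apply]
    rw [Polynomial.eval_finset_sum]
    refine Finset.sum_congr rfl fun k _ => ?_
    rw [Polynomial.eval_mul, Polynomial.eval_C, Lagrange.basis, Polynomial.eval_prod]
    congr 1
    refine Finset.prod_congr rfl fun j _ => ?_
    simp [Lagrange.basisDivisor]
  rw [hE]
  refine (norm_sum_le _ _).trans (le_of_eq ?_)
  refine Finset.sum_congr rfl fun k _ => ?_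
  rw [norm_mul, norm_prod, MM, ← Finset.prod_div_distrib]
  congr 1
  refine Finset.prod_congr rfl fun j _ => ?_
  rw [norm_mul, norm_inv, div_eq_inv_mul]

end Pool.Agent.Helper606.Fek

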