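import Pool.Agent.Helper606.Fek.Defs
import Pool.Agent.Helper606.Fek.P_cA_pos
import Pool.Agent.Helper606.Fek.P_P_deriv
import Pool.Agent.Helper606.Fek.P_P_bound
import Pool.Agent.Helper606.Fek.P_psi_near

set_option autoImplicit false

namespace Pool.Agent.Helper606.Fek

open Complex Set Filter Topology

theorem faber_aux (G : ℂ → ℂ) (hG : AnalyticAt ℂ G 0) (hG0 : G 0 ≠ 0) (q : ℕ) :
    ∀ f : ℂ → ℂ, AnalyticAt ℂ f 0 → ∃ (p : Polynomial ℂ) (e : ℂ → ℂ), p.natDegree ≤ q ∧
      AnalyticAt ℂ e 0 ∧ e 0 = 0 ∧ ∀ᶠ x in 𝓝[≠] (0:ℂ), f x / x ^ q = p.eval (G x / x) + e x := by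
  induction q with
  | zero =>
    intro f hf
    refine ⟨Polynomial.C (f 0), fun x => f x - f 0, ?_, hf.sub analyticAt_const, by simp, ?_⟩
    · simp
    · refine Filter.Eventually.of_forall fun x => ?_
      simp
  | succ q ih =>
    intro f hf
    obtain ⟨p, e, hp, he, he0, hev⟩ := ih (fun x => f x / G x) (hf.div hG hG0)
    obtain ⟨ps, hps⟩ := he
    have hd : AnalyticAt ℂ (dslope e 0) 0 := ⟨_, hps.has_fpower_series_dslope_fslope⟩
    have hGev : ∀ᶠ x in 𝓝[≠] (0:ℂ), G x ≠ 0 :=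
      (hG.continuousAt.eventually_ne hG0).filter_mono nhdsWithin_le_nhds
    have hne : ∀ᶠ x in 𝓝[≠] (0:ℂ), x ≠ 0 := by
      filter_upwards [self_mem_nhdsWithin] with x hx using hx
    refine ⟨Polynomial.X * p + Polynomial.C (G 0 * dslope e 0 0),
      fun x => G x * dslope e 0 x - G 0 * dslope e 0 0, ?_,
      (hG.mul hd).sub analyticAt_const, by simp, ?_⟩
    · refine (Polynomial.natDegree_add_le _ _).trans ?_
      refine max_le ?_ ?_
      · refine (Polynomial.natDegree_mul_le).trans ?_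
        have : (Polynomial.X : Polynomial ℂ).natDegree ≤ 1 := Polynomial.natDegree_X_le
        omega
      · rw [Polynomial.natDegree_C]
        omega
    · filter_upwards [hev, hGev, hne] with x h1 h2 h3
      have h4 : f x / x ^ (q + 1) = (G x / x) * (f x / G x / x ^ q) := by
        field_simp
        ring
      have h5 : dslope e 0 x = e x / x := by
        rw [dslope_of_ne _ h3, slope_def_field, he0]
        simp
      rw [h4, h1, h5]
      simp only [Polynomial.eval_add, Polynomial.eval_mul, Polynomial.eval_X, Polynomial.eval_C]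
      field_simp
      ring

theorem faber_exists (q : ℕ) : ∃ p : Polynomial ℂ, p.natDegree ≤ q ∧
    Tendsto (fun w : ℂ => p.eval (psi w) - w ^ q) (cocompact ℂ) (𝓝 0) := by
  set G : ℂ → ℂ := fun x => (cA : ℂ) * (1 - x * P x) with hG
  have hPd : DifferentiableOn ℂ P (Metric.ball 0 1) := by
    intro x hx
    have hx' : ‖x‖ < 1 := by simpa using hx
    exact (P_deriv x hx').differentiableAt.differentiableWithinAt
  have hPa : AnalyticAt ℂ P 0 := hPd.analyticAt (Metric.ball_mem_nhds 0 one_pos)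
  have hGa : AnalyticAt ℂ G 0 := analyticAt_const.mul (analyticAt_const.sub (analyticAt_id.mul hPa))
  have hG0 : G 0 ≠ 0 := by
    rw [hG]
    simp only [zero_mul, sub_zero, mul_one]
    exact_mod_cast cA_pos.ne'
  obtain ⟨p, e, hp, he, he0, hev⟩ := faber_aux G hGa hG0 q (fun _ => 1) analyticAt_const
  refine ⟨p, hp, ?_⟩
  have hinv : Tendsto (fun w : ℂ => w⁻¹) (cocompact ℂ) (𝓝[≠] 0) := by
    rw [← Metric.cobounded_eq_cocompact]
    exact tendsto_inv₀_cobounded'
  have hinv0 : Tendsto (fun w : ℂ => w⁻¹) (cocompact ℂ) (𝓝 0) :=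
    hinv.mono_right nhdsWithin_le_nhds
  have h1 : Tendsto (fun w : ℂ => - e w⁻¹) (cocompact ℂ) (𝓝 0) := by
    have h := (he.continuousAt.tendsto.comp hinv0).neg
    rw [he0, neg_zero] at h
    exact h
  refine h1.congr' ?_
  have hw0 : ∀ᶠ w : ℂ in cocompact ℂ, w ≠ 0 := by
    have := hinv.eventually (self_mem_nhdsWithin : {x : ℂ | x ∈ ({0}ᶜ : Set ℂ)} ∈ 𝓝[≠] (0:ℂ))
    filter_upwards [this] with w hw h
    rw [h] at hw
    simp at hw
  filter_upwards [hinv.eventually hev, hw0] with w h2 h3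
  have h4 : G w⁻¹ / w⁻¹ = psi w := by
    rw [hG]
    simp only [psi]
    field_simp
  rw [h4] at h2
  have h5 : (1:ℂ) / (w⁻¹) ^ q = w ^ q := by
    rw [inv_pow, one_div, inv_inv]
  rw [h5] at h2
  rw [h2]
  ring

end Pool.Agent.Helper606.Fek
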