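import Pool.Agent.Helper606.Fek.Defs

set_option autoImplicit false

namespace Pool.Agent.Helper606.Fek
open Complex Set Filter Topology


theorem ext_mean (Y : ℂ → ℂ) (r : ℝ) (L : ℂ) (hr : 0 < r)
    (hd : DifferentiableOn ℂ Y {w : ℂ | r < ‖w‖}) (hc : ContinuousOn Y {w : ℂ | r ≤ ‖w‖})
    (hl : Tendsto Y (cocompact ℂ) (𝓝 L)) :
    ∫ θ in (0:ℝ)..(2 * Real.pi), Y (r * exp (θ * I)) = 2 * Real.pi * L := by
  classical
  set Z : ℂ → ℂ := fun x => if x = 0 then L else Y x⁻¹ with hZ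
  have hZ0 : Z 0 = L := by simp [hZ]
  have hZn : ∀ x, x ≠ 0 → Z x = Y x⁻¹ := fun x hx => by simp [hZ, hx]
  have hr' : (0:ℝ) < r⁻¹ := inv_pos.mpr hr
  -- continuity at 0
  have hZc0 : ContinuousAt Z 0 := by
    rw [continuousAt_iff_punctured_nhds, hZ0]
    have h1 : Tendsto (fun x : ℂ => Y x⁻¹) (𝓝[≠] 0) (𝓝 L) := by
      have h2 : Tendsto (Inv.inv : ℂ → ℂ) (𝓝[≠] 0) (cocompact ℂ) := by
        rw [← Metric.cobounded_eq_cocompact]
        exact tendsto_inv₀_nhdsNE_zero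
      exact hl.comp h2
    refine h1.congr' ?_
    filter_upwards [self_mem_nhdsWithin] with x hx
    exact (hZn x hx).symm
  have hinv : ∀ x : ℂ, x ≠ 0 → ‖x‖ ≤ r⁻¹ → r ≤ ‖x⁻¹‖ := by
    intro x hx h
    rw [norm_inv]
    have hx' : 0 < ‖x‖ := norm_pos_iff.mpr hx
    calc r = (r⁻¹)⁻¹ := (inv_inv r).symm
      _ ≤ ‖x‖⁻¹ := inv_anti₀ hx' h
  have hinv' : ∀ x : ℂ, x ≠ 0 → ‖x‖ < r⁻¹ → r < ‖x⁻¹‖ := by
    intro x hx h
    rw [norm_inv]
    have hx' : 0 < ‖x‖ := norm_pos_iff.mpr hx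
    calc r = (r⁻¹)⁻¹ := (inv_inv r).symm
      _ < ‖x‖⁻¹ := inv_strictAnti₀ hx' h
  have hcont : ContinuousOn Z (Metric.closedBall 0 |r⁻¹|) := by
    intro x hx
    rw [abs_of_pos hr', mem_closedBall_zero_iff] at hx
    rw [abs_of_pos hr']
    by_cases h0 : x = 0
    · subst h0
      exact hZc0.continuousWithinAt
    · -- near x, Z = Y ∘ inv
      have h1 : ContinuousWithinAt (fun y : ℂ => Y y⁻¹) (Metric.closedBall 0 r⁻¹ ∩ {0}ᶜ) x := by
        have h2 : ContinuousWithinAt Y {w : ℂ | r ≤ ‖w‖} x⁻¹ := hc _ (hinv x h0 hx)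
        refine h2.comp (continuousAt_inv₀ h0).continuousWithinAt ?_
        rintro y ⟨hy, hy0⟩
        exact hinv y hy0 (mem_closedBall_zero_iff.mp hy)
      have h3 : ContinuousWithinAt Z (Metric.closedBall 0 r⁻¹ ∩ {0}ᶜ) x := by
        refine h1.congr ?_ (hZn x h0)
        rintro y ⟨-, hy0⟩
        exact hZn y hy0
      have h4 : ({0}ᶜ : Set ℂ) ∈ 𝓝 x := isOpen_compl_singleton.mem_nhds h0
      exact (continuousWithinAt_inter h4).mp h3
  have hdiff : ∀ z ∈ Metric.ball (0:ℂ) |r⁻¹| \ {0}, DifferentiableAt ℂ Z z := by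
    rintro z ⟨hz, hz0⟩
    have hz0' : z ≠ 0 := hz0
    rw [abs_of_pos hr', mem_ball_zero_iff] at hz
    have hopen : IsOpen {w : ℂ | r < ‖w‖} := isOpen_lt continuous_const continuous_norm
    have h1 : DifferentiableAt ℂ Y z⁻¹ := hd.differentiableAt (hopen.mem_nhds (hinv' z hz0' hz))
    have h2 : DifferentiableAt ℂ (fun y : ℂ => Y y⁻¹) z :=
      DifferentiableAt.comp z h1 (differentiableAt_inv hz0')
    refine h2.congr_of_eventuallyEq ?_
    filter_upwards [isOpen_compl_singleton.mem_nhds hz0'] with y hy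
    exact hZn y hy
  have hmv := circleAverage_of_differentiable_on_off_countable (s := {0}) (Set.countable_singleton 0)
    hcont hdiff
  rw [hZ0, Real.circleAverage_def] at hmv
  have h5 : ∫ θ in (0:ℝ)..2 * Real.pi, Z (circleMap 0 r⁻¹ θ) = 2 * Real.pi * L := by
    have hpi : (2 * Real.pi) ≠ 0 := by positivity
    have := congrArg (fun w : ℂ => (2 * Real.pi) • w) hmv
    simp only [smul_smul, mul_inv_cancel₀ hpi, one_smul] at this
    rw [this]
    simp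
  rw [← h5]
  have hcm : ∀ θ : ℝ, circleMap 0 r⁻¹ (2 * Real.pi - θ) = (r * exp (θ * I))⁻¹ := by
    intro θ
    rw [circleMap, zero_add, mul_inv, ← Complex.exp_neg]
    have e1 : ((2 * Real.pi - θ : ℝ) : ℂ) * I = -(θ * I) + 2 * Real.pi * I := by
      push_cast; ring
    rw [e1, Complex.exp_periodic]
    push_cast
    ring
  have h6 : ∀ θ : ℝ, Y (r * exp (θ * I)) = Z (circleMap 0 r⁻¹ (2 * Real.pi - θ)) := by
    intro θ
    have hr0 : (r : ℂ) ≠ 0 := by exact_mod_cast hr.ne'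
    have hne : circleMap 0 r⁻¹ (2 * Real.pi - θ) ≠ 0 := by
      rw [hcm]
      exact inv_ne_zero (mul_ne_zero hr0 (Complex.exp_ne_zero _))
    rw [hZn _ hne, hcm, inv_inv]
  simp_rw [h6]
  rw [intervalIntegral.integral_comp_sub_left (fun t => Z (circleMap 0 r⁻¹ t)) (2 * Real.pi)]
  simp

end Pool.Agent.Helper606.Fek
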