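import Pool.Agent.Helper606.Fek.Defs
import Pool.Agent.Helper606.Fek.P_cA_pos
import Pool.Agent.Helper606.Fek.P_psi_near

set_option autoImplicit false

namespace Pool.Agent.Helper606.Fek
open Complex Set Filter Topology


theorem kappa_tendsto (z : ℂ) :
    Tendsto (fun w : ℂ => w * dpsi w / (psi w - z)) (cocompact ℂ) (𝓝 1) := by
  have hc : (cA : ℂ) ≠ 0 := by exact_mod_cast cA_pos.ne'
  have h1 : Tendsto (fun w : ℂ => z / w) (cocompact ℂ) (𝓝 0) := by
    have h := (tendsto_inv₀_cobounded (α := ℂ)).const_mul z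
    rw [mul_zero, Metric.cobounded_eq_cocompact] at h
    simpa [div_eq_mul_inv] using h
  have h2 : Tendsto (fun w : ℂ => psi w / w - z / w) (cocompact ℂ) (𝓝 (cA : ℂ)) := by
    have := psi_div_tendsto.sub h1
    rwa [sub_zero] at this
  have h3 : Tendsto (fun w : ℂ => dpsi w / (psi w / w - z / w)) (cocompact ℂ) (𝓝 1) := by
    have := dpsi_tendsto.div h2 hc
    rwa [div_self hc] at this
  refine h3.congr' ?_
  have hne : ∀ᶠ w : ℂ in cocompact ℂ, w ≠ 0 := by
    have : ({0} : Set ℂ)ᶜ ∈ cocompact ℂ := isCompact_singleton.compl_mem_cocompact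
    filter_upwards [this] with w hw
    simpa using hw
  filter_upwards [hne] with w hw
  rw [← sub_div, div_div_eq_mul_div, mul_comm]

end Pool.Agent.Helper606.Fek
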