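import Pool.Agent.Helper606.Fek.Defs
import Pool.Agent.Helper606.Fek.P_psi_deriv
import Pool.Agent.Helper606.Fek.P_psi_cont
import Pool.Agent.Helper606.Fek.P_psi_near
import Pool.Agent.Helper606.Fek.P_psi_grow
import Pool.Agent.Helper606.Fek.P_ext_mean
import Pool.Agent.Helper606.Fek.P_kappa_tendsto

set_option autoImplicit false

namespace Pool.Agent.Helper606.Fek
open Complex Set Filter Topology


theorem faber_conj_aux_ne (z : ℂ) (hz : max |z.re| |z.im| < 1) (w : ℂ) (hw : 1 ≤ ‖w‖) :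
    psi w - z ≠ 0 := by
  obtain ⟨c, hc, h⟩ := psi_grow
  intro h0
  have h1 := h w hw
  rw [sub_eq_zero.1 h0] at h1
  have h2 : 0 ≤ c * (min (‖w‖ - 1) 1) ^ 2 := by positivity
  linarith

theorem faber_conj_aux_dpsi (w : ℂ) (hw : 1 < ‖w‖) : DifferentiableAt ℂ dpsi w := by
  have hw0 : w ≠ 0 := by
    rintro rfl
    simp at hw
    linarith
  have hlt : ‖(w⁻¹) ^ 4‖ < 1 := by
    rw [norm_pow, norm_inv]
    have h1 : ‖w‖⁻¹ < 1 := inv_lt_one_of_one_lt₀ hw
    exact pow_lt_one₀ (by positivity) h1 (by norm_num)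
  have hs : 1 + (w⁻¹) ^ 4 ∈ Complex.slitPlane := by
    left
    have := Complex.abs_re_le_norm ((w⁻¹) ^ 4)
    rw [Complex.add_re, Complex.one_re]
    have h2 := (abs_le.1 this).1
    linarith
  unfold dpsi csq
  refine DifferentiableAt.const_mul ?_ _
  refine DifferentiableAt.cpow_const ?_ hs
  have : DifferentiableAt ℂ (fun w : ℂ => w⁻¹) w := differentiableAt_inv hw0
  fun_prop

theorem faber_conj (q : ℕ) (hq : 1 ≤ q) (z : ℂ) (hz : max |z.re| |z.im| < 1) :
    ∫ θ in (0:ℝ)..(2 * Real.pi), (exp (θ * I)) ^ q *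
      starRingEnd ℂ (exp (θ * I) * dpsi (exp (θ * I)) / (psi (exp (θ * I)) - z)) = 0 := by
  set Y : ℂ → ℂ := fun w => (w ^ q)⁻¹ * (w * dpsi w / (psi w - z)) with hY
  have hw0 : ∀ w : ℂ, 1 ≤ ‖w‖ → w ≠ 0 := by
    rintro w hw rfl
    simp at hw
    linarith
  have hd : DifferentiableOn ℂ Y {w : ℂ | (1 : ℝ) < ‖w‖} := by
    intro w hw
    have hw1 : 1 < ‖w‖ := hw
    apply DifferentiableAt.differentiableWithinAt
    have h1 := faber_conj_aux_dpsi w hw1
    have h2 : DifferentiableAt ℂ psi w := (psi_deriv w hw1).differentiableAt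
    have h3 := faber_conj_aux_ne z hz w hw1.le
    have h4 : w ^ q ≠ 0 := pow_ne_zero _ (hw0 w hw1.le)
    exact ((differentiableAt_id.pow q).inv h4).mul
      ((differentiableAt_id.mul h1).div (h2.sub_const z) h3)
  have hc : ContinuousOn Y {w : ℂ | (1 : ℝ) ≤ ‖w‖} := by
    refine ContinuousOn.mul ?_ ?_
    · exact ContinuousOn.inv₀ (by fun_prop) (fun w hw => pow_ne_zero _ (hw0 w hw))
    · refine ContinuousOn.div (continuousOn_id.mul dpsi_cont) (psi_cont.sub continuousOn_const) ?_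
      intro w hw
      exact faber_conj_aux_ne z hz w hw
  have hl : Tendsto Y (cocompact ℂ) (𝓝 0) := by
    have h1 : Tendsto (fun w : ℂ => (w ^ q)⁻¹) (cocompact ℂ) (𝓝 0) := by
      rw [tendsto_zero_iff_norm_tendsto_zero]
      have h2 : (fun w : ℂ => ‖(w ^ q)⁻¹‖) = fun w => (‖w‖ ^ q)⁻¹ := by
        funext w; rw [norm_inv, norm_pow]
      rw [h2]
      exact tendsto_inv_atTop_zero.comp
        ((tendsto_pow_atTop (by omega)).comp tendsto_norm_cocompact_atTop)
    have h3 := h1.mul (kappa_tendsto z)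
    rw [zero_mul] at h3
    exact h3
  have hm := ext_mean Y 1 0 one_pos hd hc hl
  rw [mul_zero] at hm
  have e : ∀ θ : ℝ, (exp (θ * I)) ^ q *
      starRingEnd ℂ (exp (θ * I) * dpsi (exp (θ * I)) / (psi (exp (θ * I)) - z)) =
      starRingEnd ℂ (Y (((1 : ℝ) : ℂ) * exp (θ * I))) := by
    intro θ
    have h1 : starRingEnd ℂ ((exp (θ * I) ^ q)⁻¹) = exp (θ * I) ^ q := by
      rw [map_inv₀, map_pow, ← Complex.exp_conj, map_mul, Complex.conj_ofReal, Complex.conj_I,
        mul_neg, Complex.exp_neg, inv_pow, inv_inv]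
    simp only [hY, Complex.ofReal_one, one_mul]
    rw [map_mul, h1]
  rw [intervalIntegral.integral_congr (g := fun θ : ℝ =>
    starRingEnd ℂ (Y (((1 : ℝ) : ℂ) * exp (θ * I)))) (fun θ _ => e θ)]
  rw [intervalIntegral.intervalIntegral_conj, hm, map_zero]

end Pool.Agent.Helper606.Fek
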