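import Pool.Agent.Helper606.Fek.Defs
import Pool.Agent.Helper606.Fek.P_psi_deriv
import Pool.Agent.Helper606.Fek.P_psi_cont
import Pool.Agent.Helper606.Fek.P_psi_near
import Pool.Agent.Helper606.Fek.P_psi_bdry
import Pool.Agent.Helper606.Fek.P_psi_grow
import Pool.Agent.Helper606.Fek.P_ext_mean
import Pool.Agent.Helper606.Fek.P_kappa_tendsto

set_option autoImplicit false

namespace Pool.Agent.Helper606.Fek
open Complex Set Filter Topology


theorem fr_ne (z : ℂ) (hz : max |z.re| |z.im| < 1) (w : ℂ) (hw : 1 ≤ ‖w‖) : psi w - z ≠ 0 := by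
  obtain ⟨c, hc, h⟩ := psi_grow
  have h1 := h w hw
  intro h0
  have h2 : psi w = z := sub_eq_zero.1 h0
  rw [h2] at h1
  have h3 : 0 ≤ c * (min (‖w‖ - 1) 1) ^ 2 := by positivity
  linarith

theorem fr_prim (s : Polynomial ℂ) : ∃ S : Polynomial ℂ, S.derivative = s := by
  induction s using Polynomial.induction_on' with
  | add p q hp hq =>
    obtain ⟨P, hP⟩ := hp
    obtain ⟨Q, hQ⟩ := hq
    exact ⟨P + Q, by rw [Polynomial.derivative_add, hP, hQ]⟩
  | monomial n a =>
    refine ⟨Polynomial.monomial (n + 1) (a / ((n + 1 : ℕ) : ℂ)), ?_⟩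
    rw [Polynomial.derivative_monomial, Nat.add_sub_cancel, div_mul_cancel₀]
    exact_mod_cast Nat.succ_ne_zero n

theorem fr_open : IsOpen {w : ℂ | 1 < ‖w‖} := isOpen_lt continuous_const continuous_norm

theorem fr_psi_diff : DifferentiableOn ℂ psi {w : ℂ | 1 < ‖w‖} := fun w hw =>
  (psi_deriv w hw).differentiableAt.differentiableWithinAt

theorem fr_dpsi_diff : DifferentiableOn ℂ dpsi {w : ℂ | 1 < ‖w‖} := by
  have h := fr_psi_diff.deriv fr_open
  exact h.congr (fun w hw => ((psi_deriv w hw).deriv).symm)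

theorem fr_poly_cont (p : Polynomial ℂ) :
    ContinuousOn (fun w => p.eval (psi w)) {w : ℂ | 1 ≤ ‖w‖} :=
  p.continuous.comp_continuousOn psi_cont

theorem fr_poly_diff (p : Polynomial ℂ) :
    DifferentiableOn ℂ (fun w => p.eval (psi w)) {w : ℂ | 1 < ‖w‖} :=
  p.differentiable.comp_differentiableOn fr_psi_diff

theorem fr_kap_cont (z : ℂ) (hz : max |z.re| |z.im| < 1) :
    ContinuousOn (fun w => w * dpsi w / (psi w - z)) {w : ℂ | 1 ≤ ‖w‖} :=
  (continuousOn_id.mul dpsi_cont).div (psi_cont.sub continuousOn_const)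
    (fun w hw => fr_ne z hz w hw)

theorem fr_kap_diff (z : ℂ) (hz : max |z.re| |z.im| < 1) :
    DifferentiableOn ℂ (fun w => w * dpsi w / (psi w - z)) {w : ℂ | 1 < ‖w‖} :=
  (differentiableOn_id.mul fr_dpsi_diff).div (fr_psi_diff.sub (differentiableOn_const z))
    (fun w hw => fr_ne z hz w (le_of_lt hw))

theorem fr_circ (f : ℂ → ℂ) (hf : ContinuousOn f {w : ℂ | 1 ≤ ‖w‖}) :
    Continuous (fun θ : ℝ => f (exp (θ * I))) := by
  refine hf.comp_continuous (by fun_prop) ?_
  intro θ
  show 1 ≤ ‖exp (θ * I)‖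
  rw [norm_exp_ofReal_mul_I]

/-- the integral of `w (S ∘ psi)'` -/
theorem fr_zero (s : Polynomial ℂ) :
    ∫ θ in (0:ℝ)..(2 * Real.pi), exp (θ * I) * (s.eval (psi (exp (θ * I))) * dpsi (exp (θ * I)))
      = 0 := by
  obtain ⟨S, hS⟩ := fr_prim s
  have hcont : ContinuousOn (fun w => s.eval (psi w) * dpsi w) {w : ℂ | 1 ≤ ‖w‖} :=
    (fr_poly_cont s).mul dpsi_cont
  have hdiff : DifferentiableOn ℂ (fun w => s.eval (psi w) * dpsi w) {w : ℂ | 1 < ‖w‖} :=
    (fr_poly_diff s).mul fr_dpsi_diff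
  have h1 : (∮ w in C(0, 2), s.eval (psi w) * dpsi w) = ∮ w in C(0, 1), s.eval (psi w) * dpsi w := by
    refine Complex.circleIntegral_eq_of_differentiable_on_annulus_off_countable (by norm_num)
      (by norm_num) Set.countable_empty ?_ ?_
    · refine hcont.mono ?_
      rintro w ⟨-, hw⟩
      rw [Metric.mem_ball, dist_zero_right, not_lt] at hw
      exact hw
    · rintro w ⟨⟨-, hw⟩, -⟩
      rw [Metric.mem_closedBall, dist_zero_right, not_le] at hw
      exact hdiff.differentiableAt (fr_open.mem_nhds hw)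
  have h2 : (∮ w in C(0, 2), s.eval (psi w) * dpsi w) = 0 := by
    refine circleIntegral.integral_eq_zero_of_hasDerivWithinAt (f := fun w => S.eval (psi w))
      (by norm_num) ?_
    intro w hw
    rw [mem_sphere_zero_iff_norm] at hw
    have h3 := (S.hasDerivAt (psi w)).comp w (psi_deriv w (by rw [hw]; norm_num))
    rw [hS] at h3
    exact h3.hasDerivWithinAt
  rw [h2] at h1
  unfold circleIntegral at h1
  have h4 : ∫ θ in (0:ℝ)..(2 * Real.pi), I *
      (exp (θ * I) * (s.eval (psi (exp (θ * I))) * dpsi (exp (θ * I)))) = 0 := by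
    rw [h1]
    apply intervalIntegral.integral_congr
    intro θ _
    simp only [deriv_circleMap, circleMap, smul_eq_mul, zero_add, ofReal_one, one_mul]
    ring
  rw [intervalIntegral.integral_const_mul] at h4
  exact (mul_eq_zero.1 h4).resolve_left I_ne_zero

theorem faber_rep (q : ℕ) (p : Polynomial ℂ)
    (hp : Tendsto (fun w : ℂ => p.eval (psi w) - w ^ q) (cocompact ℂ) (𝓝 0))
    (z : ℂ) (hz : max |z.re| |z.im| < 1) :
    ∫ θ in (0:ℝ)..(2 * Real.pi), (exp (θ * I)) ^ q *
      (exp (θ * I) * dpsi (exp (θ * I)) / (psi (exp (θ * I)) - z)) = 2 * Real.pi * p.eval z := by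
  obtain ⟨s, hs⟩ := Polynomial.X_sub_C_dvd_sub_C_eval (a := z) (p := p)
  have hs' : ∀ x, p.eval x - p.eval z = (x - z) * s.eval x := by
    intro x
    have := congrArg (Polynomial.eval x) hs
    simpa using this
  -- the two exterior means
  have m1 := ext_mean (fun w => (p.eval (psi w) - w ^ q) * (w * dpsi w / (psi w - z))) 1 0
    one_pos
    (((fr_poly_diff p).sub (differentiableOn_pow q)).mul (fr_kap_diff z hz))
    (((fr_poly_cont p).sub (continuousOn_pow q)).mul (fr_kap_cont z hz))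
    (by have := hp.mul (kappa_tendsto z); rwa [zero_mul] at this)
  have m2 := ext_mean (fun w => w * dpsi w / (psi w - z)) 1 1 one_pos (fr_kap_diff z hz)
    (fr_kap_cont z hz) (kappa_tendsto z)
  simp only [ofReal_one, one_mul, mul_zero, mul_one] at m1 m2
  have m3 := fr_zero s
  have c1 : Continuous (fun θ : ℝ => (p.eval (psi (exp (θ * I))) - (exp (θ * I)) ^ q) *
      (exp (θ * I) * dpsi (exp (θ * I)) / (psi (exp (θ * I)) - z))) :=
    fr_circ _ (((fr_poly_cont p).sub (continuousOn_pow q)).mul (fr_kap_cont z hz))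
  have c2 : Continuous (fun θ : ℝ =>
      (exp (θ * I) * dpsi (exp (θ * I)) / (psi (exp (θ * I)) - z))) :=
    fr_circ _ (fr_kap_cont z hz)
  have c3 : Continuous (fun θ : ℝ =>
      exp (θ * I) * (s.eval (psi (exp (θ * I))) * dpsi (exp (θ * I)))) :=
    fr_circ (fun w => w * (s.eval (psi w) * dpsi w))
      (continuousOn_id.mul ((fr_poly_cont s).mul dpsi_cont))
  have key : ∀ θ : ℝ, (exp (θ * I)) ^ q *
      (exp (θ * I) * dpsi (exp (θ * I)) / (psi (exp (θ * I)) - z)) =
      (exp (θ * I) * (s.eval (psi (exp (θ * I))) * dpsi (exp (θ * I))) +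
        p.eval z * (exp (θ * I) * dpsi (exp (θ * I)) / (psi (exp (θ * I)) - z))) -
      (p.eval (psi (exp (θ * I))) - (exp (θ * I)) ^ q) *
        (exp (θ * I) * dpsi (exp (θ * I)) / (psi (exp (θ * I)) - z)) := by
    intro θ
    have hne := fr_ne z hz (exp (θ * I)) (by rw [norm_exp_ofReal_mul_I])
    have h5 := hs' (psi (exp (θ * I)))
    have h6 : p.eval (psi (exp (θ * I))) = p.eval z + (psi (exp (θ * I)) - z) *
      s.eval (psi (exp (θ * I))) := by rw [← h5]; ring
    rw [h6]
    field_simp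
    ring
  rw [intervalIntegral.integral_congr (fun θ _ => key θ), intervalIntegral.integral_sub,
    intervalIntegral.integral_add, m1, m3, intervalIntegral.integral_const_mul, m2]
  · ring
  · exact c3.intervalIntegrable _ _
  · exact (c2.const_mul _).intervalIntegrable _ _
  · exact (c3.add (c2.const_mul _)).intervalIntegrable _ _
  · exact c1.intervalIntegrable _ _

end Pool.Agent.Helper606.Fek
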