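import Pool.Agent.Helper606.Fek.Defs
import Pool.Agent.Helper606.Fek.P_cA_pos
import Pool.Agent.Helper606.Fek.P_psi_sym
import Pool.Agent.Helper606.Fek.P_arc_dpsi
import Pool.Agent.Helper606.Fek.P_psi_arc_val
import Pool.Agent.Helper606.Fek.P_sector_decomp
import Pool.Agent.Helper606.Fek.P_sq_rot

set_option autoImplicit false

namespace Pool.Agent.Helper606.Fek
open Complex Set Filter Topology


theorem kappa_nonneg (w z : ℂ) (hw : ‖w‖ = 1) (hz : max |z.re| |z.im| < 1) :
    0 ≤ (w * dpsi w / (psi w - z)).re := by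
  have hw0 : w ≠ 0 := by
    intro h
    rw [h, norm_zero] at hw
    exact zero_ne_one hw
  obtain ⟨m, θ, hθ, h⟩ := sector_decomp w hw0
  rw [hw, Complex.ofReal_one, one_mul] at h
  have h1 : ∀ k : ℕ, psi (I ^ k * w) = I ^ k * psi w := by
    intro k
    induction k with
    | zero => simp
    | succ k ih => rw [pow_succ', mul_assoc, psi_rot, ih, mul_assoc]
  have h2 : ∀ k : ℕ, dpsi (I ^ k * w) = dpsi w := by
    intro k
    induction k with
    | zero => simp
    | succ k ih => rw [pow_succ', mul_assoc, dpsi_rot, ih]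
  have hI : (I : ℂ) ^ m ≠ 0 := pow_ne_zero m I_ne_zero
  have h3 : w * dpsi w / (psi w - z) =
      ((cA * Real.sqrt (2 * Real.cos (2 * θ)) : ℝ) : ℂ) / (1 + I * (yy θ : ℂ) - I ^ m * z) := by
    rw [← arc_dpsi θ hθ, ← psi_arc_val θ hθ, ← h, h1, h2, ← mul_sub, mul_assoc,
      mul_div_mul_left _ _ hI]
  rw [h3, Complex.div_re, Complex.ofReal_re, Complex.ofReal_im, zero_mul, zero_div, add_zero]
  have h4 : (1 + I * (yy θ : ℂ) - I ^ m * z).re = 1 - (I ^ m * z).re := by
    simp
  rw [h4]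
  have h5 : |(I ^ m * z).re| < 1 := by
    have := sq_rot z m
    have h6 := le_max_left |(I ^ m * z).re| |(I ^ m * z).im|
    rw [this] at h6
    linarith
  have h6 := (abs_lt.mp h5).2
  have h7 : 0 ≤ cA * Real.sqrt (2 * Real.cos (2 * θ)) :=
    mul_nonneg cA_pos.le (Real.sqrt_nonneg _)
  exact div_nonneg (mul_nonneg h7 (by linarith)) (Complex.normSq_nonneg _)

end Pool.Agent.Helper606.Fek
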