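import Pool.Agent.Helper606.Fek.Defs
import Pool.Agent.Helper606.Fek.P_psi_deriv
import Pool.Agent.Helper606.Fek.P_psi_cont
import Pool.Agent.Helper606.Fek.P_psi_near
import Pool.Agent.Helper606.Fek.P_psi_grow
import Pool.Agent.Helper606.Fek.P_kappa_nonneg
import Pool.Agent.Helper606.Fek.P_ext_mean
import Pool.Agent.Helper606.Fek.P_kappa_tendsto
import Pool.Agent.Helper606.Fek.P_faber_rep
import Pool.Agent.Helper606.Fek.P_faber_conj

set_option autoImplicit false

namespace Pool.Agent.Helper606.Fek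
open Complex Set Filter Topology


theorem fint_open (q : ℕ) (hq : 1 ≤ q) (p : Polynomial ℂ)
    (hp : Tendsto (fun w : ℂ => p.eval (psi w) - w ^ q) (cocompact ℂ) (𝓝 0))
    (z : ℂ) (hz : max |z.re| |z.im| < 1) : ‖p.eval z‖ ≤ 2 := by
  have hpi := Real.pi_pos
  set e : ℝ → ℂ := fun θ => exp (θ * I) with he
  have hec : Continuous e := by
    simp only [he]
    fun_prop
  have hen : ∀ θ, ‖e θ‖ = 1 := fun θ => Complex.norm_exp_ofReal_mul_I θ
  have hpsi : Continuous fun θ => psi (e θ) :=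
    psi_cont.comp_continuous hec fun θ => (hen θ).ge
  have hdpsi : Continuous fun θ => dpsi (e θ) :=
    dpsi_cont.comp_continuous hec fun θ => (hen θ).ge
  obtain ⟨c, hc, hg⟩ := psi_grow
  have hne : ∀ θ, psi (e θ) - z ≠ 0 := by
    intro θ h
    have h1 := hg (e θ) (hen θ).ge
    rw [sub_eq_zero.1 h] at h1
    have h2 : 0 ≤ c * (min (‖e θ‖ - 1) 1) ^ 2 := by positivity
    linarith
  set K : ℝ → ℂ := fun θ => e θ * dpsi (e θ) / (psi (e θ) - z) with hK
  have hKc : Continuous K := (hec.mul hdpsi).div (hpsi.sub continuous_const) hne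
  have hcK : Continuous fun θ => starRingEnd ℂ (K θ) := Complex.continuous_conj.comp hKc
  have hKre : ∀ θ, 0 ≤ (K θ).re := fun θ => kappa_nonneg (e θ) z (hen θ) hz
  have h0 : ∫ θ in (0:ℝ)..(2 * Real.pi), K θ = 2 * Real.pi := by
    have h := faber_rep 0 1 (by simp) z hz
    simpa using h
  have h1 : ∫ θ in (0:ℝ)..(2 * Real.pi), (e θ) ^ q * K θ = 2 * Real.pi * p.eval z :=
    faber_rep q p hp z hz
  have h2 : ∫ θ in (0:ℝ)..(2 * Real.pi), (e θ) ^ q * starRingEnd ℂ (K θ) = 0 :=
    faber_conj q hq z hz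
  have h3 : ∫ θ in (0:ℝ)..(2 * Real.pi), ((e θ) ^ q * K θ + (e θ) ^ q * starRingEnd ℂ (K θ)) =
      2 * Real.pi * p.eval z := by
    rw [intervalIntegral.integral_add, h1, h2, add_zero]
    · exact ((hec.pow q).mul hKc).intervalIntegrable _ _
    · exact ((hec.pow q).mul hcK).intervalIntegrable _ _
  have h4 : ‖(2 * Real.pi * p.eval z : ℂ)‖ ≤ ∫ θ in (0:ℝ)..(2 * Real.pi), 2 * (K θ).re := by
    rw [← h3]
    refine (intervalIntegral.norm_integral_le_integral_norm (by positivity)).trans (le_of_eq ?_)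
    apply intervalIntegral.integral_congr
    intro θ _
    simp only
    rw [← mul_add, norm_mul, norm_pow, hen, one_pow, one_mul, Complex.add_conj, Complex.norm_real,
      Real.norm_of_nonneg (by have := hKre θ; positivity)]
  have h5 : ∫ θ in (0:ℝ)..(2 * Real.pi), (K θ).re = 2 * Real.pi := by
    have h := Complex.reCLM.intervalIntegral_comp_comm (hKc.intervalIntegrable (μ := MeasureTheory.volume) 0 (2 * Real.pi))
    simp only [Complex.reCLM_apply] at h
    rw [h, h0]
    simp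
  rw [intervalIntegral.integral_const_mul, h5, norm_mul] at h4
  have h6 : ‖(2 * Real.pi : ℂ)‖ = 2 * Real.pi := by
    have : (2 * Real.pi : ℂ) = ((2 * Real.pi : ℝ) : ℂ) := by push_cast; rfl
    rw [this, Complex.norm_real, Real.norm_of_nonneg (by positivity)]
  rw [h6] at h4
  have h7 : 0 < 2 * Real.pi := by positivity
  by_contra hcon
  push Not at hcon
  have := mul_lt_mul_of_pos_left hcon h7
  linarith

theorem faber_int (q : ℕ) (hq : 1 ≤ q) (p : Polynomial ℂ)
    (hp : Tendsto (fun w : ℂ => p.eval (psi w) - w ^ q) (cocompact ℂ) (𝓝 0))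
    (z : ℂ) (hz : max |z.re| |z.im| ≤ 1) : ‖p.eval z‖ ≤ 2 := by
  have hcont : Tendsto (fun t : ℝ => ‖p.eval ((t : ℂ) * z)‖) (𝓝[<] 1) (𝓝 ‖p.eval z‖) := by
    have h1 : Continuous fun t : ℝ => ‖p.eval ((t : ℂ) * z)‖ := by
      apply Continuous.norm
      exact p.continuous.comp (by fun_prop)
    have h2 := h1.tendsto 1
    rw [Complex.ofReal_one, one_mul] at h2
    exact h2.mono_left nhdsWithin_le_nhds
  apply le_of_tendsto hcont
  have e1 : ∀ᶠ t : ℝ in 𝓝[<] 1, 0 < t :=
    nhdsWithin_le_nhds (lt_mem_nhds one_pos)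
  filter_upwards [e1, self_mem_nhdsWithin] with t ht0 ht1
  have ht1' : t < 1 := ht1
  apply fint_open q hq p hp
  have hre : |((t : ℂ) * z).re| = t * |z.re| := by
    rw [Complex.re_ofReal_mul, abs_mul, abs_of_pos ht0]
  have him : |((t : ℂ) * z).im| = t * |z.im| := by
    rw [Complex.im_ofReal_mul, abs_mul, abs_of_pos ht0]
  rw [hre, him]
  obtain ⟨a, b⟩ := max_le_iff.1 hz
  apply max_lt
  · nlinarith [abs_nonneg z.re]
  · nlinarith [abs_nonneg z.im]

end Pool.Agent.Helper606.Fek
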