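import Pool.Agent.Helper606.Fek.Defs
import Pool.Agent.Helper606.Fek.P_psi_deriv
import Pool.Agent.Helper606.Fek.P_psi_cont
import Pool.Agent.Helper606.Fek.P_psi_near
import Pool.Agent.Helper606.Fek.P_psi_bdry
import Pool.Agent.Helper606.Fek.P_ext_max
import Pool.Agent.Helper606.Fek.P_faber_exists
import Pool.Agent.Helper606.Fek.P_faber_int

set_option autoImplicit false

namespace Pool.Agent.Helper606.Fek
open Complex Set Filter Topology


theorem faber (q : ℕ) (hq : 1 ≤ q) : ∃ p : Polynomial ℂ, p.natDegree ≤ q ∧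
    (∀ z : ℂ, max |z.re| |z.im| ≤ 1 → ‖p.eval z‖ ≤ 2) ∧
    (∀ w : ℂ, 1 ≤ ‖w‖ → ‖p.eval (psi w) - w ^ q‖ ≤ 3) := by
  obtain ⟨p, hp1, hp2⟩ := faber_exists q
  have hb := faber_int q hq p hp2
  refine ⟨p, hp1, hb, ?_⟩
  refine (ext_max (fun w => p.eval (psi w) - w ^ q) 1 3 0 one_pos ?_ ?_ hp2 ?_).1
  · intro w hw
    have h1 : DifferentiableAt ℂ psi w := (psi_deriv w hw).differentiableAt
    have h2 : DifferentiableAt ℂ (fun w => p.eval (psi w)) w :=
      (p.differentiable.differentiableAt (x := psi w)).comp w h1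
    exact (h2.sub (differentiableAt_id.pow q)).differentiableWithinAt
  · have h1 : ContinuousOn (fun w => p.eval (psi w)) {w : ℂ | 1 ≤ ‖w‖} :=
      p.continuous.comp_continuousOn psi_cont
    exact h1.sub (continuousOn_id.pow q)
  · intro w hw
    have h1 : psi w ∈ sq := psi_bdry w hw
    have h2 : max |(psi w).re| |(psi w).im| = 1 := h1
    have h3 := hb (psi w) h2.le
    have h4 : ‖w ^ q‖ = 1 := by rw [norm_pow, hw, one_pow]
    calc ‖p.eval (psi w) - w ^ q‖ ≤ ‖p.eval (psi w)‖ + ‖w ^ q‖ := norm_sub_le _ _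
      _ ≤ 3 := by linarith

end Pool.Agent.Helper606.Fek
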