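import Pool.Agent.Helper606.Fek.Defs
import Pool.Agent.Helper606.Fek.P_cA_pos
import Pool.Agent.Helper606.Fek.P_psi_far
import Pool.Agent.Helper606.Fek.P_psi_lower
import Pool.Agent.Helper606.Fek.P_psi_upper
import Pool.Agent.Helper606.Fek.P_rho_away
import Pool.Agent.Helper606.Fek.P_faber

set_option autoImplicit false

namespace Pool.Agent.Helper606.Fek
open Complex Set Filter Topology


theorem peak_norm_mono (a : ℂ) (ha : ‖a‖ = 1) (R : ℝ) (hR : 1 ≤ R) : ‖a + 1‖ ≤ ‖(R:ℂ) * a + 1‖ := by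
  have h1 : ‖a + 1‖ ^ 2 = 2 + 2 * a.re := by
    have h := ha
    have h2 : a.re ^ 2 + a.im ^ 2 = 1 := by
      have := Complex.sq_norm a
      rw [h, Complex.normSq_apply] at this
      nlinarith
    rw [Complex.sq_norm, Complex.normSq_apply]
    simp only [Complex.add_re, Complex.one_re, Complex.add_im, Complex.one_im, add_zero]
    nlinarith
  have h2 : ‖(R:ℂ) * a + 1‖ ^ 2 = R ^ 2 + 2 * R * a.re + 1 := by
    have h := ha
    have h2 : a.re ^ 2 + a.im ^ 2 = 1 := by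
      have := Complex.sq_norm a
      rw [h, Complex.normSq_apply] at this
      nlinarith
    rw [Complex.sq_norm, Complex.normSq_apply]
    simp only [Complex.add_re, Complex.one_re, Complex.add_im, Complex.one_im, add_zero,
      Complex.re_ofReal_mul, Complex.im_ofReal_mul]
    nlinarith
  have hre : -1 ≤ a.re := by
    have := Complex.abs_re_le_norm a
    rw [ha] at this
    exact (abs_le.mp this).1
  apply le_of_sq_le_sq _ (norm_nonneg _)
  rw [h1, h2]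
  nlinarith [mul_nonneg (sub_nonneg.mpr hR) (show 0 ≤ R + 1 + 2 * a.re by linarith)]

theorem peak_rho_pos (n : ℕ) (hn : 1 ≤ n) (u : ℂ) : 0 < rho n u := by
  unfold rho
  have : (0:ℝ) < n := by exact_mod_cast hn
  positivity

theorem peak_div (F : Polynomial ℂ) (q : ℕ) (hF : F.natDegree ≤ q) (z : ℂ) :
    ∃ G : Polynomial ℂ, G.natDegree ≤ q - 1 ∧ ∀ x, F.eval x - F.eval z = (x - z) * G.eval x := by
  have hroot : (F - Polynomial.C (F.eval z)).IsRoot z := by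
    simp [Polynomial.IsRoot]
  obtain ⟨G, hG⟩ := Polynomial.dvd_iff_isRoot.mpr hroot
  refine ⟨G, ?_, fun x => ?_⟩
  · by_cases h0 : G = 0
    · rw [h0]; simp
    · have h1 : (F - Polynomial.C (F.eval z)).natDegree = 1 + G.natDegree := by
        rw [hG, Polynomial.natDegree_mul (Polynomial.X_sub_C_ne_zero z) h0,
          Polynomial.natDegree_X_sub_C]
      have h2 : (F - Polynomial.C (F.eval z)).natDegree ≤ q := by
        rw [Polynomial.natDegree_sub_C]; exact hF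
      omega
  · have := congrArg (Polynomial.eval x) hG
    simpa using this

/-- peaking polynomials -/
theorem peak (D : ℝ) (hD : 0 < D) : ∃ C : ℝ, 0 < C ∧ ∀ n : ℕ, 9 ≤ n → ∀ u₀ z₀ : ℂ, ‖u₀‖ = 1 →
    ‖z₀ - psi u₀‖ ≤ D * rho n u₀ →
    (max |z₀.re| |z₀.im| ≤ 1 ∨ ∃ w₀ : ℂ, 1 ≤ ‖w₀‖ ∧ ‖w₀‖ ≤ 1 + 1 / (n:ℝ) ∧ psi w₀ = z₀) →
    ∃ Q : Polynomial ℂ, Q.natDegree < n ∧ Q.eval z₀ = 1 ∧
      ∀ v : ℂ, ‖v‖ = 1 → ‖Q.eval (psi v)‖ ≤ C / (1 + n * ‖v - u₀‖) ^ 4 := by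
  obtain ⟨c1, hc1, hlow⟩ := psi_lower
  obtain ⟨C1, hC1, hupp⟩ := psi_upper
  set K : ℝ := 12 * (1232 * C1 + D) / c1 with hK
  have hK0 : 0 < K := by positivity
  refine ⟨121 ^ 4 + K ^ 4, by positivity, ?_⟩
  intro n hn u₀ z₀ hu₀ hz₀ hz₀'
  have hn0 : (0:ℝ) < n := by
    have : 0 < n := by omega
    exact_mod_cast this
  rcases lt_or_ge n 60 with hn60 | hn60
  · refine ⟨1, by simp; omega, by simp, fun v hv => ?_⟩
    rw [Polynomial.eval_one, norm_one]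
    have h1 : ‖v - u₀‖ ≤ 2 := by
      calc ‖v - u₀‖ ≤ ‖v‖ + ‖u₀‖ := norm_sub_le _ _
        _ = 2 := by rw [hv, hu₀]; norm_num
    have h2 : (n:ℝ) ≤ 60 := by exact_mod_cast hn60.le
    have h3 : (1 + n * ‖v - u₀‖) ≤ 121 := by
      have := mul_le_mul h2 h1 (norm_nonneg _) (by norm_num)
      linarith
    have h4 : 0 < 1 + n * ‖v - u₀‖ := by positivity
    rw [le_div_iff₀ (by positivity), one_mul]
    have := pow_le_pow_left₀ h4.le h3 4
    have : 0 < K ^ 4 := by positivity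
    linarith
  -- main case
  obtain ⟨q, hq⟩ : ∃ q : ℕ, q = (n - 1) / 4 := ⟨_, rfl⟩
  have hq14 : 14 ≤ q := by omega
  have hqn1 : n ≤ 8 * q := by omega
  have hqn2 : 4 * q < n := by omega
  have hqpos : (0:ℝ) < q := by
    have : 0 < q := by omega
    exact_mod_cast this
  have hqn1' : (n:ℝ) ≤ 8 * q := by exact_mod_cast hqn1
  have hqn2' : 4 * (q:ℝ) < n := by exact_mod_cast hqn2
  have hq14' : (14:ℝ) ≤ q := by exact_mod_cast hq14
  obtain ⟨F, hFd, hF1, hF2⟩ := faber q (by omega)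
  obtain ⟨r, hr⟩ : ∃ r : ℝ, r = 1 + 14 / q := ⟨_, rfl⟩
  have hr1 : 1 ≤ r := by
    rw [hr]; have : 0 ≤ 14 / (q:ℝ) := by positivity
    linarith
  have hr2 : r ≤ 2 := by
    rw [hr]
    have : 14 / (q:ℝ) ≤ 1 := by rw [div_le_one hqpos]; exact hq14'
    linarith
  set ws : ℂ := (r:ℂ) * u₀ with hws
  have hws_norm : ‖ws‖ = r := by
    rw [hws, norm_mul, hu₀, mul_one, Complex.norm_real, Real.norm_eq_abs, abs_of_nonneg (by linarith)]
  set zs : ℂ := psi ws with hzs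
  have hFs : 12 ≤ ‖F.eval zs‖ := by
    have h1 := hF2 ws (by rw [hws_norm]; exact hr1)
    have h2 : ‖ws ^ q‖ = r ^ q := by rw [norm_pow, hws_norm]
    have h3 : 15 ≤ r ^ q := by
      have := one_add_mul_le_pow (show (-2:ℝ) ≤ 14 / (q:ℝ) by
        have : 0 ≤ 14 / (q:ℝ) := by positivity
        linarith) q
      rw [hr]
      refine le_trans ?_ this
      have : (q:ℝ) * (14 / q) = 14 := by field_simp
      rw [this]; norm_num
    have h4 : ‖ws ^ q‖ ≤ ‖F.eval zs‖ + ‖F.eval zs - ws ^ q‖ := by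
      have : ws ^ q = F.eval zs - (F.eval zs - ws ^ q) := by ring
      calc ‖ws ^ q‖ = ‖F.eval zs - (F.eval zs - ws ^ q)‖ := by rw [← this]
        _ ≤ _ := norm_sub_le _ _
    rw [h2] at h4
    linarith
  have hF0 : ‖F.eval z₀‖ ≤ 6 := by
    rcases hz₀' with h | ⟨w₀, hw1, hw2, hw3⟩
    · exact le_trans (hF1 z₀ h) (by norm_num)
    · have h1 := hF2 w₀ hw1
      rw [hw3] at h1
      have h2 : ‖w₀ ^ q‖ ≤ 3 := by
        rw [norm_pow]
        calc ‖w₀‖ ^ q ≤ (1 + 1 / (n:ℝ)) ^ q := pow_le_pow_left₀ (norm_nonneg _) hw2 q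
          _ ≤ (Real.exp (1 / (n:ℝ))) ^ q := by
              apply pow_le_pow_left₀ (by positivity)
              have := Real.add_one_le_exp (1 / (n:ℝ))
              linarith
          _ = Real.exp (q * (1 / (n:ℝ))) := by rw [← Real.exp_nat_mul]
          _ ≤ Real.exp 1 := by
              apply Real.exp_le_exp.mpr
              rw [mul_one_div, div_le_one hn0]
              linarith
          _ ≤ 3 := by
              have := Real.exp_one_lt_d9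
              linarith
      have h4 : ‖F.eval z₀‖ ≤ ‖F.eval z₀ - w₀ ^ q‖ + ‖w₀ ^ q‖ := by
        calc ‖F.eval z₀‖ = ‖(F.eval z₀ - w₀ ^ q) + w₀ ^ q‖ := by rw [sub_add_cancel]
          _ ≤ _ := norm_add_le _ _
      linarith
  obtain ⟨G, hGd, hG⟩ := peak_div F q hFd zs
  -- lower bound at z₀
  have hdiff : ‖F.eval zs‖ / 2 ≤ ‖F.eval z₀ - F.eval zs‖ := by
    have : ‖F.eval zs‖ ≤ ‖F.eval z₀ - F.eval zs‖ + ‖F.eval z₀‖ := by
      calc ‖F.eval zs‖ = ‖F.eval z₀ - (F.eval z₀ - F.eval zs)‖ := by rw [sub_sub_cancel]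
        _ ≤ ‖F.eval z₀‖ + ‖F.eval z₀ - F.eval zs‖ := norm_sub_le _ _
        _ = _ := add_comm _ _
    linarith
  have hFs0 : 0 < ‖F.eval zs‖ := by linarith
  have hprod0 : 0 < ‖z₀ - zs‖ * ‖G.eval z₀‖ := by
    rw [← norm_mul, ← hG z₀]
    linarith
  have hz0s : 0 < ‖z₀ - zs‖ := by
    rcases (norm_nonneg (z₀ - zs)).lt_or_eq with h | h
    · exact h
    · rw [← h, zero_mul] at hprod0; exact absurd hprod0 (lt_irrefl _)
  have hG0 : 0 < ‖G.eval z₀‖ := by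
    rcases (norm_nonneg (G.eval z₀)).lt_or_eq with h | h
    · exact h
    · rw [← h, mul_zero] at hprod0; exact absurd hprod0 (lt_irrefl _)
  have hG0' : G.eval z₀ ≠ 0 := norm_pos_iff.mp hG0
  have hGz0 : ‖F.eval zs‖ / 2 ≤ ‖z₀ - zs‖ * ‖G.eval z₀‖ := by
    rw [← norm_mul, ← hG z₀]; exact hdiff
  have hrho := peak_rho_pos n (by omega) u₀
  -- distances
  have hwsu : ‖ws - u₀‖ = 14 / q := by
    have : ws - u₀ = ((r - 1 : ℝ) : ℂ) * u₀ := by rw [hws]; push_cast; ring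
    rw [this, norm_mul, hu₀, mul_one, Complex.norm_real, Real.norm_eq_abs, hr,
      abs_of_nonneg (by
        have : 0 ≤ 14 / (q:ℝ) := by positivity
        linarith)]
    ring
  have hq112 : 14 / (q:ℝ) ≤ 112 / n := by
    rw [div_le_div_iff₀ hqpos hn0]; linarith
  have hq56 : 56 / (n:ℝ) ≤ 14 / q := by
    rw [div_le_div_iff₀ hn0 hqpos]; linarith
  have hzsz0 : ‖z₀ - zs‖ ≤ (1232 * C1 + D) * rho n u₀ := by
    have h1 := hupp ws u₀ (by rw [hws_norm]; exact hr1) (by rw [hws_norm]; exact hr2) hu₀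
    rw [hwsu] at h1
    have h2 : Real.sqrt (‖u₀ ^ 4 + 1‖ + 14 / q) ≤ 11 * Real.sqrt (‖u₀ ^ 4 + 1‖ + 1 / (n:ℝ)) := by
      have h3 : ‖u₀ ^ 4 + 1‖ + 14 / q ≤ 11 ^ 2 * (‖u₀ ^ 4 + 1‖ + 1 / (n:ℝ)) := by
        have h4 : 0 ≤ ‖u₀ ^ 4 + 1‖ := norm_nonneg _
        have h5 : 112 / (n:ℝ) = 112 * (1 / n) := by ring
        have h6 : 0 ≤ 1 / (n:ℝ) := by positivity
        nlinarith
      calc Real.sqrt (‖u₀ ^ 4 + 1‖ + 14 / q) ≤ Real.sqrt (11 ^ 2 * (‖u₀ ^ 4 + 1‖ + 1 / (n:ℝ))) :=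
            Real.sqrt_le_sqrt h3
        _ = _ := by rw [Real.sqrt_mul (by norm_num), Real.sqrt_sq (by norm_num)]
    have h7 : ‖psi ws - psi u₀‖ ≤ 1232 * C1 * rho n u₀ := by
      refine le_trans h1 ?_
      have h8 : C1 * (14 / q) ≤ C1 * (112 / n) := mul_le_mul_of_nonneg_left hq112 hC1.le
      calc C1 * (14 / q) * Real.sqrt (‖u₀ ^ 4 + 1‖ + 14 / q)
          ≤ C1 * (112 / n) * (11 * Real.sqrt (‖u₀ ^ 4 + 1‖ + 1 / (n:ℝ))) :=
            mul_le_mul h8 h2 (Real.sqrt_nonneg _) (by positivity)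
        _ = _ := by unfold rho; ring
    calc ‖z₀ - zs‖ = ‖(z₀ - psi u₀) - (psi ws - psi u₀)‖ := by rw [hzs]; congr 1; ring
      _ ≤ ‖z₀ - psi u₀‖ + ‖psi ws - psi u₀‖ := norm_sub_le _ _
      _ ≤ D * rho n u₀ + 1232 * C1 * rho n u₀ := add_le_add hz₀ h7
      _ = _ := by ring
  -- the polynomial
  refine ⟨Polynomial.C ((G.eval z₀)⁻¹ ^ 4) * G ^ 4, ?_, ?_, ?_⟩
  · refine lt_of_le_of_lt (Polynomial.natDegree_C_mul_le _ _) ?_
    refine lt_of_le_of_lt (Polynomial.natDegree_pow_le) ?_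
    have : 4 * G.natDegree ≤ 4 * (q - 1) := Nat.mul_le_mul_left 4 hGd
    omega
  · rw [Polynomial.eval_mul, Polynomial.eval_C, Polynomial.eval_pow, ← mul_pow,
      inv_mul_cancel₀ hG0', one_pow]
  · intro v hv
    set d : ℝ := ‖ws - v‖ with hd
    have hd14 : 14 / (q:ℝ) ≤ d := by
      have : ‖ws‖ - ‖v‖ ≤ ‖ws - v‖ := norm_sub_norm_le _ _
      rw [hws_norm, hv, hr] at this
      linarith
    have hd0 : 0 < d := lt_of_lt_of_le (by positivity) hd14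
    have hdn : 1 / (n:ℝ) ≤ d := by
      have : 1 / (n:ℝ) ≤ 56 / n := by
        apply div_le_div_of_nonneg_right (by norm_num) hn0.le
      linarith
    have hvu : ‖v - u₀‖ ≤ 2 * d := by
      calc ‖v - u₀‖ = ‖(ws - u₀) - (ws - v)‖ := by congr 1; ring
        _ ≤ ‖ws - u₀‖ + ‖ws - v‖ := norm_sub_le _ _
        _ ≤ _ := by rw [hwsu]; linarith
    have hd3 : (1 + n * ‖v - u₀‖) / (3 * n) ≤ d := by
      rw [div_le_iff₀ (by positivity)]
      have h1 : (n:ℝ) * ‖v - u₀‖ ≤ n * (2 * d) := mul_le_mul_of_nonneg_left hvu hn0.le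
      have h2 : 1 ≤ n * d := by
        rw [div_le_iff₀ hn0] at hdn
        linarith
      linarith
    have hlowv := hlow ws v (by rw [hws_norm]; exact hr1) (by rw [hws_norm]; exact hr2) hv
    rw [← hd, ← hzs] at hlowv
    have hsq : Real.sqrt (‖u₀ ^ 4 + 1‖ + 1 / (n:ℝ)) ≤
        Real.sqrt (‖ws ^ 4 + 1‖ + ‖v ^ 4 + 1‖ + d) := by
      apply Real.sqrt_le_sqrt
      have h1 : ‖u₀ ^ 4 + 1‖ ≤ ‖ws ^ 4 + 1‖ := by
        have h2 := peak_norm_mono (u₀ ^ 4) (by rw [norm_pow, hu₀, one_pow]) (r ^ 4)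
          (one_le_pow₀ hr1)
        have h3 : ws ^ 4 = ((r ^ 4 : ℝ) : ℂ) * u₀ ^ 4 := by rw [hws]; push_cast; ring
        rw [h3]; exact h2
      have h4 : 0 ≤ ‖v ^ 4 + 1‖ := norm_nonneg _
      linarith
    have hL : c1 / 3 * (1 + n * ‖v - u₀‖) * rho n u₀ ≤ ‖zs - psi v‖ := by
      refine le_trans ?_ hlowv
      calc c1 / 3 * (1 + n * ‖v - u₀‖) * rho n u₀
          = c1 * ((1 + n * ‖v - u₀‖) / (3 * n)) * Real.sqrt (‖u₀ ^ 4 + 1‖ + 1 / (n:ℝ)) := by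
            unfold rho; field_simp
        _ ≤ c1 * d * Real.sqrt (‖ws ^ 4 + 1‖ + ‖v ^ 4 + 1‖ + d) :=
            mul_le_mul (mul_le_mul_of_nonneg_left hd3 hc1.le) hsq (Real.sqrt_nonneg _)
              (by positivity)
    have hL0 : 0 < c1 / 3 * (1 + n * ‖v - u₀‖) * rho n u₀ := by positivity
    have hzv : 0 < ‖zs - psi v‖ := lt_of_lt_of_le hL0 hL
    have hFv : ‖F.eval (psi v)‖ ≤ 4 := by
      have h1 := hF2 v hv.ge
      have h4 : ‖F.eval (psi v)‖ ≤ ‖F.eval (psi v) - v ^ q‖ + ‖v ^ q‖ := by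
        calc ‖F.eval (psi v)‖ = ‖(F.eval (psi v) - v ^ q) + v ^ q‖ := by rw [sub_add_cancel]
          _ ≤ _ := norm_add_le _ _
      rw [norm_pow, hv, one_pow] at h4
      linarith
    have hGv : ‖zs - psi v‖ * ‖G.eval (psi v)‖ ≤ 2 * ‖F.eval zs‖ := by
      rw [norm_sub_rev zs, ← norm_mul, ← hG (psi v)]
      calc ‖F.eval (psi v) - F.eval zs‖ ≤ ‖F.eval (psi v)‖ + ‖F.eval zs‖ := norm_sub_le _ _
        _ ≤ _ := by linarith
    -- ratio
    have hratio : ‖G.eval (psi v)‖ ≤ ‖G.eval z₀‖ * (K / (1 + n * ‖v - u₀‖)) := by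
      have h1 : ‖G.eval (psi v)‖ * (c1 / 3 * (1 + n * ‖v - u₀‖) * rho n u₀) ≤
          4 * (((1232 * C1 + D) * rho n u₀) * ‖G.eval z₀‖) := by
        have h2 := mul_le_mul_of_nonneg_left hL (norm_nonneg (G.eval (psi v)))
        have h3 := mul_le_mul_of_nonneg_right hzsz0 (norm_nonneg (G.eval z₀))
        nlinarith
      have h5 : 0 < 1 + n * ‖v - u₀‖ := by positivity
      have h6 : ‖G.eval z₀‖ * (K / (1 + n * ‖v - u₀‖)) =
          (4 * (((1232 * C1 + D) * rho n u₀) * ‖G.eval z₀‖)) /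
            (c1 / 3 * (1 + n * ‖v - u₀‖) * rho n u₀) := by
        rw [hK]; field_simp; ring
      rw [h6, le_div_iff₀ hL0]
      exact h1
    rw [Polynomial.eval_mul, Polynomial.eval_C, Polynomial.eval_pow, ← mul_pow, norm_pow, norm_mul,
      norm_inv]
    have h7 : ‖G.eval z₀‖⁻¹ * ‖G.eval (psi v)‖ ≤ K / (1 + n * ‖v - u₀‖) := by
      rw [inv_mul_le_iff₀ hG0]; exact hratio
    calc (‖G.eval z₀‖⁻¹ * ‖G.eval (psi v)‖) ^ 4 ≤ (K / (1 + n * ‖v - u₀‖)) ^ 4 :=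
          pow_le_pow_left₀ (by positivity) h7 4
      _ = K ^ 4 / (1 + n * ‖v - u₀‖) ^ 4 := by rw [div_pow]
      _ ≤ (121 ^ 4 + K ^ 4) / (1 + n * ‖v - u₀‖) ^ 4 :=
          div_le_div_of_nonneg_right (le_add_of_nonneg_left (by norm_num)) (by positivity)

end Pool.Agent.Helper606.Fek
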