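import Pool.Agent.Helper606.Fek.Defs

set_option autoImplicit false

namespace Pool.Agent.Helper606.Fek
open Complex Set Filter Topology


theorem sum_sep (p c : ℝ) (hp : 1 < p) (hc : 0 < c) : ∃ C : ℝ, 0 < C ∧ ∀ n : ℕ, 1 ≤ n →
    ∀ m : ℕ, ∀ u : Fin m → ℂ, (∀ k, ‖u k‖ = 1) → (∀ j k, j ≠ k → c / n ≤ ‖u j - u k‖) →
    ∀ v : ℂ, ‖v‖ = 1 → ∑ k, 1 / (1 + n * ‖v - u k‖) ^ p ≤ C := by
  set a : ℝ := 2 / Real.pi with ha_def
  have hpi := Real.pi_pos
  have ha : 0 < a := by positivity
  set e : ℝ := min (a * c) (1 / 2) with he_def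
  have he : 0 < e := lt_min (by positivity) (by norm_num)
  have he1 : e ≤ a * c := min_le_left _ _
  have he2 : e ≤ 1 / 2 := min_le_right _ _
  let g : ℤ → ℝ := fun i => 1 / (e * (1 + |(i:ℝ)|)) ^ p
  have hgn : Summable (fun n : ℕ => 1 / (e * (1 + (n:ℝ))) ^ p) := by
    have h1 : Summable (fun n : ℕ => 1 / ((n:ℝ)) ^ p) := Real.summable_one_div_nat_rpow.2 hp
    have h2 := ((summable_nat_add_iff 1).2 h1).mul_left (1 / e ^ p)
    refine h2.congr fun n => ?_
    rw [Real.mul_rpow he.le (by positivity)]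
    push_cast
    rw [add_comm (1:ℝ) n]
    field_simp
  have hg : Summable g := by
    rw [summable_int_iff_summable_nat_and_neg]
    constructor
    · refine hgn.congr fun n => ?_
      simp [g]
    · refine hgn.congr fun n => ?_
      simp [g]
  have hg0 : ∀ i, 0 ≤ g i := fun i => by
    simp only [g]; positivity
  refine ⟨(∑' i, g i) + 1, by have : 0 ≤ ∑' i, g i := tsum_nonneg hg0; linarith, ?_⟩
  intro n hn m u hu hsep v hv
  have hn' : (0:ℝ) < n := by exact_mod_cast hn
  have hv0 : v ≠ 0 := by rw [← norm_pos_iff, hv]; norm_num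
  set θ : Fin m → ℝ := fun k => Complex.arg (u k / v) with hθ_def
  have hθ : ∀ k, u k = v * exp (I * θ k) := by
    intro k
    have h1 : ‖u k / v‖ = 1 := by rw [norm_div, hu, hv, div_one]
    have h2 := Complex.norm_mul_exp_arg_mul_I (u k / v)
    rw [h1] at h2
    simp only [ofReal_one, one_mul] at h2
    rw [mul_comm I, h2]
    field_simp
  have hθπ : ∀ k, |θ k| ≤ Real.pi := fun k => Complex.abs_arg_le_pi _
  have h1 : ∀ k, a * |θ k| ≤ ‖v - u k‖ := by
    intro k
    have e1 : v - u k = - (v * (exp (I * θ k) - 1)) := by rw [hθ k]; ring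
    rw [e1, norm_neg, norm_mul, hv, one_mul, Complex.norm_exp_I_mul_ofReal_sub_one, norm_mul,
      Real.norm_ofNat, Real.norm_eq_abs]
    have h3 : |Real.sin (θ k / 2)| = Real.sin (|θ k| / 2) := by
      have h0 : 0 ≤ Real.sin (|θ k| / 2) :=
        Real.sin_nonneg_of_nonneg_of_le_pi (by positivity) (by linarith [hθπ k])
      rcases abs_cases (θ k) with ⟨h, _⟩ | ⟨h, _⟩
      · rw [h] at h0 ⊢
        exact abs_of_nonneg h0
      · rw [h] at h0 ⊢
        rw [neg_div, Real.sin_neg] at h0 ⊢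
        rw [abs_of_nonpos (by linarith)]
    rw [h3]
    have h4 := Real.mul_le_sin (x := |θ k| / 2) (by positivity) (by linarith [hθπ k])
    have h5 : a * |θ k| = 2 * (2 / Real.pi * (|θ k| / 2)) := by rw [ha_def]; ring
    rw [h5]
    linarith
  have h2 : ∀ j k, ‖u j - u k‖ ≤ |θ j - θ k| := by
    intro j k
    have e1 : u j - u k = u k * (exp (I * ((θ j - θ k : ℝ) : ℂ)) - 1) := by
      have : exp (I * θ j) = exp (I * θ k) * exp (I * ((θ j - θ k : ℝ) : ℂ)) := by
        rw [← Complex.exp_add]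
        congr 1
        push_cast
        ring
      rw [hθ j, this, hθ k]
      ring
    rw [e1, norm_mul, hu, one_mul]
    exact Real.norm_exp_I_mul_ofReal_sub_one_le
  set φ : Fin m → ℤ := fun k => ⌊n * θ k / c⌋ with hφ
  have hinj : Function.Injective φ := by
    intro j k hjk
    by_contra hne
    have h3 := hsep j k hne
    have h4 := Int.abs_sub_lt_one_of_floor_eq_floor hjk
    have h5 : n * θ j / c - n * θ k / c = n / c * (θ j - θ k) := by ring
    rw [h5, abs_mul, abs_of_pos (by positivity : (0:ℝ) < n / c)] at h4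
    have h6 := h2 j k
    have h7 : (n:ℝ) / c * (c / n) ≤ n / c * |θ j - θ k| :=
      mul_le_mul_of_nonneg_left (h3.trans h6) (by positivity)
    have h8 : (n:ℝ) / c * (c / n) = 1 := by field_simp
    linarith
  have h3 : ∀ k, 1 / (1 + n * ‖v - u k‖) ^ p ≤ g (φ k) := by
    intro k
    simp only [g]
    have hb : e * (1 + |((φ k : ℤ) : ℝ)|) ≤ 1 + n * ‖v - u k‖ := by
      have h4 : |((φ k : ℤ) : ℝ)| ≤ n * |θ k| / c + 1 := by
        have h5 := Int.floor_le (n * θ k / c)
        have h6 := Int.lt_floor_add_one (n * θ k / c)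
        have h7 : |n * θ k / c| = n * |θ k| / c := by
          rw [abs_div, abs_mul, abs_of_pos hn', abs_of_pos hc]
        rw [← h7]
        have h8 := neg_abs_le (n * θ k / c)
        have h9 := le_abs_self (n * θ k / c)
        rw [abs_le]
        constructor
        · simp only [hφ]; linarith
        · simp only [hφ]; linarith
      have h10 : n * (a * |θ k|) ≤ n * ‖v - u k‖ := mul_le_mul_of_nonneg_left (h1 k) hn'.le
      have h11 : e * (n * |θ k| / c) ≤ a * c * (n * |θ k| / c) :=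
        mul_le_mul_of_nonneg_right he1 (by positivity)
      have h12 : a * c * (n * |θ k| / c) = n * (a * |θ k|) := by field_simp
      have h13 : e * (1 + |((φ k : ℤ) : ℝ)|) ≤ e * (1 + (n * |θ k| / c + 1)) :=
        mul_le_mul_of_nonneg_left (by linarith) he.le
      nlinarith
    have hb0 : 0 < e * (1 + |((φ k : ℤ) : ℝ)|) := by positivity
    apply one_div_le_one_div_of_le (Real.rpow_pos_of_pos hb0 p)
    exact Real.rpow_le_rpow hb0.le hb (by linarith)
  calc ∑ k, 1 / (1 + n * ‖v - u k‖) ^ p ≤ ∑ k, g (φ k) := Finset.sum_le_sum fun k _ => h3 k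
    _ = ∑ i ∈ Finset.univ.image φ, g i := by
        rw [Finset.sum_image fun x _ y _ h => hinj h]
    _ ≤ ∑' i, g i := hg.sum_le_tsum _ fun i _ => hg0 i
    _ ≤ (∑' i, g i) + 1 := by linarith

end Pool.Agent.Helper606.Fek
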