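import Pool.Agent.Helper606.Fek.Defs
import Pool.Agent.Helper606.Fek.P_psi_bdry
import Pool.Agent.Helper606.Fek.P_peak
import Pool.Agent.Helper606.Fek.P_fek_sep_u
import Pool.Agent.Helper606.Fek.P_sum_sep
import Pool.Agent.Helper606.Fek.P_rho_basic
import Pool.Agent.Helper606.Fek.P_lagrange_ineq

set_option autoImplicit false

namespace Pool.Agent.Helper606.Fek
open Complex Set Filter Topology


theorem fek_dense : ∃ A : ℝ, 1 ≤ A ∧ ∀ n : ℕ, 9 ≤ n → ∀ u : Fin n → ℂ, FekData n u →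
    ∀ v : ℂ, ‖v‖ = 1 → ∃ k, ‖u k - v‖ ≤ A / n := by
  obtain ⟨C, hC, hpeak⟩ := peak 1 one_pos
  obtain ⟨c, hc, -, hsep⟩ := fek_sep_u
  obtain ⟨C2, hC2, hsum⟩ := sum_sep 2 c (by norm_num) hc
  have hCC : 0 < C * C2 := mul_pos hC hC2
  have hs0 : 0 ≤ Real.sqrt (C * C2) := Real.sqrt_nonneg _
  have hs2 : Real.sqrt (C * C2) ^ 2 = C * C2 := Real.sq_sqrt hCC.le
  refine ⟨Real.sqrt (C * C2) + 1, by linarith, ?_⟩
  intro n hn u hu v hv
  by_contra hcon
  push Not at hcon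
  set A : ℝ := Real.sqrt (C * C2) + 1 with hA
  have hA1 : 1 ≤ A := by linarith
  have hA2 : C * C2 < A ^ 2 := by
    rw [hA]; nlinarith
  have hn1 : 1 ≤ n := by omega
  have hn0 : (0 : ℝ) < n := by exact_mod_cast (by omega : 0 < n)
  have hsq : psi v ∈ sq := psi_bdry v hv
  have hsq' : max |(psi v).re| |(psi v).im| = 1 := hsq
  obtain ⟨Q, hQd, hQ1, hQb⟩ := hpeak n hn v (psi v) hv
    (by rw [sub_self, norm_zero, one_mul]; exact (rho_pos n hn1 v).le) (Or.inl hsq'.le)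
  have h1 := lagrange_ineq n u hu Q hQd (psi v)
  rw [hQ1, norm_one] at h1
  have h2 : ∀ k ∈ Finset.univ, ‖Q.eval (psi (u k))‖ *
      ((∏ j ∈ Finset.univ.erase k, ‖psi v - psi (u j)‖) / MM u k) ≤
      (C / A ^ 2) * (1 / (1 + n * ‖v - u k‖) ^ (2 : ℝ)) := by
    intro k _
    have hq : (∏ j ∈ Finset.univ.erase k, ‖psi v - psi (u j)‖) / MM u k ≤ 1 := by
      rw [div_le_one (hu.pos k)]
      exact hu.max k _ hsq
    have hq0 : 0 ≤ (∏ j ∈ Finset.univ.erase k, ‖psi v - psi (u j)‖) / MM u k :=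
      div_nonneg (Finset.prod_nonneg fun _ _ => norm_nonneg _) (hu.pos k).le
    have hb := hQb (u k) (hu.norm_u k)
    have hk := hcon k
    have hX : A < 1 + n * ‖u k - v‖ := by
      rw [div_lt_iff₀ hn0] at hk
      nlinarith
    set X : ℝ := 1 + n * ‖u k - v‖ with hXdef
    have hXv : 1 + (n : ℝ) * ‖v - u k‖ = X := by rw [hXdef, norm_sub_rev]
    have hX0 : 0 < X := by linarith
    rw [hXv, Real.rpow_two]
    calc ‖Q.eval (psi (u k))‖ * ((∏ j ∈ Finset.univ.erase k, ‖psi v - psi (u j)‖) / MM u k)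
        ≤ ‖Q.eval (psi (u k))‖ * 1 := mul_le_mul_of_nonneg_left hq (norm_nonneg _)
      _ = ‖Q.eval (psi (u k))‖ := mul_one _
      _ ≤ C / X ^ 4 := hb
      _ ≤ (C / A ^ 2) * (1 / X ^ 2) := by
          rw [div_mul_div_comm, mul_one]
          apply div_le_div_of_nonneg_left hC.le (by positivity)
          have : X ^ 4 = X ^ 2 * X ^ 2 := by ring
          rw [this]
          apply mul_le_mul_of_nonneg_right _ (by positivity)
          nlinarith
  have h3 := h1.trans (Finset.sum_le_sum h2)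
  rw [← Finset.mul_sum] at h3
  have h4 := hsum n hn1 n u hu.norm_u (fun j k hjk => hsep n hn1 u hu j k hjk) v hv
  have hAp : 0 < C / A ^ 2 := by positivity
  have h5 : 1 ≤ (C / A ^ 2) * C2 := h3.trans (mul_le_mul_of_nonneg_left h4 hAp.le)
  have h6 : (C / A ^ 2) * C2 = C * C2 / A ^ 2 := by ring
  rw [h6, le_div_iff₀ (by positivity)] at h5
  linarith

end Pool.Agent.Helper606.Fek
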