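import Pool.Agent.Helper606.Fek.Defs
import Pool.Agent.Helper606.Fek.P_psi_sym
import Pool.Agent.Helper606.Fek.P_yy_basic
import Pool.Agent.Helper606.Fek.P_psi_arc_val
import Pool.Agent.Helper606.Fek.P_sector_decomp
import Pool.Agent.Helper606.Fek.P_psi_bdry
import Pool.Agent.Helper606.Fek.P_psi_inj_circle

set_option autoImplicit false

namespace Pool.Agent.Helper606.Fek
open Complex Set Filter Topology


/-- points of the circle mapped to the right side -/
theorem right_side (u : ℂ) (hu : ‖u‖ = 1) (h : (psi u).re = 1) :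
    ∃ θ : ℝ, |θ| ≤ Real.pi / 4 ∧ u = exp (θ * I) ∧ (psi u).im = yy θ := by
  have hsq : max |(psi u).re| |(psi u).im| = 1 := psi_bdry u hu
  have him : |(psi u).im| ≤ 1 := by
    rw [← hsq]
    exact le_max_right _ _
  have hpi : -(Real.pi / 4) ≤ Real.pi / 4 := by linarith [Real.pi_pos]
  have hmem : (psi u).im ∈ Icc (yy (-(Real.pi / 4))) (yy (Real.pi / 4)) := by
    rw [yy_neg, yy_quarter]
    exact abs_le.1 him
  obtain ⟨θ, hθ, hyθ⟩ := intermediate_value_Icc hpi yy_cont.continuousOn hmem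
  have habs : |θ| ≤ Real.pi / 4 := abs_le.2 hθ
  refine ⟨θ, habs, ?_, hyθ.symm⟩
  apply psi_inj_circle u (exp (θ * I)) hu (Complex.norm_exp_ofReal_mul_I θ)
  rw [psi_arc_val θ habs, hyθ]
  apply Complex.ext
  · simp [h]
  · simp

end Pool.Agent.Helper606.Fek
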