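import Pool.Agent.Helper606.Fek.Defs
import Pool.Agent.Helper606.Fek.P_yy_basic
import Pool.Agent.Helper606.Fek.P_psi_arc_val
import Pool.Agent.Helper606.Fek.P_psi_lower
import Pool.Agent.Helper606.Fek.P_psi_upper
import Pool.Agent.Helper606.Fek.P_right_side

set_option autoImplicit false

namespace Pool.Agent.Helper606.Fek
open Complex Set Filter Topology


theorem s_del_pow {d : ℝ} (hd : 0 ≤ d) : (d * Real.sqrt d) ^ (2/3 : ℝ) = d := by
  have h1 : d * Real.sqrt d = (Real.sqrt d) ^ (3 : ℝ) := by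
    have : (Real.sqrt d) ^ (3 : ℝ) = (Real.sqrt d) ^ (3 : ℕ) := by
      rw [← Real.rpow_natCast]; norm_num
    rw [this, pow_succ, Real.sq_sqrt hd]
  rw [h1, ← Real.rpow_mul (Real.sqrt_nonneg d)]
  have h2 : (3 : ℝ) * (2 / 3) = ((2 : ℕ) : ℝ) := by norm_num
  rw [h2, Real.rpow_natCast, Real.sq_sqrt hd]

theorem s_del_norm (θ : ℝ) : ‖exp (θ * I) ^ 4 + 1‖ = 2 * |Real.cos (2 * θ)| := by
  have h1 : exp (θ * I) ^ 4 + 1 = exp ((2 * θ : ℝ) * I) * ((2 * Real.cos (2 * θ) : ℝ) : ℂ) := by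
    push_cast
    rw [Complex.two_cos, ← Complex.exp_nat_mul, mul_add, ← Complex.exp_add, ← Complex.exp_add]
    congr 1
    · congr 1; push_cast; ring
    · rw [← Complex.exp_zero]; congr 1; ring
  rw [h1, norm_mul, Complex.norm_exp_ofReal_mul_I, one_mul, Complex.norm_real, Real.norm_eq_abs,
    abs_mul, abs_two]

theorem s_del_dist (θ α : ℝ) : ‖exp (θ * I) - exp (α * I)‖ ≤ |θ - α| := by
  have h1 : exp (θ * I) - exp (α * I) = exp (α * I) * (exp (I * ((θ - α : ℝ) : ℂ)) - 1) := by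
    rw [mul_sub, ← Complex.exp_add, mul_one]
    congr 2
    push_cast
    ring
  rw [h1, norm_mul, Complex.norm_exp_ofReal_mul_I, one_mul]
  exact Real.norm_exp_I_mul_ofReal_sub_one_le

theorem s_del_upper4 (u e : ℂ) (hu : ‖u‖ = 1) (he : ‖e‖ = 1) (he4 : e ^ 4 = -1) :
    ‖u ^ 4 + 1‖ ≤ 4 * ‖u - e‖ := by
  have h1 : u ^ 4 + 1 = (u - e) * (u ^ 3 + u ^ 2 * e + u * e ^ 2 + e ^ 3) := by
    have : u ^ 4 + 1 = u ^ 4 - e ^ 4 := by rw [he4]; ring
    rw [this]; ring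
  rw [h1, norm_mul, mul_comm]
  apply mul_le_mul_of_nonneg_right _ (norm_nonneg _)
  calc ‖u ^ 3 + u ^ 2 * e + u * e ^ 2 + e ^ 3‖
      ≤ ‖u ^ 3 + u ^ 2 * e + u * e ^ 2‖ + ‖e ^ 3‖ := norm_add_le _ _
    _ ≤ ‖u ^ 3 + u ^ 2 * e‖ + ‖u * e ^ 2‖ + ‖e ^ 3‖ := by gcongr; exact norm_add_le _ _
    _ ≤ ‖u ^ 3‖ + ‖u ^ 2 * e‖ + ‖u * e ^ 2‖ + ‖e ^ 3‖ := by gcongr; exact norm_add_le _ _
    _ = 4 := by simp only [norm_mul, norm_pow, hu, he]; norm_num

theorem s_del_core {c C : ℝ} (hc : 0 < c) (hC : 0 < C) {s d D : ℝ} (hd : 0 ≤ d) (hs : 0 ≤ s)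
    (h1 : c * (d * Real.sqrt d) ≤ s) (h2 : s ≤ C * (d * Real.sqrt d)) (h3 : d ≤ D)
    (h4 : D ≤ 4 * d) :
    (C ^ (2/3 : ℝ))⁻¹ * s ^ (2/3 : ℝ) ≤ D ∧ D ≤ (4 * (c ^ (2/3 : ℝ))⁻¹) * s ^ (2/3 : ℝ) := by
  have hdd : 0 ≤ d * Real.sqrt d := mul_nonneg hd (Real.sqrt_nonneg d)
  have hcp : 0 < c ^ (2/3 : ℝ) := Real.rpow_pos_of_pos hc _
  have hCp : 0 < C ^ (2/3 : ℝ) := Real.rpow_pos_of_pos hC _
  have e1 : c ^ (2/3 : ℝ) * d ≤ s ^ (2/3 : ℝ) := by
    have := Real.rpow_le_rpow (mul_nonneg hc.le hdd) h1 (by norm_num : (0:ℝ) ≤ 2/3)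
    rwa [Real.mul_rpow hc.le hdd, s_del_pow hd] at this
  have e2 : s ^ (2/3 : ℝ) ≤ C ^ (2/3 : ℝ) * d := by
    have := Real.rpow_le_rpow hs h2 (by norm_num : (0:ℝ) ≤ 2/3)
    rwa [Real.mul_rpow hC.le hdd, s_del_pow hd] at this
  constructor
  · have : (C ^ (2/3 : ℝ))⁻¹ * s ^ (2/3 : ℝ) ≤ (C ^ (2/3 : ℝ))⁻¹ * (C ^ (2/3 : ℝ) * d) :=
      mul_le_mul_of_nonneg_left e2 (inv_pos.2 hCp).le
    rw [← mul_assoc, inv_mul_cancel₀ hCp.ne', one_mul] at this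
    linarith
  · have : (c ^ (2/3 : ℝ))⁻¹ * (c ^ (2/3 : ℝ) * d) ≤ (c ^ (2/3 : ℝ))⁻¹ * s ^ (2/3 : ℝ) :=
      mul_le_mul_of_nonneg_left e1 (inv_pos.2 hcp).le
    rw [← mul_assoc, inv_mul_cancel₀ hcp.ne', one_mul] at this
    linarith

theorem s_del_D (θ α : ℝ) (h : |θ - α| ≤ Real.pi / 4)
    (hcos : |Real.cos (2 * θ)| = Real.sin (2 * |θ - α|)) :
    ‖exp (θ * I) - exp (α * I)‖ ≤ ‖exp (θ * I) ^ 4 + 1‖ := by
  refine (s_del_dist θ α).trans ?_
  rw [s_del_norm, hcos]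
  have h1 := Real.mul_le_sin (x := 2 * |θ - α|) (by positivity) (by linarith)
  have hpi := Real.pi_pos
  have hpi4 := Real.pi_le_four
  have h2 : |θ - α| ≤ 2 * (2 / Real.pi * (2 * |θ - α|)) := by
    have : 2 * (2 / Real.pi * (2 * |θ - α|)) = (8 / Real.pi) * |θ - α| := by ring
    rw [this]
    have h3 : 1 ≤ 8 / Real.pi := by
      rw [le_div_iff₀ hpi]; linarith
    nlinarith [abs_nonneg (θ - α)]
  linarith

theorem s_del_corner (σ : ℝ) (hσ : σ = 1 ∨ σ = -1) :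
    exp (((σ * (Real.pi / 4) : ℝ) : ℂ) * I) ^ 4 = -1 := by
  rw [← Complex.exp_nat_mul]
  rcases hσ with rfl | rfl
  · have : ((4 : ℕ) : ℂ) * (((1 * (Real.pi / 4) : ℝ) : ℂ) * I) = Real.pi * I := by
      push_cast; ring
    rw [this, Complex.exp_pi_mul_I]
  · have : ((4 : ℕ) : ℂ) * (((-1 * (Real.pi / 4) : ℝ) : ℂ) * I) = -(Real.pi * I) := by
      push_cast; ring
    rw [this, Complex.exp_neg, Complex.exp_pi_mul_I]
    norm_num

theorem s_del : ∃ c C : ℝ, 0 < c ∧ 0 < C ∧ ∀ u : ℂ, ‖u‖ = 1 → (psi u).re = 1 →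
    c * (1 - |(psi u).im|) ^ (2/3 : ℝ) ≤ ‖u ^ 4 + 1‖ ∧
    ‖u ^ 4 + 1‖ ≤ C * (1 - |(psi u).im|) ^ (2/3 : ℝ) := by
  obtain ⟨c, hc, hlow⟩ := psi_lower
  obtain ⟨C, hC, hupp⟩ := psi_upper
  refine ⟨(C ^ (2/3 : ℝ))⁻¹, 4 * (c ^ (2/3 : ℝ))⁻¹, by positivity, by positivity, ?_⟩
  intro u hu hre
  obtain ⟨θ, hθ, hue, him⟩ := right_side u hu hre
  have hpi := Real.pi_pos
  -- choose the corner
  obtain ⟨σ, hσ, h1, h2, h3⟩ : ∃ σ : ℝ, (σ = 1 ∨ σ = -1) ∧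
      |θ - σ * (Real.pi / 4)| ≤ Real.pi / 4 ∧
      |Real.cos (2 * θ)| = Real.sin (2 * |θ - σ * (Real.pi / 4)|) ∧
      |yy θ - σ| = 1 - |yy θ| := by
    have hcos : 0 ≤ Real.cos (2 * θ) := by
      apply Real.cos_nonneg_of_mem_Icc
      have := abs_le.1 hθ
      constructor <;> linarith [this.1, this.2]
    have hmem : θ ∈ Icc (-(Real.pi / 4)) (Real.pi / 4) := ⟨(abs_le.1 hθ).1, (abs_le.1 hθ).2⟩
    have hmem0 : (0 : ℝ) ∈ Icc (-(Real.pi / 4)) (Real.pi / 4) := ⟨by linarith, by linarith⟩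
    have hmem1 : (Real.pi / 4) ∈ Icc (-(Real.pi / 4)) (Real.pi / 4) := ⟨by linarith, le_rfl⟩
    have hmem2 : (-(Real.pi / 4)) ∈ Icc (-(Real.pi / 4)) (Real.pi / 4) := ⟨le_rfl, by linarith⟩
    rcases le_total 0 θ with h0 | h0
    · refine ⟨1, Or.inl rfl, ?_, ?_, ?_⟩
      · rw [abs_le]; constructor <;> linarith [hmem.1, hmem.2]
      · rw [abs_of_nonneg hcos, abs_of_nonpos (by linarith [hmem.2])]
        have : 2 * -(θ - 1 * (Real.pi / 4)) = Real.pi / 2 - 2 * θ := by ring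
        rw [this, Real.sin_pi_div_two_sub]
      · have hy0 : 0 ≤ yy θ := by
          have := yy_strictMono.monotoneOn hmem0 hmem h0
          rwa [yy_zero] at this
        have hy1 : yy θ ≤ 1 := by
          have := yy_strictMono.monotoneOn hmem hmem1 hmem.2
          rwa [yy_quarter] at this
        rw [abs_of_nonneg hy0, abs_of_nonpos (by linarith)]
        ring
    · refine ⟨-1, Or.inr rfl, ?_, ?_, ?_⟩
      · rw [abs_le]; constructor <;> linarith [hmem.1, hmem.2]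
      · rw [abs_of_nonneg hcos, abs_of_nonneg (by linarith [hmem.1])]
        have : 2 * (θ - -1 * (Real.pi / 4)) = 2 * θ + Real.pi / 2 := by ring
        rw [this, Real.sin_add_pi_div_two]
      · have hy0 : yy θ ≤ 0 := by
          have := yy_strictMono.monotoneOn hmem hmem0 h0
          rwa [yy_zero] at this
        have hy1 : -1 ≤ yy θ := by
          have := yy_strictMono.monotoneOn hmem2 hmem hmem.1
          rwa [yy_neg, yy_quarter] at this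
        rw [abs_of_nonpos hy0, abs_of_nonneg (by linarith)]
        ring
  set α : ℝ := σ * (Real.pi / 4) with hα
  have hαabs : |α| ≤ Real.pi / 4 := by
    rw [hα]
    rcases hσ with rfl | rfl
    · rw [one_mul, abs_of_pos (by positivity)]
    · rw [neg_one_mul, abs_neg, abs_of_pos (by positivity)]
  have he1 : ‖exp (α * I)‖ = 1 := Complex.norm_exp_ofReal_mul_I α
  have he4 : exp (α * I) ^ 4 = -1 := s_del_corner σ hσ
  have hyα : yy α = σ := by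
    rw [hα]
    rcases hσ with rfl | rfl
    · rw [one_mul, yy_quarter]
    · rw [neg_one_mul, yy_neg, yy_quarter]
  have hs : ‖psi u - psi (exp (α * I))‖ = 1 - |(psi u).im| := by
    rw [him, hue, psi_arc_val θ hθ, psi_arc_val α hαabs, hyα]
    have : (1 + I * (yy θ : ℂ)) - (1 + I * (σ : ℂ)) = I * ((yy θ - σ : ℝ) : ℂ) := by
      push_cast; ring
    rw [this, norm_mul, Complex.norm_I, one_mul, Complex.norm_real, Real.norm_eq_abs, h3]
  have hd4 : ‖exp (α * I) ^ 4 + 1‖ = 0 := by rw [he4]; simp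
  have hL := hlow u (exp (α * I)) hu.ge (by rw [hu]; norm_num) he1
  have hU := hupp u (exp (α * I)) hu.ge (by rw [hu]; norm_num) he1
  rw [hs, hd4, add_zero] at hL
  rw [hs, hd4, zero_add] at hU
  set d := ‖u - exp (α * I)‖ with hd
  have hd0 : 0 ≤ d := norm_nonneg _
  refine s_del_core hc hC hd0 (by rw [← hs]; exact norm_nonneg _) ?_ ?_ ?_ ?_
  · refine le_trans ?_ hL
    rw [← mul_assoc]
    apply mul_le_mul_of_nonneg_left _ (by positivity)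
    apply Real.sqrt_le_sqrt
    have := norm_nonneg (u ^ 4 + 1)
    linarith
  · rw [← mul_assoc]
    exact hU
  · rw [hd, hue]
    exact s_del_D θ α h1 h2
  · exact s_del_upper4 u _ hu he1 he4

end Pool.Agent.Helper606.Fek
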