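import Pool.Agent.Helper606.Fek.Defs
import Pool.Agent.Helper606.Fek.P_s_del

set_option autoImplicit false

namespace Pool.Agent.Helper606.Fek
open Complex Set Filter Topology


/-- on the right side, away from the corners, `rho ~ s^{1/3}/n` -/
theorem rho_s : ∃ c C : ℝ, 0 < c ∧ 0 < C ∧ ∀ n : ℕ, 1 ≤ n → ∀ u : ℂ, ‖u‖ = 1 → (psi u).re = 1 →
    1 ≤ (n:ℝ) ^ (3/2 : ℝ) * (1 - |(psi u).im|) →
    c * ((1 / n) * (1 - |(psi u).im|) ^ (1/3 : ℝ)) ≤ rho n u ∧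
    rho n u ≤ C * ((1 / n) * (1 - |(psi u).im|) ^ (1/3 : ℝ)) := by
  obtain ⟨c, C, hc, hC, h⟩ := s_del
  refine ⟨Real.sqrt c, Real.sqrt (C + 1), Real.sqrt_pos.2 hc, Real.sqrt_pos.2 (by linarith), ?_⟩
  intro n hn u hu hre hns
  obtain ⟨h1, h2⟩ := h u hu hre
  obtain ⟨s, hs⟩ : ∃ s : ℝ, s = 1 - |(psi u).im| := ⟨_, rfl⟩
  rw [← hs] at h1 h2 hns ⊢
  have hn0 : (0 : ℝ) < n := by exact_mod_cast hn
  have hs0 : 0 < s := by
    by_contra hcon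
    push Not at hcon
    have h3 : (n : ℝ) ^ (3 / 2 : ℝ) * s ≤ 0 :=
      mul_nonpos_of_nonneg_of_nonpos (Real.rpow_nonneg hn0.le _) hcon
    linarith
  obtain ⟨r, hr⟩ : ∃ r : ℝ, r = s ^ (1 / 3 : ℝ) := ⟨_, rfl⟩
  have hr0 : 0 < r := by rw [hr]; exact Real.rpow_pos_of_pos hs0 _
  have hr2 : s ^ (2 / 3 : ℝ) = r ^ 2 := by
    rw [hr, ← Real.rpow_natCast, ← Real.rpow_mul hs0.le]; norm_num
  rw [hr2] at h1 h2
  rw [← hr]
  have hnr : 1 / (n : ℝ) ≤ r ^ 2 := by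
    rw [div_le_iff₀ hn0, ← hr2]
    have h3 : (1 : ℝ) ≤ ((n : ℝ) ^ (3 / 2 : ℝ) * s) ^ (2 / 3 : ℝ) :=
      Real.one_le_rpow hns (by norm_num)
    rw [Real.mul_rpow (Real.rpow_nonneg hn0.le _) hs0.le, ← Real.rpow_mul hn0.le] at h3
    norm_num at h3
    rw [mul_comm] at h3
    convert h3 using 2
  have hsq1 : Real.sqrt c ^ 2 = c := Real.sq_sqrt hc.le
  have hsq2 : Real.sqrt (C + 1) ^ 2 = C + 1 := Real.sq_sqrt (by linarith)
  have hn1 : 0 ≤ 1 / (n : ℝ) := by positivity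
  have hlow : Real.sqrt c * r ≤ Real.sqrt (‖u ^ 4 + 1‖ + 1 / (n : ℝ)) := by
    apply Real.le_sqrt_of_sq_le
    rw [mul_pow, hsq1]
    linarith
  have hup : Real.sqrt (‖u ^ 4 + 1‖ + 1 / (n : ℝ)) ≤ Real.sqrt (C + 1) * r := by
    rw [Real.sqrt_le_left (by positivity), mul_pow, hsq2]
    nlinarith
  unfold rho
  constructor
  · calc Real.sqrt c * (1 / (n : ℝ) * r) = (1 / (n : ℝ)) * (Real.sqrt c * r) := by ring
      _ ≤ _ := mul_le_mul_of_nonneg_left hlow hn1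
  · calc (1 / (n : ℝ)) * Real.sqrt (‖u ^ 4 + 1‖ + 1 / (n : ℝ))
        ≤ (1 / (n : ℝ)) * (Real.sqrt (C + 1) * r) := mul_le_mul_of_nonneg_left hup hn1
      _ = _ := by ring

end Pool.Agent.Helper606.Fek
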