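import Pool.Agent.Helper606.Fek.Defs
import Pool.Agent.Helper606.Fek.P_yy_basic
import Pool.Agent.Helper606.Fek.P_psi_arc_val
import Pool.Agent.Helper606.Fek.P_psi_bdry
import Pool.Agent.Helper606.Fek.P_psi_upper
import Pool.Agent.Helper606.Fek.P_rho_basic
import Pool.Agent.Helper606.Fek.P_fek_dense
import Pool.Agent.Helper606.Fek.P_right_side
import Pool.Agent.Helper606.Fek.P_s_del
import Pool.Agent.Helper606.Fek.P_rho_s

set_option autoImplicit false

namespace Pool.Agent.Helper606.Fek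
open Complex Set Filter Topology


theorem lgL_exp_sub (a b : ℝ) : ‖exp ((a:ℂ) * I) - exp ((b:ℂ) * I)‖ ≤ |a - b| := by
  have h1 : exp ((a:ℂ) * I) - exp ((b:ℂ) * I) =
      exp ((b:ℂ) * I) * (exp (I * ((a - b : ℝ) : ℂ)) - 1) := by
    rw [mul_sub, ← Complex.exp_add, mul_one]
    congr 2
    push_cast
    ring
  rw [h1, norm_mul, Complex.norm_exp_ofReal_mul_I, one_mul]
  exact Real.norm_exp_I_mul_ofReal_sub_one_le

theorem lgL_arg (w : ℂ) (hw : ‖w‖ = 1) :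
    w = exp ((arg w : ℂ) * I) ∧ |arg w| ≤ Real.pi / 2 * ‖w - 1‖ := by
  have h1 : w = exp ((arg w : ℂ) * I) := by
    have := Complex.norm_mul_exp_arg_mul_I w
    rw [hw, ofReal_one, one_mul] at this
    exact this.symm
  refine ⟨h1, ?_⟩
  have h2 : ‖w - 1‖ = ‖2 * Real.sin (arg w / 2)‖ := by
    rw [← Complex.norm_exp_I_mul_ofReal_sub_one, mul_comm I]
    rw [← h1]
  have h3 := Complex.abs_arg_le_pi w
  have h4 : 2 / Real.pi * |arg w / 2| ≤ |Real.sin (arg w / 2)| := by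
    apply Real.mul_abs_le_abs_sin
    rw [abs_div, abs_two]
    linarith
  have hpi := Real.pi_pos
  rw [h2, Real.norm_eq_abs, abs_mul, abs_two]
  rw [abs_div, abs_two] at h4
  have h5 := mul_le_mul_of_nonneg_left h4 hpi.le
  have h6 : Real.pi * (2 / Real.pi * (|arg w| / 2)) = |arg w| := by
    field_simp
  rw [h6] at h5
  linarith

theorem line_gapL : ∃ A₂ K₀ : ℝ, 0 < A₂ ∧ 0 < K₀ ∧ ∀ n : ℕ, 9 ≤ n →
    ∀ u : Fin n → ℂ, FekData n u → ∀ x : ℝ, |x| < 1 → K₀ ≤ (n:ℝ) ^ (3/2 : ℝ) * (1 - |x|) →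
    ∃ k, (psi (u k)).re = 1 ∧ |(psi (u k)).im| < 1 ∧ (psi (u k)).im < x ∧
      x - A₂ * (1 / n) * (1 - |x|) ^ (1/3 : ℝ) ≤ (psi (u k)).im := by
  obtain ⟨A, hA1, hA⟩ := fek_dense
  obtain ⟨c, _, hc, _, hdel⟩ := s_del
  obtain ⟨Cp, hCp, hpsi⟩ := psi_upper_rho
  obtain ⟨_, Cr, _, hCr, hrho⟩ := rho_s
  have hA0 : 0 < A := by linarith
  have hB : 0 < 40 * A / c := by positivity
  refine ⟨Cp * (3 * A) * Real.sqrt (1 + 3 * A) * Cr, max 1 ((40 * A / c) ^ (3/2 : ℝ)), ?_, ?_, ?_⟩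
  · have : 0 < Real.sqrt (1 + 3 * A) := Real.sqrt_pos.mpr (by linarith)
    positivity
  · exact lt_of_lt_of_le one_pos (le_max_left _ _)
  intro n hn u hu x hx hK
  have hn0 : (0:ℝ) < n := by
    have : (9:ℝ) ≤ n := by exact_mod_cast hn
    linarith
  have hs : 0 < 1 - |x| := by linarith
  have hx1 : |x| ≤ 1 := hx.le
  -- the point on the circle
  obtain ⟨u0, hu0, hpu0⟩ := psi_surj (1 + (x:ℂ) * I) (by
    show max |(1 + (x:ℂ) * I).re| |(1 + (x:ℂ) * I).im| = 1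
    simp [hx1])
  have hre0 : (psi u0).re = 1 := by rw [hpu0]; simp
  have him0 : (psi u0).im = x := by rw [hpu0]; simp
  obtain ⟨θ, hθ, hu0e, hyθ⟩ := right_side u0 hu0 hre0
  rw [him0] at hyθ
  have hK1 : 1 ≤ (n:ℝ) ^ (3/2 : ℝ) * (1 - |x|) := (le_max_left _ _).trans hK
  have hK2 : (40 * A / c) ^ (3/2 : ℝ) ≤ (n:ℝ) ^ (3/2 : ℝ) * (1 - |x|) :=
    (le_max_right _ _).trans hK
  -- n s^{2/3} ≥ 40 A / c
  have hns : 40 * A / c ≤ n * (1 - |x|) ^ (2/3 : ℝ) := by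
    have h1 := Real.rpow_le_rpow (by positivity) hK2 (by norm_num : (0:ℝ) ≤ 2/3)
    rw [← Real.rpow_mul hB.le, Real.mul_rpow (by positivity) hs.le,
      ← Real.rpow_mul hn0.le] at h1
    norm_num at h1
    exact h1
  have hdel0 := (hdel u0 hu0 hre0).1
  rw [him0] at hdel0
  have hu4 : ‖u0 ^ 4 + 1‖ ≤ 4 * (Real.pi / 4 - |θ|) := by
    have e1 : u0 ^ 4 = exp (((4 * θ : ℝ) : ℂ) * I) := by
      rw [hu0e, ← Complex.exp_nat_mul]
      congr 1
      push_cast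
      ring
    rcases le_total 0 θ with h | h
    · have e2 : (1:ℂ) = - exp ((Real.pi : ℂ) * I) := by rw [Complex.exp_pi_mul_I]; ring
      rw [e1]
      rw [e2]
      rw [← sub_eq_add_neg]
      refine (lgL_exp_sub _ _).trans ?_
      rw [abs_of_nonneg h] at hθ ⊢
      rw [abs_of_nonpos (by linarith)]
      linarith
    · have e2 : (1:ℂ) = - exp (((-Real.pi : ℝ) : ℂ) * I) := by
        push_cast
        rw [neg_mul, Complex.exp_neg, Complex.exp_pi_mul_I]; norm_num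
      rw [e1]
      rw [e2]
      rw [← sub_eq_add_neg]
      refine (lgL_exp_sub _ _).trans ?_
      rw [abs_of_nonpos h] at hθ ⊢
      rw [abs_of_nonneg (by linarith)]
      linarith
  have hgap : 10 * A / n ≤ Real.pi / 4 - |θ| := by
    have h1 : c * (1 - |x|) ^ (2/3 : ℝ) ≤ 4 * (Real.pi / 4 - |θ|) := hdel0.trans hu4
    rw [div_le_iff₀ hn0]
    rw [div_le_iff₀ hc] at hns
    nlinarith
  -- the dense point
  have hAn : 0 < A / n := by positivity
  obtain ⟨k, hk⟩ := hA n hn u hu (exp (((θ - 2 * (A / n) : ℝ) : ℂ) * I))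
    (Complex.norm_exp_ofReal_mul_I _)
  have huk := hu.norm_u k
  obtain ⟨φ, hφe, hφ⟩ : ∃ φ : ℝ, u k = exp (((θ - 2 * (A / n) + φ : ℝ) : ℂ) * I) ∧
      |φ| ≤ Real.pi / 2 * (A / n) := by
    set v := exp (((θ - 2 * (A / n) : ℝ) : ℂ) * I) with hv
    have hv1 : ‖v‖ = 1 := Complex.norm_exp_ofReal_mul_I _
    have hv0 : v ≠ 0 := Complex.exp_ne_zero _
    have hw : ‖u k / v‖ = 1 := by rw [norm_div, huk, hv1, div_one]
    obtain ⟨φ, h1, h2⟩ : ∃ φ : ℝ, u k / v = exp ((φ : ℂ) * I) ∧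
      |φ| ≤ Real.pi / 2 * ‖u k / v - 1‖ := ⟨_, lgL_arg (u k / v) hw⟩
    refine ⟨φ, ?_, ?_⟩
    · have h3 : u k = v * (u k / v) := by field_simp
      rw [h3, h1, hv, ← Complex.exp_add]
      congr 1
      push_cast
      ring
    · refine h2.trans ?_
      have h3 : ‖u k / v - 1‖ = ‖u k - v‖ := by
        have : u k / v - 1 = (u k - v) / v := by field_simp
        rw [this, norm_div, hv1, div_one]
      rw [h3]
      exact mul_le_mul_of_nonneg_left hk (by positivity)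
  have hpi4 : Real.pi < 4 := Real.pi_lt_four
  have hφ2 : |φ| < 2 * (A / n) := by
    refine hφ.trans_lt ?_
    nlinarith
  obtain ⟨hφ3, hφ4⟩ := abs_lt.mp hφ2
  set θk : ℝ := θ - 2 * (A / n) + φ with hθk
  have hgap' : 10 * (A / n) ≤ Real.pi / 4 - |θ| := by
    rw [mul_div_assoc] at hgap; exact hgap
  have hθ1 := le_abs_self θ
  have hθ2 := neg_abs_le θ
  have hlt : θk < θ := by rw [hθk]; linarith
  have hlo : -(Real.pi / 4) < θk := by rw [hθk]; linarith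
  have hhi : θk < Real.pi / 4 := by linarith
  have hpk : psi (u k) = 1 + I * (yy θk : ℂ) := by
    rw [hφe]
    exact psi_arc_val θk (abs_le.mpr ⟨hlo.le, hhi.le⟩)
  have hrek : (psi (u k)).re = 1 := by rw [hpk]; simp
  have himk : (psi (u k)).im = yy θk := by rw [hpk]; simp
  have hpi := Real.pi_pos
  have m0 : -(Real.pi / 4) ∈ Icc (-(Real.pi / 4)) (Real.pi / 4) := ⟨le_rfl, by linarith⟩
  have m1 : Real.pi / 4 ∈ Icc (-(Real.pi / 4)) (Real.pi / 4) := ⟨by linarith, le_rfl⟩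
  have mk : θk ∈ Icc (-(Real.pi / 4)) (Real.pi / 4) := ⟨hlo.le, hhi.le⟩
  have mθ : θ ∈ Icc (-(Real.pi / 4)) (Real.pi / 4) := ⟨by linarith, by linarith⟩
  have hy1 : yy θk < 1 := by rw [← yy_quarter]; exact yy_strictMono mk m1 hhi
  have hy2 : -1 < yy θk := by
    rw [← yy_quarter, ← yy_neg]; exact yy_strictMono m0 mk hlo
  have hy3 : yy θk < yy θ := yy_strictMono mk mθ hlt
  refine ⟨k, hrek, ?_, ?_, ?_⟩
  · rw [himk]; exact abs_lt.mpr ⟨hy2, hy1⟩
  · rw [himk, hyθ]; exact hy3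
  · have h1 : x - yy θk ≤ ‖psi (u k) - psi u0‖ := by
      have h2 := Complex.abs_im_le_norm (psi (u k) - psi u0)
      rw [Complex.sub_im, himk, him0] at h2
      have h3 := neg_abs_le (yy θk - x)
      linarith
    have h4 : ‖u k - u0‖ ≤ 3 * (A / n) := by
      have h5 : ‖exp (((θ - 2 * (A / n) : ℝ) : ℂ) * I) - u0‖ ≤ 2 * (A / n) := by
        rw [hu0e]
        refine (lgL_exp_sub _ _).trans ?_
        have : θ - 2 * (A / n) - θ = -(2 * (A / n)) := by ring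
        rw [this, abs_neg, abs_of_pos (by positivity)]
      calc ‖u k - u0‖ = ‖(u k - exp (((θ - 2 * (A / n) : ℝ) : ℂ) * I)) +
            (exp (((θ - 2 * (A / n) : ℝ) : ℂ) * I) - u0)‖ := by congr 1; ring
        _ ≤ _ := norm_add_le _ _
        _ ≤ 3 * (A / n) := by linarith
    have h6 : n * ‖u k - u0‖ ≤ 3 * A := by
      have := mul_le_mul_of_nonneg_left h4 hn0.le
      have h7 : (n:ℝ) * (3 * (A / n)) = 3 * A := by field_simp
      linarith
    have h8 := hpsi n (by omega) (u k) u0 (by rw [huk]) (by rw [huk]; norm_num) hu0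
    have h9 := (hrho n (by omega) u0 hu0 hre0 (by rw [him0]; exact hK1)).2
    rw [him0] at h9
    have hr0 := rho_pos n (by omega) u0
    have h10 : Real.sqrt (1 + n * ‖u k - u0‖) ≤ Real.sqrt (1 + 3 * A) :=
      Real.sqrt_le_sqrt (by linarith)
    have h11 : Cp * (n * ‖u k - u0‖) * Real.sqrt (1 + n * ‖u k - u0‖) * rho n u0 ≤
        Cp * (3 * A) * Real.sqrt (1 + 3 * A) * (Cr * ((1 / n) * (1 - |x|) ^ (1/3 : ℝ))) := by
      have : 0 ≤ n * ‖u k - u0‖ := by positivity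
      gcongr
    have h12 : Cp * (3 * A) * Real.sqrt (1 + 3 * A) * (Cr * ((1 / n) * (1 - |x|) ^ (1/3 : ℝ))) =
        Cp * (3 * A) * Real.sqrt (1 + 3 * A) * Cr * (1 / n) * (1 - |x|) ^ (1/3 : ℝ) := by ring
    rw [himk]
    linarith

end Pool.Agent.Helper606.Fek
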