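import Pool.Agent.Helper606.Fek.Defs
import Pool.Agent.Helper606.Fek.P_yy_basic
import Pool.Agent.Helper606.Fek.P_psi_arc_val
import Pool.Agent.Helper606.Fek.P_psi_bdry
import Pool.Agent.Helper606.Fek.P_psi_upper
import Pool.Agent.Helper606.Fek.P_rho_basic
import Pool.Agent.Helper606.Fek.P_fek_dense
import Pool.Agent.Helper606.Fek.P_right_side
import Pool.Agent.Helper606.Fek.P_s_del
import Pool.Agent.Helper606.Fek.P_rho_s

set_option autoImplicit false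

namespace Pool.Agent.Helper606.Fek
open Complex Set Filter Topology


theorem gr_dist (a b : ℝ) : ‖exp (a * I) - exp (b * I)‖ ≤ |a - b| := by
  have e : exp (a * I) - exp (b * I) = exp (b * I) * (exp (I * ((a - b : ℝ) : ℂ)) - 1) := by
    rw [mul_sub, ← Complex.exp_add, mul_one]
    congr 2
    push_cast
    ring
  rw [e, norm_mul, Complex.norm_exp_ofReal_mul_I, one_mul]
  exact Real.norm_exp_I_mul_ofReal_sub_one_le

theorem gr_arg (z : ℂ) (hz : ‖z‖ = 1) :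
    ∃ η : ℝ, z = exp (η * I) ∧ |η| ≤ Real.pi / 2 * ‖z - 1‖ := by
  have h1 := Complex.norm_mul_exp_arg_mul_I z
  rw [hz, Complex.ofReal_one, one_mul] at h1
  refine ⟨arg z, h1.symm, ?_⟩
  have h2 := Complex.norm_exp_I_mul_ofReal_sub_one (arg z)
  rw [mul_comm I, h1] at h2
  have h3 := Complex.abs_arg_le_pi z
  have hpi := Real.pi_pos
  have h4 : |Real.sin (arg z / 2)| = Real.sin (|arg z / 2|) :=
    Real.abs_sin_eq_sin_abs_of_abs_le_pi (by rw [abs_div, abs_two]; linarith)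
  have h5 : 2 / Real.pi * |arg z / 2| ≤ Real.sin (|arg z / 2|) :=
    Real.mul_le_sin (abs_nonneg _) (by rw [abs_div, abs_two]; linarith)
  rw [h2, Real.norm_eq_abs, abs_mul, abs_two, h4]
  have h6 : |arg z| = Real.pi * (2 / Real.pi * |arg z / 2|) := by
    rw [abs_div, abs_two]
    field_simp
  have h7 := mul_le_mul_of_nonneg_left h5 hpi.le
  rw [h6]
  linarith

theorem gr_fourth (θ : ℝ) (h : |θ| ≤ Real.pi / 4) :
    ‖exp (θ * I) ^ 4 + 1‖ ≤ 4 * (Real.pi / 4 - |θ|) := by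
  have e : exp (θ * I) ^ 4 = exp (((4 * θ : ℝ) : ℂ) * I) := by
    rw [← Complex.exp_nat_mul]
    congr 1
    push_cast
    ring
  rw [e]
  rcases le_total 0 θ with h0 | h0
  · have e2 : (1 : ℂ) = - exp ((Real.pi : ℂ) * I) := by
      rw [Complex.exp_pi_mul_I]; ring
    rw [abs_of_nonneg h0] at h ⊢
    conv_lhs => rw [e2]
    rw [← sub_eq_add_neg]
    refine (gr_dist _ _).trans ?_
    rw [abs_le]
    constructor <;> linarith
  · have e2 : (1 : ℂ) = - exp (((-Real.pi : ℝ) : ℂ) * I) := by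
      have : exp (((-Real.pi : ℝ) : ℂ) * I) = -1 := by
        push_cast
        rw [neg_mul, Complex.exp_neg, Complex.exp_pi_mul_I]
        norm_num
      rw [this]; ring
    rw [abs_of_nonpos h0] at h ⊢
    conv_lhs => rw [e2]
    rw [← sub_eq_add_neg]
    refine (gr_dist _ _).trans ?_
    rw [abs_le]
    constructor <;> linarith

theorem gr_pow {n s K : ℝ} (hn : 0 < n) (hs : 0 ≤ s) (hK : 0 ≤ K)
    (h : K ^ (3/2 : ℝ) ≤ n ^ (3/2 : ℝ) * s) : K ≤ n * s ^ (2/3 : ℝ) := by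
  have h1 : (K ^ (3/2 : ℝ)) ^ (2/3 : ℝ) ≤ (n ^ (3/2 : ℝ) * s) ^ (2/3 : ℝ) :=
    Real.rpow_le_rpow (by positivity) h (by norm_num)
  rw [Real.mul_rpow (by positivity) hs, ← Real.rpow_mul hn.le, ← Real.rpow_mul hK,
    show (3/2 : ℝ) * (2/3) = 1 by norm_num, Real.rpow_one, Real.rpow_one] at h1
  exact h1

theorem gr_re (y : ℝ) : (1 + I * (y : ℂ)).re = 1 := by simp

theorem gr_im (y : ℝ) : (1 + I * (y : ℂ)).im = y := by simp

theorem line_gapR : ∃ A₂ K₀ : ℝ, 0 < A₂ ∧ 0 < K₀ ∧ ∀ n : ℕ, 9 ≤ n →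
    ∀ u : Fin n → ℂ, FekData n u → ∀ x : ℝ, |x| < 1 → K₀ ≤ (n:ℝ) ^ (3/2 : ℝ) * (1 - |x|) →
    ∃ k, (psi (u k)).re = 1 ∧ |(psi (u k)).im| < 1 ∧ x < (psi (u k)).im ∧
      (psi (u k)).im ≤ x + A₂ * (1 / n) * (1 - |x|) ^ (1/3 : ℝ) := by
  obtain ⟨A, hA1, hdense⟩ := fek_dense
  obtain ⟨c₁, C₁, hc₁, hC₁, hdel⟩ := s_del
  obtain ⟨C, hC, hup⟩ := psi_upper_rho
  obtain ⟨c₂, C', hc₂, hC', hrho⟩ := rho_s
  have hA0 : 0 < A := by linarith
  refine ⟨C * (4 * A) * Real.sqrt (1 + 4 * A) * C', (40 * A / c₁) ^ (3/2 : ℝ) + 1,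
    by positivity, by positivity, ?_⟩
  intro n hn9 u hu x hx hK
  have hn1 : 1 ≤ n := by omega
  have hn0 : (0 : ℝ) < n := by exact_mod_cast (show 0 < n by omega)
  obtain ⟨s, hs⟩ : ∃ s, s = 1 - |x| := ⟨_, rfl⟩
  rw [← hs] at hK ⊢
  have hs0 : 0 < s := by rw [hs]; linarith
  have hpi := Real.pi_pos
  -- the parameter of `x`
  have hxI : x ∈ Icc (yy (-(Real.pi / 4))) (yy (Real.pi / 4)) := by
    rw [yy_neg, yy_quarter]
    exact ⟨(abs_lt.1 hx).1.le, (abs_lt.1 hx).2.le⟩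
  obtain ⟨θ, hθ, hθx⟩ := intermediate_value_Icc (by linarith) yy_cont.continuousOn hxI
  have hθ' : |θ| ≤ Real.pi / 4 := abs_le.2 ⟨hθ.1, hθ.2⟩
  obtain ⟨u₀, hu₀⟩ : ∃ u₀ : ℂ, u₀ = exp (θ * I) := ⟨_, rfl⟩
  have hu₀n : ‖u₀‖ = 1 := by rw [hu₀, Complex.norm_exp_ofReal_mul_I]
  have hpsi₀ : psi u₀ = 1 + I * (yy θ : ℂ) := by rw [hu₀]; exact psi_arc_val θ hθ'
  have hre₀ : (psi u₀).re = 1 := by rw [hpsi₀, gr_re]
  have him₀ : (psi u₀).im = x := by rw [hpsi₀, gr_im, hθx]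
  have hd := (hdel u₀ hu₀n hre₀).1
  rw [him₀, ← hs] at hd
  have h4 : ‖u₀ ^ 4 + 1‖ ≤ 4 * (Real.pi / 4 - |θ|) := by rw [hu₀]; exact gr_fourth θ hθ'
  have hns : 40 * A / c₁ ≤ n * s ^ (2/3 : ℝ) :=
    gr_pow hn0 hs0.le (by positivity) (by linarith)
  obtain ⟨a, ha⟩ : ∃ a : ℝ, a = A / n := ⟨_, rfl⟩
  have ha0 : 0 < a := by rw [ha]; positivity
  have hδ : 10 * a ≤ Real.pi / 4 - |θ| := by
    have h5 : 40 * A ≤ c₁ * (n * s ^ (2/3 : ℝ)) := by
      rw [div_le_iff₀ hc₁] at hns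
      linarith
    have h6 : 40 * a ≤ c₁ * s ^ (2/3 : ℝ) := by
      rw [ha, ← mul_div_assoc, div_le_iff₀ hn0]
      linarith
    linarith
  -- the Fekete point
  obtain ⟨k, hk⟩ := hdense n hn9 u hu (exp (((θ + 2 * a : ℝ) : ℂ) * I))
    (Complex.norm_exp_ofReal_mul_I _)
  rw [← ha] at hk
  have hem : exp (((θ + 2 * a : ℝ) : ℂ) * I) * exp (((-(θ + 2 * a) : ℝ) : ℂ) * I) = 1 := by
    rw [← Complex.exp_add, ← Complex.exp_zero]
    congr 1
    push_cast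
    ring
  obtain ⟨η, hη1, hη2⟩ := gr_arg (u k * exp (((-(θ + 2 * a) : ℝ) : ℂ) * I)) (by
    rw [norm_mul, Complex.norm_exp_ofReal_mul_I, hu.norm_u k, one_mul])
  have hz1 : ‖u k * exp (((-(θ + 2 * a) : ℝ) : ℂ) * I) - 1‖ ≤ a := by
    have e : u k * exp (((-(θ + 2 * a) : ℝ) : ℂ) * I) - 1 =
        (u k - exp (((θ + 2 * a : ℝ) : ℂ) * I)) * exp (((-(θ + 2 * a) : ℝ) : ℂ) * I) := by
      rw [sub_mul, hem]
    rw [e, norm_mul, Complex.norm_exp_ofReal_mul_I, mul_one]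
    exact hk
  have hη3 : |η| < 2 * a := by
    have h5 : Real.pi / 2 * ‖u k * exp (((-(θ + 2 * a) : ℝ) : ℂ) * I) - 1‖ ≤ Real.pi / 2 * a :=
      mul_le_mul_of_nonneg_left hz1 (by positivity)
    have h6 := Real.pi_lt_d2
    have h7 : Real.pi / 2 * a < 2 * a := mul_lt_mul_of_pos_right (by linarith) ha0
    linarith
  obtain ⟨θk, hθk⟩ : ∃ θk : ℝ, θk = θ + 2 * a + η := ⟨_, rfl⟩
  have huk : u k = exp (θk * I) := by
    have e : u k = u k * exp (((-(θ + 2 * a) : ℝ) : ℂ) * I) *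
        exp (((θ + 2 * a : ℝ) : ℂ) * I) := by
      rw [mul_assoc, mul_comm (exp (((-(θ + 2 * a) : ℝ) : ℂ) * I)), hem, mul_one]
    rw [e, hη1, ← Complex.exp_add, hθk]
    congr 1
    push_cast
    ring
  obtain ⟨hη4, hη5⟩ := abs_lt.1 hη3
  have hlt : θ < θk := by rw [hθk]; linarith
  have hle : θk - θ ≤ 4 * a := by rw [hθk]; linarith
  have hθle : θ ≤ |θ| := le_abs_self θ
  have hlt2 : θk < Real.pi / 4 := by linarith
  have hgt2 : -(Real.pi / 4) < θk := by linarith [hθ.1]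
  have hθk' : |θk| ≤ Real.pi / 4 := abs_le.2 ⟨hgt2.le, hlt2.le⟩
  have hpsik : psi (u k) = 1 + I * (yy θk : ℂ) := by rw [huk]; exact psi_arc_val θk hθk'
  have hrek : (psi (u k)).re = 1 := by rw [hpsik, gr_re]
  have himk : (psi (u k)).im = yy θk := by rw [hpsik, gr_im]
  have hmono : yy θ < yy θk := yy_strictMono hθ ⟨hgt2.le, hlt2.le⟩ hlt
  have hmono2 : yy θk < 1 := by
    have := yy_strictMono (a := θk) (b := Real.pi / 4) ⟨hgt2.le, hlt2.le⟩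
      ⟨by linarith, le_rfl⟩ hlt2
    rwa [yy_quarter] at this
  refine ⟨k, hrek, ?_, ?_, ?_⟩
  · rw [himk, abs_lt]
    refine ⟨?_, hmono2⟩
    rw [← hθx] at hx
    linarith [(abs_lt.1 hx).1]
  · rw [himk, ← hθx]
    exact hmono
  · rw [himk]
    have e1 : ‖psi (u k) - psi u₀‖ = yy θk - yy θ := by
      have e2 : psi (u k) - psi u₀ = I * ((yy θk - yy θ : ℝ) : ℂ) := by
        rw [hpsik, hpsi₀]
        push_cast
        ring
      rw [e2, norm_mul, Complex.norm_I, one_mul, Complex.norm_real, Real.norm_eq_abs,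
        abs_of_pos (by linarith)]
    have h5 := hup n hn1 (u k) u₀ (by rw [hu.norm_u k]) (by rw [hu.norm_u k]; norm_num) hu₀n
    rw [e1] at h5
    have h6 : (n : ℝ) * ‖u k - u₀‖ ≤ 4 * A := by
      have h7 : ‖u k - u₀‖ ≤ 4 * a := by
        rw [huk, hu₀]
        refine (gr_dist _ _).trans ?_
        rw [abs_of_pos (by linarith)]
        exact hle
      have h8 : (n : ℝ) * ‖u k - u₀‖ ≤ n * (4 * a) := mul_le_mul_of_nonneg_left h7 hn0.le
      have h9 : (n : ℝ) * (4 * a) = 4 * A := by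
        rw [ha]
        field_simp
      linarith
    have hpow : 1 ≤ (n : ℝ) ^ (3/2 : ℝ) * s := by
      have : 0 < (40 * A / c₁) ^ (3/2 : ℝ) := by positivity
      linarith
    have h10 := (hrho n hn1 u₀ hu₀n hre₀ (by rw [him₀, ← hs]; exact hpow)).2
    rw [him₀, ← hs] at h10
    have h11 : 0 ≤ (n : ℝ) * ‖u k - u₀‖ := by positivity
    have h12 : C * (n * ‖u k - u₀‖) * Real.sqrt (1 + n * ‖u k - u₀‖) * rho n u₀ ≤
        C * (4 * A) * Real.sqrt (1 + 4 * A) * (C' * (1 / n * s ^ (1/3 : ℝ))) := by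
      have h13 : Real.sqrt (1 + n * ‖u k - u₀‖) ≤ Real.sqrt (1 + 4 * A) :=
        Real.sqrt_le_sqrt (by linarith)
      have h14 : C * (n * ‖u k - u₀‖) ≤ C * (4 * A) := mul_le_mul_of_nonneg_left h6 hC.le
      have h15 : C * (n * ‖u k - u₀‖) * Real.sqrt (1 + n * ‖u k - u₀‖) ≤
          C * (4 * A) * Real.sqrt (1 + 4 * A) :=
        mul_le_mul h14 h13 (Real.sqrt_nonneg _) (by positivity)
      exact mul_le_mul h15 h10 (rho_pos n hn1 u₀).le (by positivity)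
    rw [← hθx]
    calc yy θk = (yy θk - yy θ) + yy θ := by ring
      _ ≤ C * (4 * A) * Real.sqrt (1 + 4 * A) * (C' * (1 / n * s ^ (1/3 : ℝ))) + yy θ := by
          linarith
      _ = yy θ + C * (4 * A) * Real.sqrt (1 + 4 * A) * C' * (1 / n) * s ^ (1/3 : ℝ) := by ring

end Pool.Agent.Helper606.Fek
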