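import Pool.Agent.Helper606.Fek.Defs
import Pool.Agent.Helper606.Fek.P_fek_sep
import Pool.Agent.Helper606.Fek.P_rho_s

set_option autoImplicit false

namespace Pool.Agent.Helper606.Fek
open Complex Set Filter Topology


theorem line_sep : ∃ c₁ : ℝ, 0 < c₁ ∧ c₁ ≤ 1 ∧ ∀ n : ℕ, 1 ≤ n → ∀ u : Fin n → ℂ, FekData n u →
    ∀ j k, j ≠ k → (psi (u j)).re = 1 → 1 ≤ (n:ℝ) ^ (3/2 : ℝ) * (1 - |(psi (u j)).im|) →
    c₁ * (1 / n) * (1 - |(psi (u j)).im|) ^ (1/3 : ℝ) ≤ ‖psi (u j) - psi (u k)‖ := by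
  obtain ⟨c, hc, hc1, H⟩ := fek_sep
  obtain ⟨c', C', hc', hC', H'⟩ := rho_s
  have hm : 0 < min c' 1 := lt_min hc' one_pos
  refine ⟨c * min c' 1, mul_pos hc hm, ?_, ?_⟩
  · have : min c' 1 ≤ 1 := min_le_right _ _
    nlinarith
  · intro n hn u hu j k hjk hre hs
    have h1 := H n hn u hu k j (Ne.symm hjk)
    have h2 := (H' n hn (u j) (hu.norm_u j) hre hs).1
    rw [norm_sub_rev] at h1
    have hn0 : (0:ℝ) < n := by exact_mod_cast (by omega : 0 < n)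
    have hpos : 0 ≤ 1 - |(psi (u j)).im| := by
      by_contra hneg
      push Not at hneg
      have : (n:ℝ) ^ (3/2 : ℝ) * (1 - |(psi (u j)).im|) ≤ 0 :=
        mul_nonpos_of_nonneg_of_nonpos (by positivity) hneg.le
      linarith
    have hq : 0 ≤ (1 / (n:ℝ)) * (1 - |(psi (u j)).im|) ^ (1/3 : ℝ) := by positivity
    calc c * min c' 1 * (1 / n) * (1 - |(psi (u j)).im|) ^ (1/3 : ℝ)
        = c * (min c' 1 * ((1 / (n:ℝ)) * (1 - |(psi (u j)).im|) ^ (1/3 : ℝ))) := by ring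
      _ ≤ c * (c' * ((1 / (n:ℝ)) * (1 - |(psi (u j)).im|) ^ (1/3 : ℝ))) := by
          apply mul_le_mul_of_nonneg_left _ hc.le
          exact mul_le_mul_of_nonneg_right (min_le_left _ _) hq
      _ ≤ c * rho n (u j) := mul_le_mul_of_nonneg_left h2 hc.le
      _ ≤ _ := h1

end Pool.Agent.Helper606.Fek
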