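import Pool.Agent.Helper606.Fek.Defs
import Pool.Agent.Helper606.Fek.P_psi_bdry
import Pool.Agent.Helper606.Fek.P_psi_lower
import Pool.Agent.Helper606.Fek.P_fek_sep_u
import Pool.Agent.Helper606.Fek.P_sum_sep
import Pool.Agent.Helper606.Fek.P_rho_basic
import Pool.Agent.Helper606.Fek.P_s_del

set_option autoImplicit false

namespace Pool.Agent.Helper606.Fek
open Complex Set Filter Topology


lemma line_projA (z w : ℂ) (x₀ : ℝ) (hx : |x₀| < 1)
    (hz : ‖z - (1 + I * x₀)‖ ≤ (1 - |x₀|) / 2) (hw : w ∈ sq) :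
    ‖(1 + I * (z.im : ℂ)) - w‖ ≤ 2 * ‖z - w‖ := by
  have hre : |z.re - 1| ≤ (1 - |x₀|) / 2 := by
    have := Complex.abs_re_le_norm (z - (1 + I * x₀))
    simp at this
    linarith
  have him : |z.im - x₀| ≤ (1 - |x₀|) / 2 := by
    have := Complex.abs_im_le_norm (z - (1 + I * x₀))
    simp at this
    linarith
  have hzP : ‖(1 + I * (z.im : ℂ)) - z‖ = |z.re - 1| := by
    have : (1 + I * (z.im : ℂ)) - z = ((1 - z.re : ℝ) : ℂ) := by
      apply Complex.ext <;> simp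
    rw [this, Complex.norm_real, Real.norm_eq_abs, abs_sub_comm]
  have hw' : max |w.re| |w.im| = 1 := hw
  by_cases h1 : w.re = 1
  · have : (1 + I * (z.im : ℂ)) - w = I * ((z.im - w.im : ℝ) : ℂ) := by
      apply Complex.ext <;> simp [h1]
    rw [this, norm_mul, Complex.norm_I, one_mul, Complex.norm_real, Real.norm_eq_abs]
    have h3 := Complex.abs_im_le_norm (z - w)
    simp only [sub_im] at h3
    linarith [norm_nonneg (z - w)]
  · have h2 : (1 - |x₀|) / 2 ≤ ‖z - w‖ := by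
      have habs := abs_nonneg x₀
      rcases max_choice |w.re| |w.im| with h | h
      · rw [h] at hw'
        have h6 : w.re = -1 := by
          rcases (abs_eq zero_le_one).1 hw' with h | h
          · exact absurd h h1
          · exact h
        have h3 := Complex.abs_re_le_norm (z - w)
        simp only [sub_re] at h3
        rw [h6] at h3
        have h4 := abs_le.1 hre
        have h5 := le_abs_self (z.re - -1)
        linarith
      · rw [h] at hw'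
        have h3 := Complex.abs_im_le_norm (z - w)
        simp only [sub_im] at h3
        have h4 : 1 - |z.im| ≤ |z.im - w.im| := by
          have := abs_sub_abs_le_abs_sub w.im z.im
          rw [hw', abs_sub_comm] at this
          exact this
        have h5 : |z.im| ≤ |x₀| + (1 - |x₀|) / 2 := by
          have := abs_sub_abs_le_abs_sub z.im x₀
          linarith
        linarith
    have h7 : ‖(1 + I * (z.im : ℂ)) - w‖ ≤ ‖(1 + I * (z.im : ℂ)) - z‖ + ‖z - w‖ :=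
      norm_sub_le_norm_sub_add_norm_sub _ _ _
    rw [hzP] at h7
    linarith

theorem line_sum (c₁ : ℝ) (hc : 0 < c₁) : ∃ C₂ : ℝ, 0 < C₂ ∧ ∀ n : ℕ, 1 ≤ n →
    ∀ u : Fin n → ℂ, FekData n u → ∀ x₀ : ℝ, |x₀| < 1 →
    1 ≤ (n:ℝ) ^ (3/2 : ℝ) * (1 - |x₀|) → ∀ z : ℂ,
    ‖z - (1 + I * x₀)‖ ≤ (1 - |x₀|) / 2 →
    (∀ k, c₁ / 8 * (1 / n) * (1 - |x₀|) ^ (1/3 : ℝ) ≤ ‖z - psi (u k)‖) →
    ∑ k, 1 / ‖z - psi (u k)‖ ≤ C₂ * (n:ℝ) ^ (9/8 : ℝ) * (1 - |x₀|) ^ (-(1/4) : ℝ) := by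
  obtain ⟨cl, hcl, hlow⟩ := psi_lower
  obtain ⟨cs, Cs, hcs, -, hsd⟩ := s_del
  obtain ⟨cf, hcf, -, hsep⟩ := fek_sep_u
  obtain ⟨C, hC, hsum⟩ := sum_sep (9/8) cf (by norm_num) hcf
  set e : ℝ := min (cs / 2) 1 with he_def
  have he : 0 < e := lt_min (by positivity) one_pos
  have he1 : e ≤ cs / 2 := min_le_left _ _
  have he2 : e ≤ 1 := min_le_right _ _
  set c' : ℝ := min (cl / 2 * Real.sqrt e / 4) (c₁ / 32) with hc'_def
  have hc' : 0 < c' := lt_min (by positivity) (by positivity)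
  have hc'1 : c' ≤ cl / 2 * Real.sqrt e / 4 := min_le_left _ _
  have hc'2 : c' ≤ c₁ / 32 := min_le_right _ _
  refine ⟨C / c', by positivity, ?_⟩
  intro n hn u hu x₀ hx₀ hnx z hz hzk
  set s : ℝ := 1 - |x₀| with hs_def
  have hs : 0 < s := by linarith
  have hs1 : s ≤ 1 := by linarith [abs_nonneg x₀]
  have hn' : (0:ℝ) < n := by exact_mod_cast hn
  have him : |z.im - x₀| ≤ s / 2 := by
    have := Complex.abs_im_le_norm (z - (1 + I * x₀))
    simp at this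
    linarith
  have hy : |z.im| ≤ 1 - s / 2 := by
    have := abs_sub_abs_le_abs_sub z.im x₀
    linarith
  have hP : (1 + I * (z.im : ℂ)) ∈ sq := by
    show max |(1 + I * (z.im : ℂ)).re| |(1 + I * (z.im : ℂ)).im| = 1
    simp
    linarith
  obtain ⟨v, hv, hPv⟩ := psi_surj _ hP
  have hvre : (psi v).re = 1 := by rw [hPv]; simp
  have hvim : (psi v).im = z.im := by rw [hPv]; simp
  -- lower bound for D
  have hD : e * s ^ (2/3 : ℝ) ≤ ‖v ^ 4 + 1‖ := by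
    have h1 := (hsd v hv hvre).1
    rw [hvim] at h1
    have h2 : (s / 2) ^ (2/3 : ℝ) ≤ (1 - |z.im|) ^ (2/3 : ℝ) :=
      Real.rpow_le_rpow (by positivity) (by linarith) (by norm_num)
    have h3 : (1 / 2 : ℝ) * s ^ (2/3 : ℝ) ≤ (s / 2) ^ (2/3 : ℝ) := by
      rw [Real.div_rpow hs.le (by norm_num)]
      have h4 : (2:ℝ) ^ (2/3 : ℝ) ≤ 2 := by
        calc (2:ℝ) ^ (2/3 : ℝ) ≤ (2:ℝ) ^ (1 : ℝ) :=
              Real.rpow_le_rpow_of_exponent_le (by norm_num) (by norm_num)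
          _ = 2 := by norm_num
      have h5 : 0 ≤ s ^ (2/3 : ℝ) := by positivity
      rw [one_div, mul_comm, ← div_eq_mul_inv]
      exact div_le_div_of_nonneg_left h5 (by positivity) h4
    have h6 : 0 ≤ s ^ (2/3 : ℝ) := by positivity
    calc e * s ^ (2/3 : ℝ) ≤ cs / 2 * s ^ (2/3 : ℝ) := mul_le_mul_of_nonneg_right he1 h6
      _ = cs * (1 / 2 * s ^ (2/3 : ℝ)) := by ring
      _ ≤ cs * (1 - |z.im|) ^ (2/3 : ℝ) := mul_le_mul_of_nonneg_left (h3.trans h2) hcs.le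
      _ ≤ _ := h1
  set A : ℝ := (n:ℝ) ^ (9/8 : ℝ) * s ^ (-(1/4) : ℝ) with hA_def
  have hA : 0 < A := by positivity
  have key : ∀ k, c' * (1 + n * ‖v - u k‖) ^ (9/8 : ℝ) ≤ A * ‖z - psi (u k)‖ := by
    intro k
    set t : ℝ := ‖v - u k‖ with ht_def
    have ht : 0 ≤ t := norm_nonneg _
    rcases le_or_gt 1 ((n:ℝ) * t) with hnt | hnt
    · have ht0 : 0 < t := by
        rcases ht.lt_or_eq with h | h
        · exact h
        · rw [← h] at hnt; simp at hnt; linarith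
      have h1 := hlow v (u k) (by rw [hv]) (by rw [hv]; norm_num) (hu.norm_u k)
      have h2 := line_projA z (psi (u k)) x₀ hx₀ hz (psi_bdry _ (hu.norm_u k))
      rw [← hPv] at h2
      have h3 : Real.sqrt e * (s ^ (1/4 : ℝ) * t ^ (1/8 : ℝ)) ≤
          Real.sqrt (‖v ^ 4 + 1‖ + ‖(u k) ^ 4 + 1‖ + t) := by
        have h4 : e * (s ^ (1/4 : ℝ) * t ^ (1/8 : ℝ)) ^ 2 ≤
            ‖v ^ 4 + 1‖ + ‖(u k) ^ 4 + 1‖ + t := by
          have h5 : (s ^ (1/4 : ℝ) * t ^ (1/8 : ℝ)) ^ 2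
              = (s ^ (2/3 : ℝ)) ^ (3/4 : ℝ) * t ^ (1/4 : ℝ) := by
            rw [mul_pow, ← Real.rpow_natCast, ← Real.rpow_natCast, ← Real.rpow_mul hs.le,
              ← Real.rpow_mul ht, ← Real.rpow_mul hs.le]
            norm_num
          have h6 : (s ^ (2/3 : ℝ)) ^ (3/4 : ℝ) * t ^ (1/4 : ℝ) ≤ s ^ (2/3 : ℝ) + t := by
            have h7 := Real.geom_mean_le_arith_mean2_weighted (w₁ := 3/4) (w₂ := 1/4)
              (p₁ := s ^ (2/3 : ℝ)) (p₂ := t) (by norm_num) (by norm_num) (by positivity) ht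
              (by norm_num)
            have h8 : 0 ≤ s ^ (2/3 : ℝ) := by positivity
            linarith
          rw [h5]
          have h9 : e * ((s ^ (2/3 : ℝ)) ^ (3/4 : ℝ) * t ^ (1/4 : ℝ)) ≤ e * (s ^ (2/3 : ℝ) + t) :=
            mul_le_mul_of_nonneg_left h6 he.le
          have h10 : e * t ≤ t := by nlinarith
          have h11 : 0 ≤ ‖(u k) ^ 4 + 1‖ := norm_nonneg _
          nlinarith
        have h12 : 0 ≤ s ^ (1/4 : ℝ) * t ^ (1/8 : ℝ) := by positivity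
        calc Real.sqrt e * (s ^ (1/4 : ℝ) * t ^ (1/8 : ℝ))
            = Real.sqrt (e * (s ^ (1/4 : ℝ) * t ^ (1/8 : ℝ)) ^ 2) := by
              rw [Real.sqrt_mul he.le, Real.sqrt_sq h12]
          _ ≤ _ := Real.sqrt_le_sqrt h4
      have h13 : cl / 2 * Real.sqrt e * (t * (s ^ (1/4 : ℝ) * t ^ (1/8 : ℝ)))
          ≤ ‖z - psi (u k)‖ := by
        have h14 : cl * t * (Real.sqrt e * (s ^ (1/4 : ℝ) * t ^ (1/8 : ℝ))) ≤
            cl * t * Real.sqrt (‖v ^ 4 + 1‖ + ‖(u k) ^ 4 + 1‖ + t) :=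
          mul_le_mul_of_nonneg_left h3 (by positivity)
        nlinarith
      have h15 : A * (t * (s ^ (1/4 : ℝ) * t ^ (1/8 : ℝ))) = (n * t) ^ (9/8 : ℝ) := by
        rw [Real.mul_rpow hn'.le ht, hA_def]
        have h16 : s ^ (-(1/4) : ℝ) * s ^ (1/4 : ℝ) = 1 := by
          rw [← Real.rpow_add hs]; norm_num
        have h17 : t * t ^ (1/8 : ℝ) = t ^ (9/8 : ℝ) := by
          nth_rewrite 1 [← Real.rpow_one t]
          rw [← Real.rpow_add ht0]; norm_num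
        calc (n:ℝ) ^ (9/8 : ℝ) * s ^ (-(1/4) : ℝ) * (t * (s ^ (1/4 : ℝ) * t ^ (1/8 : ℝ)))
            = (n:ℝ) ^ (9/8 : ℝ) * (s ^ (-(1/4) : ℝ) * s ^ (1/4 : ℝ)) * (t * t ^ (1/8 : ℝ)) := by
              ring
          _ = _ := by rw [h16, h17, mul_one]
      have h18 : (1 + n * t) ^ (9/8 : ℝ) ≤ 4 * (n * t) ^ (9/8 : ℝ) := by
        calc (1 + n * t) ^ (9/8 : ℝ) ≤ (2 * (n * t)) ^ (9/8 : ℝ) :=
              Real.rpow_le_rpow (by positivity) (by linarith) (by norm_num)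
          _ = 2 ^ (9/8 : ℝ) * (n * t) ^ (9/8 : ℝ) := Real.mul_rpow (by norm_num) (by positivity)
          _ ≤ 4 * (n * t) ^ (9/8 : ℝ) := by
            refine mul_le_mul_of_nonneg_right ?_ (by positivity)
            calc (2:ℝ) ^ (9/8 : ℝ) ≤ (2:ℝ) ^ (2 : ℝ) :=
                  Real.rpow_le_rpow_of_exponent_le (by norm_num) (by norm_num)
              _ = 4 := by norm_num
      have h19 : A * (cl / 2 * Real.sqrt e * (t * (s ^ (1/4 : ℝ) * t ^ (1/8 : ℝ))))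
          ≤ A * ‖z - psi (u k)‖ := mul_le_mul_of_nonneg_left h13 hA.le
      have h20 : A * (cl / 2 * Real.sqrt e * (t * (s ^ (1/4 : ℝ) * t ^ (1/8 : ℝ))))
          = cl / 2 * Real.sqrt e * (n * t) ^ (9/8 : ℝ) := by
        rw [← h15]; ring
      have h21 : 0 ≤ (n * t) ^ (9/8 : ℝ) := by positivity
      calc c' * (1 + n * t) ^ (9/8 : ℝ) ≤ c' * (4 * (n * t) ^ (9/8 : ℝ)) :=
            mul_le_mul_of_nonneg_left h18 hc'.le
        _ ≤ (cl / 2 * Real.sqrt e / 4) * (4 * (n * t) ^ (9/8 : ℝ)) :=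
            mul_le_mul_of_nonneg_right hc'1 (by positivity)
        _ = cl / 2 * Real.sqrt e * (n * t) ^ (9/8 : ℝ) := by ring
        _ ≤ _ := by rw [← h20]; exact h19
    · have h1 : (1 + n * t) ^ (9/8 : ℝ) ≤ 4 := by
        calc (1 + n * t) ^ (9/8 : ℝ) ≤ (2:ℝ) ^ (9/8 : ℝ) :=
              Real.rpow_le_rpow (by positivity) (by linarith) (by norm_num)
          _ ≤ (2:ℝ) ^ (2 : ℝ) :=
                  Real.rpow_le_rpow_of_exponent_le (by norm_num) (by norm_num)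
          _ = 4 := by norm_num
      have h2 := hzk k
      have h3 : 1 ≤ A * ((1 / n) * s ^ (1/3 : ℝ)) := by
        have h4 : A * ((1 / n) * s ^ (1/3 : ℝ)) = ((n:ℝ) ^ (3/2 : ℝ) * s) ^ (1/12 : ℝ) := by
          rw [Real.mul_rpow (by positivity) hs.le, ← Real.rpow_mul hn'.le, hA_def]
          have h5 : (n:ℝ) ^ (9/8 : ℝ) * (1 / n) = (n:ℝ) ^ (3/2 * (1/12) : ℝ) := by
            rw [one_div, ← Real.rpow_neg_one, ← Real.rpow_add hn']; norm_num
          have h6 : s ^ (-(1/4) : ℝ) * s ^ (1/3 : ℝ) = s ^ (1/12 : ℝ) := by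
            rw [← Real.rpow_add hs]; norm_num
          calc (n:ℝ) ^ (9/8 : ℝ) * s ^ (-(1/4) : ℝ) * ((1 / n) * s ^ (1/3 : ℝ))
              = ((n:ℝ) ^ (9/8 : ℝ) * (1 / n)) * (s ^ (-(1/4) : ℝ) * s ^ (1/3 : ℝ)) := by ring
            _ = _ := by rw [h5, h6]
        rw [h4]
        exact Real.one_le_rpow hnx (by norm_num)
      calc c' * (1 + n * t) ^ (9/8 : ℝ) ≤ c' * 4 := mul_le_mul_of_nonneg_left h1 hc'.le
        _ ≤ c₁ / 32 * 4 := mul_le_mul_of_nonneg_right hc'2 (by norm_num)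
        _ = c₁ / 8 * 1 := by ring
        _ ≤ c₁ / 8 * (A * ((1 / n) * s ^ (1/3 : ℝ))) :=
            mul_le_mul_of_nonneg_left h3 (by positivity)
        _ = A * (c₁ / 8 * (1 / n) * s ^ (1/3 : ℝ)) := by ring
        _ ≤ A * ‖z - psi (u k)‖ := mul_le_mul_of_nonneg_left h2 hA.le
  have hterm : ∀ k, 1 / ‖z - psi (u k)‖ ≤ A / c' * (1 / (1 + n * ‖v - u k‖) ^ (9/8 : ℝ)) := by
    intro k
    have h1 : 0 < (1 + n * ‖v - u k‖) ^ (9/8 : ℝ) := by positivity
    have h2 : 0 < ‖z - psi (u k)‖ := by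
      have h3 := key k
      have h4 : 0 < A * ‖z - psi (u k)‖ := lt_of_lt_of_le (by positivity) h3
      exact (pos_iff_pos_of_mul_pos h4).1 hA
    rw [div_mul_div_comm, mul_one, div_le_div_iff₀ h2 (by positivity), one_mul]
    exact key k
  calc ∑ k, 1 / ‖z - psi (u k)‖
      ≤ ∑ k, A / c' * (1 / (1 + n * ‖v - u k‖) ^ (9/8 : ℝ)) :=
        Finset.sum_le_sum fun k _ => hterm k
    _ = A / c' * ∑ k, 1 / (1 + n * ‖v - u k‖) ^ (9/8 : ℝ) := by rw [Finset.mul_sum]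
    _ ≤ A / c' * C := mul_le_mul_of_nonneg_left
        (hsum n hn n u hu.norm_u (hsep n hn u hu) v hv) (by positivity)
    _ = C / c' * (n:ℝ) ^ (9/8 : ℝ) * s ^ (-(1/4) : ℝ) := by rw [hA_def]; ring

end Pool.Agent.Helper606.Fek
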