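import Pool.Agent.Helper606.Fek.Defs

set_option autoImplicit false

namespace Pool.Agent.Helper606.Fek

open Complex Set Filter Topology

/-- `∏ (X - ζ_k)(X - conj ζ_k)` -/
noncomputable def WW {n : ℕ} (ζ : Fin n → ℂ) : Polynomial ℂ :=
  ∏ k, ((Polynomial.X - Polynomial.C (ζ k)) * (Polynomial.X - Polynomial.C (starRingEnd ℂ (ζ k))))

/-- Fekete-like points seen from one side: `ζ_k` real in `(-1,1)` are the points on the side,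
the side being the real segment `[-1,1]`; scale `s = 1 - |x|`. -/
structure LineData (n : ℕ) (ζ : Fin n → ℂ) (c₁ C₂ A₂ K₀ : ℝ) : Prop where
  hn : 1 ≤ n
  pos : ∀ j, 0 < ∏ k ∈ Finset.univ.erase j, ‖ζ j - ζ k‖
  crit : ∀ j, (ζ j).im = 0 → |(ζ j).re| < 1 → ∀ x : ℝ, |x| ≤ 1 →
    ∏ k ∈ Finset.univ.erase j, ‖(x:ℂ) - ζ k‖ ≤ ∏ k ∈ Finset.univ.erase j, ‖ζ j - ζ k‖
  far : ∀ k, ¬ ((ζ k).im = 0 ∧ |(ζ k).re| < 1) → ∀ x : ℝ, |x| < 1 → 1 - |x| ≤ ‖(x:ℂ) - ζ k‖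
  sep : ∀ j k, j ≠ k → (ζ j).im = 0 → |(ζ j).re| < 1 →
    1 ≤ (n:ℝ) ^ (3/2 : ℝ) * (1 - |(ζ j).re|) →
    c₁ * (1 / n) * (1 - |(ζ j).re|) ^ (1/3 : ℝ) ≤ ‖ζ j - ζ k‖
  sum : ∀ x₀ : ℝ, |x₀| < 1 → 1 ≤ (n:ℝ) ^ (3/2 : ℝ) * (1 - |x₀|) → ∀ w : ℂ,
    ‖w - x₀‖ ≤ (1 - |x₀|) / 2 → (∀ k, c₁ / 8 * (1 / n) * (1 - |x₀|) ^ (1/3 : ℝ) ≤ ‖w - ζ k‖) →
    ∑ k, 1 / ‖w - ζ k‖ ≤ C₂ * (n:ℝ) ^ (9/8 : ℝ) * (1 - |x₀|) ^ (-(1/4) : ℝ)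
  gapR : ∀ x : ℝ, |x| < 1 → K₀ ≤ (n:ℝ) ^ (3/2 : ℝ) * (1 - |x|) →
    ∃ k, (ζ k).im = 0 ∧ |(ζ k).re| < 1 ∧ x < (ζ k).re ∧
      (ζ k).re ≤ x + A₂ * (1 / n) * (1 - |x|) ^ (1/3 : ℝ)
  gapL : ∀ x : ℝ, |x| < 1 → K₀ ≤ (n:ℝ) ^ (3/2 : ℝ) * (1 - |x|) →
    ∃ k, (ζ k).im = 0 ∧ |(ζ k).re| < 1 ∧ (ζ k).re < x ∧
      x - A₂ * (1 / n) * (1 - |x|) ^ (1/3 : ℝ) ≤ (ζ k).re

/-- the potential in `y'' = - q y`, `y^2 = W` -/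
structure IsQ {n : ℕ} (ζ : Fin n → ℂ) (q : ℂ → ℂ) : Prop where
  diff : ∀ x₀ : ℝ, |x₀| < 1 → DifferentiableOn ℂ q (Metric.ball (x₀:ℂ) (1 - |x₀|))
  eq : ∀ w : ℂ, (WW ζ).eval w ≠ 0 → q w =
    (((WW ζ).derivative.eval w) ^ 2 - 2 * (WW ζ).eval w * (WW ζ).derivative.derivative.eval w) /
      (4 * ((WW ζ).eval w) ^ 2)
  real : ∀ x : ℝ, |x| < 1 → (q x).im = 0

end Pool.Agent.Helper606.Fek
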