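import Pool.Agent.Helper606.Fek.Defs
import Pool.Agent.Helper606.Fek.P_psi_bdry
import Pool.Agent.Helper606.Fek.P_ode_defs
import Pool.Agent.Helper606.Fek.P_line_sep
import Pool.Agent.Helper606.Fek.P_line_sum
import Pool.Agent.Helper606.Fek.P_line_gapR
import Pool.Agent.Helper606.Fek.P_line_gapL

set_option autoImplicit false

namespace Pool.Agent.Helper606.Fek
open Complex Set Filter Topology


theorem line_data_re (z : ℂ) : (-I * (z - 1)).re = z.im := by
  simp

theorem line_data_im (z : ℂ) : (-I * (z - 1)).im = 1 - z.re := by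
  simp

theorem line_data_w (w z : ℂ) : ‖w - -I * (z - 1)‖ = ‖(1 + I * w) - z‖ := by
  have h : w - -I * (z - 1) = -I * ((1 + I * w) - z) := by
    linear_combination w * Complex.I_mul_I
  rw [h, norm_mul, norm_neg, Complex.norm_I, one_mul]

theorem line_data_zz (z z' : ℂ) : ‖-I * (z - 1) - -I * (z' - 1)‖ = ‖z - z'‖ := by
  have h : -I * (z - 1) - -I * (z' - 1) = -I * (z - z') := by ring
  rw [h, norm_mul, norm_neg, Complex.norm_I, one_mul]

theorem line_data_sq (x : ℝ) (hx : |x| ≤ 1) : (1 + I * (x : ℂ)) ∈ sq := by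
  unfold sq
  rw [Set.mem_ofPred_eq]
  have h1 : (1 + I * (x : ℂ)).re = 1 := by simp
  have h2 : (1 + I * (x : ℂ)).im = x := by simp
  rw [h1, h2, abs_one, max_eq_left hx]

theorem line_data_far (z : ℂ) (hz : z ∈ sq) (hn : ¬ (1 - z.re = 0 ∧ |z.im| < 1)) (x : ℝ)
    (hx : |x| < 1) : 1 - |x| ≤ ‖(x : ℂ) - -I * (z - 1)‖ := by
  have hz' : max |z.re| |z.im| = 1 := hz
  have h1 : |((x : ℂ) - -I * (z - 1)).re| ≤ ‖(x : ℂ) - -I * (z - 1)‖ := Complex.abs_re_le_norm _
  have h2 : |((x : ℂ) - -I * (z - 1)).im| ≤ ‖(x : ℂ) - -I * (z - 1)‖ := Complex.abs_im_le_norm _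
  rw [Complex.sub_re, line_data_re, Complex.ofReal_re] at h1
  rw [Complex.sub_im, line_data_im, Complex.ofReal_im] at h2
  have hre : |z.re| ≤ 1 := by rw [← hz']; exact le_max_left _ _
  have him : |z.im| ≤ 1 := by rw [← hz']; exact le_max_right _ _
  rcases eq_or_lt_of_le him with hb | hb
  · have h3 := abs_sub_abs_le_abs_sub z.im x
    rw [abs_sub_comm, hb] at h3
    linarith
  · have ha : |z.re| = 1 := by
      rcases max_choice |z.re| |z.im| with h | h
      · rw [← h]; exact hz'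
      · rw [h] at hz'
        linarith
    rcases (abs_eq zero_le_one).1 ha with h | h
    · exact absurd ⟨by rw [h]; ring, hb⟩ hn
    · rw [h] at h2
      have h3 : |(0 : ℝ) - (1 - -1)| = 2 := by norm_num
      rw [h3] at h2
      linarith [abs_nonneg x]

theorem line_data : ∃ c₁ C₂ A₂ K₀ : ℝ, 0 < c₁ ∧ c₁ ≤ 1 ∧ 0 < C₂ ∧ 0 < A₂ ∧ 0 < K₀ ∧
    ∀ n : ℕ, 9 ≤ n → ∀ u : Fin n → ℂ, FekData n u →
    LineData n (fun k => -I * (psi (u k) - 1)) c₁ C₂ A₂ K₀ := by
  obtain ⟨c₁, hc0, hc1, hsep⟩ := line_sep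
  obtain ⟨C₂, hC0, hsum⟩ := line_sum c₁ hc0
  obtain ⟨A, K, hA, hK, hR⟩ := line_gapR
  obtain ⟨A', K', hA', hK', hL⟩ := line_gapL
  refine ⟨c₁, C₂, max A A', max K K', hc0, hc1, hC0, lt_max_of_lt_left hA, lt_max_of_lt_left hK,
    fun n hn u hu => ?_⟩
  have hn1 : 1 ≤ n := by omega
  refine ⟨hn1, ?_, ?_, ?_, ?_, ?_, ?_, ?_⟩
  · intro j
    simp_rw [line_data_zz]
    exact hu.pos j
  · intro j _ _ x hx
    simp_rw [line_data_zz, line_data_w]
    exact hu.max j _ (line_data_sq x hx)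
  · intro k hk x hx
    rw [line_data_re, line_data_im] at hk
    exact line_data_far _ (psi_bdry _ (hu.norm_u k)) hk x hx
  · intro j k hjk h1 h2 h3
    rw [line_data_im] at h1
    rw [line_data_re] at h2 h3 ⊢
    rw [line_data_zz]
    exact hsep n hn1 u hu j k hjk (by linarith) h3
  · intro x₀ hx₀ h1 w hw h2
    simp_rw [line_data_w] at h2 ⊢
    refine hsum n hn1 u hu x₀ hx₀ h1 (1 + I * w) ?_ h2
    have h3 : (1 + I * w) - (1 + I * (x₀ : ℂ)) = I * (w - x₀) := by ring
    rw [h3, norm_mul, Complex.norm_I, one_mul]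
    exact hw
  · intro x hx h1
    obtain ⟨k, k1, k2, k3, k4⟩ := hR n hn u hu x hx (le_trans (le_max_left _ _) h1)
    refine ⟨k, ?_, ?_, ?_, ?_⟩
    · rw [line_data_im, k1, sub_self]
    · rw [line_data_re]; exact k2
    · rw [line_data_re]; exact k3
    · rw [line_data_re]
      have h2 : 0 ≤ (1 / (n : ℝ)) * (1 - |x|) ^ (1/3 : ℝ) :=
        mul_nonneg (by positivity) (Real.rpow_nonneg (by linarith) _)
      have h3 := mul_le_mul_of_nonneg_right (le_max_left A A') h2
      rw [← mul_assoc, ← mul_assoc] at h3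
      linarith
  · intro x hx h1
    obtain ⟨k, k1, k2, k3, k4⟩ := hL n hn u hu x hx (le_trans (le_max_right _ _) h1)
    refine ⟨k, ?_, ?_, ?_, ?_⟩
    · rw [line_data_im, k1, sub_self]
    · rw [line_data_re]; exact k2
    · rw [line_data_re]; exact k3
    · rw [line_data_re]
      have h2 : 0 ≤ (1 / (n : ℝ)) * (1 - |x|) ^ (1/3 : ℝ) :=
        mul_nonneg (by positivity) (Real.rpow_nonneg (by linarith) _)
      have h3 := mul_le_mul_of_nonneg_right (le_max_right A A') h2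
      rw [← mul_assoc, ← mul_assoc] at h3
      linarith

end Pool.Agent.Helper606.Fek
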