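import Pool.Agent.Helper606.Fek.Defs

set_option autoImplicit false

namespace Pool.Agent.Helper606.Fek
open Complex Set Filter Topology


theorem crit_deriv (n : ℕ) (ζ : Fin n → ℂ) (j : Fin n) (h0 : (ζ j).im = 0) (h1 : |(ζ j).re| < 1)
    (hc : ∀ x : ℝ, |x| ≤ 1 → ∏ k ∈ Finset.univ.erase j, ‖(x:ℂ) - ζ k‖ ≤
      ∏ k ∈ Finset.univ.erase j, ‖ζ j - ζ k‖) :
    (Polynomial.derivative (∏ k ∈ Finset.univ.erase j, ((Polynomial.X - Polynomial.C (ζ k)) *
      (Polynomial.X - Polynomial.C (starRingEnd ℂ (ζ k)))))).eval (ζ j) = 0 := by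
  set U : Polynomial ℂ := ∏ k ∈ Finset.univ.erase j, ((Polynomial.X - Polynomial.C (ζ k)) *
      (Polynomial.X - Polynomial.C (starRingEnd ℂ (ζ k)))) with hU
  set a : ℝ := (ζ j).re with ha
  have hza : ζ j = (a : ℂ) := by
    apply Complex.ext
    · simp [ha]
    · simp [h0]
  set g : ℝ → ℝ := fun x => (∏ k ∈ Finset.univ.erase j, ‖(x:ℂ) - ζ k‖) ^ 2 with hg
  have hUg : ∀ x : ℝ, U.eval (x : ℂ) = ((g x : ℝ) : ℂ) := by
    intro x
    rw [hU, Polynomial.eval_prod, hg]
    simp only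
    rw [← Finset.prod_pow, Complex.ofReal_prod]
    apply Finset.prod_congr rfl
    intro k _
    rw [Polynomial.eval_mul, Polynomial.eval_sub, Polynomial.eval_sub, Polynomial.eval_X,
      Polynomial.eval_C, Polynomial.eval_C]
    have e1 : (x : ℂ) - starRingEnd ℂ (ζ k) = starRingEnd ℂ ((x : ℂ) - ζ k) := by
      rw [map_sub, Complex.conj_ofReal]
    rw [e1, Complex.mul_conj, Complex.normSq_eq_norm_sq]
  have hd : HasDerivAt (fun x : ℝ => ((g x : ℝ) : ℂ)) (U.derivative.eval (a : ℂ)) a := by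
    have h := (U.hasDerivAt (a : ℂ)).comp_ofReal
    refine h.congr_of_eventuallyEq ?_
    exact Filter.Eventually.of_forall fun x => (hUg x).symm
  have hre := (Complex.reCLM.hasFDerivAt (x := ((g a : ℝ) : ℂ))).comp_hasDerivAt a hd
  have him := (Complex.imCLM.hasFDerivAt (x := ((g a : ℝ) : ℂ))).comp_hasDerivAt a hd
  have hre' : HasDerivAt g (U.derivative.eval (a : ℂ)).re a := by
    refine hre.congr_of_eventuallyEq (Filter.Eventually.of_forall fun x => ?_)
    simp
  have him' : HasDerivAt (fun _ : ℝ => (0:ℝ)) (U.derivative.eval (a : ℂ)).im a := by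
    refine him.congr_of_eventuallyEq (Filter.Eventually.of_forall fun x => ?_)
    simp
  have hmax : IsLocalMax g a := by
    have hopen : {x : ℝ | |x| < 1} ∈ 𝓝 a := (isOpen_lt continuous_abs continuous_const).mem_nhds h1
    filter_upwards [hopen] with x hx
    have h := hc x (le_of_lt hx)
    rw [hza] at h
    exact pow_le_pow_left₀ (Finset.prod_nonneg fun _ _ => norm_nonneg _) h 2
  have e1 := hmax.hasDerivAt_eq_zero hre'
  have e2 := him'.unique (hasDerivAt_const a (0:ℝ))
  rw [hza]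
  apply Complex.ext
  · simpa using e1
  · simpa using e2

end Pool.Agent.Helper606.Fek
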