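import Pool.Agent.Helper606.Fek.Defs

set_option autoImplicit false

namespace Pool.Agent.Helper606.Fek
open Complex Set Filter Topology


theorem quad_div (a : ℂ) (U : Polynomial ℂ) (hU : (Polynomial.derivative U).eval a = 0)
    (W : Polynomial ℂ) (hW : W = (Polynomial.X - Polynomial.C a) ^ 2 * U) :
    (Polynomial.X - Polynomial.C a) ^ 4 ∣
      (Polynomial.derivative W) ^ 2 - 2 * W * Polynomial.derivative (Polynomial.derivative W) := by
  obtain ⟨V, hV⟩ := Polynomial.dvd_iff_isRoot.2 hU
  obtain ⟨Y, hY⟩ : ∃ Y : Polynomial ℂ, Y = Polynomial.X - Polynomial.C a := ⟨_, rfl⟩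
  have hY' : Polynomial.derivative Y = 1 := by
    rw [hY, Polynomial.derivative_sub, Polynomial.derivative_X, Polynomial.derivative_C, sub_zero]
  have hY2 : Polynomial.derivative (Y ^ 2) = 2 * Y := by
    rw [pow_two, Polynomial.derivative_mul, hY']
    ring
  rw [← hY] at hV hW ⊢
  have h1 : Polynomial.derivative W = 2 * Y * U + Y ^ 2 * Polynomial.derivative U := by
    rw [hW, Polynomial.derivative_mul, hY2]
  have h2 : Polynomial.derivative (Polynomial.derivative W) = 2 * U +
      4 * Y * Polynomial.derivative U +
      Y ^ 2 * Polynomial.derivative (Polynomial.derivative U) := by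
    have h3 : Polynomial.derivative (2 : Polynomial ℂ) = 0 := Polynomial.derivative_ofNat 2
    rw [h1, Polynomial.derivative_add, Polynomial.derivative_mul, Polynomial.derivative_mul,
      Polynomial.derivative_mul, hY2, hY', h3]
    ring
  refine ⟨-4 * U * V + (Polynomial.derivative U) ^ 2 -
    2 * U * Polynomial.derivative (Polynomial.derivative U), ?_⟩
  have h4 : -4 * U * Polynomial.derivative U * Y ^ 3 = -4 * U * V * Y ^ 4 := by
    nth_rewrite 1 [hV]
    ring
  rw [h2, h1, hW]
  linear_combination h4

end Pool.Agent.Helper606.Fek
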