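import Pool.Agent.Helper606.Fek.Defs
import Pool.Agent.Helper606.Fek.P_ode_defs
import Pool.Agent.Helper606.Fek.P_crit_deriv
import Pool.Agent.Helper606.Fek.P_quad_div

set_option autoImplicit false

namespace Pool.Agent.Helper606.Fek
open Complex Set Filter Topology


theorem exists_q_conj (p : Polynomial ℂ) (hp : p.map (starRingEnd ℂ) = p) (x : ℝ) :
    (starRingEnd ℂ) (p.eval (x:ℂ)) = p.eval (x:ℂ) := by
  have h := Polynomial.eval₂_at_apply (p := p) (starRingEnd ℂ) (x:ℂ)
  rw [← h, Complex.conj_ofReal, ← Polynomial.eval_map, hp]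

theorem exists_q_pair (a : ℂ) :
    (((Polynomial.X - Polynomial.C a) * (Polynomial.X - Polynomial.C (starRingEnd ℂ a))) :
      Polynomial ℂ).map (starRingEnd ℂ) =
    (Polynomial.X - Polynomial.C a) * (Polynomial.X - Polynomial.C (starRingEnd ℂ a)) := by
  simp only [Polynomial.map_mul, Polynomial.map_sub, Polynomial.map_X, Polynomial.map_C,
    Complex.conj_conj]
  ring

theorem exists_q (n : ℕ) (ζ : Fin n → ℂ) (c₁ C₂ A₂ K₀ : ℝ) (h : LineData n ζ c₁ C₂ A₂ K₀) :
    ∃ q : ℂ → ℂ, IsQ ζ q := by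
  classical
  set J : Finset (Fin n) := Finset.univ.filter (fun j => (ζ j).im = 0 ∧ |(ζ j).re| < 1) with hJ
  set J' : Finset (Fin n) :=
    Finset.univ.filter (fun j => ¬ ((ζ j).im = 0 ∧ |(ζ j).re| < 1)) with hJ'
  set V : Polynomial ℂ := ∏ j ∈ J, (Polynomial.X - Polynomial.C (ζ j)) with hV
  set U : Polynomial ℂ := ∏ k ∈ J', ((Polynomial.X - Polynomial.C (ζ k)) *
    (Polynomial.X - Polynomial.C (starRingEnd ℂ (ζ k)))) with hU
  have hconj : ∀ j ∈ J, (starRingEnd ℂ) (ζ j) = ζ j := by
    intro j hj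
    rw [hJ, Finset.mem_filter] at hj
    exact Complex.conj_eq_iff_im.mpr hj.2.1
  have hWW : WW ζ = V ^ 2 * U := by
    unfold WW
    rw [← Finset.prod_filter_mul_prod_filter_not Finset.univ
      (fun j => (ζ j).im = 0 ∧ |(ζ j).re| < 1)]
    congr 1
    rw [hV, ← Finset.prod_pow]
    refine Finset.prod_congr rfl fun j hj => ?_
    rw [hconj j hj, pow_two]
  set N : Polynomial ℂ := (Polynomial.derivative (WW ζ)) ^ 2 -
    2 * (WW ζ) * Polynomial.derivative (Polynomial.derivative (WW ζ)) with hN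
  have hdvd : ∀ j ∈ J, (Polynomial.X - Polynomial.C (ζ j)) ^ 4 ∣ N := by
    intro j hj
    have hj2 := hj
    rw [hJ, Finset.mem_filter] at hj2
    refine quad_div (ζ j) (∏ k ∈ Finset.univ.erase j, ((Polynomial.X - Polynomial.C (ζ k)) *
      (Polynomial.X - Polynomial.C (starRingEnd ℂ (ζ k))))) ?_ (WW ζ) ?_
    · exact crit_deriv n ζ j hj2.2.1 hj2.2.2 (h.crit j hj2.2.1 hj2.2.2)
    · unfold WW
      rw [← Finset.mul_prod_erase Finset.univ _ (Finset.mem_univ j), hconj j hj, pow_two]
  have hVN : V ^ 4 ∣ N := by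
    rw [hV, ← Finset.prod_pow]
    refine Finset.prod_dvd_of_coprime ?_ hdvd
    intro j hj k hk hjk
    have hne : ζ j - ζ k ≠ 0 := by
      have h1 := h.pos j
      intro h0
      have h2 : ∏ k ∈ Finset.univ.erase j, ‖ζ j - ζ k‖ = 0 :=
        Finset.prod_eq_zero (Finset.mem_erase.mpr ⟨hjk.symm, Finset.mem_univ k⟩)
          (by rw [h0, norm_zero])
      rw [h2] at h1
      exact lt_irrefl _ h1
    exact IsCoprime.pow (Polynomial.isCoprime_X_sub_C_of_isUnit_sub (isUnit_iff_ne_zero.mpr hne))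
  obtain ⟨N1, hN1⟩ := hVN
  have hUr : U.map (starRingEnd ℂ) = U := by
    rw [hU, Polynomial.map_prod]
    exact Finset.prod_congr rfl fun k _ => exists_q_pair (ζ k)
  have hVr : V.map (starRingEnd ℂ) = V := by
    rw [hV, Polynomial.map_prod]
    refine Finset.prod_congr rfl fun k hk => ?_
    rw [Polynomial.map_sub, Polynomial.map_X, Polynomial.map_C, hconj k hk]
  have hWr : (WW ζ).map (starRingEnd ℂ) = WW ζ := by
    unfold WW
    rw [Polynomial.map_prod]
    exact Finset.prod_congr rfl fun k _ => exists_q_pair (ζ k)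
  have hW1r : (Polynomial.derivative (WW ζ)).map (starRingEnd ℂ) =
      Polynomial.derivative (WW ζ) := by
    rw [← Polynomial.derivative_map, hWr]
  have hW2r : (Polynomial.derivative (Polynomial.derivative (WW ζ))).map (starRingEnd ℂ) =
      Polynomial.derivative (Polynomial.derivative (WW ζ)) := by
    rw [← Polynomial.derivative_map, hW1r]
  have hNr : N.map (starRingEnd ℂ) = N := by
    rw [hN, Polynomial.map_sub, Polynomial.map_pow, Polynomial.map_mul, Polynomial.map_mul,
      hWr, hW1r, hW2r, Polynomial.map_ofNat]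
  have hV0 : V ^ 4 ≠ 0 := by
    apply pow_ne_zero
    rw [hV]
    exact Finset.prod_ne_zero_iff.mpr fun j _ => Polynomial.X_sub_C_ne_zero _
  have hN1r : N1.map (starRingEnd ℂ) = N1 := by
    have e1 : (V ^ 4 * N1).map (starRingEnd ℂ) = V ^ 4 * N1 := by rw [← hN1, hNr]
    rw [Polynomial.map_mul, Polynomial.map_pow, hVr] at e1
    exact mul_left_cancel₀ hV0 e1
  refine ⟨fun w => N1.eval w / (4 * (U.eval w) ^ 2), ?_, ?_, ?_⟩
  · intro x₀ hx₀ w hw
    have hUw : U.eval w ≠ 0 := by
      rw [hU, Polynomial.eval_prod]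
      refine Finset.prod_ne_zero_iff.mpr fun k hk => ?_
      rw [hJ', Finset.mem_filter] at hk
      have hf := h.far k hk.2 x₀ hx₀
      rw [Metric.mem_ball, dist_eq_norm] at hw
      rw [Polynomial.eval_mul]
      refine mul_ne_zero ?_ ?_
      · rw [Polynomial.eval_sub, Polynomial.eval_X, Polynomial.eval_C]
        intro h0
        have : w = ζ k := sub_eq_zero.mp h0
        rw [this, norm_sub_rev] at hw
        linarith
      · rw [Polynomial.eval_sub, Polynomial.eval_X, Polynomial.eval_C]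
        intro h0
        have hw2 : w = (starRingEnd ℂ) (ζ k) := sub_eq_zero.mp h0
        have h3 : ‖w - (x₀:ℂ)‖ = ‖(x₀:ℂ) - ζ k‖ := by
          rw [hw2, ← Complex.conj_ofReal x₀, ← map_sub, Complex.norm_conj, norm_sub_rev,
            Complex.conj_ofReal]
        rw [h3] at hw
        linarith
    apply DifferentiableAt.differentiableWithinAt
    apply DifferentiableAt.div
    · exact N1.differentiableAt
    · exact (U.differentiableAt.pow 2).const_mul 4
    · exact mul_ne_zero (by norm_num) (pow_ne_zero 2 hUw)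
  · intro w hw
    have hw' := hw
    rw [hWW, Polynomial.eval_mul, Polynomial.eval_pow] at hw'
    have hUw : U.eval w ≠ 0 := right_ne_zero_of_mul hw'
    have hVw : V.eval w ≠ 0 := by
      intro h0
      apply hw'
      rw [h0]
      ring
    have hNe : ((WW ζ).derivative.eval w) ^ 2 -
        2 * (WW ζ).eval w * (WW ζ).derivative.derivative.eval w = (V.eval w) ^ 4 * N1.eval w := by
      have := congrArg (Polynomial.eval w) hN1
      rw [hN] at this
      simpa [Polynomial.eval_mul, Polynomial.eval_pow] using this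
    rw [hNe]
    have hWe : (WW ζ).eval w = V.eval w ^ 2 * U.eval w := by
      rw [hWW, Polynomial.eval_mul, Polynomial.eval_pow]
    rw [hWe]
    field_simp
  · intro x hx
    apply Complex.conj_eq_iff_im.mp
    show (starRingEnd ℂ) (N1.eval (x:ℂ) / (4 * (U.eval (x:ℂ)) ^ 2)) = _
    rw [map_div₀, map_mul, map_pow, exists_q_conj N1 hN1r, exists_q_conj U hUr]
    have h4 : (starRingEnd ℂ) 4 = 4 := map_ofNat (starRingEnd ℂ) 4
    rw [h4]

end Pool.Agent.Helper606.Fek
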