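import Pool.Agent.Helper606.Fek.Defs
import Pool.Agent.Helper606.Fek.P_ode_defs

set_option autoImplicit false

namespace Pool.Agent.Helper606.Fek
open Complex Set Filter Topology


theorem qg_ind {ι : Type*} [DecidableEq ι] (s : Finset ι) (a b : ι → ℂ) (w : ℂ)
    (h1 : ∀ k, w ≠ a k) (h2 : ∀ k, w ≠ b k) :
    (∏ k ∈ s, ((Polynomial.X - Polynomial.C (a k)) * (Polynomial.X - Polynomial.C (b k)))).eval w
      ≠ 0 ∧
    (∏ k ∈ s, ((Polynomial.X - Polynomial.C (a k)) *
      (Polynomial.X - Polynomial.C (b k)))).derivative.eval w =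
      (∏ k ∈ s, ((Polynomial.X - Polynomial.C (a k)) *
        (Polynomial.X - Polynomial.C (b k)))).eval w *
        (∑ k ∈ s, (1 / (w - a k) + 1 / (w - b k))) ∧
    (∏ k ∈ s, ((Polynomial.X - Polynomial.C (a k)) *
      (Polynomial.X - Polynomial.C (b k)))).derivative.derivative.eval w =
      (∏ k ∈ s, ((Polynomial.X - Polynomial.C (a k)) *
        (Polynomial.X - Polynomial.C (b k)))).eval w *
        ((∑ k ∈ s, (1 / (w - a k) + 1 / (w - b k))) ^ 2 -
          ∑ k ∈ s, ((1 / (w - a k)) ^ 2 + (1 / (w - b k)) ^ 2)) := by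
  induction s using Finset.induction_on with
  | empty => simp
  | insert i s hi ih =>
    obtain ⟨e0, e1, e2⟩ := ih
    rw [Finset.prod_insert hi, Finset.sum_insert hi, Finset.sum_insert hi]
    set p := ∏ k ∈ s, ((Polynomial.X - Polynomial.C (a k)) *
      (Polynomial.X - Polynomial.C (b k))) with hp
    have ha : w - a i ≠ 0 := sub_ne_zero.2 (h1 i)
    have hb : w - b i ≠ 0 := sub_ne_zero.2 (h2 i)
    have d1 : ((Polynomial.X - Polynomial.C (a i)) * (Polynomial.X - Polynomial.C (b i)) *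
        p).derivative = ((Polynomial.X - Polynomial.C (b i)) +
          (Polynomial.X - Polynomial.C (a i))) * p +
          (Polynomial.X - Polynomial.C (a i)) * (Polynomial.X - Polynomial.C (b i)) *
            p.derivative := by
      simp only [Polynomial.derivative_mul, Polynomial.derivative_sub, Polynomial.derivative_X,
        Polynomial.derivative_C]
      ring
    have d2 : ((Polynomial.X - Polynomial.C (a i)) * (Polynomial.X - Polynomial.C (b i)) *
        p).derivative.derivative = 2 * p + 2 * ((Polynomial.X - Polynomial.C (b i)) +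
          (Polynomial.X - Polynomial.C (a i))) * p.derivative +
          (Polynomial.X - Polynomial.C (a i)) * (Polynomial.X - Polynomial.C (b i)) *
            p.derivative.derivative := by
      rw [d1]
      simp only [Polynomial.derivative_mul, Polynomial.derivative_sub, Polynomial.derivative_X,
        Polynomial.derivative_C, Polynomial.derivative_add]
      ring
    refine ⟨?_, ?_, ?_⟩
    · simp only [Polynomial.eval_mul, Polynomial.eval_sub, Polynomial.eval_X, Polynomial.eval_C]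
      exact mul_ne_zero (mul_ne_zero ha hb) e0
    · rw [d1]
      simp only [Polynomial.eval_mul, Polynomial.eval_sub, Polynomial.eval_X, Polynomial.eval_C,
        Polynomial.eval_add, e1]
      field_simp
    · rw [d2]
      simp only [Polynomial.eval_mul, Polynomial.eval_sub, Polynomial.eval_X, Polynomial.eval_C,
        Polynomial.eval_add, e1, e2, Polynomial.eval_ofNat]
      field_simp
      ring

theorem q_good (n : ℕ) (ζ : Fin n → ℂ) (w : ℂ) (h1 : ∀ k, w ≠ ζ k)
    (h2 : ∀ k, w ≠ starRingEnd ℂ (ζ k)) :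
    (WW ζ).eval w ≠ 0 ∧
    ‖(((WW ζ).derivative.eval w) ^ 2 - 2 * (WW ζ).eval w * (WW ζ).derivative.derivative.eval w) /
      (4 * ((WW ζ).eval w) ^ 2)‖ ≤
      (∑ k, (1 / ‖w - ζ k‖ + 1 / ‖w - starRingEnd ℂ (ζ k)‖)) ^ 2 := by
  obtain ⟨e0, e1, e2⟩ := qg_ind Finset.univ ζ (fun k => starRingEnd ℂ (ζ k)) w h1 h2
  unfold WW
  refine ⟨e0, ?_⟩
  rw [e1, e2]
  set p := (∏ k, ((Polynomial.X - Polynomial.C (ζ k)) *
      (Polynomial.X - Polynomial.C (starRingEnd ℂ (ζ k))))).eval w with hp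
  set S1 := ∑ k, (1 / (w - ζ k) + 1 / (w - starRingEnd ℂ (ζ k))) with hS1
  set S2 := ∑ k, ((1 / (w - ζ k)) ^ 2 + (1 / (w - starRingEnd ℂ (ζ k))) ^ 2) with hS2
  set T := ∑ k, (1 / ‖w - ζ k‖ + 1 / ‖w - starRingEnd ℂ (ζ k)‖) with hT
  have e3 : ((p * S1) ^ 2 - 2 * p * (p * (S1 ^ 2 - S2))) / (4 * p ^ 2) =
      (2 * S2 - S1 ^ 2) / 4 := by
    field_simp
    ring
  rw [e3]
  have hT1 : ‖S1‖ ≤ T := by
    rw [hS1, hT]
    refine (norm_sum_le _ _).trans (Finset.sum_le_sum fun k _ => ?_)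
    refine (norm_add_le _ _).trans ?_
    rw [norm_div, norm_div, norm_one]
  have hT0 : 0 ≤ T := (norm_nonneg _).trans hT1
  have hT2 : ‖S2‖ ≤ T ^ 2 := by
    rw [hS2]
    refine (norm_sum_le _ _).trans ?_
    calc ∑ k, ‖(1 / (w - ζ k)) ^ 2 + (1 / (w - starRingEnd ℂ (ζ k))) ^ 2‖
        ≤ ∑ k, (1 / ‖w - ζ k‖ + 1 / ‖w - starRingEnd ℂ (ζ k)‖) * T := by
          refine Finset.sum_le_sum fun k _ => ?_
          have hk : 1 / ‖w - ζ k‖ + 1 / ‖w - starRingEnd ℂ (ζ k)‖ ≤ T := by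
            rw [hT]
            exact Finset.single_le_sum (f := fun k => 1 / ‖w - ζ k‖ +
              1 / ‖w - starRingEnd ℂ (ζ k)‖) (fun i _ => by positivity) (Finset.mem_univ k)
          have hx : 0 ≤ 1 / ‖w - ζ k‖ := by positivity
          have hy : 0 ≤ 1 / ‖w - starRingEnd ℂ (ζ k)‖ := by positivity
          refine (norm_add_le _ _).trans ?_
          rw [norm_pow, norm_pow, norm_div, norm_div, norm_one]
          calc (1 / ‖w - ζ k‖) ^ 2 + (1 / ‖w - starRingEnd ℂ (ζ k)‖) ^ 2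
              ≤ (1 / ‖w - ζ k‖ + 1 / ‖w - starRingEnd ℂ (ζ k)‖) *
                (1 / ‖w - ζ k‖ + 1 / ‖w - starRingEnd ℂ (ζ k)‖) := by nlinarith
            _ ≤ _ := mul_le_mul_of_nonneg_left hk (by positivity)
      _ = T ^ 2 := by rw [← Finset.sum_mul, ← hT, pow_two]
  rw [norm_div]
  have h4 : ‖(4 : ℂ)‖ = 4 := by simp
  rw [h4, div_le_iff₀ (by norm_num)]
  calc ‖2 * S2 - S1 ^ 2‖ ≤ ‖2 * S2‖ + ‖S1 ^ 2‖ := norm_sub_le _ _
    _ = 2 * ‖S2‖ + ‖S1‖ ^ 2 := by rw [norm_mul, norm_pow]; simp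
    _ ≤ 2 * T ^ 2 + T ^ 2 := by
        have := pow_le_pow_left₀ (norm_nonneg _) hT1 2
        linarith
    _ ≤ T ^ 2 * 4 := by nlinarith [sq_nonneg T]

end Pool.Agent.Helper606.Fek
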