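import Pool.Agent.Helper606.Fek.Defs
import Pool.Agent.Helper606.Fek.P_ode_defs
import Pool.Agent.Helper606.Fek.P_q_good

set_option autoImplicit false

namespace Pool.Agent.Helper606.Fek
open Complex Set Filter Topology


theorem qb_rho_le {n s : ℝ} (hn : 1 ≤ n) (hs : 0 < s) (h : 1 ≤ n ^ (3/2 : ℝ) * s) :
    (1 / n) * s ^ (1/3 : ℝ) ≤ s := by
  have hn0 : 0 < n := by linarith
  have h1 : 1 ≤ (n ^ (3/2 : ℝ) * s) ^ (2/3 : ℝ) := Real.one_le_rpow h (by norm_num)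
  rw [Real.mul_rpow (by positivity) hs.le, ← Real.rpow_mul hn0.le,
    show (3/2 : ℝ) * (2/3) = 1 by norm_num, Real.rpow_one] at h1
  have h2 : s ^ (1/3 : ℝ) * s ^ (2/3 : ℝ) = s := by
    rw [← Real.rpow_add hs, show (1/3 : ℝ) + 2/3 = 1 by norm_num, Real.rpow_one]
  have h3 : 0 < s ^ (1/3 : ℝ) := by positivity
  calc (1 / n) * s ^ (1/3 : ℝ) ≤ (1 / n) * s ^ (1/3 : ℝ) * (n * s ^ (2/3 : ℝ)) := by
        have h4 : 0 ≤ (1 / n) * s ^ (1/3 : ℝ) := by positivity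
        nlinarith
    _ = s ^ (1/3 : ℝ) * s ^ (2/3 : ℝ) := by field_simp
    _ = s := h2

theorem qb_half {s t : ℝ} (hs : 0 < s) (h : s / 2 ≤ t) : s ^ (1/3 : ℝ) / 2 ≤ t ^ (1/3 : ℝ) := by
  have h1 : (s * (1/2)) ^ (1/3 : ℝ) ≤ t ^ (1/3 : ℝ) :=
    Real.rpow_le_rpow (by positivity) (by linarith) (by norm_num)
  rw [Real.mul_rpow hs.le (by norm_num)] at h1
  have h2 : (1/2 : ℝ) ≤ (1/2 : ℝ) ^ (1/3 : ℝ) := by
    have := Real.rpow_le_rpow_of_exponent_ge (x := 1/2) (by norm_num) (by norm_num)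
      (show (1/3 : ℝ) ≤ 1 by norm_num)
    rwa [Real.rpow_one] at this
  have h3 : 0 < s ^ (1/3 : ℝ) := by positivity
  nlinarith

theorem qb_conj_norm (w z : ℂ) : ‖w - starRingEnd ℂ z‖ = ‖starRingEnd ℂ w - z‖ := by
  rw [← Complex.norm_conj, map_sub, Complex.conj_conj]

theorem qb_conj_norm_real (w : ℂ) (x : ℝ) : ‖starRingEnd ℂ w - x‖ = ‖w - x‖ := by
  rw [← Complex.norm_conj, map_sub, Complex.conj_conj, Complex.conj_ofReal]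

theorem qb_good {c₁ C₂ A₂ K₀ : ℝ} (hc : 0 < c₁) (hC : 0 < C₂) {n : ℕ} {ζ : Fin n → ℂ}
    (hL : LineData n ζ c₁ C₂ A₂ K₀) {q : ℂ → ℂ} (hq : IsQ ζ q) {x₀ : ℝ} (hx : |x₀| < 1)
    (hn : 1 ≤ (n:ℝ) ^ (3/2 : ℝ) * (1 - |x₀|)) {w : ℂ} (hw : ‖w - x₀‖ ≤ (1 - |x₀|) / 2)
    (h1 : ∀ k, c₁ / 8 * (1 / n) * (1 - |x₀|) ^ (1/3 : ℝ) ≤ ‖w - ζ k‖)
    (h2 : ∀ k, c₁ / 8 * (1 / n) * (1 - |x₀|) ^ (1/3 : ℝ) ≤ ‖starRingEnd ℂ w - ζ k‖) :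
    ‖q w‖ ≤ 4 * C₂ ^ 2 * (n:ℝ) ^ (9/4 : ℝ) * (1 - |x₀|) ^ (-(1/2) : ℝ) := by
  have hn1 : (1 : ℝ) ≤ n := by exact_mod_cast hL.hn
  have hn0 : (0 : ℝ) < n := by linarith
  have hs : 0 < 1 - |x₀| := by linarith
  have hpos : 0 < c₁ / 8 * (1 / n) * (1 - |x₀|) ^ (1/3 : ℝ) := by positivity
  have hne1 : ∀ k, w ≠ ζ k := by
    intro k h
    have := h1 k
    rw [h, sub_self, norm_zero] at this
    linarith
  have hne2 : ∀ k, w ≠ starRingEnd ℂ (ζ k) := by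
    intro k h
    have := h2 k
    rw [h, Complex.conj_conj, sub_self, norm_zero] at this
    linarith
  obtain ⟨hW, hb⟩ := q_good n ζ w hne1 hne2
  rw [hq.eq w hW]
  refine hb.trans ?_
  have s1 := hL.sum x₀ hx hn w hw h1
  have s2 := hL.sum x₀ hx hn (starRingEnd ℂ w) (by rw [qb_conj_norm_real]; exact hw) h2
  have s3 : ∑ k, (1 / ‖w - ζ k‖ + 1 / ‖w - starRingEnd ℂ (ζ k)‖) ≤
      2 * (C₂ * (n:ℝ) ^ (9/8 : ℝ) * (1 - |x₀|) ^ (-(1/4) : ℝ)) := by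
    rw [Finset.sum_add_distrib]
    simp only [qb_conj_norm]
    linarith
  have s0 : 0 ≤ ∑ k, (1 / ‖w - ζ k‖ + 1 / ‖w - starRingEnd ℂ (ζ k)‖) :=
    Finset.sum_nonneg fun k _ => by positivity
  refine (pow_le_pow_left₀ s0 s3 2).trans (le_of_eq ?_)
  have e1 : ((n:ℝ) ^ (9/8 : ℝ)) ^ 2 = (n:ℝ) ^ (9/4 : ℝ) := by
    rw [← Real.rpow_natCast, ← Real.rpow_mul hn0.le]
    norm_num
  have e2 : ((1 - |x₀|) ^ (-(1/4) : ℝ)) ^ 2 = (1 - |x₀|) ^ (-(1/2) : ℝ) := by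
    rw [← Real.rpow_natCast, ← Real.rpow_mul hs.le]
    norm_num
  rw [mul_pow, mul_pow, mul_pow, e1, e2]
  ring

theorem q_block (c₁ C₂ A₂ K₀ : ℝ) (hc : 0 < c₁) (hc1 : c₁ ≤ 1) (hC : 0 < C₂) :
    ∀ n : ℕ, ∀ ζ : Fin n → ℂ, LineData n ζ c₁ C₂ A₂ K₀ → ∀ q : ℂ → ℂ, IsQ ζ q →
    ∀ x₀ : ℝ, |x₀| < 1 → 8 ≤ (n:ℝ) ^ (3/2 : ℝ) * (1 - |x₀|) → ∀ w : ℂ,
    ‖w - x₀‖ ≤ (1 - |x₀|) / 4 →
    ‖q w‖ ≤ 4 * C₂ ^ 2 * (n:ℝ) ^ (9/4 : ℝ) * (1 - |x₀|) ^ (-(1/2) : ℝ) := by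
  intro n ζ hL q hq x₀ hx h8 w hw
  have hn1 : (1 : ℝ) ≤ n := by exact_mod_cast hL.hn
  have hn0 : (0 : ℝ) < n := by linarith
  have hs : 0 < 1 - |x₀| := by linarith
  have hn' : 1 ≤ (n:ℝ) ^ (3/2 : ℝ) * (1 - |x₀|) := by linarith
  have hρs := qb_rho_le hn1 hs hn'
  obtain ⟨s, hsdef⟩ : ∃ s, s = 1 - |x₀| := ⟨_, rfl⟩
  obtain ⟨ρ, hρdef⟩ : ∃ ρ, ρ = (1 / (n:ℝ)) * (1 - |x₀|) ^ (1/3 : ℝ) := ⟨_, rfl⟩
  have hρ0 : 0 < ρ := by rw [hρdef]; positivity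
  have hcr : c₁ / 8 * (1 / n) * (1 - |x₀|) ^ (1/3 : ℝ) = c₁ / 8 * ρ := by rw [hρdef]; ring
  rw [← hρdef, ← hsdef] at hρs
  have hs' : 0 < s := by rw [hsdef]; exact hs
  have hcρ : c₁ / 8 * ρ ≤ s / 8 := by
    have : c₁ * ρ ≤ 1 * s := mul_le_mul hc1 hρs hρ0.le (by norm_num)
    linarith
  have hcρ0 : 0 < c₁ / 8 * ρ := by positivity
  by_cases hgood : (∀ k, c₁ / 8 * ρ ≤ ‖w - ζ k‖) ∧ (∀ k, c₁ / 8 * ρ ≤ ‖starRingEnd ℂ w - ζ k‖)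
  · refine qb_good hc hC hL hq hx hn' (by linarith) ?_ ?_
    · intro k; rw [hcr]; exact hgood.1 k
    · intro k; rw [hcr]; exact hgood.2 k
  · -- there is a close zero
    obtain ⟨j, w₁, hw₁x, hw₁ζ, hw₁w⟩ : ∃ (j : Fin n) (w₁ : ℂ), ‖w₁ - x₀‖ ≤ s / 4 ∧
        ‖w₁ - ζ j‖ < c₁ / 8 * ρ ∧ (w₁ = w ∨ w₁ = starRingEnd ℂ w) := by
      rw [not_and_or] at hgood
      push Not at hgood
      rcases hgood with ⟨j, hj⟩ | ⟨j, hj⟩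
      · exact ⟨j, w, by rw [hsdef]; exact hw, hj, Or.inl rfl⟩
      · exact ⟨j, starRingEnd ℂ w, by rw [qb_conj_norm_real, hsdef]; exact hw, hj, Or.inr rfl⟩
    have hjx : ‖(x₀ : ℂ) - ζ j‖ < 3 * s / 8 := by
      have h1 : ‖(x₀ : ℂ) - ζ j‖ ≤ ‖(x₀ : ℂ) - w₁‖ + ‖w₁ - ζ j‖ := norm_sub_le_norm_sub_add_norm_sub _ _ _
      rw [norm_sub_rev (x₀ : ℂ) w₁] at h1
      linarith
    have hreal : (ζ j).im = 0 ∧ |(ζ j).re| < 1 := by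
      by_contra hcon
      have := hL.far j hcon x₀ hx
      rw [← hsdef] at this
      linarith
    obtain ⟨ξ, hξ⟩ : ∃ ξ : ℝ, ξ = (ζ j).re := ⟨_, rfl⟩
    have hζξ : ζ j = (ξ : ℂ) := by
      apply Complex.ext
      · rw [hξ, Complex.ofReal_re]
      · rw [hreal.1, Complex.ofReal_im]
    have hxξ : |x₀ - ξ| < 3 * s / 8 := by
      rw [hζξ, ← Complex.ofReal_sub, Complex.norm_real, Real.norm_eq_abs] at hjx
      exact hjx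
    have hsj : s / 2 ≤ 1 - |(ζ j).re| := by
      rw [← hξ]
      have h1 : |ξ| ≤ |x₀| + |x₀ - ξ| := by
        have := abs_sub_abs_le_abs_sub ξ x₀
        rw [abs_sub_comm ξ x₀] at this
        linarith
      linarith
    have hnj : 1 ≤ (n:ℝ) ^ (3/2 : ℝ) * (1 - |(ζ j).re|) := by
      have h1 : (n:ℝ) ^ (3/2 : ℝ) * (s / 2) ≤ (n:ℝ) ^ (3/2 : ℝ) * (1 - |(ζ j).re|) :=
        mul_le_mul_of_nonneg_left hsj (by positivity)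
      rw [← hsdef] at h8
      linarith
    have hsep : ∀ k, k ≠ j → c₁ / 2 * ρ ≤ ‖ζ j - ζ k‖ := by
      intro k hk
      refine le_trans ?_ (hL.sep j k (Ne.symm hk) hreal.1 hreal.2 hnj)
      have h1 := qb_half hs' hsj
      rw [hρdef, ← hsdef]
      have h2 : c₁ * (1 / n) * (s ^ (1/3 : ℝ) / 2) ≤ c₁ * (1 / n) * (1 - |(ζ j).re|) ^ (1/3 : ℝ) :=
        mul_le_mul_of_nonneg_left h1 (by positivity)
      calc c₁ / 2 * (1 / n * s ^ (1/3 : ℝ)) = c₁ * (1 / n) * (s ^ (1/3 : ℝ) / 2) := by ring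
        _ ≤ _ := h2
    -- points at distance exactly `c₁ρ/8` from `ζ j`
    have hfar : ∀ w' : ℂ, ‖w' - ζ j‖ = c₁ / 8 * ρ → ∀ k, c₁ / 8 * ρ ≤ ‖w' - ζ k‖ := by
      intro w' hw' k
      by_cases hk : k = j
      · rw [hk, hw']
      · have h1 := hsep k hk
        have h2 : ‖ζ j - ζ k‖ ≤ ‖ζ j - w'‖ + ‖w' - ζ k‖ := norm_sub_le_norm_sub_add_norm_sub _ _ _
        rw [norm_sub_rev (ζ j) w', hw'] at h2
        have h3 : 0 < c₁ * ρ := by positivity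
        linarith
    have hdist : ∀ w' : ℂ, ‖w' - ζ j‖ ≤ c₁ / 8 * ρ → ‖w' - x₀‖ ≤ s / 2 := by
      intro w' hw'
      have h2 : ‖w' - x₀‖ ≤ ‖w' - ζ j‖ + ‖ζ j - x₀‖ := norm_sub_le_norm_sub_add_norm_sub _ _ _
      rw [norm_sub_rev (ζ j) (x₀ : ℂ)] at h2
      linarith
    have hwball : ‖w - ζ j‖ < c₁ / 8 * ρ := by
      rcases hw₁w with h | h
      · rw [← h]; exact hw₁ζ
      · rw [h, hζξ, qb_conj_norm_real, ← hζξ] at hw₁ζ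
        exact hw₁ζ
    have hsub : closure (Metric.ball (ζ j) (c₁ / 8 * ρ)) ⊆ Metric.ball (x₀:ℂ) (1 - |x₀|) := by
      refine Metric.closure_ball_subset_closedBall.trans ?_
      intro w' hw'
      rw [mem_closedBall_iff_norm] at hw'
      rw [mem_ball_iff_norm, ← hsdef]
      have := hdist w' hw'
      linarith
    refine Complex.norm_le_of_forall_mem_frontier_norm_le Metric.isBounded_ball
      (((hq.diff x₀ hx).mono hsub).diffContOnCl) ?_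
      (subset_closure (mem_ball_iff_norm.2 hwball))
    intro w' hw'
    rw [frontier_ball _ hcρ0.ne', mem_sphere_iff_norm] at hw'
    have hwc : ‖starRingEnd ℂ w' - ζ j‖ = c₁ / 8 * ρ := by
      rw [hζξ, qb_conj_norm_real, ← hζξ, hw']
    refine qb_good hc hC hL hq hx hn' ?_ ?_ ?_
    · rw [← hsdef]; exact hdist w' hw'.le
    · intro k; rw [hcr]; exact hfar w' hw' k
    · intro k; rw [hcr]; exact hfar _ hwc k

end Pool.Agent.Helper606.Fek
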