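import Pool.Agent.Helper606.Fek.Defs
import Pool.Agent.Helper606.Fek.P_ode_defs
import Pool.Agent.Helper606.Fek.P_q_block

set_option autoImplicit false

namespace Pool.Agent.Helper606.Fek
open Complex Set Filter Topology


theorem q_derivs (c₁ C₂ A₂ K₀ : ℝ) (hc : 0 < c₁) (hc1 : c₁ ≤ 1) (hC : 0 < C₂) :
    ∃ C : ℝ, 0 < C ∧ ∀ n : ℕ, ∀ ζ : Fin n → ℂ, LineData n ζ c₁ C₂ A₂ K₀ →
    ∀ q : ℂ → ℂ, IsQ ζ q → ∃ q₁ q₂ : ℝ → ℝ,
    (∀ x : ℝ, |x| < 1 → HasDerivAt (fun t : ℝ => (q t).re) (q₁ x) x ∧ HasDerivAt q₁ (q₂ x) x) ∧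
    (∀ x : ℝ, |x| < 1 → 8 ≤ (n:ℝ) ^ (3/2 : ℝ) * (1 - |x|) →
      |q₁ x| ≤ C * (n:ℝ) ^ (9/4 : ℝ) * (1 - |x|) ^ (-(3/2) : ℝ) ∧
      |q₂ x| ≤ C * (n:ℝ) ^ (9/4 : ℝ) * (1 - |x|) ^ (-(5/2) : ℝ)) := by
  refine ⟨128 * C₂ ^ 2, by positivity, ?_⟩
  intro n ζ hζ q hq
  refine ⟨fun t => (deriv q (t : ℂ)).re, fun t => (deriv (deriv q) (t : ℂ)).re, ?_, ?_⟩
  · intro x hx
    have hs : 0 < 1 - |x| := by linarith
    have hd := hq.diff x hx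
    have hmem : Metric.ball (x : ℂ) (1 - |x|) ∈ 𝓝 (x : ℂ) := Metric.ball_mem_nhds _ hs
    have h1 : HasDerivAt q (deriv q (x : ℂ)) (x : ℂ) := (hd.differentiableAt hmem).hasDerivAt
    have h2 : HasDerivAt (deriv q) (deriv (deriv q) (x : ℂ)) (x : ℂ) :=
      ((hd.deriv Metric.isOpen_ball).differentiableAt hmem).hasDerivAt
    exact ⟨h1.real_of_complex, h2.real_of_complex⟩
  · intro x hx hn
    have hs : 0 < 1 - |x| := by linarith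
    have hd := hq.diff x hx
    have hR : 0 < (1 - |x|) / 4 := by positivity
    have hcl : DiffContOnCl ℂ q (Metric.ball (x : ℂ) ((1 - |x|) / 4)) :=
      hd.diffContOnCl_ball (Metric.closedBall_subset_ball (by linarith))
    have hM : ∀ z ∈ Metric.sphere (x : ℂ) ((1 - |x|) / 4),
        ‖q z‖ ≤ 4 * C₂ ^ 2 * (n:ℝ) ^ (9/4 : ℝ) * (1 - |x|) ^ (-(1/2) : ℝ) := by
      intro z hz
      refine q_block c₁ C₂ A₂ K₀ hc hc1 hC n ζ hζ q hq x hx hn z ?_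
      rw [← Complex.dist_eq]
      exact (Metric.mem_sphere.1 hz).le
    have hn0 : (0:ℝ) ≤ (n:ℝ) ^ (9/4 : ℝ) := Real.rpow_nonneg (Nat.cast_nonneg n) _
    constructor
    · have h1 := Complex.norm_deriv_le_of_forall_mem_sphere_norm_le hR hcl hM
      have h2 : (1 - |x|) ^ (-(3/2) : ℝ) = (1 - |x|) ^ (-(1/2) : ℝ) / (1 - |x|) := by
        rw [← Real.rpow_sub_one hs.ne']; congr 1; norm_num
      have hA : 0 ≤ C₂ ^ 2 * (n:ℝ) ^ (9/4 : ℝ) * (1 - |x|) ^ (-(3/2) : ℝ) := by positivity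
      refine (Complex.abs_re_le_norm _).trans (h1.trans ?_)
      calc 4 * C₂ ^ 2 * (n:ℝ) ^ (9/4 : ℝ) * (1 - |x|) ^ (-(1/2) : ℝ) / ((1 - |x|) / 4)
          = 16 * (C₂ ^ 2 * (n:ℝ) ^ (9/4 : ℝ) * (1 - |x|) ^ (-(3/2) : ℝ)) := by
            rw [h2]; field_simp; ring
        _ ≤ 128 * (C₂ ^ 2 * (n:ℝ) ^ (9/4 : ℝ) * (1 - |x|) ^ (-(3/2) : ℝ)) := by linarith
        _ = _ := by ring
    · have h1 := Complex.norm_iteratedDeriv_le_of_forall_mem_sphere_norm_le 2 hR hcl hM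
      rw [iteratedDeriv_succ, iteratedDeriv_one] at h1
      have h2 : (1 - |x|) ^ (-(5/2) : ℝ) = (1 - |x|) ^ (-(1/2) : ℝ) / (1 - |x|) ^ 2 := by
        rw [← Real.rpow_natCast (1 - |x|) 2, ← Real.rpow_sub hs]; congr 1; norm_num
      refine (Complex.abs_re_le_norm _).trans (h1.trans ?_)
      have h3 : ((Nat.factorial 2 : ℕ) : ℝ) = 2 := by norm_num [Nat.factorial]
      rw [h3]
      apply le_of_eq
      rw [h2]; field_simp; ring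

end Pool.Agent.Helper606.Fek
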