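import Pool.Agent.Helper606.Fek.Defs
import Pool.Agent.Helper606.Fek.P_ode_defs

set_option autoImplicit false

namespace Pool.Agent.Helper606.Fek
open Complex Set Filter Topology


/-- the real factor -/
noncomputable def real_w_fac (z : ℂ) : Polynomial ℝ :=
  Polynomial.X ^ 2 - Polynomial.C (2 * z.re) * Polynomial.X + Polynomial.C (Complex.normSq z)

theorem real_w_fac_map (z : ℂ) : (real_w_fac z).map Complex.ofRealHom =
    (Polynomial.X - Polynomial.C z) * (Polynomial.X - Polynomial.C (starRingEnd ℂ z)) := by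
  have h1 : (Polynomial.C z * Polynomial.C (starRingEnd ℂ z) : Polynomial ℂ)
      = Polynomial.C ((Complex.normSq z : ℝ) : ℂ) := by
    rw [← Polynomial.C_mul, Complex.mul_conj]
  have h2 : (Polynomial.C z + Polynomial.C (starRingEnd ℂ z) : Polynomial ℂ)
      = Polynomial.C (((2 * z.re : ℝ)) : ℂ) := by
    rw [← Polynomial.C_add, Complex.add_conj]
  unfold real_w_fac
  rw [Polynomial.map_add, Polynomial.map_sub, Polynomial.map_mul, Polynomial.map_pow,
    Polynomial.map_X, Polynomial.map_C, Polynomial.map_C]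
  show Polynomial.X ^ 2 - Polynomial.C ((2 * z.re : ℝ) : ℂ) * Polynomial.X
    + Polynomial.C ((Complex.normSq z : ℝ) : ℂ) = _
  rw [← h1, ← h2]
  ring

theorem real_w_fac_eval (z : ℂ) (x : ℝ) : (real_w_fac z).eval x = ‖(x : ℂ) - z‖ ^ 2 := by
  unfold real_w_fac
  rw [← Complex.normSq_eq_norm_sq, Complex.normSq_apply]
  simp [Complex.normSq_apply]
  ring

/-- real derivatives of `W` and the identities -/
theorem real_w (n : ℕ) (ζ : Fin n → ℂ) : ∃ W W₁ W₂ W₃ : ℝ → ℝ,
    (∀ x : ℝ, ((WW ζ).eval (x:ℂ)) = (W x : ℂ) ∧ ((WW ζ).derivative.eval (x:ℂ)) = (W₁ x : ℂ) ∧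
      ((WW ζ).derivative.derivative.eval (x:ℂ)) = (W₂ x : ℂ)) ∧
    (∀ x : ℝ, W x = ∏ k, ‖(x:ℂ) - ζ k‖ ^ 2) ∧
    (∀ x, HasDerivAt W (W₁ x) x) ∧ (∀ x, HasDerivAt W₁ (W₂ x) x) ∧
    (∀ x, HasDerivAt W₂ (W₃ x) x) ∧
    (∀ j, (ζ j).im = 0 → W₁ (ζ j).re = 0 ∧
      W₂ (ζ j).re = 2 * (∏ k ∈ Finset.univ.erase j, ‖ζ j - ζ k‖) ^ 2) := by
  classical
  let RW : Polynomial ℝ := ∏ k, real_w_fac (ζ k)
  have hmap : RW.map Complex.ofRealHom = WW ζ := by
    show (∏ k, real_w_fac (ζ k)).map Complex.ofRealHom = _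
    rw [Polynomial.map_prod]
    unfold WW
    exact Finset.prod_congr rfl fun k _ => real_w_fac_map (ζ k)
  have hev : ∀ (p : Polynomial ℝ) (x : ℝ), (p.map Complex.ofRealHom).eval (x : ℂ)
      = ((p.eval x : ℝ) : ℂ) := by
    intro p x
    rw [Polynomial.eval_map]
    exact Polynomial.eval₂_at_apply Complex.ofRealHom x
  refine ⟨fun x => RW.eval x, fun x => RW.derivative.eval x,
    fun x => RW.derivative.derivative.eval x,
    fun x => RW.derivative.derivative.derivative.eval x, ?_, ?_, ?_, ?_, ?_, ?_⟩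
  · intro x
    rw [← hmap, Polynomial.derivative_map, Polynomial.derivative_map]
    exact ⟨hev _ _, hev _ _, hev _ _⟩
  · intro x
    show (∏ k, real_w_fac (ζ k)).eval x = _
    rw [Polynomial.eval_prod]
    exact Finset.prod_congr rfl fun k _ => real_w_fac_eval (ζ k) x
  · intro x
    exact RW.hasDerivAt x
  · intro x
    exact RW.derivative.hasDerivAt x
  · intro x
    exact RW.derivative.derivative.hasDerivAt x
  · intro j hj
    have hfac : real_w_fac (ζ j) = (Polynomial.X - Polynomial.C (ζ j).re) ^ 2 := by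
      unfold real_w_fac
      rw [Complex.normSq_apply, hj, mul_zero, add_zero, Polynomial.C_mul, Polynomial.C_mul]
      have : (Polynomial.C (2 : ℝ)) = 2 := rfl
      rw [this]
      ring
    have hRW : RW = (Polynomial.X - Polynomial.C (ζ j).re) ^ 2 *
        ∏ k ∈ Finset.univ.erase j, real_w_fac (ζ k) := by
      rw [← hfac]
      exact (Finset.mul_prod_erase _ _ (Finset.mem_univ j)).symm
    set R : Polynomial ℝ := ∏ k ∈ Finset.univ.erase j, real_w_fac (ζ k) with hR
    have hRe : R.eval (ζ j).re = (∏ k ∈ Finset.univ.erase j, ‖ζ j - ζ k‖) ^ 2 := by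
      rw [hR, Polynomial.eval_prod, ← Finset.prod_pow]
      refine Finset.prod_congr rfl fun k _ => ?_
      rw [real_w_fac_eval]
      have : ((ζ j).re : ℂ) = ζ j := by
        apply Complex.ext
        · simp
        · simp [hj]
      rw [this]
    constructor
    · show RW.derivative.eval (ζ j).re = 0
      rw [hRW]
      simp [Polynomial.derivative_mul, Polynomial.derivative_pow]
    · show RW.derivative.derivative.eval (ζ j).re = _
      rw [hRW, ← hRe]
      simp [Polynomial.derivative_mul, Polynomial.derivative_pow]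
end Pool.Agent.Helper606.Fek
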