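import Pool.Agent.Helper606.Fek.Defs
import Pool.Agent.Helper606.Fek.P_ode_defs
import Pool.Agent.Helper606.Fek.P_real_w

set_option autoImplicit false

namespace Pool.Agent.Helper606.Fek
open Complex Set Filter Topology


theorem norm_sq_real_sub (t : ℝ) (z : ℂ) :
    ‖(t:ℂ) - z‖ ^ 2 = t ^ 2 - 2 * z.re * t + ‖z‖ ^ 2 := by
  rw [Complex.sq_norm, Complex.sq_norm, Complex.normSq_apply, Complex.normSq_apply]
  simp only [Complex.sub_re, Complex.sub_im, Complex.ofReal_re, Complex.ofReal_im]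
  ring

open Polynomial in
theorem third_deriv_zero (n : ℕ) (ζ : Fin n → ℂ) (c₁ C₂ A₂ K₀ : ℝ) (h : LineData n ζ c₁ C₂ A₂ K₀)
    (W W₁ W₂ W₃ : ℝ → ℝ) (hWp : ∀ x : ℝ, W x = ∏ k, ‖(x:ℂ) - ζ k‖ ^ 2)
    (h1 : ∀ x, HasDerivAt W (W₁ x) x) (h2 : ∀ x, HasDerivAt W₁ (W₂ x) x)
    (h3 : ∀ x, HasDerivAt W₂ (W₃ x) x) (x : ℝ) (hx : |x| < 1) (j : Fin n) (hj : ζ j = (x:ℂ)) :
    W₃ x = 0 := by
  obtain ⟨R, hR⟩ : ∃ R : ℝ[X], R = ∏ k ∈ Finset.univ.erase j,
    (X ^ 2 - C (2 * (ζ k).re) * X + C (‖ζ k‖ ^ 2)) := ⟨_, rfl⟩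
  have hRe : ∀ t : ℝ, R.eval t = ∏ k ∈ Finset.univ.erase j, ‖(t:ℂ) - ζ k‖ ^ 2 := by
    intro t
    rw [hR, Polynomial.eval_prod]
    refine Finset.prod_congr rfl fun k _ => ?_
    rw [norm_sq_real_sub]
    simp
  have hWR : ∀ t : ℝ, W t = ((X - C x) ^ 2 * R).eval t := by
    intro t
    rw [hWp, Polynomial.eval_mul, hRe, ← Finset.mul_prod_erase Finset.univ _ (Finset.mem_univ j), hj]
    congr 1
    rw [← Complex.ofReal_sub, Complex.norm_real, Real.norm_eq_abs, sq_abs]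
    simp
  obtain ⟨p, hp⟩ : ∃ p : ℝ[X], p = (X - C x) ^ 2 * R := ⟨_, rfl⟩
  rw [← hp] at hWR
  have e0 : W = fun t => p.eval t := funext hWR
  have e1 : W₁ = fun t => (derivative p).eval t := by
    funext t
    have := h1 t
    rw [e0] at this
    exact this.unique (p.hasDerivAt t)
  have e2 : W₂ = fun t => (derivative (derivative p)).eval t := by
    funext t
    have := h2 t
    rw [e1] at this
    exact this.unique ((derivative p).hasDerivAt t)
  have e3 : W₃ x = (derivative (derivative (derivative p))).eval x := by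
    have := h3 x
    rw [e2] at this
    exact this.unique ((derivative (derivative p)).hasDerivAt x)
  have hmax : IsLocalMax (fun t : ℝ => R.eval t) x := by
    have hnb : ∀ᶠ t : ℝ in 𝓝 x, |t| < 1 := by
      have : ContinuousAt (fun t : ℝ => |t|) x := continuous_abs.continuousAt
      exact this.eventually (gt_mem_nhds hx)
    filter_upwards [hnb] with t ht
    rw [hRe, hRe, Finset.prod_pow, Finset.prod_pow]
    have hc := h.crit j (by rw [hj, Complex.ofReal_im]) (by rw [hj, Complex.ofReal_re]; exact hx)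
      t ht.le
    rw [hj] at hc
    exact pow_le_pow_left₀ (Finset.prod_nonneg fun _ _ => norm_nonneg _) hc 2
  have hR' : (derivative R).eval x = 0 := hmax.hasDerivAt_eq_zero (R.hasDerivAt x)
  rw [e3, hp]
  simp only [derivative_mul, derivative_add, derivative_pow, derivative_sub, derivative_X,
    derivative_C, eval_add, eval_mul, eval_sub, eval_X, eval_C, eval_pow, hR']
  simp

theorem real_ode (n : ℕ) (ζ : Fin n → ℂ) (c₁ C₂ A₂ K₀ : ℝ) (h : LineData n ζ c₁ C₂ A₂ K₀)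
    (q : ℂ → ℂ) (hq : IsQ ζ q) (q₁ : ℝ → ℝ)
    (hq1 : ∀ x : ℝ, |x| < 1 → HasDerivAt (fun t : ℝ => (q t).re) (q₁ x) x)
    (W W₁ W₂ W₃ : ℝ → ℝ)
    (hW : ∀ x : ℝ, ((WW ζ).eval (x:ℂ)) = (W x : ℂ) ∧ ((WW ζ).derivative.eval (x:ℂ)) = (W₁ x : ℂ) ∧
      ((WW ζ).derivative.derivative.eval (x:ℂ)) = (W₂ x : ℂ))
    (h1 : ∀ x, HasDerivAt W (W₁ x) x) (h2 : ∀ x, HasDerivAt W₁ (W₂ x) x)
    (h3 : ∀ x, HasDerivAt W₂ (W₃ x) x) (x : ℝ) (hx : |x| < 1) :
    W₁ x ^ 2 - 2 * W x * W₂ x = 4 * (q x).re * W x ^ 2 ∧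
    W₃ x = - 4 * (q x).re * W₁ x - 2 * q₁ x * W x ∧
    0 ≤ W x ∧ 0 ≤ W₂ x / 2 + (q x).re * W x := by
  obtain ⟨V, V₁, V₂, V₃, hV, hVp, hV1, hV2, hV3, hVz⟩ := real_w n ζ
  have eW : V = W := by
    funext t; exact Complex.ofReal_injective ((hV t).1.symm.trans (hW t).1)
  have eW1 : V₁ = W₁ := by
    funext t; exact Complex.ofReal_injective ((hV t).2.1.symm.trans (hW t).2.1)
  have eW2 : V₂ = W₂ := by
    funext t; exact Complex.ofReal_injective ((hV t).2.2.symm.trans (hW t).2.2)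
  subst eW eW1 eW2
  have hW0 : ∀ t, 0 ≤ V t := fun t => by
    rw [hVp]; exact Finset.prod_nonneg fun _ _ => by positivity
  have hzero : ∀ t : ℝ, V t = 0 → ∃ j, ζ j = (t:ℂ) := by
    intro t ht
    rw [hVp, Finset.prod_eq_zero_iff] at ht
    obtain ⟨j, _, hj⟩ := ht
    refine ⟨j, ?_⟩
    have h4 := pow_eq_zero_iff (two_ne_zero) |>.1 hj
    rw [norm_eq_zero, sub_eq_zero] at h4
    exact h4.symm
  have hz1 : ∀ t : ℝ, V t = 0 → V₁ t = 0 ∧ 0 ≤ V₂ t := by
    intro t ht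
    obtain ⟨j, hj⟩ := hzero t ht
    have h4 := hVz j (by rw [hj, Complex.ofReal_im])
    rw [hj, Complex.ofReal_re] at h4
    refine ⟨h4.1, ?_⟩
    rw [h4.2]; positivity
  have A : ∀ t : ℝ, |t| < 1 → V₁ t ^ 2 - 2 * V t * V₂ t = 4 * (q t).re * V t ^ 2 := by
    intro t _
    by_cases h0 : V t = 0
    · rw [h0, (hz1 t h0).1]; ring
    · have h5 := hq.eq t (by rw [(hW t).1]; exact_mod_cast h0)
      rw [(hW t).1, (hW t).2.1, (hW t).2.2] at h5
      have h6 : q t = (((V₁ t ^ 2 - 2 * V t * V₂ t) / (4 * V t ^ 2) : ℝ) : ℂ) := by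
        rw [h5]; push_cast; rfl
      rw [h6, Complex.ofReal_re]
      field_simp
  refine ⟨A x hx, ?_, hW0 x, ?_⟩
  · by_cases h0 : V x = 0
    · obtain ⟨j, hj⟩ := hzero x h0
      rw [third_deriv_zero n ζ c₁ C₂ A₂ K₀ h V V₁ V₂ W₃ hVp h1 h2 h3 x hx j hj, h0, (hz1 x h0).1]
      ring
    · have hF : HasDerivAt (fun t : ℝ => V₁ t ^ 2 - 2 * V t * V₂ t - 4 * (q t).re * V t ^ 2)
          ((2 * V₁ x ^ (2 - 1) * V₂ x) - ((2 * V₁ x) * V₂ x + 2 * V x * W₃ x) -
            ((4 * q₁ x) * V x ^ 2 + 4 * (q x).re * (2 * V x ^ (2 - 1) * V₁ x))) x := by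
        have a1 := (h2 x).pow 2
        have a2 := ((h1 x).const_mul 2).mul (h3 x)
        have a3 := ((hq1 x hx).const_mul 4).mul ((h1 x).pow 2)
        have a4 := (a1.sub a2).sub a3
        refine a4.congr_deriv ?_
        simp only [Pi.pow_apply]
        push_cast
        ring
      have hF0 : HasDerivAt (fun t : ℝ => V₁ t ^ 2 - 2 * V t * V₂ t - 4 * (q t).re * V t ^ 2)
          0 x := by
        have hnb : ∀ᶠ t : ℝ in 𝓝 x, |t| < 1 := by
          have : ContinuousAt (fun t : ℝ => |t|) x := continuous_abs.continuousAt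
          exact this.eventually (gt_mem_nhds hx)
        refine (hasDerivAt_const x (0:ℝ)).congr_of_eventuallyEq ?_
        filter_upwards [hnb] with t ht
        rw [A t ht, sub_self]
      have hE := hF.unique hF0
      simp only [show (2 - 1 : ℕ) = 1 from rfl, pow_one] at hE
      have h7 : V x * (W₃ x + 2 * q₁ x * V x + 4 * (q x).re * V₁ x) = 0 := by
        linear_combination (-1/2) * hE
      rcases mul_eq_zero.1 h7 with h8 | h8
      · exact absurd h8 h0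
      · linear_combination h8
  · by_cases h0 : V x = 0
    · rw [h0, mul_zero, add_zero]
      have := (hz1 x h0).2
      positivity
    · have h9 : 0 < V x := lt_of_le_of_ne (hW0 x) (Ne.symm h0)
      have h10 : V₂ x / 2 + (q x).re * V x = V₁ x ^ 2 / (4 * V x) := by
        have := A x hx
        field_simp
        linear_combination (-2) * this
      rw [h10]; positivity

end Pool.Agent.Helper606.Fek
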