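import Pool.Agent.Helper606.Fek.Defs

set_option autoImplicit false

namespace Pool.Agent.Helper606.Fek
open Complex Set Filter Topology


theorem sturm_low (a b : ℝ) (hab : a < b) (y y₁ q : ℝ → ℝ) (hc : ContinuousOn y (Icc a b))
    (ha : y a = 0) (hb : y b = 0) (hp : ∀ x ∈ Ioo a b, 0 < y x)
    (h1 : ∀ x ∈ Ioo a b, HasDerivAt y (y₁ x) x)
    (h2 : ∀ x ∈ Ioo a b, HasDerivAt y₁ (-(q x) * y x) x) :
    ∃ t ∈ Ioo a b, 2 / (b - a) ^ 2 ≤ q t := by
  by_contra hcon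
  push Not at hcon
  obtain ⟨c, hcI, hmax⟩ := isCompact_Icc.exists_isMaxOn ⟨a, left_mem_Icc.2 hab.le⟩ hc
  have hmid : 0 < y ((a + b) / 2) := hp _ ⟨by linarith, by linarith⟩
  have hm : 0 < y c := hmid.trans_le (hmax ⟨by linarith, by linarith⟩)
  have hac : a < c := by
    rcases eq_or_lt_of_le hcI.1 with h | h
    · rw [← h, ha] at hm
      exact absurd hm (lt_irrefl _)
    · exact h
  have hcb : c < b := by
    rcases eq_or_lt_of_le hcI.2 with h | h
    · rw [h, hb] at hm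
      exact absurd hm (lt_irrefl _)
    · exact h
  have hloc : IsLocalMax y c := hmax.isLocalMax (Icc_mem_nhds hac hcb)
  have hy1c : y₁ c = 0 := hloc.hasDerivAt_eq_zero (h1 c ⟨hac, hcb⟩)
  set m := y c with hmdef
  set Q := 2 / (b - a) ^ 2 with hQ
  have hba : 0 < b - a := by linarith
  have hQ0 : 0 < Q := by positivity
  have hmono : MonotoneOn (fun x => y₁ x - Q * m * (c - x)) (Ioc a c) := by
    apply monotoneOn_of_hasDerivWithinAt_nonneg (convex_Ioc a c)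
      (f' := fun x => -(q x) * y x - Q * m * (0 - 1))
    · intro x hx
      have hx' : x ∈ Ioo a b := ⟨hx.1, lt_of_le_of_lt hx.2 hcb⟩
      have h3 := (h2 x hx').sub (((hasDerivAt_const x c).sub (hasDerivAt_id x)).const_mul (Q * m))
      exact h3.continuousAt.continuousWithinAt
    · intro x hx
      rw [interior_Ioc] at hx
      have hx' : x ∈ Ioo a b := ⟨hx.1, hx.2.trans hcb⟩
      have h3 := (h2 x hx').sub (((hasDerivAt_const x c).sub (hasDerivAt_id x)).const_mul (Q * m))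
      exact h3.hasDerivWithinAt
    · intro x hx
      rw [interior_Ioc] at hx
      have hx' : x ∈ Ioo a b := ⟨hx.1, hx.2.trans hcb⟩
      have h3 : y x ≤ m := hmax ⟨hx'.1.le, hx'.2.le⟩
      have h4 := hp x hx'
      have h5 := hcon x hx'
      have h6 : q x * y x ≤ Q * m := by
        have h7 : q x * y x ≤ Q * y x := mul_le_mul_of_nonneg_right h5.le h4.le
        have h8 : Q * y x ≤ Q * m := mul_le_mul_of_nonneg_left h3 hQ0.le
        linarith
      linarith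
  have hle : ∀ x ∈ Ioo a c, y₁ x - Q * m * (c - x) ≤ 0 := by
    intro x hx
    have h3 := hmono ⟨hx.1, hx.2.le⟩ ⟨hac, le_rfl⟩ hx.2.le
    simp only [hy1c, sub_self, mul_zero] at h3
    exact h3
  have hanti : AntitoneOn (fun x => y x + Q * m * ((c - x) ^ 2 / 2)) (Icc a c) := by
    apply antitoneOn_of_hasDerivWithinAt_nonpos (convex_Icc a c)
      (f' := fun x => y₁ x - Q * m * (c - x))
    · apply ContinuousOn.add
      · exact hc.mono (Icc_subset_Icc le_rfl hcb.le)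
      · fun_prop
    · intro x hx
      rw [interior_Icc] at hx
      have hx' : x ∈ Ioo a b := ⟨hx.1, hx.2.trans hcb⟩
      have h3 := (h1 x hx').add (((((hasDerivAt_const x c).sub (hasDerivAt_id x)).pow 2).div_const
        2).const_mul (Q * m))
      refine (h3.congr_deriv ?_).hasDerivWithinAt
      simp
      ring
    · intro x hx
      rw [interior_Icc] at hx
      exact hle x hx
  have h3 := hanti (left_mem_Icc.2 hac.le) (right_mem_Icc.2 hac.le) hac.le
  simp only [sub_self, ha, ← hmdef] at h3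
  have h4 : Q * m * ((c - a) ^ 2 / 2) = m * ((c - a) ^ 2 / (b - a) ^ 2) := by
    rw [hQ]
    field_simp
  have h5 : (c - a) ^ 2 / (b - a) ^ 2 < 1 := by
    rw [div_lt_one (by positivity)]
    nlinarith
  have h6 : m * ((c - a) ^ 2 / (b - a) ^ 2) < m * 1 := mul_lt_mul_of_pos_left h5 hm
  rw [h4] at h3
  norm_num at h3
  linarith

theorem sturm_up_anti (a b : ℝ) (y y₁ q : ℝ → ℝ)
    (hp : ∀ x ∈ Ioo a b, 0 < y x) (hq : ∀ x ∈ Ioo a b, 0 ≤ q x)
    (h2 : ∀ x ∈ Ioo a b, HasDerivAt y₁ (-(q x) * y x) x) : AntitoneOn y₁ (Ioo a b) := by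
  apply antitoneOn_of_hasDerivWithinAt_nonpos (convex_Ioo a b) (f' := fun x => -(q x) * y x)
  · intro x hx
    exact (h2 x hx).continuousAt.continuousWithinAt
  · intro x hx
    rw [interior_Ioo] at hx
    exact (h2 x hx).hasDerivWithinAt
  · intro x hx
    rw [interior_Ioo] at hx
    have h3 := mul_nonneg (hq x hx) (hp x hx).le
    linarith

theorem sturm_up_concave (a b : ℝ) (y y₁ : ℝ → ℝ) (hc : ContinuousOn y (Icc a b))
    (h1 : ∀ x ∈ Ioo a b, HasDerivAt y (y₁ x) x)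
    (hanti : AntitoneOn y₁ (Ioo a b)) : ConcaveOn ℝ (Icc a b) y := by
  apply AntitoneOn.concaveOn_of_deriv (convex_Icc a b) hc
  · intro x hx
    rw [interior_Icc] at hx
    exact (h1 x hx).differentiableAt.differentiableWithinAt
  · rw [interior_Icc]
    intro u hu v hv huv
    rw [(h1 u hu).deriv, (h1 v hv).deriv]
    exact hanti hu hv huv

theorem sturm_up (a b : ℝ) (hab : a < b) (y y₁ q : ℝ → ℝ) (hc : ContinuousOn y (Icc a b))
    (ha : y a = 0) (hb : y b = 0) (hp : ∀ x ∈ Ioo a b, 0 < y x)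
    (h1 : ∀ x ∈ Ioo a b, HasDerivAt y (y₁ x) x)
    (h2 : ∀ x ∈ Ioo a b, HasDerivAt y₁ (-(q x) * y x) x) :
    ∃ t ∈ Ioo a b, q t ≤ 64 / (b - a) ^ 2 := by
  by_contra hcon
  push Not at hcon
  have hD : 0 < b - a := by linarith
  set D := b - a with hDdef
  have hb' : b = a + D := by rw [hDdef]; ring
  have hQ0 : 0 < 64 / D ^ 2 := by positivity
  have hanti := sturm_up_anti a b y y₁ q hp (fun x hx => (hQ0.trans (hcon x hx)).le) h2
  have hconc := sturm_up_concave a b y y₁ hc h1 hanti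
  have hx1 : a + D / 4 ∈ Ioo a b := ⟨by linarith, by linarith⟩
  have hx2 : a + 3 * D / 4 ∈ Ioo a b := ⟨by linarith, by linarith⟩
  have hy1 := hp _ hx1
  have hy2 := hp _ hx2
  -- mean value on the left quarter
  obtain ⟨ξ₁, hξ₁, he1⟩ := exists_hasDerivAt_eq_slope y y₁ hx1.1
    (hc.mono (Icc_subset_Icc le_rfl hx1.2.le)) (fun x hx => h1 x ⟨hx.1, hx.2.trans hx1.2⟩)
  have hA1 : y₁ (a + D / 4) ≤ 4 * y (a + D / 4) / D := by
    have h3 := hanti ⟨hξ₁.1, hξ₁.2.trans hx1.2⟩ hx1 hξ₁.2.le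
    rw [he1, ha] at h3
    refine h3.trans (le_of_eq ?_)
    rw [sub_zero, add_sub_cancel_left]
    field_simp
  -- mean value on the right quarter
  obtain ⟨ξ₂, hξ₂, he2⟩ := exists_hasDerivAt_eq_slope y y₁ hx2.2
    (hc.mono (Icc_subset_Icc hx2.1.le le_rfl)) (fun x hx => h1 x ⟨hx2.1.trans hx.1, hx.2⟩)
  have hA2 : -(4 * y (a + 3 * D / 4) / D) ≤ y₁ (a + 3 * D / 4) := by
    have h3 := hanti hx2 ⟨hx2.1.trans hξ₂.1, hξ₂.2⟩ hξ₂.1.le
    rw [he2, hb] at h3
    refine (le_of_eq ?_).trans h3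
    have e : b - (a + 3 * D / 4) = D / 4 := by rw [hb']; ring
    rw [e]
    field_simp
    ring
  -- middle
  have h12 : a + D / 4 < a + 3 * D / 4 := by linarith
  obtain ⟨ξ, hξ, he⟩ := exists_hasDerivAt_eq_slope y₁ (fun x => -(q x) * y x) h12
    (fun x hx => (h2 x ⟨hx1.1.trans_le hx.1, hx.2.trans_lt hx2.2⟩).continuousAt.continuousWithinAt)
    (fun x hx => h2 x ⟨hx1.1.trans hx.1, hx.2.trans hx2.2⟩)
  have hξI : ξ ∈ Ioo a b := ⟨hx1.1.trans hξ.1, hξ.2.trans hx2.2⟩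
  have hyξ := hp ξ hξI
  have hqξ := hcon ξ hξI
  have e1 : a + 3 * D / 4 - (a + D / 4) = D / 2 := by ring
  rw [e1] at he
  have haI : a ∈ Icc a b := ⟨le_rfl, hab.le⟩
  have hbI : b ∈ Icc a b := ⟨hab.le, le_rfl⟩
  have hx1I : a + D / 4 ∈ Icc a b := ⟨hx1.1.le, hx1.2.le⟩
  have hx2I : a + 3 * D / 4 ∈ Icc a b := ⟨hx2.1.le, hx2.2.le⟩
  have hc1 := hconc.2 hx1I hbI (by norm_num : (0:ℝ) ≤ 1 / 3) (by norm_num : (0:ℝ) ≤ 2 / 3)
    (by norm_num)
  have hc2 := hconc.2 hx2I haI (by norm_num : (0:ℝ) ≤ 1 / 3) (by norm_num : (0:ℝ) ≤ 2 / 3)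
    (by norm_num)
  simp only [smul_eq_mul] at hc1 hc2
  have e2 : 1 / 3 * (a + D / 4) + 2 / 3 * b = a + 3 * D / 4 := by rw [hb']; ring
  have e3 : 1 / 3 * (a + 3 * D / 4) + 2 / 3 * a = a + D / 4 := by ring
  rw [e2, hb] at hc1
  rw [e3, ha] at hc2
  have hmin : min (y (a + D / 4)) (y (a + 3 * D / 4)) ≤ y ξ :=
    hconc.min_le_of_mem_Icc hx1I hx2I ⟨hξ.1.le, hξ.2.le⟩
  have hkey : y (a + D / 4) + y (a + 3 * D / 4) ≤ 4 * y ξ := by
    rcases le_total (y (a + D / 4)) (y (a + 3 * D / 4)) with h | h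
    · rw [min_eq_left h] at hmin
      linarith
    · rw [min_eq_right h] at hmin
      linarith
  have h5 : -(4 * (4 * y ξ) / D) ≤ y₁ (a + 3 * D / 4) - y₁ (a + D / 4) := by
    have h6 : 4 * y (a + D / 4) / D + 4 * y (a + 3 * D / 4) / D ≤ 4 * (4 * y ξ) / D := by
      rw [← add_div]
      apply div_le_div_of_nonneg_right _ hD.le
      linarith
    linarith
  have h7 : q ξ * y ξ = -((y₁ (a + 3 * D / 4) - y₁ (a + D / 4)) / (D / 2)) := by
    rw [← he]
    ring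
  have h8 : q ξ * y ξ ≤ 32 / D ^ 2 * y ξ := by
    rw [h7, neg_le, le_div_iff₀ (by positivity)]
    refine le_trans (le_of_eq ?_) h5
    field_simp
    ring
  have h9 : 64 / D ^ 2 * y ξ < q ξ * y ξ := mul_lt_mul_of_pos_right hqξ hyξ
  have h10 : 0 < 32 / D ^ 2 * y ξ := by positivity
  have h11 : 64 / D ^ 2 * y ξ = 2 * (32 / D ^ 2 * y ξ) := by ring
  linarith

end Pool.Agent.Helper606.Fek
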