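import Pool.Agent.Helper606.Fek.Defs
import Pool.Agent.Helper606.Fek.P_sturm

set_option autoImplicit false

namespace Pool.Agent.Helper606.Fek
open Complex Set Filter Topology


theorem sturm_w (a b : ℝ) (hab : a < b) (W W₁ W₂ q : ℝ → ℝ)
    (h1 : ∀ x ∈ Icc a b, HasDerivAt W (W₁ x) x) (h2 : ∀ x ∈ Icc a b, HasDerivAt W₁ (W₂ x) x)
    (ha : W a = 0) (hb : W b = 0) (hp : ∀ x ∈ Ioo a b, 0 < W x)
    (hi : ∀ x ∈ Ioo a b, W₁ x ^ 2 - 2 * W x * W₂ x = 4 * q x * W x ^ 2) :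
    (∃ t ∈ Ioo a b, 2 / (b - a) ^ 2 ≤ q t) ∧ (∃ t ∈ Ioo a b, q t ≤ 64 / (b - a) ^ 2) := by
  have hc : ContinuousOn (fun x => Real.sqrt (W x)) (Icc a b) := by
    intro x hx
    exact ((h1 x hx).continuousAt.sqrt).continuousWithinAt
  have hya : (fun x => Real.sqrt (W x)) a = 0 := by simp [ha]
  have hyb : (fun x => Real.sqrt (W x)) b = 0 := by simp [hb]
  have hpp : ∀ x ∈ Ioo a b, 0 < (fun x => Real.sqrt (W x)) x := fun x hx => Real.sqrt_pos.mpr (hp x hx)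
  have hd1 : ∀ x ∈ Ioo a b, HasDerivAt (fun x => Real.sqrt (W x))
      ((fun x => W₁ x / (2 * Real.sqrt (W x))) x) x := by
    intro x hx
    exact (h1 x (Ioo_subset_Icc_self hx)).sqrt (hp x hx).ne'
  have hd2 : ∀ x ∈ Ioo a b, HasDerivAt (fun x => W₁ x / (2 * Real.sqrt (W x)))
      (-(q x) * (fun x => Real.sqrt (W x)) x) x := by
    intro x hx
    have hW := hp x hx
    have hs := Real.sqrt_pos.mpr hW
    have hss : Real.sqrt (W x) * Real.sqrt (W x) = W x := Real.mul_self_sqrt hW.le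
    have hden : HasDerivAt (fun x => 2 * Real.sqrt (W x)) (2 * (W₁ x / (2 * Real.sqrt (W x)))) x :=
      ((h1 x (Ioo_subset_Icc_self hx)).sqrt hW.ne').const_mul 2
    have h := (h2 x (Ioo_subset_Icc_self hx)).div hden (by positivity)
    refine h.congr_deriv ?_
    have hii := hi x hx
    simp only
    obtain ⟨r, hr⟩ : ∃ r, r = Real.sqrt (W x) := ⟨_, rfl⟩
    rw [← hr] at hs hss ⊢
    rw [← hss] at hii
    field_simp
    have hr0 : r ≠ 0 := hs.ne'
    nlinarith [hii]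
  exact ⟨sturm_low a b hab _ _ q hc hya hyb hpp hd1 hd2, sturm_up a b hab _ _ q hc hya hyb hpp hd1 hd2⟩

end Pool.Agent.Helper606.Fek
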