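import Pool.Agent.Helper606.Fek.Defs
import Pool.Agent.Helper606.Fek.P_ode_defs
import Pool.Agent.Helper606.Fek.P_q_derivs
import Pool.Agent.Helper606.Fek.P_real_w
import Pool.Agent.Helper606.Fek.P_real_ode
import Pool.Agent.Helper606.Fek.P_sturm_w

set_option autoImplicit false

namespace Pool.Agent.Helper606.Fek
open Complex Set Filter Topology


theorem q_two_sided_zeros (n : ℕ) (ζ : Fin n → ℂ) (c₁ C₂ A₂ K₀ : ℝ)
    (h : LineData n ζ c₁ C₂ A₂ K₀) (x : ℝ) (hx : |x| < 1)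
    (hK : K₀ ≤ (n:ℝ) ^ (3/2 : ℝ) * (1 - |x|)) :
    ∃ j k, (ζ j).im = 0 ∧ |(ζ j).re| < 1 ∧ (ζ k).im = 0 ∧ |(ζ k).re| < 1 ∧ (ζ j).re ≤ x ∧
      x < (ζ k).re ∧ (ζ k).re ≤ x + A₂ * (1 / n) * (1 - |x|) ^ (1/3 : ℝ) ∧
      x - A₂ * (1 / n) * (1 - |x|) ^ (1/3 : ℝ) ≤ (ζ j).re ∧
      ∀ l, (ζ l).im = 0 → (ζ j).re < (ζ l).re → (ζ l).re < (ζ k).re → False := by
  classical
  obtain ⟨k0, hk0i, hk0a, hk0x, hk0u⟩ := h.gapR x hx hK
  obtain ⟨j0, hj0i, hj0a, hj0x, hj0u⟩ := h.gapL x hx hK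
  obtain ⟨k, hk, hkmin⟩ := Finset.exists_min_image
    (Finset.univ.filter (fun k => (ζ k).im = 0 ∧ |(ζ k).re| < 1 ∧ x < (ζ k).re))
    (fun k => (ζ k).re) ⟨k0, by simp [hk0i, hk0a, hk0x]⟩
  obtain ⟨j, hj, hjmax⟩ := Finset.exists_max_image
    (Finset.univ.filter (fun k => (ζ k).im = 0 ∧ |(ζ k).re| < 1 ∧ (ζ k).re ≤ x))
    (fun k => (ζ k).re) ⟨j0, by simp [hj0i, hj0a, hj0x.le]⟩
  simp only [Finset.mem_filter, Finset.mem_univ, true_and] at hk hj hkmin hjmax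
  refine ⟨j, k, hj.1, hj.2.1, hk.1, hk.2.1, hj.2.2, hk.2.2, ?_, ?_, ?_⟩
  · exact le_trans (hkmin k0 ⟨hk0i, hk0a, hk0x⟩) hk0u
  · exact le_trans hj0u (hjmax j0 ⟨hj0i, hj0a, hj0x.le⟩)
  · intro l hl h1 h2
    have hla : |(ζ l).re| < 1 := by
      have h3 := abs_lt.mp hj.2.1
      have h4 := abs_lt.mp hk.2.1
      rw [abs_lt]
      constructor <;> linarith
    by_cases hlx : (ζ l).re ≤ x
    · have := hjmax l ⟨hl, hla, hlx⟩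
      linarith
    · push Not at hlx
      have := hkmin l ⟨hl, hla, hlx⟩
      linarith

theorem q_two_sided_pow (ν s : ℝ) (hν : 0 < ν) (hs : 0 < s) : ∃ α σ : ℝ, 0 < α ∧ 0 < σ ∧
    ν = α ^ 4 ∧ s = σ ^ 6 ∧ ν ^ (3/2 : ℝ) = α ^ 6 ∧ s ^ (1/3 : ℝ) = σ ^ 2 ∧
    s ^ (-(2/3) : ℝ) = (σ ^ 4)⁻¹ ∧ ν ^ (9/4 : ℝ) = α ^ 9 ∧ s ^ (-(3/2) : ℝ) = (σ ^ 9)⁻¹ := by
  refine ⟨ν ^ (1/4 : ℝ), s ^ (1/6 : ℝ), Real.rpow_pos_of_pos hν _, Real.rpow_pos_of_pos hs _,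
    ?_, ?_, ?_, ?_, ?_, ?_, ?_⟩
  · rw [← Real.rpow_natCast, ← Real.rpow_mul hν.le]; norm_num
  · rw [← Real.rpow_natCast, ← Real.rpow_mul hs.le]; norm_num
  · rw [← Real.rpow_natCast, ← Real.rpow_mul hν.le]; norm_num
  · rw [← Real.rpow_natCast, ← Real.rpow_mul hs.le]; norm_num
  · rw [← Real.rpow_natCast, ← Real.rpow_mul hs.le, ← Real.rpow_neg hs.le]; norm_num
  · rw [← Real.rpow_natCast, ← Real.rpow_mul hν.le]; norm_num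
  · rw [← Real.rpow_natCast, ← Real.rpow_mul hs.le, ← Real.rpow_neg hs.le]; norm_num

theorem q_two_sided_num (ν s A₂ C : ℝ) (hν : 0 < ν) (hs : 0 < s) (hA : 0 < A₂) (hC : 0 < C)
    (hK : 16 + (2 * A₂) ^ 2 + (32 * A₂ ^ 3 * C) ^ 2 ≤ ν ^ (3/2 : ℝ) * s) :
    A₂ * (1 / ν * s ^ (1/3 : ℝ)) ≤ s / 2 ∧
    ν ^ 2 * s ^ (-(2/3) : ℝ) = ((1 / ν * s ^ (1/3 : ℝ)) ^ 2)⁻¹ ∧
    C * ν ^ (9/4 : ℝ) * (s / 2) ^ (-(3/2) : ℝ) * (2 * A₂ * (1 / ν * s ^ (1/3 : ℝ))) ≤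
      1 / (4 * A₂ ^ 2) * ((1 / ν * s ^ (1/3 : ℝ)) ^ 2)⁻¹ ∧
    s ^ (1/3 : ℝ) / 2 ≤ (s / 2) ^ (1/3 : ℝ) := by
  obtain ⟨α, σ, hα, hσ, e1, e2, e3, e4, e5, e6, e7⟩ := q_two_sided_pow ν s hν hs
  have hT0 : 0 < α * σ := mul_pos hα hσ
  have hT6 : 16 + (2 * A₂) ^ 2 + (32 * A₂ ^ 3 * C) ^ 2 ≤ ((α * σ) ^ 3) ^ 2 := by
    have : ((α * σ) ^ 3) ^ 2 = ν ^ (3/2 : ℝ) * s := by rw [e3, e2]; ring
    rw [this]; exact hK
  have hT1 : 2 * A₂ ≤ (α * σ) ^ 3 := by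
    refine le_of_sq_le_sq ?_ (by positivity)
    nlinarith [sq_nonneg (32 * A₂ ^ 3 * C)]
  have hT2 : 32 * A₂ ^ 3 * C ≤ (α * σ) ^ 3 := by
    refine le_of_sq_le_sq ?_ (by positivity)
    nlinarith [sq_nonneg (2 * A₂)]
  have hT3 : 1 ≤ α * σ := by
    by_contra hc
    push Not at hc
    have h1 : (α * σ) ^ 3 ≤ 1 := pow_le_one₀ hT0.le hc.le
    have h2 : ((α * σ) ^ 3) ^ 2 ≤ 1 := pow_le_one₀ (by positivity) h1
    nlinarith [sq_nonneg (32 * A₂ ^ 3 * C), sq_nonneg (2 * A₂)]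
  have hT4 : 2 * A₂ ≤ (α * σ) ^ 4 := by
    have h1 : (α * σ) ^ 3 ≤ (α * σ) ^ 4 := pow_le_pow_right₀ hT3 (by norm_num)
    linarith
  refine ⟨?_, ?_, ?_, ?_⟩
  · rw [e4, e1]
    rw [e2]
    have h1 : A₂ * (1 / α ^ 4 * σ ^ 2) = A₂ * σ ^ 2 / α ^ 4 := by ring
    rw [h1, div_le_iff₀ (by positivity)]
    have h2 := mul_le_mul_of_nonneg_left hT4 (sq_nonneg σ)
    nlinarith [h2]
  · rw [e4, e5, e1]
    field_simp
  · have e8 : (s / 2) ^ (-(3/2) : ℝ) ≤ 4 * (σ ^ 9)⁻¹ := by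
      rw [Real.div_rpow hs.le (by norm_num), e7, div_eq_mul_inv, mul_comm]
      refine mul_le_mul_of_nonneg_right ?_ (by positivity)
      rw [← Real.rpow_neg (by norm_num), neg_neg]
      calc (2 : ℝ) ^ (3/2 : ℝ) ≤ (2 : ℝ) ^ (2 : ℝ) :=
            Real.rpow_le_rpow_of_exponent_le (by norm_num) (by norm_num)
        _ = 4 := by norm_num
    rw [e4, e6]
    have h1 : C * α ^ 9 * (s / 2) ^ (-(3/2) : ℝ) * (2 * A₂ * (1 / ν * σ ^ 2)) ≤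
        C * α ^ 9 * (4 * (σ ^ 9)⁻¹) * (2 * A₂ * (1 / ν * σ ^ 2)) := by
      refine mul_le_mul_of_nonneg_right (mul_le_mul_of_nonneg_left e8 (by positivity))
        (by positivity)
    refine h1.trans ?_
    rw [e1]
    have h2 : C * α ^ 9 * (4 * (σ ^ 9)⁻¹) * (2 * A₂ * (1 / α ^ 4 * σ ^ 2)) =
        (32 * A₂ ^ 3 * C) * (α ^ 5 / (4 * A₂ ^ 2 * σ ^ 7)) := by
      field_simp
      ring
    have h3 : 1 / (4 * A₂ ^ 2) * ((1 / α ^ 4 * σ ^ 2) ^ 2)⁻¹ =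
        (α * σ) ^ 3 * (α ^ 5 / (4 * A₂ ^ 2 * σ ^ 7)) := by
      field_simp
    rw [h2, h3]
    exact mul_le_mul_of_nonneg_right hT2 (by positivity)
  · rw [Real.div_rpow hs.le (by norm_num)]
    refine div_le_div_of_nonneg_left (Real.rpow_nonneg hs.le _) (by positivity) ?_
    calc (2 : ℝ) ^ (1/3 : ℝ) ≤ (2 : ℝ) ^ (1 : ℝ) :=
          Real.rpow_le_rpow_of_exponent_le (by norm_num) (by norm_num)
      _ = 2 := by norm_num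

theorem q_two_sided (c₁ C₂ A₂ K₀ : ℝ) (hc : 0 < c₁) (hc1 : c₁ ≤ 1) (hC : 0 < C₂) (hA : 0 < A₂)
    (hK : 0 < K₀) :
    ∃ K a b : ℝ, 8 ≤ K ∧ 0 < a ∧ 0 < b ∧ ∀ n : ℕ, ∀ ζ : Fin n → ℂ, LineData n ζ c₁ C₂ A₂ K₀ →
    ∀ q : ℂ → ℂ, IsQ ζ q → ∀ x : ℝ, |x| < 1 → K ≤ (n:ℝ) ^ (3/2 : ℝ) * (1 - |x|) →
      a * (n:ℝ) ^ 2 * (1 - |x|) ^ (-(2/3) : ℝ) ≤ (q x).re ∧
      (q x).re ≤ b * (n:ℝ) ^ 2 * (1 - |x|) ^ (-(2/3) : ℝ) := by
  obtain ⟨C, hC0, hCq⟩ := q_derivs c₁ C₂ A₂ K₀ hc hc1 hC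
  refine ⟨16 + K₀ + (2 * A₂) ^ 2 + (32 * A₂ ^ 3 * C) ^ 2, 1 / (4 * A₂ ^ 2),
    256 / c₁ ^ 2 + 1 / (4 * A₂ ^ 2), ?_, by positivity, by positivity, ?_⟩
  · have h1 := sq_nonneg (2 * A₂)
    have h2 := sq_nonneg (32 * A₂ ^ 3 * C)
    linarith
  intro n ζ h q hq x hx hKx
  obtain ⟨q₁, q₂, hd, hb⟩ := hCq n ζ h q hq
  obtain ⟨W, W₁, W₂, W₃, hW, hWp, h1, h2, h3, -⟩ := real_w n ζ
  have hsq1 := sq_nonneg (2 * A₂)
  have hsq2 := sq_nonneg (32 * A₂ ^ 3 * C)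
  obtain ⟨j, k, hji, hja, hki, hka, hjx, hkx, hku, hjl, hno⟩ :=
    q_two_sided_zeros n ζ c₁ C₂ A₂ K₀ h x hx (by linarith)
  have hn : (1 : ℝ) ≤ n := by exact_mod_cast h.hn
  have hn0 : (0 : ℝ) < n := by linarith
  obtain ⟨s, hs⟩ : ∃ s, s = 1 - |x| := ⟨_, rfl⟩
  have hs0 : 0 < s := by rw [hs]; linarith
  rw [← hs] at hKx hku hjl ⊢
  obtain ⟨F1, F2, F3, F4⟩ := q_two_sided_num (n : ℝ) s A₂ C hn0 hs0 hA hC0 (by linarith)
  obtain ⟨r, hr⟩ : ∃ r, r = 1 / (n : ℝ) * s ^ (1/3 : ℝ) := ⟨_, rfl⟩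
  have hr0 : 0 < r := by rw [hr]; positivity
  rw [← hr] at F1 F2 F3
  have hku' : (ζ k).re ≤ x + A₂ * r := by rw [hr, ← mul_assoc]; exact hku
  have hjl' : x - A₂ * r ≤ (ζ j).re := by rw [hr, ← mul_assoc]; exact hjl
  obtain ⟨a, ha⟩ : ∃ a, a = (ζ j).re := ⟨_, rfl⟩
  obtain ⟨b, hbb⟩ : ∃ b, b = (ζ k).re := ⟨_, rfl⟩
  rw [← ha] at hja hjx hjl' hno
  rw [← hbb] at hka hkx hku' hno
  have hab : a < b := lt_of_le_of_lt hjx hkx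
  have hζj : ζ j = (a : ℂ) := by
    apply Complex.ext
    · rw [Complex.ofReal_re, ha]
    · rw [Complex.ofReal_im, hji]
  have hζk : ζ k = (b : ℂ) := by
    apply Complex.ext
    · rw [Complex.ofReal_re, hbb]
    · rw [Complex.ofReal_im, hki]
  -- points of `[a, b]`
  have hin : ∀ t ∈ Icc a b, |t| < 1 := by
    intro t ht
    have h4 := abs_lt.mp hja
    have h5 := abs_lt.mp hka
    rw [abs_lt]
    constructor
    · linarith [ht.1]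
    · linarith [ht.2]
  have hscale : ∀ t ∈ Icc a b, s / 2 ≤ 1 - |t| := by
    intro t ht
    have h4 : |t - x| ≤ s / 2 := by
      rw [abs_le]
      constructor
      · linarith [ht.1]
      · linarith [ht.2]
    have h5 : |t| ≤ |x| + |t - x| := by
      calc |t| = |x + (t - x)| := by ring_nf
        _ ≤ |x| + |t - x| := abs_add_le _ _
    rw [hs] at h4 ⊢
    linarith
  have hX : 8 ≤ (n : ℝ) ^ (3/2 : ℝ) * (s / 2) := by linarith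
  have hnp : 0 < (n : ℝ) ^ (3/2 : ℝ) := Real.rpow_pos_of_pos hn0 _
  have hX' : ∀ t ∈ Icc a b, 8 ≤ (n : ℝ) ^ (3/2 : ℝ) * (1 - |t|) := fun t ht =>
    hX.trans (mul_le_mul_of_nonneg_left (hscale t ht) hnp.le)
  -- derivative bound
  have hqb : ∀ t ∈ Icc a b, ‖q₁ t‖ ≤ C * (n : ℝ) ^ (9/4 : ℝ) * (s / 2) ^ (-(3/2) : ℝ) := by
    intro t ht
    rw [Real.norm_eq_abs]
    refine ((hb t (hin t ht) (hX' t ht)).1).trans ?_
    refine mul_le_mul_of_nonneg_left ?_ (by positivity)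
    exact Real.rpow_le_rpow_of_nonpos (by positivity) (hscale t ht) (by norm_num)
  have hxI : x ∈ Icc a b := ⟨hjx, hkx.le⟩
  have hdiff : ∀ t ∈ Icc a b, |(q x).re - (q t).re| ≤ 1 / (4 * A₂ ^ 2) * (r ^ 2)⁻¹ := by
    intro t ht
    have h4 := Convex.norm_image_sub_le_of_norm_hasDerivWithin_le
      (f := fun t : ℝ => (q t).re) (f' := q₁) (s := Icc a b)
      (fun y hy => (hd y (hin y hy)).1.hasDerivWithinAt) hqb (convex_Icc a b) ht hxI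
    simp only [Real.norm_eq_abs] at h4
    refine h4.trans (le_trans ?_ F3)
    refine mul_le_mul_of_nonneg_left ?_ (by positivity)
    rw [abs_le]
    constructor
    · linarith [ht.1, ht.2]
    · linarith [ht.1, ht.2]
  -- Sturm
  have hWa : W a = 0 := by
    rw [hWp]
    refine Finset.prod_eq_zero (Finset.mem_univ j) ?_
    rw [hζj]; simp
  have hWb : W b = 0 := by
    rw [hWp]
    refine Finset.prod_eq_zero (Finset.mem_univ k) ?_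
    rw [hζk]; simp
  have hWpos : ∀ t ∈ Ioo a b, 0 < W t := by
    intro t ht
    rw [hWp]
    refine Finset.prod_pos (fun l _ => ?_)
    have h4 : (t : ℂ) - ζ l ≠ 0 := by
      intro h5
      have h6 : ζ l = (t : ℂ) := (sub_eq_zero.mp h5).symm
      have h7 : (ζ l).re = t := by rw [h6, Complex.ofReal_re]
      have h8 : (ζ l).im = 0 := by rw [h6, Complex.ofReal_im]
      exact hno l h8 (by rw [h7]; exact ht.1) (by rw [h7]; exact ht.2)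
    have h5 : 0 < ‖(t : ℂ) - ζ l‖ := norm_pos_iff.mpr h4
    positivity
  obtain ⟨⟨t₁, ht₁, hq₁⟩, ⟨t₂, ht₂, hq₂⟩⟩ := sturm_w a b hab W W₁ W₂ (fun t => (q t).re)
    (fun x _ => h1 x) (fun x _ => h2 x) hWa hWb hWpos
    (fun t ht => (real_ode n ζ c₁ C₂ A₂ K₀ h q hq q₁ (fun x hx => (hd x hx).1) W W₁ W₂ W₃ hW
      h1 h2 h3 t (hin t (Ioo_subset_Icc_self ht))).1)
  -- lower bound for the length
  have hlen : c₁ * r / 2 ≤ b - a := by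
    have hjk : j ≠ k := by
      intro he
      rw [he, ← hbb] at ha
      linarith
    have haI : a ∈ Icc a b := ⟨le_refl _, hab.le⟩
    have h4 := h.sep j k hjk hji (by rw [← ha]; exact hja)
      (by rw [← ha]; linarith [hX' a haI])
    rw [hζj, hζk, Complex.ofReal_re] at h4
    have h5 : ‖(a : ℂ) - (b : ℂ)‖ = b - a := by
      rw [← Complex.ofReal_sub, Complex.norm_real, Real.norm_eq_abs, abs_of_neg (by linarith)]
      ring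
    rw [h5] at h4
    refine le_trans ?_ h4
    have h6 : s ^ (1/3 : ℝ) / 2 ≤ (1 - |a|) ^ (1/3 : ℝ) :=
      F4.trans (Real.rpow_le_rpow (by positivity) (hscale a haI) (by norm_num))
    rw [hr]
    have h7 : c₁ * (1 / (n : ℝ) * s ^ (1/3 : ℝ)) / 2 = c₁ * (1 / n) * (s ^ (1/3 : ℝ) / 2) := by
      ring
    rw [h7]
    exact mul_le_mul_of_nonneg_left h6 (by positivity)
  have hlen2 : b - a ≤ 2 * A₂ * r := by linarith
  have hba : 0 < b - a := by linarith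
  have d1 := abs_le.mp (hdiff t₁ (Ioo_subset_Icc_self ht₁))
  have d2 := abs_le.mp (hdiff t₂ (Ioo_subset_Icc_self ht₂))
  rw [mul_assoc, mul_assoc, F2]
  constructor
  · have h4 : 2 / (2 * A₂ * r) ^ 2 ≤ 2 / (b - a) ^ 2 :=
      div_le_div_of_nonneg_left (by norm_num) (by positivity)
        (pow_le_pow_left₀ hba.le hlen2 2)
    have h5 : 2 / (2 * A₂ * r) ^ 2 = 1 / (4 * A₂ ^ 2) * (r ^ 2)⁻¹ + 1 / (4 * A₂ ^ 2) * (r ^ 2)⁻¹ := by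
      field_simp
      ring
    beta_reduce at hq₁
    linarith [d1.1, d1.2]
  · have h4 : 64 / (b - a) ^ 2 ≤ 64 / (c₁ * r / 2) ^ 2 :=
      div_le_div_of_nonneg_left (by norm_num) (by positivity)
        (pow_le_pow_left₀ (by positivity) hlen 2)
    have h5 : 64 / (c₁ * r / 2) ^ 2 = 256 / c₁ ^ 2 * (r ^ 2)⁻¹ := by
      field_simp
      ring
    beta_reduce at hq₂
    rw [add_mul]
    linarith [d2.1, d2.2]

end Pool.Agent.Helper606.Fek
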