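import Pool.Agent.Helper606.Fek.Defs
import Pool.Agent.Helper606.Fek.P_ode_defs
import Pool.Agent.Helper606.Fek.P_exists_q
import Pool.Agent.Helper606.Fek.P_q_derivs
import Pool.Agent.Helper606.Fek.P_real_w
import Pool.Agent.Helper606.Fek.P_real_ode
import Pool.Agent.Helper606.Fek.P_q_two_sided
import Pool.Agent.Helper606.Fek.P_adiabatic

set_option autoImplicit false

namespace Pool.Agent.Helper606.Fek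
open Complex Set Filter Topology


theorem oh_rp (s : ℝ) (hs : 0 < s) (c : ℝ) (k : ℕ) (p : ℝ) (h : p = c * k) :
    s ^ p = (s ^ c) ^ k := by
  rw [h, Real.rpow_mul hs.le, Real.rpow_natCast]

theorem oh_rpn (s : ℝ) (hs : 0 < s) (c : ℝ) (k : ℕ) (p : ℝ) (h : p = -(c * k)) :
    s ^ p = ((s ^ c) ^ k)⁻¹ := by
  rw [h, Real.rpow_neg hs.le, Real.rpow_mul hs.le, Real.rpow_natCast]

theorem oh_core (ν σ Q Q1 Q2 a C1 : ℝ) (hν : 0 < ν) (hσ : 0 < σ) (ha : 0 < a) (hC1 : 0 < C1)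
    (hK : (C1 / (2 * (a * Real.sqrt a))) ^ 2 ≤ ν ^ 6 * σ ^ 6)
    (hQ : a * ν ^ 8 * (σ ^ 4)⁻¹ ≤ Q) (hQ1 : |Q1| ≤ C1 * ν ^ 9 * (σ ^ 9)⁻¹)
    (hQ2 : |Q2| ≤ C1 * ν ^ 9 * (σ ^ 15)⁻¹) :
    0 < Q ∧ |Q1| ≤ 2 * (Q * Real.sqrt Q) ∧
    |Q2 / (2 * (Q * Real.sqrt Q)) - 3 / 4 * (Q1 ^ 2 / (Q ^ 2 * Real.sqrt Q))| ≤
      (C1 / (2 * (a * Real.sqrt a)) + 3 * C1 ^ 2 / (4 * (a ^ 2 * Real.sqrt a))) *
        ((ν ^ 3)⁻¹ * (σ ^ 9)⁻¹ + (ν ^ 2)⁻¹ * (σ ^ 8)⁻¹) := by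
  have hsa : 0 < Real.sqrt a := Real.sqrt_pos.2 ha
  have hQpos : 0 < Q := lt_of_lt_of_le (by positivity) hQ
  have hsq : Real.sqrt a * ν ^ 4 * (σ ^ 2)⁻¹ ≤ Real.sqrt Q := by
    apply Real.le_sqrt_of_sq_le
    have : (Real.sqrt a * ν ^ 4 * (σ ^ 2)⁻¹) ^ 2 = a * ν ^ 8 * (σ ^ 4)⁻¹ := by
      rw [mul_pow, mul_pow, Real.sq_sqrt ha.le, inv_pow]
      ring
    rw [this]
    exact hQ
  have hsQ : 0 < Real.sqrt Q := Real.sqrt_pos.2 hQpos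
  have hQQ : a * Real.sqrt a * ν ^ 12 * (σ ^ 6)⁻¹ ≤ Q * Real.sqrt Q := by
    calc a * Real.sqrt a * ν ^ 12 * (σ ^ 6)⁻¹ =
        (a * ν ^ 8 * (σ ^ 4)⁻¹) * (Real.sqrt a * ν ^ 4 * (σ ^ 2)⁻¹) := by
          field_simp
      _ ≤ Q * Real.sqrt Q := mul_le_mul hQ hsq (by positivity) hQpos.le
  have hQ2Q : a ^ 2 * Real.sqrt a * ν ^ 20 * (σ ^ 10)⁻¹ ≤ Q ^ 2 * Real.sqrt Q := by
    calc a ^ 2 * Real.sqrt a * ν ^ 20 * (σ ^ 10)⁻¹ =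
        (a * ν ^ 8 * (σ ^ 4)⁻¹) ^ 2 * (Real.sqrt a * ν ^ 4 * (σ ^ 2)⁻¹) := by
          field_simp
      _ ≤ Q ^ 2 * Real.sqrt Q :=
        mul_le_mul (pow_le_pow_left₀ (by positivity) hQ 2) hsq (by positivity) (by positivity)
  have hroot : C1 / (2 * (a * Real.sqrt a)) ≤ ν ^ 3 * σ ^ 3 := by
    have h1 : (C1 / (2 * (a * Real.sqrt a))) ^ 2 ≤ (ν ^ 3 * σ ^ 3) ^ 2 := by
      calc (C1 / (2 * (a * Real.sqrt a))) ^ 2 ≤ ν ^ 6 * σ ^ 6 := hK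
        _ = (ν ^ 3 * σ ^ 3) ^ 2 := by ring
    exact (pow_le_pow_iff_left₀ (by positivity) (by positivity) two_ne_zero).1 h1
  refine ⟨hQpos, ?_, ?_⟩
  · have h1 : C1 ≤ (ν ^ 3 * σ ^ 3) * (2 * (a * Real.sqrt a)) := by
      rw [div_le_iff₀ (by positivity)] at hroot
      exact hroot
    calc |Q1| ≤ C1 * ν ^ 9 * (σ ^ 9)⁻¹ := hQ1
      _ ≤ ((ν ^ 3 * σ ^ 3) * (2 * (a * Real.sqrt a))) * ν ^ 9 * (σ ^ 9)⁻¹ := by gcongr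
      _ = 2 * (a * Real.sqrt a * ν ^ 12 * (σ ^ 6)⁻¹) := by field_simp
      _ ≤ 2 * (Q * Real.sqrt Q) := by linarith
  · have e1 : |Q2 / (2 * (Q * Real.sqrt Q))| ≤
        C1 / (2 * (a * Real.sqrt a)) * ((ν ^ 3)⁻¹ * (σ ^ 9)⁻¹) := by
      rw [abs_div, abs_of_pos (by positivity : 0 < 2 * (Q * Real.sqrt Q))]
      calc |Q2| / (2 * (Q * Real.sqrt Q)) ≤
          (C1 * ν ^ 9 * (σ ^ 15)⁻¹) / (2 * (a * Real.sqrt a * ν ^ 12 * (σ ^ 6)⁻¹)) :=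
            div_le_div₀ (by positivity) hQ2 (by positivity) (by linarith)
        _ = C1 / (2 * (a * Real.sqrt a)) * ((ν ^ 3)⁻¹ * (σ ^ 9)⁻¹) := by field_simp
    have e2 : |3 / 4 * (Q1 ^ 2 / (Q ^ 2 * Real.sqrt Q))| ≤
        3 * C1 ^ 2 / (4 * (a ^ 2 * Real.sqrt a)) * ((ν ^ 2)⁻¹ * (σ ^ 8)⁻¹) := by
      rw [abs_of_nonneg (by positivity)]
      have h1 : Q1 ^ 2 ≤ (C1 * ν ^ 9 * (σ ^ 9)⁻¹) ^ 2 := by
        rw [← sq_abs]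
        exact pow_le_pow_left₀ (abs_nonneg _) hQ1 2
      calc 3 / 4 * (Q1 ^ 2 / (Q ^ 2 * Real.sqrt Q)) ≤
          3 / 4 * ((C1 * ν ^ 9 * (σ ^ 9)⁻¹) ^ 2 / (a ^ 2 * Real.sqrt a * ν ^ 20 * (σ ^ 10)⁻¹)) := by
            apply mul_le_mul_of_nonneg_left _ (by norm_num)
            exact div_le_div₀ (by positivity) h1 (by positivity) hQ2Q
        _ = 3 * C1 ^ 2 / (4 * (a ^ 2 * Real.sqrt a)) * ((ν ^ 2)⁻¹ * (σ ^ 8)⁻¹) := by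
            field_simp
    have e3 := abs_sub (Q2 / (2 * (Q * Real.sqrt Q))) (3 / 4 * (Q1 ^ 2 / (Q ^ 2 * Real.sqrt Q)))
    have p1 : 0 ≤ C1 / (2 * (a * Real.sqrt a)) * ((ν ^ 2)⁻¹ * (σ ^ 8)⁻¹) := by positivity
    have p2 : 0 ≤ 3 * C1 ^ 2 / (4 * (a ^ 2 * Real.sqrt a)) * ((ν ^ 3)⁻¹ * (σ ^ 9)⁻¹) := by
      positivity
    calc |Q2 / (2 * (Q * Real.sqrt Q)) - 3 / 4 * (Q1 ^ 2 / (Q ^ 2 * Real.sqrt Q))| ≤
        C1 / (2 * (a * Real.sqrt a)) * ((ν ^ 3)⁻¹ * (σ ^ 9)⁻¹) +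
          3 * C1 ^ 2 / (4 * (a ^ 2 * Real.sqrt a)) * ((ν ^ 2)⁻¹ * (σ ^ 8)⁻¹) := by
          refine le_trans e3 ?_
          linarith
      _ ≤ C1 / (2 * (a * Real.sqrt a)) * ((ν ^ 3)⁻¹ * (σ ^ 9)⁻¹) +
          3 * C1 ^ 2 / (4 * (a ^ 2 * Real.sqrt a)) * ((ν ^ 2)⁻¹ * (σ ^ 8)⁻¹) +
          C1 / (2 * (a * Real.sqrt a)) * ((ν ^ 2)⁻¹ * (σ ^ 8)⁻¹) +
          3 * C1 ^ 2 / (4 * (a ^ 2 * Real.sqrt a)) * ((ν ^ 3)⁻¹ * (σ ^ 9)⁻¹) := by linarith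
      _ = _ := by ring

/-- the primitive of the error -/
noncomputable def oP (n : ℕ) (D τ t : ℝ) : ℝ :=
  D * (2 * (n:ℝ) ^ (-(3/4) : ℝ) * (1 - τ * t) ^ (-(1/2) : ℝ) +
    3 * (n:ℝ) ^ (-(1/2) : ℝ) * (1 - τ * t) ^ (-(1/3) : ℝ))

theorem oh_G (n : ℕ) (D τ t : ℝ) (hτ : τ = 1 ∨ τ = -1) (ht : 0 < 1 - τ * t) :
    HasDerivAt (fun t : ℝ => τ * oP n D τ t)
      (D * ((n:ℝ) ^ (-(3/4) : ℝ) * (1 - τ * t) ^ (-(3/2) : ℝ) +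
        (n:ℝ) ^ (-(1/2) : ℝ) * (1 - τ * t) ^ (-(4/3) : ℝ))) t := by
  have h0 : HasDerivAt (fun t : ℝ => 1 - τ * t) (-τ) t := by
    have := ((hasDerivAt_id t).const_mul τ).const_sub 1
    simpa using this
  have h1 := h0.rpow_const (p := -(1/2 : ℝ)) (Or.inl ht.ne')
  have h2 := h0.rpow_const (p := -(1/3 : ℝ)) (Or.inl ht.ne')
  have h3 := (((h1.const_mul (2 * (n:ℝ) ^ (-(3/4) : ℝ))).add
    (h2.const_mul (3 * (n:ℝ) ^ (-(1/2) : ℝ)))).const_mul D).const_mul τ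
  have hτ2 : τ * τ = 1 := by
    rcases hτ with h | h
    · rw [h]; norm_num
    · rw [h]; norm_num
  have x1 : (-(1/2) - 1 : ℝ) = -(3/2) := by norm_num
  have x2 : (-(1/3) - 1 : ℝ) = -(4/3) := by norm_num
  rw [x1, x2] at h3
  have e : τ * (D * (2 * (n:ℝ) ^ (-(3/4) : ℝ) * (-τ * -(1/2) * (1 - τ * t) ^ (-(3/2) : ℝ)) +
      3 * (n:ℝ) ^ (-(1/2) : ℝ) * (-τ * -(1/3) * (1 - τ * t) ^ (-(4/3) : ℝ)))) =
      D * ((n:ℝ) ^ (-(3/4) : ℝ) * (1 - τ * t) ^ (-(3/2) : ℝ) +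
        (n:ℝ) ^ (-(1/2) : ℝ) * (1 - τ * t) ^ (-(4/3) : ℝ)) := by
    linear_combination (D * ((n:ℝ) ^ (-(3/4) : ℝ) * (1 - τ * t) ^ (-(3/2) : ℝ) +
        (n:ℝ) ^ (-(1/2) : ℝ) * (1 - τ * t) ^ (-(4/3) : ℝ))) * hτ2
  rw [e] at h3
  exact h3

theorem oh_P (n : ℕ) (hn : 1 ≤ n) (D τ t : ℝ) (hD : 0 ≤ D) (ht : 0 < 1 - τ * t)
    (h1K : 1 ≤ (n:ℝ) ^ (3/2 : ℝ) * (1 - τ * t)) : 0 ≤ oP n D τ t ∧ oP n D τ t ≤ 5 * D := by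
  have hn0 : (0:ℝ) < n := by exact_mod_cast hn
  unfold oP
  constructor
  · positivity
  · generalize 1 - τ * t = s at *
    have hν : 0 < (n:ℝ) ^ (1/4 : ℝ) := by positivity
    have hσ : 0 < s ^ (1/6 : ℝ) := by positivity
    rw [oh_rpn (n:ℝ) hn0 (1/4) 3 (-(3/4)) (by norm_num),
      oh_rpn (n:ℝ) hn0 (1/4) 2 (-(1/2)) (by norm_num),
      oh_rpn s ht (1/6) 3 (-(1/2)) (by norm_num), oh_rpn s ht (1/6) 2 (-(1/3)) (by norm_num)]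
    have e1 : (n:ℝ) ^ (3/2 : ℝ) * s = ((n:ℝ) ^ (1/4 : ℝ) * s ^ (1/6 : ℝ)) ^ 6 := by
      have e2 : s = (s ^ (1/6 : ℝ)) ^ 6 := by
        rw [← oh_rp s ht (1/6) 6 1 (by norm_num), Real.rpow_one]
      rw [mul_pow, ← e2, oh_rp (n:ℝ) hn0 (1/4) 6 (3/2) (by norm_num)]
    rw [e1] at h1K
    generalize (n:ℝ) ^ (1/4 : ℝ) = ν at *
    generalize s ^ (1/6 : ℝ) = σ at *
    have h2 : 1 ≤ ν * σ := by
      have h3 : (1:ℝ) ^ 6 ≤ (ν * σ) ^ 6 := by rw [one_pow]; exact h1K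
      exact (pow_le_pow_iff_left₀ zero_le_one (by positivity) (by norm_num)).1 h3
    have h3 : (ν ^ 3)⁻¹ * (σ ^ 3)⁻¹ ≤ 1 := by
      rw [← mul_inv, ← mul_pow]
      exact inv_le_one_of_one_le₀ (one_le_pow₀ h2)
    have h4 : (ν ^ 2)⁻¹ * (σ ^ 2)⁻¹ ≤ 1 := by
      rw [← mul_inv, ← mul_pow]
      exact inv_le_one_of_one_le₀ (one_le_pow₀ h2)
    have h5 : 2 * (ν ^ 3)⁻¹ * (σ ^ 3)⁻¹ + 3 * (ν ^ 2)⁻¹ * (σ ^ 2)⁻¹ ≤ 5 := by linarith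
    calc D * (2 * (ν ^ 3)⁻¹ * (σ ^ 3)⁻¹ + 3 * (ν ^ 2)⁻¹ * (σ ^ 2)⁻¹) ≤ D * 5 :=
          mul_le_mul_of_nonneg_left h5 hD
      _ = 5 * D := by ring

theorem oh_main (n : ℕ) (hn : 1 ≤ n) (a C1 s0 : ℝ) (ha : 0 < a) (hC1 : 0 < C1) (hs0 : 0 < s0)
    (h1K : 1 ≤ (n:ℝ) ^ (3/2 : ℝ) * s0)
    (hKs : (C1 / (2 * (a * Real.sqrt a))) ^ 2 ≤ (n:ℝ) ^ (3/2 : ℝ) * s0)
    (W W₁ W₂ W₃ q q₁ q₂ : ℝ → ℝ)
    (hW : ∀ x, HasDerivAt W (W₁ x) x) (hW1 : ∀ x, HasDerivAt W₁ (W₂ x) x)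
    (hW2 : ∀ x, HasDerivAt W₂ (W₃ x) x)
    (hq : ∀ x : ℝ, |x| < 1 → HasDerivAt q (q₁ x) x ∧ HasDerivAt q₁ (q₂ x) x)
    (hqlow : ∀ x : ℝ, |x| < 1 → s0 ≤ 1 - |x| → a * (n:ℝ) ^ 2 * (1 - |x|) ^ (-(2/3) : ℝ) ≤ q x)
    (hqb : ∀ x : ℝ, |x| < 1 → s0 ≤ 1 - |x| →
      |q₁ x| ≤ C1 * (n:ℝ) ^ (9/4 : ℝ) * (1 - |x|) ^ (-(3/2) : ℝ) ∧
      |q₂ x| ≤ C1 * (n:ℝ) ^ (9/4 : ℝ) * (1 - |x|) ^ (-(5/2) : ℝ))
    (hid : ∀ x : ℝ, |x| < 1 → W₁ x ^ 2 - 2 * W x * W₂ x = 4 * q x * W x ^ 2 ∧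
      W₃ x = - 4 * q x * W₁ x - 2 * q₁ x * W x ∧ 0 ≤ W x ∧ 0 ≤ W₂ x / 2 + q x * W x)
    (B : ℝ → ℝ) (hB : ∀ x, B x = 2 * Real.sqrt (q x) * W x + W₂ x / (2 * Real.sqrt (q x)) +
      q₁ x / (2 * (q x * Real.sqrt (q x))) * (W₁ x / 2))
    (lo hi τ : ℝ) (hlh : lo ≤ hi) (hτ : τ = 1 ∨ τ = -1)
    (hI : ∀ t ∈ Icc lo hi, |t| = τ * t ∧ s0 ≤ 1 - τ * t) :
    ∃ E : ℝ, 0 < E ∧ E ≤ Real.exp (5 * (C1 / (2 * (a * Real.sqrt a)) +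
      3 * C1 ^ 2 / (4 * (a ^ 2 * Real.sqrt a)))) ∧ B lo ≤ E * B hi ∧ B hi ≤ E * B lo := by
  have hn0 : (0:ℝ) < n := by exact_mod_cast hn
  have hsa : 0 < Real.sqrt a := Real.sqrt_pos.2 ha
  generalize hD : C1 / (2 * (a * Real.sqrt a)) + 3 * C1 ^ 2 / (4 * (a ^ 2 * Real.sqrt a)) = D
  have hD0 : 0 ≤ D := by rw [← hD]; positivity
  have hN : 0 ≤ (n:ℝ) ^ (3/2 : ℝ) := by positivity
  have habs : ∀ t ∈ Icc lo hi, |t| < 1 := by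
    intro t ht
    obtain ⟨h1, h2⟩ := hI t ht
    rw [h1]
    linarith
  have hs : ∀ t ∈ Icc lo hi, s0 ≤ 1 - |t| := by
    intro t ht
    obtain ⟨h1, h2⟩ := hI t ht
    rw [h1]
    exact h2
  have hcore : ∀ t ∈ Icc lo hi, 0 < q t ∧ |q₁ t| ≤ 2 * (q t * Real.sqrt (q t)) ∧
      |q₂ t / (2 * (q t * Real.sqrt (q t))) - 3 / 4 * (q₁ t ^ 2 / (q t ^ 2 * Real.sqrt (q t)))| ≤
        D * ((n:ℝ) ^ (-(3/4) : ℝ) * (1 - τ * t) ^ (-(3/2) : ℝ) +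
        (n:ℝ) ^ (-(1/2) : ℝ) * (1 - τ * t) ^ (-(4/3) : ℝ)) := by
    intro t ht
    obtain ⟨h1, h2⟩ := hI t ht
    have b1 := hqlow t (habs t ht) (hs t ht)
    obtain ⟨b2, b3⟩ := hqb t (habs t ht) (hs t ht)
    have hKt : (C1 / (2 * (a * Real.sqrt a))) ^ 2 ≤ (n:ℝ) ^ (3/2 : ℝ) * (1 - τ * t) :=
      hKs.trans (mul_le_mul_of_nonneg_left h2 hN)
    rw [h1] at b1 b2 b3
    have hst : 0 < 1 - τ * t := lt_of_lt_of_le hs0 h2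
    generalize 1 - τ * t = s at *
    have hν : 0 < (n:ℝ) ^ (1/4 : ℝ) := by positivity
    have hσ : 0 < s ^ (1/6 : ℝ) := by positivity
    have en2 : (n:ℝ) ^ 2 = ((n:ℝ) ^ (1/4 : ℝ)) ^ 8 := by
      rw [← oh_rp (n:ℝ) hn0 (1/4) 8 2 (by norm_num)]
      norm_num
    have e2 : s = (s ^ (1/6 : ℝ)) ^ 6 := by
      rw [← oh_rp s hst (1/6) 6 1 (by norm_num), Real.rpow_one]
    have e3 : (n:ℝ) ^ (3/2 : ℝ) * s = ((n:ℝ) ^ (1/4 : ℝ)) ^ 6 * (s ^ (1/6 : ℝ)) ^ 6 := by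
      rw [← e2, oh_rp (n:ℝ) hn0 (1/4) 6 (3/2) (by norm_num)]
    rw [e3] at hKt
    rw [en2, oh_rpn s hst (1/6) 4 (-(2/3)) (by norm_num)] at b1
    rw [oh_rp (n:ℝ) hn0 (1/4) 9 (9/4) (by norm_num),
      oh_rpn s hst (1/6) 9 (-(3/2)) (by norm_num)] at b2
    rw [oh_rp (n:ℝ) hn0 (1/4) 9 (9/4) (by norm_num),
      oh_rpn s hst (1/6) 15 (-(5/2)) (by norm_num)] at b3
    rw [oh_rpn (n:ℝ) hn0 (1/4) 3 (-(3/4)) (by norm_num),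
      oh_rpn (n:ℝ) hn0 (1/4) 2 (-(1/2)) (by norm_num),
      oh_rpn s hst (1/6) 9 (-(3/2)) (by norm_num), oh_rpn s hst (1/6) 8 (-(4/3)) (by norm_num),
      ← hD]
    exact oh_core _ _ (q t) (q₁ t) (q₂ t) a C1 hν hσ ha hC1 hKt b1 b2 b3
  have hP : ∀ t ∈ Icc lo hi, 0 ≤ oP n D τ t ∧ oP n D τ t ≤ 5 * D := by
    intro t ht
    obtain ⟨_, h2⟩ := hI t ht
    exact oh_P n hn D τ t hD0 (lt_of_lt_of_le hs0 h2)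
      (h1K.trans (mul_le_mul_of_nonneg_left h2 hN))
  have hmain := adiabatic lo hi hlh W W₁ W₂ W₃ q q₁ q₂ (fun t => τ * oP n D τ t)
    (fun t => D * ((n:ℝ) ^ (-(3/4) : ℝ) * (1 - τ * t) ^ (-(3/2) : ℝ) +
        (n:ℝ) ^ (-(1/2) : ℝ) * (1 - τ * t) ^ (-(4/3) : ℝ)))
    (fun x _ => hW x) (fun x _ => hW1 x) (fun x _ => hW2 x)
    (fun x hx => (hq x (habs x hx)).1) (fun x hx => (hq x (habs x hx)).2)
    (fun x hx => oh_G n D τ x hτ (lt_of_lt_of_le hs0 (hI x hx).2))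
    (fun x hx => (hcore x hx).1) (fun x hx => (hid x (habs x hx)).2.2.1)
    (fun x hx => (hid x (habs x hx)).2.2.2) (fun x hx => (hid x (habs x hx)).1)
    (fun x hx => (hid x (habs x hx)).2.1) (fun x hx => (hcore x hx).2.1)
    (fun x hx => (hcore x hx).2.2) B hB
  refine ⟨Real.exp (τ * oP n D τ hi - τ * oP n D τ lo), Real.exp_pos _, ?_, hmain.1, hmain.2⟩
  apply Real.exp_le_exp.2
  have p1 := hP hi (right_mem_Icc.2 hlh)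
  have p2 := hP lo (left_mem_Icc.2 hlh)
  rcases hτ with h | h
  · rw [h] at p1 p2 ⊢
    linarith [p1.2, p2.1]
  · rw [h] at p1 p2 ⊢
    linarith [p1.1, p2.2]

/-- comparison of the adiabatic invariant at `x` with its value at the midpoint of the side -/
theorem ode_half (c₁ C₂ A₂ K₀ : ℝ) (hc : 0 < c₁) (hc1 : c₁ ≤ 1) (hC : 0 < C₂) (hA : 0 < A₂)
    (hK : 0 < K₀) : ∃ K C : ℝ, 8 ≤ K ∧ 0 < C ∧ ∀ n : ℕ, ∀ ζ : Fin n → ℂ,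
    LineData n ζ c₁ C₂ A₂ K₀ → ∃ B₀ : ℝ, ∀ j, (ζ j).im = 0 → |(ζ j).re| < 1 →
    K ≤ (n:ℝ) ^ (3/2 : ℝ) * (1 - |(ζ j).re|) →
      B₀ ≤ C * ((∏ k ∈ Finset.univ.erase j, ‖ζ j - ζ k‖) ^ 2 * ((1 / n) * (1 - |(ζ j).re|) ^ (1/3 : ℝ))) ∧
      (∏ k ∈ Finset.univ.erase j, ‖ζ j - ζ k‖) ^ 2 * ((1 / n) * (1 - |(ζ j).re|) ^ (1/3 : ℝ)) ≤ C * B₀ := by
  obtain ⟨K2, a, b, hK2, ha, hb, hq2⟩ := q_two_sided c₁ C₂ A₂ K₀ hc hc1 hC hA hK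
  obtain ⟨C1, hC1, hder⟩ := q_derivs c₁ C₂ A₂ K₀ hc hc1 hC
  have hsa : 0 < Real.sqrt a := Real.sqrt_pos.2 ha
  have hsb : 0 < Real.sqrt b := Real.sqrt_pos.2 hb
  generalize hEE : Real.exp (5 * (C1 / (2 * (a * Real.sqrt a)) +
      3 * C1 ^ 2 / (4 * (a ^ 2 * Real.sqrt a)))) = EE
  have hEE0 : 0 < EE := by rw [← hEE]; exact Real.exp_pos _
  refine ⟨max K2 ((C1 / (2 * (a * Real.sqrt a))) ^ 2), EE / Real.sqrt a + Real.sqrt b * EE,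
    hK2.trans (le_max_left _ _), by positivity, ?_⟩
  intro n ζ h
  obtain ⟨q, hq⟩ := exists_q n ζ c₁ C₂ A₂ K₀ h
  obtain ⟨q₁, q₂, hqd, hqb⟩ := hder n ζ h q hq
  obtain ⟨W, W₁, W₂, W₃, hW, hWp, h1, h2, h3, hz⟩ := real_w n ζ
  have hode := fun (x : ℝ) (hx : |x| < 1) => real_ode n ζ c₁ C₂ A₂ K₀ h q hq q₁
    (fun x hx => (hqd x hx).1) W W₁ W₂ W₃ hW h1 h2 h3 x hx
  obtain ⟨B, hB⟩ : ∃ B : ℝ → ℝ, ∀ x, B x = 2 * Real.sqrt ((q x).re) * W x +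
      W₂ x / (2 * Real.sqrt ((q x).re)) +
      q₁ x / (2 * ((q x).re * Real.sqrt ((q x).re))) * (W₁ x / 2) := ⟨_, fun x => rfl⟩
  refine ⟨B 0, ?_⟩
  intro j hj0 hj1 hjK
  have hjK1 : K2 ≤ (n:ℝ) ^ (3/2 : ℝ) * (1 - |(ζ j).re|) := (le_max_left _ _).trans hjK
  have hjK2 : (C1 / (2 * (a * Real.sqrt a))) ^ 2 ≤ (n:ℝ) ^ (3/2 : ℝ) * (1 - |(ζ j).re|) :=
    (le_max_right _ _).trans hjK
  have hn := h.hn
  have hn0 : (0:ℝ) < n := by exact_mod_cast hn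
  have hN : 0 ≤ (n:ℝ) ^ (3/2 : ℝ) := by positivity
  obtain ⟨hz1, hz2⟩ := hz j hj0
  have hWz : W (ζ j).re = 0 := by
    rw [hWp]
    apply Finset.prod_eq_zero (Finset.mem_univ j)
    have e : (((ζ j).re : ℝ) : ℂ) = ζ j := by
      apply Complex.ext
      · simp
      · simp [hj0]
    rw [e, sub_self, norm_zero]
    norm_num
  have hqx := hq2 n ζ h q hq (ζ j).re hj1 hjK1
  generalize hxdef : (ζ j).re = x at *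
  generalize (∏ k ∈ Finset.univ.erase j, ‖ζ j - ζ k‖) = M at *
  have hs0 : 0 < 1 - |x| := by linarith
  have hsub : ∀ t : ℝ, 1 - |x| ≤ 1 - |t| → K2 ≤ (n:ℝ) ^ (3/2 : ℝ) * (1 - |t|) := fun t ht =>
    hjK1.trans (mul_le_mul_of_nonneg_left ht hN)
  have hcmp : ∃ E : ℝ, 0 < E ∧ E ≤ EE ∧ B 0 ≤ E * B x ∧ B x ≤ E * B 0 := by
    have hgen := oh_main n hn a C1 (1 - |x|) ha hC1 hs0 (by linarith) hjK2 W W₁ W₂ W₃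
      (fun t => (q t).re) q₁ q₂ h1 h2 h3 hqd
      (fun t ht hst => (hq2 n ζ h q hq t ht (hsub t hst)).1)
      (fun t ht hst => hqb t ht (hK2.trans (hsub t hst))) hode B hB
    rw [hEE] at hgen
    rcases le_or_gt 0 x with hx | hx
    · exact hgen 0 x 1 hx (Or.inl rfl) (by
        intro t ht
        rw [abs_of_nonneg ht.1, abs_of_nonneg hx]
        exact ⟨by ring, by linarith [ht.2]⟩)
    · obtain ⟨E, e1, e2, e3, e4⟩ := hgen x 0 (-1) hx.le (Or.inr rfl) (by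
        intro t ht
        rw [abs_of_nonpos ht.2, abs_of_neg hx]
        exact ⟨by ring, by linarith [ht.1]⟩)
      exact ⟨E, e1, e2, e4, e3⟩
  obtain ⟨E, hE0, hE1, hE2, hE3⟩ := hcmp
  have hz0 : 0 < (1 - |x|) ^ (1/3 : ℝ) := by positivity
  have hzz : (1 - |x|) ^ (-(2/3) : ℝ) = (((1 - |x|) ^ (1/3 : ℝ)) ^ 2)⁻¹ :=
    oh_rpn _ hs0 (1/3) 2 (-(2/3)) (by norm_num)
  rw [hzz] at hqx
  generalize (1 - |x|) ^ (1/3 : ℝ) = z at *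
  have hBx : B x = M ^ 2 / Real.sqrt ((q x).re) := by
    rw [hB, hWz, hz1, hz2]
    ring
  have hQpos : 0 < (q x).re := lt_of_lt_of_le (by positivity) hqx.1
  generalize (q x).re = Q at *
  have hsQ : 0 < Real.sqrt Q := Real.sqrt_pos.2 hQpos
  have hsq1 : Real.sqrt a * n * z⁻¹ ≤ Real.sqrt Q := by
    apply Real.le_sqrt_of_sq_le
    have : (Real.sqrt a * n * z⁻¹) ^ 2 = a * (n:ℝ) ^ 2 * (z ^ 2)⁻¹ := by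
      rw [mul_pow, mul_pow, Real.sq_sqrt ha.le, inv_pow]
    rw [this]
    exact hqx.1
  have hsq2 : Real.sqrt Q ≤ Real.sqrt b * n * z⁻¹ := by
    rw [Real.sqrt_le_iff]
    refine ⟨by positivity, ?_⟩
    have : (Real.sqrt b * n * z⁻¹) ^ 2 = b * (n:ℝ) ^ 2 * (z ^ 2)⁻¹ := by
      rw [mul_pow, mul_pow, Real.sq_sqrt hb.le, inv_pow]
    rw [this]
    exact hqx.2
  have hY0 : 0 ≤ M ^ 2 * ((1 / (n:ℝ)) * z) := by positivity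
  have hb1 : B x ≤ (M ^ 2 * ((1 / (n:ℝ)) * z)) / Real.sqrt a := by
    rw [hBx, div_le_iff₀ hsQ]
    calc M ^ 2 = (M ^ 2 * ((1 / (n:ℝ)) * z)) / Real.sqrt a * (Real.sqrt a * n * z⁻¹) := by
          field_simp
      _ ≤ _ := mul_le_mul_of_nonneg_left hsq1 (by positivity)
  have hb2 : M ^ 2 * ((1 / (n:ℝ)) * z) ≤ Real.sqrt b * B x := by
    rw [hBx, ← mul_div_assoc, le_div_iff₀ hsQ]
    calc M ^ 2 * ((1 / (n:ℝ)) * z) * Real.sqrt Q ≤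
        M ^ 2 * ((1 / (n:ℝ)) * z) * (Real.sqrt b * n * z⁻¹) :=
          mul_le_mul_of_nonneg_left hsq2 hY0
      _ = Real.sqrt b * M ^ 2 := by field_simp
  have hBx0 : 0 ≤ B x := by rw [hBx]; positivity
  have hB0 : 0 ≤ B 0 := by
    by_contra hcon
    push Not at hcon
    have h5 : E * B 0 < 0 := mul_neg_of_pos_of_neg hE0 hcon
    linarith
  constructor
  · calc B 0 ≤ E * B x := hE2
      _ ≤ EE * B x := mul_le_mul_of_nonneg_right hE1 hBx0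
      _ ≤ EE * ((M ^ 2 * ((1 / (n:ℝ)) * z)) / Real.sqrt a) :=
        mul_le_mul_of_nonneg_left hb1 hEE0.le
      _ = EE / Real.sqrt a * (M ^ 2 * ((1 / (n:ℝ)) * z)) := by ring
      _ ≤ (EE / Real.sqrt a + Real.sqrt b * EE) * (M ^ 2 * ((1 / (n:ℝ)) * z)) := by
        apply mul_le_mul_of_nonneg_right _ hY0
        have : 0 ≤ Real.sqrt b * EE := by positivity
        linarith
  · calc M ^ 2 * ((1 / (n:ℝ)) * z) ≤ Real.sqrt b * B x := hb2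
      _ ≤ Real.sqrt b * (E * B 0) := mul_le_mul_of_nonneg_left hE3 hsb.le
      _ ≤ Real.sqrt b * (EE * B 0) :=
        mul_le_mul_of_nonneg_left (mul_le_mul_of_nonneg_right hE1 hB0) hsb.le
      _ = Real.sqrt b * EE * B 0 := by ring
      _ ≤ (EE / Real.sqrt a + Real.sqrt b * EE) * B 0 := by
        apply mul_le_mul_of_nonneg_right _ hB0
        have : 0 ≤ EE / Real.sqrt a := by positivity
        linarith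

end Pool.Agent.Helper606.Fek
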