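import Pool.Agent.Helper606.Fek.Defs
import Pool.Agent.Helper606.Fek.P_ode_defs
import Pool.Agent.Helper606.Fek.P_ode_half
import Pool.Agent.Helper606.Fek.P_rho_s
import Pool.Agent.Helper606.Fek.P_line_data

set_option autoImplicit false

namespace Pool.Agent.Helper606.Fek
open Complex Set Filter Topology


theorem chain_side : ∃ K C : ℝ, 8 ≤ K ∧ 0 < C ∧ ∀ n : ℕ, 9 ≤ n → ∀ u : Fin n → ℂ, FekData n u →
    ∀ i j : Fin n, (psi (u i)).re = 1 → (psi (u j)).re = 1 →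
    K ≤ (n:ℝ) ^ (3/2 : ℝ) * (1 - |(psi (u i)).im|) →
    K ≤ (n:ℝ) ^ (3/2 : ℝ) * (1 - |(psi (u j)).im|) →
    MM u i ^ 2 * rho n (u i) ≤ C * (MM u j ^ 2 * rho n (u j)) := by
  obtain ⟨c₁, C₂, A₂, K₀, hc, hc1, hC2, hA, hK0, hL⟩ := line_data
  obtain ⟨K, C, hK8, hCp, hode⟩ := ode_half c₁ C₂ A₂ K₀ hc hc1 hC2 hA hK0
  obtain ⟨cr, Cr, hcr, hCr, hrho⟩ := rho_s
  refine ⟨K, Cr * C * C / cr, hK8, by positivity, ?_⟩
  intro n hn u hu i j hi hj hKi hKj
  obtain ⟨B₀, hB⟩ := hode n _ (hL n hn u hu)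
  have hn0 : (0:ℝ) < (n:ℝ) ^ (3/2 : ℝ) := by
    have : (0:ℝ) < n := by
      have : 0 < n := by omega
      exact_mod_cast this
    positivity
  have hre : ∀ k : Fin n, (-I * (psi (u k) - 1)).re = (psi (u k)).im := by
    intro k; simp
  have him : ∀ k : Fin n, (psi (u k)).re = 1 → (-I * (psi (u k) - 1)).im = 0 := by
    intro k hk; simp [hk]
  have hlt : ∀ k : Fin n, K ≤ (n:ℝ) ^ (3/2 : ℝ) * (1 - |(psi (u k)).im|) →
      |(psi (u k)).im| < 1 := by
    intro k hk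
    by_contra h
    push Not at h
    have : (n:ℝ) ^ (3/2 : ℝ) * (1 - |(psi (u k)).im|) ≤ 0 :=
      mul_nonpos_of_nonneg_of_nonpos hn0.le (by linarith)
    linarith
  have hM : ∀ k : Fin n, ∏ l ∈ Finset.univ.erase k,
      ‖(-I * (psi (u k) - 1)) - (-I * (psi (u l) - 1))‖ = MM u k := by
    intro k
    unfold MM
    refine Finset.prod_congr rfl fun l _ => ?_
    have : (-I * (psi (u k) - 1)) - (-I * (psi (u l) - 1)) = -I * (psi (u k) - psi (u l)) := by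
      ring
    rw [this, norm_mul, norm_neg, norm_I, one_mul]
  have key : ∀ k : Fin n, (psi (u k)).re = 1 →
      K ≤ (n:ℝ) ^ (3/2 : ℝ) * (1 - |(psi (u k)).im|) →
      B₀ ≤ C * (MM u k ^ 2 * ((1 / n) * (1 - |(psi (u k)).im|) ^ (1/3 : ℝ))) ∧
      MM u k ^ 2 * ((1 / n) * (1 - |(psi (u k)).im|) ^ (1/3 : ℝ)) ≤ C * B₀ := by
    intro k hk hkK
    have h := hB k (him k hk) (by rw [hre]; exact hlt k hkK) (by rw [hre]; exact hkK)
    simp only [hM, hre] at h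
    exact h
  have hri := (hrho n (by omega) (u i) (hu.norm_u i) hi (by linarith)).2
  have hrj := (hrho n (by omega) (u j) (hu.norm_u j) hj (by linarith)).1
  have h1 := (key i hi hKi).2
  have h2 := (key j hj hKj).1
  generalize (1 / (n:ℝ)) * (1 - |(psi (u i)).im|) ^ (1/3 : ℝ) = ti at *
  generalize (1 / (n:ℝ)) * (1 - |(psi (u j)).im|) ^ (1/3 : ℝ) = tj at *
  calc MM u i ^ 2 * rho n (u i) ≤ MM u i ^ 2 * (Cr * ti) :=
        mul_le_mul_of_nonneg_left hri (sq_nonneg _)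
    _ = Cr * (MM u i ^ 2 * ti) := by ring
    _ ≤ Cr * (C * B₀) := mul_le_mul_of_nonneg_left h1 hCr.le
    _ ≤ Cr * (C * (C * (MM u j ^ 2 * tj))) := by
        apply mul_le_mul_of_nonneg_left _ hCr.le
        exact mul_le_mul_of_nonneg_left h2 hCp.le
    _ = (Cr * C * C / cr) * (MM u j ^ 2 * (cr * tj)) := by field_simp
    _ ≤ (Cr * C * C / cr) * (MM u j ^ 2 * rho n (u j)) := by
        apply mul_le_mul_of_nonneg_left _ (by positivity)
        exact mul_le_mul_of_nonneg_left hrj (sq_nonneg _)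

end Pool.Agent.Helper606.Fek
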