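import Pool.Agent.Helper606.Fek.Defs
import Pool.Agent.Helper606.Fek.P_right_side
import Pool.Agent.Helper606.Fek.P_s_del

set_option autoImplicit false

namespace Pool.Agent.Helper606.Fek
open Complex Set Filter Topology


lemma corner_close_norm (θ : ℝ) :
    ‖exp ((θ : ℂ) * I) ^ 4 + 1‖ = 2 * |Real.cos (2 * θ)| := by
  have h1 : exp ((θ : ℂ) * I) ^ 4 + 1 = exp (((2 * θ : ℝ) : ℂ) * I) * (2 * Complex.cos ((2 * θ : ℝ) : ℂ)) := by
    rw [Complex.cos, mul_div_cancel₀ _ (two_ne_zero), mul_add, ← Complex.exp_add, ← Complex.exp_add,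
      ← Complex.exp_nat_mul]
    congr 1
    · congr 1
      push_cast
      ring
    · rw [show ((2 * θ : ℝ) : ℂ) * I + -((2 * θ : ℝ) : ℂ) * I = 0 by ring, Complex.exp_zero]
  rw [h1, norm_mul, Complex.norm_exp_ofReal_mul_I, one_mul, norm_mul, ← Complex.ofReal_cos,
    Complex.norm_real, Real.norm_eq_abs]
  simp

lemma corner_close_diff (θ α : ℝ) :
    ‖exp ((θ : ℂ) * I) - exp ((α : ℂ) * I)‖ ≤ |θ - α| := by
  have h1 : exp ((θ : ℂ) * I) - exp ((α : ℂ) * I) =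
      exp ((α : ℂ) * I) * (exp (I * ((θ - α : ℝ) : ℂ)) - 1) := by
    rw [mul_sub, ← Complex.exp_add, mul_one]
    congr 2
    push_cast
    ring
  rw [h1, norm_mul, Complex.norm_exp_ofReal_mul_I, one_mul]
  exact Real.norm_exp_I_mul_ofReal_sub_one_le

theorem corner_close (K : ℝ) (hK : 0 < K) : ∃ T : ℝ, 0 < T ∧ ∀ n : ℕ, 1 ≤ n → ∀ u : ℂ,
    ‖u‖ = 1 → (psi u).re = 1 → (n:ℝ) ^ (3/2 : ℝ) * (1 - |(psi u).im|) ≤ K →
    n * ‖u - exp ((Real.pi / 4 : ℝ) * I)‖ ≤ T ∨ n * ‖u - exp (-(Real.pi / 4 : ℝ) * I)‖ ≤ T := by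
  obtain ⟨c, C, hc, hC, hs⟩ := s_del
  have hpi := Real.pi_pos
  refine ⟨Real.pi / 8 * (C * K ^ (2/3 : ℝ)), by positivity, fun n hn u hu hre hK' => ?_⟩
  have hup := (hs u hu hre).2
  set s : ℝ := 1 - |(psi u).im| with hsdef
  have hn0 : (0:ℝ) < n := by exact_mod_cast hn
  have hs0 : 0 ≤ s := by
    by_contra hneg
    push Not at hneg
    have h1 : s ^ (2/3 : ℝ) < 0 := by
      rw [Real.rpow_def_of_neg hneg]
      refine mul_neg_of_pos_of_neg (Real.exp_pos _) ?_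
      exact Real.cos_neg_of_pi_div_two_lt_of_lt (by linarith) (by linarith)
    have h2 : C * s ^ (2/3 : ℝ) < 0 := mul_neg_of_pos_of_neg hC h1
    linarith [norm_nonneg (u ^ 4 + 1)]
  have hns : n * s ^ (2/3 : ℝ) ≤ K ^ (2/3 : ℝ) := by
    have h1 : (n:ℝ) * s ^ (2/3 : ℝ) = ((n:ℝ) ^ (3/2 : ℝ) * s) ^ (2/3 : ℝ) := by
      rw [Real.mul_rpow (by positivity) hs0, ← Real.rpow_mul hn0.le]
      norm_num
    rw [h1]
    exact Real.rpow_le_rpow (by positivity) hK' (by norm_num)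
  obtain ⟨θ, hθ, rfl, -⟩ := right_side u hu hre
  have hlow : 8 / Real.pi * (Real.pi / 4 - |θ|) ≤ ‖exp ((θ : ℂ) * I) ^ 4 + 1‖ := by
    rw [corner_close_norm]
    have h1 : Real.cos (2 * θ) = Real.sin (Real.pi / 2 - 2 * |θ|) := by
      rw [Real.sin_pi_div_two_sub]
      rcases abs_cases θ with ⟨h, _⟩ | ⟨h, _⟩ <;> rw [h]
      rw [mul_neg, Real.cos_neg]
    have h2 : 2 / Real.pi * (Real.pi / 2 - 2 * |θ|) ≤ Real.sin (Real.pi / 2 - 2 * |θ|) :=
      Real.mul_le_sin (by linarith) (by linarith [abs_nonneg θ])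
    have h3 : Real.cos (2 * θ) ≤ |Real.cos (2 * θ)| := le_abs_self _
    have h4 : 8 / Real.pi * (Real.pi / 4 - |θ|) = 2 * (2 / Real.pi * (Real.pi / 2 - 2 * |θ|)) := by
      ring
    rw [h4]
    rw [← h1] at h2
    linarith
  have hdist : Real.pi / 4 - |θ| ≤ Real.pi / 8 * ‖exp ((θ : ℂ) * I) ^ 4 + 1‖ := by
    have h1 : Real.pi / 8 * (8 / Real.pi * (Real.pi / 4 - |θ|)) ≤
        Real.pi / 8 * ‖exp ((θ : ℂ) * I) ^ 4 + 1‖ :=
      mul_le_mul_of_nonneg_left hlow (by positivity)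
    have h2 : Real.pi / 8 * (8 / Real.pi * (Real.pi / 4 - |θ|)) = Real.pi / 4 - |θ| := by
      field_simp
    rwa [h2] at h1
  have hfin : n * (Real.pi / 4 - |θ|) ≤ Real.pi / 8 * (C * K ^ (2/3 : ℝ)) := by
    calc n * (Real.pi / 4 - |θ|)
        ≤ n * (Real.pi / 8 * ‖exp ((θ : ℂ) * I) ^ 4 + 1‖) := mul_le_mul_of_nonneg_left hdist hn0.le
      _ ≤ n * (Real.pi / 8 * (C * s ^ (2/3 : ℝ))) := by gcongr
      _ = Real.pi / 8 * (C * (n * s ^ (2/3 : ℝ))) := by ring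
      _ ≤ _ := by gcongr
  rcases le_total 0 θ with h | h
  · left
    refine le_trans (mul_le_mul_of_nonneg_left (corner_close_diff θ (Real.pi / 4)) hn0.le) ?_
    rw [abs_of_nonneg h] at hfin hθ
    rw [abs_of_nonpos (by linarith)]
    linarith
  · right
    have h1 : (-(Real.pi / 4 : ℝ) : ℂ) * I = ((-(Real.pi / 4) : ℝ) : ℂ) * I := by push_cast; ring
    rw [h1]
    refine le_trans (mul_le_mul_of_nonneg_left (corner_close_diff θ (-(Real.pi / 4))) hn0.le) ?_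
    rw [abs_of_nonpos h] at hfin hθ
    rw [abs_of_nonneg (by linarith)]
    linarith

end Pool.Agent.Helper606.Fek
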