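import Pool.Agent.Helper606.Fek.Defs
import Pool.Agent.Helper606.Fek.P_psi_sym
import Pool.Agent.Helper606.Fek.P_sector_decomp
import Pool.Agent.Helper606.Fek.P_sq_rot
import Pool.Agent.Helper606.Fek.P_psi_bdry
import Pool.Agent.Helper606.Fek.P_rho_basic
import Pool.Agent.Helper606.Fek.P_right_side
import Pool.Agent.Helper606.Fek.P_chain_side
import Pool.Agent.Helper606.Fek.P_chain_rot
import Pool.Agent.Helper606.Fek.P_chain_near
import Pool.Agent.Helper606.Fek.P_corner_good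
import Pool.Agent.Helper606.Fek.P_corner_close

set_option autoImplicit false

namespace Pool.Agent.Helper606.Fek
open Complex Set Filter Topology


theorem ch_abs {n : ℕ} (F : Fin n → ℝ) (B : ℝ) (hB : 1 ≤ B) (hF : ∀ i, 0 < F i)
    (G : ℕ → Fin n → Prop)
    (hs : ∀ m i j, G m i → G m j → F i ≤ B * F j)
    (hc : ∀ m, ∃ i j, G m i ∧ G (m + 3) j ∧ F i ≤ B * F j)
    (hp : ∀ m m' i, m % 4 = m' % 4 → G m i → G m' i)
    (ha : ∀ i, ∃ i' m, G m i' ∧ F i ≤ B * F i' ∧ F i' ≤ B * F i) :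
    ∀ i j, F i ≤ B ^ 12 * F j := by
  have hB0 : 0 ≤ B := by linarith
  have step : ∀ m i j, G m i → G (m + 3) j → F i ≤ B ^ 3 * F j := by
    intro m i j hi hj
    obtain ⟨a, b, ha', hb', hab⟩ := hc m
    calc F i ≤ B * F a := hs m i a hi ha'
      _ ≤ B * (B * F b) := by gcongr
      _ ≤ B * (B * (B * F j)) := by
          have := hs (m + 3) b j hb' hj
          gcongr
      _ = B ^ 3 * F j := by ring
  have chain' : ∀ k m i j, G m i → G (m + 3 * k) j → F i ≤ B ^ (3 * k + 1) * F j := by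
    intro k
    induction k with
    | zero =>
      intro m i j hi hj
      simpa using hs m i j hi hj
    | succ k ih =>
      intro m i j hi hj
      obtain ⟨a, b, ha', hb', hab⟩ := hc (m + 3 * k)
      have h1 := ih m i a hi ha'
      have h2 := step (m + 3 * k) a j ha' (by
        have : m + 3 * k + 3 = m + 3 * (k + 1) := by ring
        rw [this]; exact hj)
      calc F i ≤ B ^ (3 * k + 1) * F a := h1
        _ ≤ B ^ (3 * k + 1) * (B ^ 3 * F j) := by gcongr
        _ = B ^ (3 * (k + 1) + 1) * F j := by ring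
  have all : ∀ m m' i j, G m i → G m' j → F i ≤ B ^ 10 * F j := by
    intro m m' i j hi hj
    have hj' : G (m + 3 * ((m + 3 * m') % 4)) j := hp m' _ j (by omega) hj
    have h1 := chain' _ m i j hi hj'
    have hFj := hF j
    refine h1.trans ?_
    gcongr
    omega
  intro i j
  obtain ⟨i', m, hi', h1, -⟩ := ha i
  obtain ⟨j', m', hj', -, h2⟩ := ha j
  calc F i ≤ B * F i' := h1
    _ ≤ B * (B ^ 10 * F j') := by
        have := all m m' i' j' hi' hj'
        gcongr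
    _ ≤ B * (B ^ 10 * (B * F j)) := by gcongr
    _ = B ^ 12 * F j := by ring

theorem ch_psi_pow (w : ℂ) (m : ℕ) : psi (I ^ m * w) = I ^ m * psi w := by
  induction m with
  | zero => simp
  | succ m ih => rw [pow_succ', mul_assoc, psi_rot, ih, mul_assoc]

theorem ch_near {n : ℕ} (u : Fin n → ℂ) (m : ℕ) (e : ℂ) (i j : Fin n) (a b : ℝ)
    (hi : n * ‖I ^ m * u i - e‖ ≤ a) (hj : n * ‖I ^ m * u j - e‖ ≤ b) :
    n * ‖u i - u j‖ ≤ a + b := by
  have h1 : ‖u i - u j‖ = ‖(I ^ m * u i - e) - (I ^ m * u j - e)‖ := by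
    have : (I ^ m * u i - e) - (I ^ m * u j - e) = I ^ m * (u i - u j) := by ring
    rw [this, norm_mul, norm_pow, norm_I, one_pow, one_mul]
  have h2 := norm_sub_le (I ^ m * u i - e) (I ^ m * u j - e)
  rw [← h1] at h2
  have h3 : (n : ℝ) * ‖u i - u j‖ ≤ n * (‖I ^ m * u i - e‖ + ‖I ^ m * u j - e‖) := by gcongr
  linarith [mul_add (n : ℝ) ‖I ^ m * u i - e‖ ‖I ^ m * u j - e‖]

theorem ch_side (z : ℂ) (hz : z ∈ sq) : ∃ m : ℕ, (I ^ m * z).re = 1 := by
  have h : max |z.re| |z.im| = 1 := hz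
  rcases max_choice |z.re| |z.im| with h1 | h1
  · rw [h1] at h
    rcases (abs_eq (zero_le_one)).1 h with h2 | h2
    · exact ⟨0, by simpa using h2⟩
    · refine ⟨2, ?_⟩
      rw [I_sq]
      simp [h2]
  · rw [h1] at h
    rcases (abs_eq (zero_le_one)).1 h with h2 | h2
    · refine ⟨3, ?_⟩
      rw [I_pow_three]
      simp [h2]
    · refine ⟨1, ?_⟩
      simp [h2]

theorem chain : ∃ C : ℝ, 0 < C ∧ ∃ n₀ : ℕ, ∀ n : ℕ, n₀ ≤ n → ∀ u : Fin n → ℂ, FekData n u →
    ∀ i j : Fin n, MM u i ^ 2 * rho n (u i) ≤ C * (MM u j ^ 2 * rho n (u j)) := by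
  obtain ⟨K, Cs, hK, hCs, hside⟩ := chain_side
  obtain ⟨T₁, hT₁, n₁, hcg⟩ := corner_good K (by linarith)
  obtain ⟨T₂, hT₂, hcc⟩ := corner_close K (by linarith)
  obtain ⟨Cn, hCn, hnear⟩ := chain_near (2 * T₁ + T₂) (by positivity)
  obtain ⟨B, hB⟩ : ∃ B, B = max 1 (max Cs Cn) := ⟨_, rfl⟩
  have hB1 : 1 ≤ B := by rw [hB]; exact le_max_left _ _
  have hBs : Cs ≤ B := by rw [hB]; exact (le_max_left _ _).trans (le_max_right _ _)
  have hBn : Cn ≤ B := by rw [hB]; exact (le_max_right _ _).trans (le_max_right _ _)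
  refine ⟨B ^ 12, by positivity, max n₁ 9, fun n hn u hu => ?_⟩
  have hn1 : n₁ ≤ n := (le_max_left _ _).trans hn
  have hn9 : 9 ≤ n := (le_max_right _ _).trans hn
  have hF : ∀ i, 0 < MM u i ^ 2 * rho n (u i) := fun i =>
    mul_pos (pow_pos (hu.pos i) 2) (rho_pos n (by omega) _)
  have hnr : ∀ i j, n * ‖u i - u j‖ ≤ 2 * T₁ + T₂ →
      MM u i ^ 2 * rho n (u i) ≤ B * (MM u j ^ 2 * rho n (u j)) := fun i j hij =>
    (hnear n (by omega) u hu i j hij).trans (mul_le_mul_of_nonneg_right hBn (hF j).le)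
  refine ch_abs (fun i => MM u i ^ 2 * rho n (u i)) B hB1 hF
    (fun m i => (psi (I ^ m * u i)).re = 1 ∧
      K ≤ (n:ℝ) ^ (3/2 : ℝ) * (1 - |(psi (I ^ m * u i)).im|)) ?_ ?_ ?_ ?_
  · rintro m i j ⟨hi1, hi2⟩ ⟨hj1, hj2⟩
    have h := hside n hn9 (fun k => I ^ m * u k) (fek_rot n u hu m) i j hi1 hj1 hi2 hj2
    rw [MM_rot, MM_rot, rho_rot, rho_rot] at h
    exact h.trans (mul_le_mul_of_nonneg_right hBs (hF j).le)
  · intro m
    obtain ⟨⟨i, hi1, hi2, hi3⟩, ⟨j, hj1, hj2, hj3⟩⟩ := hcg n hn1 _ (fek_rot n u hu m)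
    have hj4 : psi (I ^ (m + 3) * u j) = -I * psi (I ^ m * u j) := by
      rw [ch_psi_pow, ch_psi_pow, pow_add, I_pow_three]; ring
    refine ⟨i, j, ⟨hi1, hi2⟩, ⟨?_, ?_⟩, hnr i j ?_⟩
    · rw [hj4]
      simpa using hj1
    · rw [hj4]
      have : (-I * psi (I ^ m * u j)).im = -(psi (I ^ m * u j)).re := by simp
      rw [this, abs_neg]
      exact hj2
    · have := ch_near u m _ i j _ _ hi3 hj3
      linarith
  · rintro m m' i hmm ⟨h1, h2⟩
    have hI : I ^ m = I ^ m' := by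
      rw [I_pow_eq_pow_mod m, I_pow_eq_pow_mod m', hmm]
    rw [hI] at h1 h2
    exact ⟨h1, h2⟩
  · intro i
    obtain ⟨m, hm⟩ := ch_side (psi (u i)) (psi_bdry (u i) (hu.norm_u i))
    rw [← ch_psi_pow] at hm
    have hni : ‖I ^ m * u i‖ = 1 := (fek_rot n u hu m).norm_u i
    rcases le_total K ((n:ℝ) ^ (3/2 : ℝ) * (1 - |(psi (I ^ m * u i)).im|)) with hKi | hKi
    · refine ⟨i, m, ⟨hm, hKi⟩, ?_, ?_⟩ <;>
      · have := hF i
        show MM u i ^ 2 * rho n (u i) ≤ B * (MM u i ^ 2 * rho n (u i))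
        nlinarith
    · obtain ⟨m', hm'⟩ : ∃ m', n * ‖I ^ m' * u i - exp ((Real.pi / 4 : ℝ) * I)‖ ≤ T₂ := by
        rcases hcc n (by omega) _ hni hm hKi with h | h
        · exact ⟨m, h⟩
        · refine ⟨m + 1, ?_⟩
          have e1 : I * exp (-(Real.pi / 4 : ℝ) * I) = exp ((Real.pi / 4 : ℝ) * I) := by
            have hI : I = exp ((Real.pi / 2 : ℝ) * I) := by
              push_cast
              rw [exp_pi_div_two_mul_I]
            calc I * exp (-(Real.pi / 4 : ℝ) * I)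
                = exp ((Real.pi / 2 : ℝ) * I) * exp (-(Real.pi / 4 : ℝ) * I) := by rw [← hI]
              _ = exp ((Real.pi / 4 : ℝ) * I) := by
                  rw [← exp_add]
                  congr 1
                  push_cast
                  ring
          have e2 : I ^ (m + 1) * u i - exp ((Real.pi / 4 : ℝ) * I) =
              I * (I ^ m * u i - exp (-(Real.pi / 4 : ℝ) * I)) := by
            rw [mul_sub, e1, pow_succ']; ring
          rw [e2, norm_mul, norm_I, one_mul]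
          exact h
      obtain ⟨⟨j, hj1, hj2, hj3⟩, -⟩ := hcg n hn1 _ (fek_rot n u hu m')
      refine ⟨j, m', ⟨hj1, hj2⟩, hnr i j ?_, hnr j i ?_⟩
      · have := ch_near u m' _ i j _ _ hm' hj3
        linarith
      · have := ch_near u m' _ j i _ _ hj3 hm'
        linarith

end Pool.Agent.Helper606.Fek
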