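import Pool.Agent.Helper606.Fek.Defs
import Pool.Agent.Helper606.Fek.P_peak
import Pool.Agent.Helper606.Fek.P_fek_sep_u
import Pool.Agent.Helper606.Fek.P_sum_sep
import Pool.Agent.Helper606.Fek.P_rho_basic
import Pool.Agent.Helper606.Fek.P_fek_mu
import Pool.Agent.Helper606.Fek.P_lagrange_ineq

set_option autoImplicit false

namespace Pool.Agent.Helper606.Fek
open Complex Set Filter Topology


theorem fek_ap_lower (D A c : ℝ) (hD : 0 < D) (hA : 0 < A) (hc : 0 < c) : ∃ C : ℝ, 0 < C ∧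
    ∀ n : ℕ, 9 ≤ n →
    ∀ u : Fin n → ℂ, FekData n u → ∀ u₀ z₀ : ℂ, ‖u₀‖ = 1 → ‖z₀ - psi u₀‖ ≤ D * rho n u₀ →
    (max |z₀.re| |z₀.im| ≤ 1 ∨ ∃ w₀ : ℂ, 1 ≤ ‖w₀‖ ∧ ‖w₀‖ ≤ 1 + 1 / (n:ℝ) ∧ psi w₀ = z₀) →
    (∀ k, c * rho n (u k) ≤ ‖z₀ - psi (u k)‖) →
    ∀ j, ‖u j - u₀‖ ≤ A / n →
      MM u j * rho n (u j) ≤ C * ∏ k, ‖z₀ - psi (u k)‖ := by
  obtain ⟨C1, hC1, hpeak⟩ := peak D hD
  obtain ⟨cs, hcs, hcs1, hsep⟩ := fek_sep_u
  obtain ⟨C2, hC2, hmu⟩ := fek_mu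
  obtain ⟨C3, hC3, hsum⟩ := sum_sep 2 cs (by norm_num) hcs
  refine ⟨C1 * C2 * (1 + A) ^ 2 / c * C3, by positivity, ?_⟩
  intro n hn u hu u₀ z₀ hu0 hz0 hor hfar j hj
  have hn1 : 1 ≤ n := by omega
  have hn0 : (0 : ℝ) < n := by exact_mod_cast (by omega : 0 < n)
  obtain ⟨Q, hQd, hQ1, hQ⟩ := hpeak n hn u₀ z₀ hu0 hz0 hor
  have hρ : ∀ k, 0 < rho n (u k) := fun k => rho_pos n hn1 (u k)
  have hM := hu.pos
  have ha : ∀ k, 0 < ‖z₀ - psi (u k)‖ := fun k =>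
    lt_of_lt_of_le (mul_pos hc (hρ k)) (hfar k)
  set Pi := ∏ k, ‖z₀ - psi (u k)‖ with hPi
  have hPi0 : 0 < Pi := Finset.prod_pos fun k _ => ha k
  have hT : ∀ k, 0 < 1 + n * ‖u k - u₀‖ := fun k => by positivity
  have hterm : ∀ k, ‖Q.eval (psi (u k))‖ *
      ((∏ i ∈ Finset.univ.erase k, ‖z₀ - psi (u i)‖) / MM u k) ≤
      (C1 * C2 * (1 + A) ^ 2 / c * (Pi / (MM u j * rho n (u j)))) *
        (1 / (1 + n * ‖u₀ - u k‖) ^ (2 : ℝ)) := by
    intro k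
    have h1 : (∏ i ∈ Finset.univ.erase k, ‖z₀ - psi (u i)‖) = Pi / ‖z₀ - psi (u k)‖ := by
      rw [eq_div_iff (ha k).ne', hPi, mul_comm]
      exact Finset.mul_prod_erase Finset.univ (fun i => ‖z₀ - psi (u i)‖) (Finset.mem_univ k)
    have h2 := hQ (u k) (hu.norm_u k)
    have hmuk := hmu n hn1 u hu j k
    have h3 : 1 + n * ‖u j - u k‖ ≤ (1 + A) * (1 + n * ‖u k - u₀‖) := by
      have h4 : ‖u j - u k‖ ≤ ‖u j - u₀‖ + ‖u k - u₀‖ := by
        have := norm_sub_le_norm_sub_add_norm_sub (u j) u₀ (u k)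
        rwa [norm_sub_rev u₀ (u k)] at this
      have h5 : n * ‖u j - u₀‖ ≤ A := by
        have := mul_le_mul_of_nonneg_left hj hn0.le
        rwa [mul_div_cancel₀ _ hn0.ne'] at this
      have h6 : n * ‖u j - u k‖ ≤ n * ‖u j - u₀‖ + n * ‖u k - u₀‖ := by
        rw [← mul_add]
        exact mul_le_mul_of_nonneg_left h4 hn0.le
      have h7 : 0 ≤ A * (n * ‖u k - u₀‖) := by positivity
      nlinarith
    have h8 : (1 + n * ‖u j - u k‖) ^ 2 ≤ ((1 + A) * (1 + n * ‖u k - u₀‖)) ^ 2 :=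
      pow_le_pow_left₀ (by positivity) h3 2
    have h9 : MM u j * rho n (u j) ≤
        C2 * ((1 + A) * (1 + n * ‖u k - u₀‖)) ^ 2 * (MM u k * rho n (u k)) :=
      hmuk.trans (mul_le_mul_of_nonneg_right (mul_le_mul_of_nonneg_left h8 hC2.le)
        (mul_pos (hM k) (hρ k)).le)
    have hTk := hT k
    have hMk := hM k
    have hMj := hM j
    have hρk := hρ k
    have hρj := hρ j
    have hak := ha k
    have hfk := hfar k
    rw [h1, norm_sub_rev u₀ (u k), Real.rpow_two]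
    calc ‖Q.eval (psi (u k))‖ * (Pi / ‖z₀ - psi (u k)‖ / MM u k)
        ≤ (C1 / (1 + n * ‖u k - u₀‖) ^ 4) * (Pi / (c * rho n (u k)) / MM u k) := by
          apply mul_le_mul h2 _ (by positivity) (by positivity)
          apply div_le_div_of_nonneg_right _ hMk.le
          exact div_le_div_of_nonneg_left hPi0.le (by positivity) hfk
      _ = (C1 * Pi / c / (1 + n * ‖u k - u₀‖) ^ 4) * (1 / (MM u k * rho n (u k))) := by
          field_simp
      _ ≤ (C1 * Pi / c / (1 + n * ‖u k - u₀‖) ^ 4) *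
            (C2 * ((1 + A) * (1 + n * ‖u k - u₀‖)) ^ 2 / (MM u j * rho n (u j))) := by
          apply mul_le_mul_of_nonneg_left _ (by positivity)
          rw [div_le_div_iff₀ (by positivity) (by positivity), one_mul]
          exact h9
      _ = _ := by
          field_simp
  have hL := lagrange_ineq n u hu Q hQd z₀
  rw [hQ1, norm_one] at hL
  have hS := hsum n hn1 n u hu.norm_u (fun a b hab => hsep n hn1 u hu a b hab) u₀ hu0
  have hfin : 1 ≤ (C1 * C2 * (1 + A) ^ 2 / c * (Pi / (MM u j * rho n (u j)))) * C3 := by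
    calc (1 : ℝ) ≤ ∑ k, ‖Q.eval (psi (u k))‖ *
          ((∏ i ∈ Finset.univ.erase k, ‖z₀ - psi (u i)‖) / MM u k) := hL
      _ ≤ ∑ k, (C1 * C2 * (1 + A) ^ 2 / c * (Pi / (MM u j * rho n (u j)))) *
        (1 / (1 + n * ‖u₀ - u k‖) ^ (2 : ℝ)) := Finset.sum_le_sum fun k _ => hterm k
      _ = (C1 * C2 * (1 + A) ^ 2 / c * (Pi / (MM u j * rho n (u j)))) *
          ∑ k, (1 / (1 + n * ‖u₀ - u k‖) ^ (2 : ℝ)) := by rw [Finset.mul_sum]
      _ ≤ _ := mul_le_mul_of_nonneg_left hS (by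
          have := hM j
          have := hρ j
          positivity)
  have hMj := hM j
  have hρj := hρ j
  have hpos : 0 < MM u j * rho n (u j) := mul_pos hMj hρj
  have := mul_le_mul_of_nonneg_left hfin hpos.le
  rw [mul_one] at this
  refine this.trans (le_of_eq ?_)
  field_simp

end Pool.Agent.Helper606.Fek
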