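import Pool.Agent.Helper606.Fek.Defs
import Pool.Agent.Helper606.Fek.P_bern_walsh
import Pool.Agent.Helper606.Fek.P_max_square
import Pool.Agent.Helper606.Fek.P_rho_basic

set_option autoImplicit false

namespace Pool.Agent.Helper606.Fek
open Complex Set Filter Topology


theorem fek_ap_upper (D A : ℝ) (hD : 0 < D) (hA : 0 < A) : ∃ C : ℝ, 0 < C ∧ ∀ n : ℕ, 1 ≤ n →
    ∀ u : Fin n → ℂ, FekData n u → ∀ u₀ z₀ : ℂ, ‖u₀‖ = 1 → ‖z₀ - psi u₀‖ ≤ D * rho n u₀ →
    (max |z₀.re| |z₀.im| ≤ 1 ∨ ∃ w₀ : ℂ, 1 ≤ ‖w₀‖ ∧ ‖w₀‖ ≤ 1 + 1 / (n:ℝ) ∧ psi w₀ = z₀) →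
    ∀ j, ‖u j - u₀‖ ≤ A / n →
      ∏ k, ‖z₀ - psi (u k)‖ ≤ C * (MM u j * rho n (u j)) := by
  obtain ⟨C0, hC0, hpsi⟩ := psi_upper_rho
  have hsA : 0 < √(1 + A) := Real.sqrt_pos.mpr (by linarith)
  refine ⟨3 * (D * (2 * √(1 + A)) + C0 * A * √(1 + A)), by positivity, ?_⟩
  intro n hn u hu u₀ z₀ hu0 hz0 hcase j hj
  have hn0 : (0 : ℝ) < n := by exact_mod_cast hn
  have hρj := rho_pos n hn (u j)
  have hMj := hu.pos j
  have hnA : n * ‖u₀ - u j‖ ≤ A := by
    rw [norm_sub_rev]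
    rw [le_div_iff₀ hn0] at hj
    linarith
  have hn1 : 0 ≤ n * ‖u₀ - u j‖ := by positivity
  have hsq : √(1 + n * ‖u₀ - u j‖) ≤ √(1 + A) := Real.sqrt_le_sqrt (by linarith)
  have h1 : rho n u₀ ≤ 2 * √(1 + A) * rho n (u j) := by
    refine (rho_compare n hn u₀ (u j) hu0 (hu.norm_u j)).trans ?_
    gcongr
  have h2 : ‖psi u₀ - psi (u j)‖ ≤ C0 * A * √(1 + A) * rho n (u j) := by
    refine (hpsi n hn u₀ (u j) (by rw [hu0]) (by rw [hu0]; norm_num) (hu.norm_u j)).trans ?_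
    gcongr
  have h3 : ‖z₀ - psi (u j)‖ ≤ (D * (2 * √(1 + A)) + C0 * A * √(1 + A)) * rho n (u j) := by
    have h4 : z₀ - psi (u j) = (z₀ - psi u₀) + (psi u₀ - psi (u j)) := by ring
    calc ‖z₀ - psi (u j)‖ = ‖(z₀ - psi u₀) + (psi u₀ - psi (u j))‖ := by rw [← h4]
      _ ≤ ‖z₀ - psi u₀‖ + ‖psi u₀ - psi (u j)‖ := norm_add_le _ _
      _ ≤ D * rho n u₀ + C0 * A * √(1 + A) * rho n (u j) := add_le_add hz0 h2
      _ ≤ D * (2 * √(1 + A) * rho n (u j)) + C0 * A * √(1 + A) * rho n (u j) := by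
          have := mul_le_mul_of_nonneg_left h1 hD.le
          linarith
      _ = _ := by ring
  -- the polynomial
  have heval : ∀ z : ℂ, ‖(∏ k ∈ Finset.univ.erase j,
      (Polynomial.X - Polynomial.C (psi (u k)))).eval z‖ =
      ∏ k ∈ Finset.univ.erase j, ‖z - psi (u k)‖ := by
    intro z
    rw [Polynomial.eval_prod, norm_prod]
    refine Finset.prod_congr rfl fun k _ => ?_
    simp
  have hdeg : (∏ k ∈ Finset.univ.erase j,
      (Polynomial.X - Polynomial.C (psi (u k)))).natDegree ≤ n := by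
    rw [Polynomial.natDegree_prod_of_monic _ _ fun k _ => Polynomial.monic_X_sub_C _]
    simp only [Polynomial.natDegree_X_sub_C, Finset.sum_const, smul_eq_mul, mul_one]
    exact (Finset.card_le_univ _).trans (by simp)
  have hB : ∀ z ∈ sq, ‖(∏ k ∈ Finset.univ.erase j,
      (Polynomial.X - Polynomial.C (psi (u k)))).eval z‖ ≤ MM u j := by
    intro z hz
    rw [heval]
    exact hu.max j z hz
  have h5 : ∏ k ∈ Finset.univ.erase j, ‖z₀ - psi (u k)‖ ≤ 3 * MM u j := by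
    rw [← heval]
    rcases hcase with hsqr | ⟨w₀, hw1, hw2, hw3⟩
    · have := max_square _ _ hB z₀ hsqr
      linarith
    · rw [← hw3]
      refine (bern_walsh _ n _ hdeg hB w₀ hw1).trans ?_
      have h6 : ‖w₀‖ ^ n ≤ 3 := by
        calc ‖w₀‖ ^ n ≤ (Real.exp (1 / n)) ^ n := by
              apply pow_le_pow_left₀ (norm_nonneg _)
              have := Real.add_one_le_exp (1 / (n : ℝ))
              linarith
          _ = Real.exp 1 := by
              rw [← Real.exp_nat_mul]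
              congr 1
              field_simp
          _ ≤ 3 := by
              have := Real.exp_one_lt_d9
              linarith
      have := mul_le_mul_of_nonneg_left h6 hMj.le
      linarith
  rw [← Finset.mul_prod_erase Finset.univ _ (Finset.mem_univ j)]
  have h7 : 0 ≤ (D * (2 * √(1 + A)) + C0 * A * √(1 + A)) * rho n (u j) := by positivity
  calc ‖z₀ - psi (u j)‖ * ∏ k ∈ Finset.univ.erase j, ‖z₀ - psi (u k)‖
      ≤ ((D * (2 * √(1 + A)) + C0 * A * √(1 + A)) * rho n (u j)) * (3 * MM u j) := by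
        apply mul_le_mul h3 h5 (Finset.prod_nonneg fun _ _ => norm_nonneg _) h7
    _ = _ := by ring

end Pool.Agent.Helper606.Fek
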