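import Pool.Agent.Helper606.Fek.Defs
import Pool.Agent.Helper606.Fek.P_rho_basic
import Pool.Agent.Helper606.Fek.P_fek_dense
import Pool.Agent.Helper606.Fek.P_fek_ap_upper
import Pool.Agent.Helper606.Fek.P_fek_ap_lower
import Pool.Agent.Helper606.Fek.P_chain

set_option autoImplicit false

namespace Pool.Agent.Helper606.Fek
open Complex Set Filter Topology


theorem fek_profile (D c : ℝ) (hD : 0 < D) (hc : 0 < c) : ∃ C : ℝ, 0 < C ∧ ∃ n₀ : ℕ,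
    ∀ n : ℕ, n₀ ≤ n → ∀ u : Fin n → ℂ, FekData n u → ∀ k₀ : Fin n, ∀ Λ : ℝ,
    Λ = (MM u k₀ ^ 2 * rho n (u k₀)) ^ 2 / (n:ℝ) ^ 2 →
    ∀ u₀ z₀ : ℂ, ‖u₀‖ = 1 → ‖z₀ - psi u₀‖ ≤ D * rho n u₀ →
    (max |z₀.re| |z₀.im| ≤ 1 ∨ ∃ w₀ : ℂ, 1 ≤ ‖w₀‖ ∧ ‖w₀‖ ≤ 1 + 1 / (n:ℝ) ∧ psi w₀ = z₀) →
    (∀ k, c * rho n (u k) ≤ ‖z₀ - psi (u k)‖) →
      Λ * (‖u₀ ^ 4 + 1‖ + 1 / (n:ℝ)) ≤ C * (∏ k, ‖z₀ - psi (u k)‖) ^ 4 ∧
      (∏ k, ‖z₀ - psi (u k)‖) ^ 4 ≤ C * (Λ * (‖u₀ ^ 4 + 1‖ + 1 / (n:ℝ))) := by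
  obtain ⟨A, hA1, hdense⟩ := fek_dense
  have hA : 0 < A := by linarith
  obtain ⟨C1, hC1, hup⟩ := fek_ap_upper D A hD hA
  obtain ⟨C2, hC2, hlo⟩ := fek_ap_lower D A c hD hA hc
  obtain ⟨Cc, hCc, n₁, hch⟩ := chain
  refine ⟨C1 ^ 4 * Cc ^ 2 * (4 * (1 + A)) + Cc ^ 2 * (4 * (1 + A)) * C2 ^ 4, by positivity,
    max n₁ 9, ?_⟩
  intro n hn u hF k₀ Λ hΛ u₀ z₀ hu₀ hz₀ hz hck
  have hn1 : n₁ ≤ n := le_trans (le_max_left _ _) hn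
  have hn9 : 9 ≤ n := le_trans (le_max_right _ _) hn
  have hn0 : 1 ≤ n := by omega
  have hnR : (0 : ℝ) < n := by
    have : (1 : ℝ) ≤ n := by exact_mod_cast hn0
    linarith
  obtain ⟨j, hj⟩ := hdense n hn9 u hF u₀ hu₀
  have h1 := hup n hn0 u hF u₀ z₀ hu₀ hz₀ hz j hj
  have h2 := hlo n hn9 u hF u₀ z₀ hu₀ hz₀ hz hck j hj
  have h3 := hch n hn1 u hF k₀ j
  have h4 := hch n hn1 u hF j k₀
  have hP0 : 0 ≤ ∏ k, ‖z₀ - psi (u k)‖ := Finset.prod_nonneg fun k _ => norm_nonneg _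
  have hMj := hF.pos j
  have hMk := hF.pos k₀
  have hrj := rho_pos n hn0 (u j)
  have hrk := rho_pos n hn0 (u k₀)
  have hr0 := rho_pos n hn0 u₀
  have hnd : (n : ℝ) * ‖u j - u₀‖ ≤ A := by
    have := mul_le_mul_of_nonneg_left hj hnR.le
    rwa [mul_div_cancel₀ _ hnR.ne'] at this
  have hsq : ∀ x : ℝ, 0 ≤ x → x ≤ A → Real.sqrt (1 + x) ≤ Real.sqrt (1 + A) := by
    intro x _ hx
    exact Real.sqrt_le_sqrt (by linarith)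
  have hA2 : Real.sqrt (1 + A) ^ 2 = 1 + A := Real.sq_sqrt (by linarith)
  have hsA : 0 ≤ Real.sqrt (1 + A) := Real.sqrt_nonneg _
  have r1 : rho n (u j) ≤ 2 * Real.sqrt (1 + A) * rho n u₀ := by
    refine (rho_compare n hn0 (u j) u₀ (hF.norm_u j) hu₀).trans ?_
    have := hsq _ (by positivity) hnd
    gcongr
  have r2 : rho n u₀ ≤ 2 * Real.sqrt (1 + A) * rho n (u j) := by
    refine (rho_compare n hn0 u₀ (u j) hu₀ (hF.norm_u j)).trans ?_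
    rw [norm_sub_rev]
    have := hsq _ (by positivity) hnd
    gcongr
  have r1' : rho n (u j) ^ 2 ≤ 4 * (1 + A) * rho n u₀ ^ 2 := by
    calc rho n (u j) ^ 2 ≤ (2 * Real.sqrt (1 + A) * rho n u₀) ^ 2 :=
          pow_le_pow_left₀ hrj.le r1 2
      _ = 4 * (1 + A) * rho n u₀ ^ 2 := by rw [mul_pow, mul_pow, hA2]; ring
  have r2' : rho n u₀ ^ 2 ≤ 4 * (1 + A) * rho n (u j) ^ 2 := by
    calc rho n u₀ ^ 2 ≤ (2 * Real.sqrt (1 + A) * rho n (u j)) ^ 2 :=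
          pow_le_pow_left₀ hr0.le r2 2
      _ = 4 * (1 + A) * rho n (u j) ^ 2 := by rw [mul_pow, mul_pow, hA2]; ring
  have hLq : Λ * (‖u₀ ^ 4 + 1‖ + 1 / (n:ℝ)) =
      (MM u k₀ ^ 2 * rho n (u k₀)) ^ 2 * rho n u₀ ^ 2 := by
    rw [hΛ]
    have : rho n u₀ ^ 2 = (1 / (n:ℝ)) ^ 2 * (‖u₀ ^ 4 + 1‖ + 1 / (n:ℝ)) := by
      unfold rho
      rw [mul_pow, Real.sq_sqrt (by positivity)]
    rw [this]
    field_simp
  rw [hLq]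
  generalize (∏ k, ‖z₀ - psi (u k)‖) = Pi at h1 h2 hP0
  generalize MM u j = Mj at h1 h2 h3 h4 hMj
  generalize MM u k₀ = Mk at h3 h4 hMk
  generalize rho n (u j) = rj at h1 h2 h3 h4 hrj r1' r2'
  generalize rho n (u k₀) = rk at h3 h4 hrk
  generalize rho n u₀ = r0 at hr0 r1' r2'
  constructor
  · have e1 : (Mk ^ 2 * rk) ^ 2 ≤ (Cc * (Mj ^ 2 * rj)) ^ 2 :=
      pow_le_pow_left₀ (by positivity) h3 2
    have e2 : (Mj * rj) ^ 4 ≤ (C2 * Pi) ^ 4 := pow_le_pow_left₀ (by positivity) h2 4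
    calc (Mk ^ 2 * rk) ^ 2 * r0 ^ 2 ≤ (Cc * (Mj ^ 2 * rj)) ^ 2 * (4 * (1 + A) * rj ^ 2) := by
          gcongr
      _ = Cc ^ 2 * (4 * (1 + A)) * (Mj * rj) ^ 4 := by ring
      _ ≤ Cc ^ 2 * (4 * (1 + A)) * (C2 * Pi) ^ 4 := by gcongr
      _ = (Cc ^ 2 * (4 * (1 + A)) * C2 ^ 4) * Pi ^ 4 := by ring
      _ ≤ _ := by
          apply mul_le_mul_of_nonneg_right _ (by positivity)
          have : 0 ≤ C1 ^ 4 * Cc ^ 2 * (4 * (1 + A)) := by positivity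
          linarith
  · have e1 : (Mj ^ 2 * rj) ^ 2 ≤ (Cc * (Mk ^ 2 * rk)) ^ 2 :=
      pow_le_pow_left₀ (by positivity) h4 2
    have e2 : Pi ^ 4 ≤ (C1 * (Mj * rj)) ^ 4 := pow_le_pow_left₀ hP0 h1 4
    calc Pi ^ 4 ≤ (C1 * (Mj * rj)) ^ 4 := e2
      _ = C1 ^ 4 * ((Mj ^ 2 * rj) ^ 2 * rj ^ 2) := by ring
      _ ≤ C1 ^ 4 * ((Cc * (Mk ^ 2 * rk)) ^ 2 * (4 * (1 + A) * r0 ^ 2)) := by gcongr
      _ = (C1 ^ 4 * Cc ^ 2 * (4 * (1 + A))) * ((Mk ^ 2 * rk) ^ 2 * r0 ^ 2) := by ring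
      _ ≤ _ := by
          apply mul_le_mul_of_nonneg_right _ (by positivity)
          have : 0 ≤ Cc ^ 2 * (4 * (1 + A)) * C2 ^ 4 := by positivity
          linarith

end Pool.Agent.Helper606.Fek
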