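import Pool.Agent.Helper606.Fek.Defs
import Pool.Agent.Helper606.Fek.P_psi_lower
import Pool.Agent.Helper606.Fek.P_psi_upper
import Pool.Agent.Helper606.Fek.P_rho_basic
import Pool.Agent.Helper606.Fek.P_fek_profile

set_option autoImplicit false

namespace Pool.Agent.Helper606.Fek
open Complex Set Filter Topology


theorem ext_circle : ∃ C : ℝ, 0 < C ∧ ∃ n₀ : ℕ,
    ∀ n : ℕ, n₀ ≤ n → ∀ u : Fin n → ℂ, FekData n u → ∀ k₀ : Fin n, ∀ Λ : ℝ,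
    Λ = (MM u k₀ ^ 2 * rho n (u k₀)) ^ 2 / (n:ℝ) ^ 2 →
    ∀ w : ℂ, ‖w‖ = 1 + 1 / (n:ℝ) →
      Λ * ‖w ^ 4 + 1‖ ≤ C * (∏ k, ‖psi w - psi (u k)‖) ^ 4 ∧
      (∏ k, ‖psi w - psi (u k)‖) ^ 4 ≤ C * (Λ * ‖w ^ 4 + 1‖) := by
  obtain ⟨c, hc, hlow⟩ := psi_lower
  obtain ⟨Cu, hCu, hup⟩ := psi_upper_rho
  obtain ⟨C, hC, n₀, hprof⟩ := fek_profile (2 * Cu) c (by positivity) hc
  refine ⟨15 * C, by positivity, max n₀ 1, ?_⟩
  intro n hn u hu k₀ Λ hΛ w hw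
  have hn0 : n₀ ≤ n := (le_max_left _ _).trans hn
  have hn1 : 1 ≤ n := (le_max_right _ _).trans hn
  have hnr : (1 : ℝ) ≤ n := by exact_mod_cast hn1
  have hnpos : (0 : ℝ) < n := by linarith
  have hinv : (1 : ℝ) / n ≤ 1 := by rw [div_le_one hnpos]; exact hnr
  have hinv0 : (0 : ℝ) < 1 / n := by positivity
  have hw1 : 1 ≤ ‖w‖ := by rw [hw]; linarith
  have hw2 : ‖w‖ ≤ 2 := by rw [hw]; linarith
  have hwpos : 0 < ‖w‖ := by linarith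
  have hwc : (‖w‖ : ℂ) ≠ 0 := by exact_mod_cast hwpos.ne'
  set u₀ : ℂ := w / ‖w‖ with hu₀
  have hu₀n : ‖u₀‖ = 1 := by
    rw [hu₀, norm_div, Complex.norm_real, norm_norm, div_self hwpos.ne']
  have hwu : w = (‖w‖ : ℂ) * u₀ := by rw [hu₀]; field_simp
  have hdist : ‖w - u₀‖ = 1 / n := by
    have e : w - u₀ = ((‖w‖ - 1 : ℝ) : ℂ) * u₀ := by
      push_cast
      linear_combination hwu
    rw [e, norm_mul, hu₀n, mul_one, Complex.norm_real, Real.norm_of_nonneg (by linarith), hw]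
    ring
  have hndist : (n : ℝ) * ‖w - u₀‖ = 1 := by rw [hdist]; field_simp
  have hrho0 : ∀ v : ℂ, 0 ≤ rho n v := fun v => (rho_pos n hn1 v).le
  have hz : ‖psi w - psi u₀‖ ≤ 2 * Cu * rho n u₀ := by
    have h1 := hup n hn1 w u₀ hw1 hw2 hu₀n
    rw [hndist] at h1
    have h2 : Real.sqrt (1 + 1) ≤ 2 := by
      rw [Real.sqrt_le_left (by norm_num)]; norm_num
    calc ‖psi w - psi u₀‖ ≤ Cu * 1 * Real.sqrt (1 + 1) * rho n u₀ := h1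
      _ ≤ Cu * 1 * 2 * rho n u₀ := by
          apply mul_le_mul_of_nonneg_right _ (hrho0 _)
          exact mul_le_mul_of_nonneg_left h2 (by positivity)
      _ = 2 * Cu * rho n u₀ := by ring
  have hk : ∀ k, c * rho n (u k) ≤ ‖psi w - psi (u k)‖ := by
    intro k
    have huk := hu.norm_u k
    have h1 := hlow w (u k) hw1 hw2 huk
    have h2 : 1 / (n : ℝ) ≤ ‖w - u k‖ := by
      have := norm_sub_norm_le w (u k)
      rw [huk, hw] at this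
      linarith
    refine le_trans ?_ h1
    unfold rho
    rw [mul_assoc]
    apply mul_le_mul_of_nonneg_left _ hc.le
    apply mul_le_mul h2 _ (Real.sqrt_nonneg _) (norm_nonneg _)
    apply Real.sqrt_le_sqrt
    linarith [norm_nonneg (w ^ 4 + 1)]
  have key := hprof n hn0 u hu k₀ Λ hΛ u₀ (psi w) hu₀n hz
    (Or.inr ⟨w, hw1, hw.le, rfl⟩) hk
  have hΛ0 : 0 ≤ Λ := by rw [hΛ]; positivity
  have hR : ‖w ^ 4 - u₀ ^ 4‖ = ‖w‖ ^ 4 - 1 := by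
    have e : w ^ 4 - u₀ ^ 4 = ((‖w‖ ^ 4 - 1 : ℝ) : ℂ) * u₀ ^ 4 := by
      have : w ^ 4 = (‖w‖ : ℂ) ^ 4 * u₀ ^ 4 := by
        rw [← mul_pow, ← hwu]
      rw [this]
      push_cast
      ring
    rw [e, norm_mul, norm_pow, hu₀n, one_pow, mul_one, Complex.norm_real,
      Real.norm_of_nonneg]
    nlinarith [one_le_pow₀ hw1 (n := 4)]
  have hR1 : ‖w‖ ^ 4 - 1 ≤ 15 * (1 / n) := by
    rw [hw]
    set t := (1 : ℝ) / n with ht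
    nlinarith [mul_nonneg hinv0.le hinv0.le, mul_nonneg hinv0.le (sub_nonneg.2 hinv),
      mul_nonneg (mul_nonneg hinv0.le hinv0.le) (sub_nonneg.2 hinv),
      mul_nonneg (mul_nonneg (mul_nonneg hinv0.le hinv0.le) hinv0.le) (sub_nonneg.2 hinv)]
  have hR2 : 1 / (n : ℝ) ≤ ‖w‖ ^ 4 - 1 := by
    rw [hw]
    set t := (1 : ℝ) / n with ht
    nlinarith [mul_nonneg hinv0.le hinv0.le, pow_pos hinv0 3, pow_pos hinv0 4]
  have hR3 : ‖w‖ ^ 4 - 1 ≤ ‖w ^ 4 + 1‖ := by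
    have := norm_sub_norm_le (w ^ 4) (-1)
    rw [norm_neg, norm_one, norm_pow, sub_neg_eq_add] at this
    exact this
  have hA : ‖w ^ 4 + 1‖ ≤ 15 * (‖u₀ ^ 4 + 1‖ + 1 / n) := by
    have e : w ^ 4 + 1 = (w ^ 4 - u₀ ^ 4) + (u₀ ^ 4 + 1) := by ring
    have h1 : ‖w ^ 4 + 1‖ ≤ ‖w ^ 4 - u₀ ^ 4‖ + ‖u₀ ^ 4 + 1‖ := by
      conv_lhs => rw [e]
      exact norm_add_le _ _
    rw [hR] at h1
    linarith [norm_nonneg (u₀ ^ 4 + 1)]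
  have hB : ‖u₀ ^ 4 + 1‖ + 1 / n ≤ 3 * ‖w ^ 4 + 1‖ := by
    have e : u₀ ^ 4 + 1 = (w ^ 4 + 1) - (w ^ 4 - u₀ ^ 4) := by ring
    have h1 : ‖u₀ ^ 4 + 1‖ ≤ ‖w ^ 4 + 1‖ + ‖w ^ 4 - u₀ ^ 4‖ := by
      conv_lhs => rw [e]
      exact norm_sub_le _ _
    rw [hR] at h1
    linarith
  constructor
  · calc Λ * ‖w ^ 4 + 1‖ ≤ Λ * (15 * (‖u₀ ^ 4 + 1‖ + 1 / n)) :=
          mul_le_mul_of_nonneg_left hA hΛ0
      _ = 15 * (Λ * (‖u₀ ^ 4 + 1‖ + 1 / n)) := by ring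
      _ ≤ 15 * (C * (∏ k, ‖psi w - psi (u k)‖) ^ 4) :=
          mul_le_mul_of_nonneg_left key.1 (by norm_num)
      _ = _ := by ring
  · calc (∏ k, ‖psi w - psi (u k)‖) ^ 4 ≤ C * (Λ * (‖u₀ ^ 4 + 1‖ + 1 / n)) := key.2
      _ ≤ C * (Λ * (3 * ‖w ^ 4 + 1‖)) := by gcongr
      _ ≤ 15 * C * (Λ * ‖w ^ 4 + 1‖) := by
          have : 0 ≤ C * (Λ * ‖w ^ 4 + 1‖) := by positivity
          nlinarith

end Pool.Agent.Helper606.Fek
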