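import Pool.Agent.Helper606.Fek.Defs
import Pool.Agent.Helper606.Fek.P_cA_pos
import Pool.Agent.Helper606.Fek.P_psi_deriv
import Pool.Agent.Helper606.Fek.P_psi_cont
import Pool.Agent.Helper606.Fek.P_psi_near
import Pool.Agent.Helper606.Fek.P_psi_bdry
import Pool.Agent.Helper606.Fek.P_psi_grow
import Pool.Agent.Helper606.Fek.P_ext_max
import Pool.Agent.Helper606.Fek.P_rho_basic
import Pool.Agent.Helper606.Fek.P_ext_circle

set_option autoImplicit false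

namespace Pool.Agent.Helper606.Fek
open Complex Set Filter Topology


/-- the comparison function -/
noncomputable def YF {n : ℕ} (u : Fin n → ℂ) (w : ℂ) : ℂ :=
  (∏ k, ((psi w - psi (u k)) / ((cA : ℂ) * w)) ^ 4) / (1 + (w⁻¹) ^ 4)

theorem yf_den (w : ℂ) (hw : 1 < ‖w‖) : 1 + (w⁻¹) ^ 4 ≠ 0 := by
  intro h
  have h1 : (w⁻¹) ^ 4 = -1 := by linear_combination h
  have h2 : ‖(w⁻¹) ^ 4‖ = 1 := by rw [h1]; simp
  rw [norm_pow, norm_inv] at h2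
  have h3 : ‖w‖⁻¹ < 1 := inv_lt_one_of_one_lt₀ hw
  have h4 : ‖w‖⁻¹ ^ 4 < 1 := pow_lt_one₀ (by positivity) h3 (by norm_num)
  linarith

theorem yf_ne (w u : ℂ) (hw : 1 < ‖w‖) (hu : ‖u‖ = 1) : psi w - psi u ≠ 0 := by
  intro h
  have h1 : psi w = psi u := sub_eq_zero.1 h
  obtain ⟨c, hc, hg⟩ := psi_grow
  have h2 := hg w hw.le
  have h3 := psi_bdry u hu
  rw [h1] at h2
  have h4 : max |(psi u).re| |(psi u).im| = 1 := h3
  rw [h4] at h2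
  have h5 : 0 < min (‖w‖ - 1) 1 := lt_min (by linarith) one_pos
  have h6 : 0 < c * (min (‖w‖ - 1) 1) ^ 2 := by positivity
  linarith

theorem yf_w (w : ℂ) (hw : 1 < ‖w‖) : w ≠ 0 := by
  intro h
  rw [h, norm_zero] at hw
  linarith

theorem yf_diff {n : ℕ} (u : Fin n → ℂ) (w : ℂ) (hw : 1 < ‖w‖) :
    DifferentiableAt ℂ (YF u) w := by
  have hw0 := yf_w w hw
  have hc : (cA : ℂ) ≠ 0 := by exact_mod_cast cA_pos.ne'
  have hp : DifferentiableAt ℂ psi w := (psi_deriv w hw).differentiableAt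
  unfold YF
  refine DifferentiableAt.fun_div ?_ ?_ (yf_den w hw)
  · refine DifferentiableAt.fun_finsetProd fun k _ => ?_
    refine DifferentiableAt.pow (DifferentiableAt.fun_div (hp.sub_const _) ?_ ?_) 4
    · exact differentiableAt_id.const_mul _
    · exact mul_ne_zero hc hw0
  · exact (differentiableAt_const _).add ((differentiableAt_inv hw0).pow 4)

theorem yf_ne0 {n : ℕ} (u : Fin n → ℂ) (hu : ∀ k, ‖u k‖ = 1) (w : ℂ) (hw : 1 < ‖w‖) :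
    YF u w ≠ 0 := by
  have hw0 := yf_w w hw
  have hc : (cA : ℂ) ≠ 0 := by exact_mod_cast cA_pos.ne'
  unfold YF
  refine div_ne_zero (Finset.prod_ne_zero_iff.2 fun k _ => ?_) (yf_den w hw)
  exact pow_ne_zero _ (div_ne_zero (yf_ne w _ hw (hu k)) (mul_ne_zero hc hw0))

theorem yf_tendsto {n : ℕ} (u : Fin n → ℂ) : Tendsto (YF u) (cocompact ℂ) (𝓝 1) := by
  have hc : (cA : ℂ) ≠ 0 := by exact_mod_cast cA_pos.ne'
  have hinv : Tendsto (fun w : ℂ => w⁻¹) (cocompact ℂ) (𝓝 0) := by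
    rw [← Metric.cobounded_eq_cocompact]
    exact tendsto_inv₀_cobounded
  have h1 : ∀ k, Tendsto (fun w : ℂ => ((psi w - psi (u k)) / ((cA : ℂ) * w)) ^ 4)
      (cocompact ℂ) (𝓝 1) := by
    intro k
    have h2 : Tendsto (fun w : ℂ => ((psi w / w) / (cA:ℂ) - psi (u k) / (cA:ℂ) * w⁻¹) ^ 4)
        (cocompact ℂ) (𝓝 (((cA:ℂ) / (cA:ℂ) - psi (u k) / (cA:ℂ) * 0) ^ 4)) :=
      ((psi_div_tendsto.div_const _).sub (hinv.const_mul _)).pow 4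
    have h3 : (((cA:ℂ) / (cA:ℂ) - psi (u k) / (cA:ℂ) * 0) ^ 4) = 1 := by
      rw [div_self hc]; ring
    rw [h3] at h2
    refine h2.congr fun w => ?_
    congr 1
    rw [sub_div, div_div, mul_comm w]
    congr 1
    rw [div_mul_eq_div_div, div_eq_mul_inv _ w]
  have h4 : Tendsto (fun w : ℂ => ∏ k, ((psi w - psi (u k)) / ((cA : ℂ) * w)) ^ 4)
      (cocompact ℂ) (𝓝 (∏ k : Fin n, (1:ℂ))) := tendsto_finsetProd _ fun k _ => h1 k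
  have h5 : Tendsto (fun w : ℂ => 1 + (w⁻¹) ^ 4) (cocompact ℂ) (𝓝 (1 + 0 ^ 4)) :=
    (hinv.pow 4).const_add 1
  have h6 := h4.div h5 (by norm_num)
  have h7 : (∏ k : Fin n, (1:ℂ)) / (1 + 0 ^ 4) = 1 := by simp
  rw [h7] at h6
  exact h6

theorem yf_norm {n : ℕ} (u : Fin n → ℂ) (w : ℂ) :
    ‖YF u w‖ = (∏ k, ‖psi w - psi (u k)‖) ^ 4 /
      ((cA * ‖w‖) ^ (4 * n) * ‖1 + (w⁻¹) ^ 4‖) := by
  unfold YF
  rw [norm_div, norm_prod, ← div_div]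
  congr 1
  have h1 : ∀ k, ‖((psi w - psi (u k)) / ((cA : ℂ) * w)) ^ 4‖ =
      ‖psi w - psi (u k)‖ ^ 4 / (cA * ‖w‖) ^ 4 := by
    intro k
    rw [norm_pow, norm_div, norm_mul, Complex.norm_real, Real.norm_eq_abs, abs_of_pos cA_pos,
      div_pow]
  rw [Finset.prod_congr rfl fun k _ => h1 k, Finset.prod_div_distrib, Finset.prod_pow,
    Finset.prod_const, Finset.card_univ, Fintype.card_fin, ← pow_mul]

theorem ext_final : ∃ C : ℝ, 0 < C ∧ ∃ n₀ : ℕ,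
    ∀ n : ℕ, n₀ ≤ n → ∀ u : Fin n → ℂ, FekData n u → ∀ k₀ : Fin n, ∀ Λ : ℝ,
    Λ = (MM u k₀ ^ 2 * rho n (u k₀)) ^ 2 / (n:ℝ) ^ 2 →
    (cA ^ (4 * n) ≤ C * Λ ∧ Λ ≤ C * cA ^ (4 * n)) ∧
    ∀ w : ℂ, 1 + 1 / (n:ℝ) ≤ ‖w‖ →
      (cA * ‖w‖) ^ (4 * n) * ‖1 + (w⁻¹) ^ 4‖ ≤ C * (∏ k, ‖psi w - psi (u k)‖) ^ 4 ∧
      (∏ k, ‖psi w - psi (u k)‖) ^ 4 ≤ C * ((cA * ‖w‖) ^ (4 * n) * ‖1 + (w⁻¹) ^ 4‖) := by
  obtain ⟨C, hC, n₀, hcirc⟩ := ext_circle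
  obtain ⟨K, hK⟩ : ∃ K, K = 81 * C := ⟨_, rfl⟩
  have hK0 : 0 < K := by rw [hK]; positivity
  refine ⟨K ^ 2 + K, by positivity, max n₀ 1, ?_⟩
  intro n hn u hu k₀ Λ hΛ
  have hn0 : n₀ ≤ n := (le_max_left _ _).trans hn
  have hn1 : 1 ≤ n := (le_max_right _ _).trans hn
  have hnr : (0:ℝ) < n := by exact_mod_cast hn1
  have hnr1 : (1:ℝ) ≤ n := by exact_mod_cast hn1
  have hΛ0 : 0 < Λ := by
    rw [hΛ]
    have h1 := hu.pos k₀
    have h2 := rho_pos n hn1 (u k₀)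
    positivity
  obtain ⟨r, hr⟩ : ∃ r : ℝ, r = 1 + 1 / (n:ℝ) := ⟨_, rfl⟩
  have hr1 : 1 < r := by rw [hr]; have : 0 < 1 / (n:ℝ) := by positivity
                         linarith
  have hr2 : r ≤ 2 := by
    rw [hr]
    have : 1 / (n:ℝ) ≤ 1 := by rw [div_le_one hnr]; exact hnr1
    linarith
  have hr0 : 0 < r := by linarith
  have hrn : r ^ (4 * n) ≤ 81 := by
    have h1 : r ≤ Real.exp (1 / (n:ℝ)) := by
      rw [hr, add_comm]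
      exact Real.add_one_le_exp _
    have h2 : r ^ (4 * n) ≤ Real.exp (1 / (n:ℝ)) ^ (4 * n) := pow_le_pow_left₀ hr0.le h1 _
    have h3 : Real.exp (1 / (n:ℝ)) ^ (4 * n) = Real.exp 1 ^ 4 := by
      rw [← Real.exp_nat_mul, ← Real.exp_nat_mul]
      congr 1
      push_cast
      field_simp
    have h4 : Real.exp 1 ≤ 3 := by
      have := Real.exp_one_lt_d9
      linarith
    have h5 : Real.exp 1 ^ 4 ≤ 3 ^ 4 := pow_le_pow_left₀ (Real.exp_pos _).le h4 4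
    rw [h3] at h2
    linarith
  have hcA := cA_pos
  have hcn : 0 < cA ^ (4 * n) := by positivity
  have hQ : ∀ w, 1 < ‖w‖ → 0 < (∏ k, ‖psi w - psi (u k)‖) ^ 4 := by
    intro w hw
    apply pow_pos
    exact Finset.prod_pos fun k _ => norm_pos_iff.2 (yf_ne w _ hw (hu.norm_u k))
  have hD : ∀ w : ℂ, 1 < ‖w‖ → 0 < (cA * ‖w‖) ^ (4 * n) * ‖1 + (w⁻¹) ^ 4‖ := by
    intro w hw
    have h1 : 0 < ‖w‖ := by linarith
    have h2 : 0 < ‖1 + (w⁻¹) ^ 4‖ := norm_pos_iff.2 (yf_den w hw)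
    positivity
  -- the denominator on the circle
  have hcir : ∀ w : ℂ, ‖w‖ = r → (cA * ‖w‖) ^ (4 * n) * ‖1 + (w⁻¹) ^ 4‖ =
      cA ^ (4 * n) * (r ^ (4 * n) / r ^ 4) * ‖w ^ 4 + 1‖ := by
    intro w hw
    have hw0 : w ≠ 0 := yf_w w (by rw [hw]; exact hr1)
    have h1 : 1 + (w⁻¹) ^ 4 = (w ^ 4 + 1) / w ^ 4 := by
      field_simp
    rw [h1, norm_div, norm_pow, hw, mul_pow]
    ring
  have hrr1 : 1 / 16 ≤ r ^ (4 * n) / r ^ 4 := by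
    rw [div_le_div_iff₀ (by norm_num) (by positivity)]
    have h1 : r ^ 4 ≤ 2 ^ 4 := pow_le_pow_left₀ hr0.le hr2 4
    have h2 : 1 ≤ r ^ (4 * n) := one_le_pow₀ hr1.le
    linarith
  have hrr2 : r ^ (4 * n) / r ^ 4 ≤ 81 := by
    rw [div_le_iff₀ (by positivity)]
    have h2 : 1 ≤ r ^ 4 := one_le_pow₀ hr1.le
    linarith
  have hw4 : ∀ w : ℂ, 1 < ‖w‖ → 0 < ‖w ^ 4 + 1‖ := by
    intro w hw
    rw [norm_pos_iff]
    intro h
    have hw0 := yf_w w hw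
    apply yf_den w hw
    have h1 : 1 + (w⁻¹) ^ 4 = (w ^ 4 + 1) / w ^ 4 := by
      field_simp
    rw [h1, h, zero_div]
  have hB1 : ∀ w : ℂ, ‖w‖ = r → ‖YF u w‖ ≤ K * Λ / cA ^ (4 * n) := by
    intro w hw
    have hw1 : 1 < ‖w‖ := by rw [hw]; exact hr1
    have h1 := (hcirc n hn0 u hu k₀ Λ hΛ w (by rw [hw, hr])).2
    rw [yf_norm, div_le_div_iff₀ (hD w hw1) hcn, hcir w hw]
    have h2 := hw4 w hw1
    calc (∏ k, ‖psi w - psi (u k)‖) ^ 4 * cA ^ (4 * n)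
        ≤ (C * (Λ * ‖w ^ 4 + 1‖)) * cA ^ (4 * n) := by gcongr
      _ = 16 * C * Λ * (cA ^ (4 * n) * (1 / 16) * ‖w ^ 4 + 1‖) := by ring
      _ ≤ K * Λ * (cA ^ (4 * n) * (r ^ (4 * n) / r ^ 4) * ‖w ^ 4 + 1‖) := by
        have : 16 * C ≤ K := by rw [hK]; linarith
        gcongr
  have hB2 : ∀ w : ℂ, ‖w‖ = r → ‖(YF u w)⁻¹‖ ≤ K * cA ^ (4 * n) / Λ := by
    intro w hw
    have hw1 : 1 < ‖w‖ := by rw [hw]; exact hr1
    have h1 := (hcirc n hn0 u hu k₀ Λ hΛ w (by rw [hw, hr])).1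
    rw [norm_inv, yf_norm, inv_div, div_le_div_iff₀ (hQ w hw1) hΛ0, hcir w hw]
    have h2 := hw4 w hw1
    calc cA ^ (4 * n) * (r ^ (4 * n) / r ^ 4) * ‖w ^ 4 + 1‖ * Λ
        ≤ cA ^ (4 * n) * 81 * ‖w ^ 4 + 1‖ * Λ := by gcongr
      _ = 81 * cA ^ (4 * n) * (Λ * ‖w ^ 4 + 1‖) := by ring
      _ ≤ 81 * cA ^ (4 * n) * (C * (∏ k, ‖psi w - psi (u k)‖) ^ 4) := by gcongr
      _ = _ := by rw [hK]; ring
  have hd1 : DifferentiableOn ℂ (YF u) {w : ℂ | r < ‖w‖} := fun w hw =>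
    (yf_diff u w (hr1.trans hw)).differentiableWithinAt
  have hc1 : ContinuousOn (YF u) {w : ℂ | r ≤ ‖w‖} := fun w hw =>
    (yf_diff u w (hr1.trans_le hw)).continuousAt.continuousWithinAt
  have hd2 : DifferentiableOn ℂ (fun w => (YF u w)⁻¹) {w : ℂ | r < ‖w‖} := fun w hw =>
    ((yf_diff u w (hr1.trans hw)).inv
      (yf_ne0 u hu.norm_u w (hr1.trans hw))).differentiableWithinAt
  have hc2 : ContinuousOn (fun w => (YF u w)⁻¹) {w : ℂ | r ≤ ‖w‖} := fun w hw =>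
    ((yf_diff u w (hr1.trans_le hw)).continuousAt.inv₀
      (yf_ne0 u hu.norm_u w (hr1.trans_le hw))).continuousWithinAt
  have hl1 := yf_tendsto u
  have hl2 : Tendsto (fun w => (YF u w)⁻¹) (cocompact ℂ) (𝓝 1) := by
    have := hl1.inv₀ one_ne_zero
    rwa [inv_one] at this
  obtain ⟨m1, m1'⟩ := ext_max (YF u) r _ 1 hr0 hd1 hc1 hl1 hB1
  obtain ⟨m2, m2'⟩ := ext_max (fun w => (YF u w)⁻¹) r _ 1 hr0 hd2 hc2 hl2 hB2
  rw [norm_one, one_le_div hcn] at m1'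
  rw [norm_one, one_le_div hΛ0] at m2'
  have hKK : K ≤ K ^ 2 + K := by nlinarith
  refine ⟨⟨?_, ?_⟩, ?_⟩
  · exact m1'.trans (mul_le_mul_of_nonneg_right hKK hΛ0.le)
  · exact m2'.trans (mul_le_mul_of_nonneg_right hKK hcn.le)
  intro w hw
  rw [← hr] at hw
  have hw1 : 1 < ‖w‖ := hr1.trans_le hw
  have e1 := m1 w hw
  have e2 := m2 w hw
  rw [norm_inv, yf_norm, inv_div, div_le_div_iff₀ (hQ w hw1) hΛ0] at e2
  rw [yf_norm, div_le_div_iff₀ (hD w hw1) hcn] at e1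
  have hQ1 := hQ w hw1
  have hD1 := hD w hw1
  obtain ⟨Q, hQe⟩ : ∃ Q, Q = (∏ k, ‖psi w - psi (u k)‖) ^ 4 := ⟨_, rfl⟩
  obtain ⟨D, hDe⟩ : ∃ D, D = (cA * ‖w‖) ^ (4 * n) * ‖1 + (w⁻¹) ^ 4‖ := ⟨_, rfl⟩
  rw [← hQe] at e1 e2 hQ1 ⊢
  rw [← hDe] at e1 e2 hD1 ⊢
  constructor
  · have h1 : D * Λ ≤ K * (K * Λ) * Q := by
      refine e2.trans ?_
      gcongr
    have h2 : D * Λ ≤ (K ^ 2 * Q) * Λ := by
      calc D * Λ ≤ _ := h1
        _ = _ := by ring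
    have h3 := le_of_mul_le_mul_right h2 hΛ0
    refine h3.trans ?_
    gcongr
    linarith
  · have h1 : Q * cA ^ (4 * n) ≤ K * (K * cA ^ (4 * n)) * D := by
      refine e1.trans ?_
      gcongr
    have h2 : Q * cA ^ (4 * n) ≤ (K ^ 2 * D) * cA ^ (4 * n) := by
      calc Q * cA ^ (4 * n) ≤ _ := h1
        _ = _ := by ring
    have h3 := le_of_mul_le_mul_right h2 hcn
    refine h3.trans ?_
    gcongr
    linarith

end Pool.Agent.Helper606.Fek
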