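import Pool.Agent.Helper606.Fek.Defs
import Pool.Agent.Helper606.Fek.P_cA_pos
import Pool.Agent.Helper606.Fek.P_psi_bdry
import Pool.Agent.Helper606.Fek.P_psi_upper
import Pool.Agent.Helper606.Fek.P_ext_final

set_option autoImplicit false

namespace Pool.Agent.Helper606.Fek
open Complex Set Filter Topology


theorem ef2_root {a b C : ℝ} (ha : 0 ≤ a) (hb : 0 ≤ b) (hC : 1 ≤ C) (h : a ^ 4 ≤ C * b ^ 4) :
    a ≤ C * b := by
  have h1 : a ^ 4 ≤ (C * b) ^ 4 := by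
    rw [mul_pow]
    refine h.trans (mul_le_mul_of_nonneg_right ?_ (by positivity))
    calc C = C ^ 1 := (pow_one C).symm
      _ ≤ C ^ 4 := pow_le_pow_right₀ hC (by norm_num)
  exact le_of_pow_le_pow_left₀ (by norm_num) (by positivity) h1

theorem ef2_eta (δ : ℝ) (hδ : 0 < δ) : ∃ η : ℝ, 0 < η ∧ ∀ w : ℂ, 1 < ‖w‖ →
    δ ≤ Metric.infDist (psi w) sq → 1 + η ≤ ‖w‖ := by
  obtain ⟨C₁, hC₁, hup⟩ := psi_upper
  refine ⟨min 1 (δ / (2 * C₁)), lt_min one_pos (by positivity), fun w hw hd => ?_⟩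
  rcases le_total ‖w‖ 2 with h2 | h2
  · have hw0 : (0 : ℝ) < ‖w‖ := by linarith
    have hu : ‖w / (‖w‖ : ℂ)‖ = 1 := by
      rw [norm_div, Complex.norm_real, norm_norm, div_self hw0.ne']
    have hwu : ‖w - w / (‖w‖ : ℂ)‖ = ‖w‖ - 1 := by
      have e1 : w - w / (‖w‖ : ℂ) = w * (((‖w‖ - 1) / ‖w‖ : ℝ) : ℂ) := by
        have : (‖w‖ : ℂ) ≠ 0 := by exact_mod_cast hw0.ne'
        push_cast
        field_simp
      rw [e1, norm_mul, Complex.norm_real, Real.norm_of_nonneg (by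
        apply div_nonneg <;> linarith)]
      field_simp
    have h3 := hup w _ hw.le h2 hu
    have h4 : δ ≤ ‖psi w - psi (w / (‖w‖ : ℂ))‖ := by
      rw [← dist_eq_norm]
      exact hd.trans (Metric.infDist_le_dist_of_mem (psi_bdry _ hu))
    rw [hwu] at h3
    have h5 : ‖(w / (‖w‖ : ℂ)) ^ 4 + 1‖ ≤ 2 := by
      calc ‖(w / (‖w‖ : ℂ)) ^ 4 + 1‖ ≤ ‖(w / (‖w‖ : ℂ)) ^ 4‖ + ‖(1 : ℂ)‖ := norm_add_le _ _
        _ = 2 := by rw [norm_pow, hu]; norm_num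
    have h6 : Real.sqrt (‖(w / (‖w‖ : ℂ)) ^ 4 + 1‖ + (‖w‖ - 1)) ≤ 2 := by
      rw [Real.sqrt_le_left (by norm_num)]
      linarith
    have h7 : δ ≤ C₁ * (‖w‖ - 1) * 2 := by
      refine h4.trans (h3.trans (mul_le_mul_of_nonneg_left h6 ?_))
      apply mul_nonneg hC₁.le
      linarith
    have h8 : δ / (2 * C₁) ≤ ‖w‖ - 1 := by
      rw [div_le_iff₀ (by positivity)]
      linarith
    have := min_le_right 1 (δ / (2 * C₁))
    linarith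
  · have := min_le_left 1 (δ / (2 * C₁))
    linarith

theorem ext_final2 (δ : ℝ) (hδ : 0 < δ) : ∃ C : ℝ, 0 < C ∧ ∃ n₀ : ℕ,
    ∀ n : ℕ, n₀ ≤ n → ∀ u : Fin n → ℂ, FekData n u →
    ∀ w : ℂ, 1 < ‖w‖ → δ ≤ Metric.infDist (psi w) sq →
      (cA * ‖w‖) ^ n ≤ C * ∏ k, ‖psi w - psi (u k)‖ ∧
      ∏ k, ‖psi w - psi (u k)‖ ≤ C * (cA * ‖w‖) ^ n := by
  obtain ⟨η, hη, heta⟩ := ef2_eta δ hδ
  obtain ⟨C₂, hC₂, n₁, hmain⟩ := ext_final
  have hm : 0 < η / (1 + η) := by positivity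
  refine ⟨1 + C₂ / (η / (1 + η)) + 2 * C₂, by positivity, max n₁ (⌈1 / η⌉₊ + 1), ?_⟩
  intro n hn u hu w hw hd
  have hn1 : n₁ ≤ n := (le_max_left _ _).trans hn
  have hn2 : ⌈1 / η⌉₊ + 1 ≤ n := (le_max_right _ _).trans hn
  have hn0 : 0 < n := by omega
  have hwe := heta w hw hd
  have hnr : 1 / η ≤ (n : ℝ) := by
    have h1 := Nat.le_ceil (1 / η)
    have h2 : ((⌈1 / η⌉₊ + 1 : ℕ) : ℝ) ≤ (n : ℝ) := by exact_mod_cast hn2
    push_cast at h2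
    linarith
  have hn0r : (0 : ℝ) < n := by exact_mod_cast hn0
  have hwn : 1 + 1 / (n : ℝ) ≤ ‖w‖ := by
    have : 1 / (n : ℝ) ≤ η := by
      rw [div_le_iff₀ hn0r]
      rw [div_le_iff₀ hη] at hnr
      linarith
    linarith
  obtain ⟨-, hfin⟩ := hmain n hn1 u hu ⟨0, hn0⟩ _ rfl
  obtain ⟨h1, h2⟩ := hfin w hwn
  have hw0 : (0 : ℝ) < ‖w‖ := by linarith
  have hcA := cA_pos
  have hX : 0 ≤ (cA * ‖w‖) ^ n := by positivity
  have hPi : 0 ≤ ∏ k, ‖psi w - psi (u k)‖ := Finset.prod_nonneg fun k _ => norm_nonneg _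
  have hpow : (cA * ‖w‖) ^ (4 * n) = ((cA * ‖w‖) ^ n) ^ 4 := by rw [mul_comm 4 n, pow_mul]
  rw [hpow] at h1 h2
  have hinv4 : ‖(w⁻¹) ^ 4‖ ≤ 1 / (1 + η) := by
    rw [norm_pow, norm_inv]
    have h3 : ‖w‖⁻¹ ≤ 1 / (1 + η) := by
      rw [inv_eq_one_div]
      exact one_div_le_one_div_of_le (by positivity) hwe
    have h4 : ‖w‖⁻¹ ≤ 1 := inv_le_one_of_one_le₀ hw.le
    have h5 : 0 ≤ ‖w‖⁻¹ := by positivity
    calc ‖w‖⁻¹ ^ 4 ≤ ‖w‖⁻¹ ^ 1 := pow_le_pow_of_le_one h5 h4 (by norm_num)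
      _ = ‖w‖⁻¹ := pow_one _
      _ ≤ _ := h3
  have hlow : η / (1 + η) ≤ ‖1 + (w⁻¹) ^ 4‖ := by
    have h3 : ‖(1 : ℂ)‖ - ‖(w⁻¹) ^ 4‖ ≤ ‖1 + (w⁻¹) ^ 4‖ := by
      have := norm_sub_norm_le (1 : ℂ) (-(w⁻¹) ^ 4)
      simpa using this
    rw [norm_one] at h3
    have h4 : η / (1 + η) = 1 - 1 / (1 + η) := by field_simp; ring
    rw [h4]
    linarith
  have hup : ‖1 + (w⁻¹) ^ 4‖ ≤ 2 := by
    have h3 := norm_add_le (1 : ℂ) ((w⁻¹) ^ 4)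
    rw [norm_one] at h3
    have h4 : 1 / (1 + η) ≤ 1 := by
      rw [div_le_one (by positivity)]
      linarith
    linarith
  have hq : 0 ≤ C₂ / (η / (1 + η)) := by positivity
  constructor
  · apply ef2_root hX hPi (by linarith)
    have h3 : ((cA * ‖w‖) ^ n) ^ 4 * (η / (1 + η)) ≤ C₂ * (∏ k, ‖psi w - psi (u k)‖) ^ 4 :=
      (mul_le_mul_of_nonneg_left hlow (by positivity)).trans h1
    have h4 : ((cA * ‖w‖) ^ n) ^ 4 ≤ C₂ / (η / (1 + η)) * (∏ k, ‖psi w - psi (u k)‖) ^ 4 := by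
      rw [div_mul_eq_mul_div, le_div_iff₀ hm]
      exact h3
    refine h4.trans (mul_le_mul_of_nonneg_right ?_ (by positivity))
    linarith
  · apply ef2_root hPi hX (by linarith)
    have h3 : (∏ k, ‖psi w - psi (u k)‖) ^ 4 ≤ C₂ * (((cA * ‖w‖) ^ n) ^ 4 * 2) :=
      h2.trans (mul_le_mul_of_nonneg_left (mul_le_mul_of_nonneg_left hup (by positivity)) hC₂.le)
    calc (∏ k, ‖psi w - psi (u k)‖) ^ 4 ≤ C₂ * (((cA * ‖w‖) ^ n) ^ 4 * 2) := h3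
      _ = (2 * C₂) * ((cA * ‖w‖) ^ n) ^ 4 := by ring
      _ ≤ _ := mul_le_mul_of_nonneg_right (by linarith) (by positivity)

end Pool.Agent.Helper606.Fek
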