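import Pool.Agent.Helper606.Fek.Defs

set_option autoImplicit false

namespace Pool.Agent.Helper606.Fek

open Complex Set Filter Topology

/-- local scale in the square -/
noncomputable def kap (n : ℕ) (z : ℂ) : ℝ :=
  (1 / (n:ℝ)) * (‖z ^ 4 + 4‖ + (n:ℝ) ^ (-(3/2) : ℝ)) ^ (1/3 : ℝ)

end Pool.Agent.Helper606.Fek
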