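import Pool.Agent.Helper606.Fek.Defs
import Pool.Agent.Helper606.Fek.P_kap_def

set_option autoImplicit false

namespace Pool.Agent.Helper606.Fek
open Complex Set Filter Topology


theorem h400_norm_le (z : ℂ) (hz : max |z.re| |z.im| ≤ 1) : ‖z‖ ≤ 3 / 2 := by
  have h1 : |z.re| ≤ 1 := (le_max_left _ _).trans hz
  have h2 : |z.im| ≤ 1 := (le_max_right _ _).trans hz
  have h3 : ‖z‖ ^ 2 = z.re ^ 2 + z.im ^ 2 := by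
    rw [← Complex.normSq_eq_norm_sq, Complex.normSq_apply]
    ring
  have h4 : z.re ^ 2 ≤ 1 := (sq_le_one_iff_abs_le_one _).mpr h1
  have h5 : z.im ^ 2 ≤ 1 := (sq_le_one_iff_abs_le_one _).mpr h2
  nlinarith [norm_nonneg z]

theorem h400_pow4 (z z' : ℂ) (hz : ‖z‖ ≤ 3 / 2) (hz' : ‖z'‖ ≤ 3 / 2) :
    ‖z ^ 4 - z' ^ 4‖ ≤ 27 / 2 * ‖z - z'‖ := by
  have h1 : z ^ 4 - z' ^ 4 = (z ^ 3 + z ^ 2 * z' + z * z' ^ 2 + z' ^ 3) * (z - z') := by ring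
  rw [h1, norm_mul]
  apply mul_le_mul_of_nonneg_right _ (norm_nonneg _)
  have h2 : ‖z ^ 3 + z ^ 2 * z' + z * z' ^ 2 + z' ^ 3‖ ≤
      ‖z‖ ^ 3 + ‖z‖ ^ 2 * ‖z'‖ + ‖z‖ * ‖z'‖ ^ 2 + ‖z'‖ ^ 3 := by
    refine (norm_add_le _ _).trans ?_
    refine add_le_add ((norm_add_le _ _).trans (add_le_add ((norm_add_le _ _).trans ?_) ?_)) ?_
    · rw [norm_pow, norm_mul, norm_pow]
    · rw [norm_mul, norm_pow]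
    · rw [norm_pow]
  refine h2.trans ?_
  have a0 := norm_nonneg z
  have b0 := norm_nonneg z'
  have h3 : ‖z‖ ^ 3 ≤ (3 / 2) ^ 3 := pow_le_pow_left₀ a0 hz 3
  have h4 : ‖z'‖ ^ 3 ≤ (3 / 2) ^ 3 := pow_le_pow_left₀ b0 hz' 3
  have h5 : ‖z‖ ^ 2 * ‖z'‖ ≤ (3 / 2) ^ 2 * (3 / 2) :=
    mul_le_mul (pow_le_pow_left₀ a0 hz 2) hz' b0 (by norm_num)
  have h6 : ‖z‖ * ‖z'‖ ^ 2 ≤ (3 / 2) * (3 / 2) ^ 2 :=
    mul_le_mul hz (pow_le_pow_left₀ b0 hz' 2) (by positivity) (by norm_num)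
  linarith

theorem h400_third (a b : ℝ) (ha : 0 ≤ a) (hb : 0 ≤ b) (h : a ≤ 2 * b) :
    a ^ (1/3 : ℝ) ≤ 2 * b ^ (1/3 : ℝ) := by
  have h1 : a ^ (1/3 : ℝ) ≤ (8 * b) ^ (1/3 : ℝ) :=
    Real.rpow_le_rpow ha (by linarith) (by norm_num)
  rw [Real.mul_rpow (by norm_num) hb] at h1
  have h2 : (8:ℝ) ^ (1/3 : ℝ) = 2 := by
    rw [show (8:ℝ) = 2 ^ (3:ℝ) by norm_num, ← Real.rpow_mul (by norm_num)]
    norm_num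
  rwa [h2] at h1

theorem h400_kapS (n : ℕ) (hn : 1 ≤ n) (S : ℝ) (hS : (n:ℝ) ^ (-(3/2) : ℝ) ≤ S) :
    (1 / (n:ℝ)) * S ^ (1/3 : ℝ) ≤ S := by
  have hn0 : (0:ℝ) < n := by exact_mod_cast hn
  have h0 : 0 < (n:ℝ) ^ (-(3/2) : ℝ) := Real.rpow_pos_of_pos hn0 _
  have hS0 : 0 < S := h0.trans_le hS
  have h1 : ((n:ℝ) ^ (-(3/2) : ℝ)) ^ (2/3 : ℝ) ≤ S ^ (2/3 : ℝ) :=
    Real.rpow_le_rpow h0.le hS (by norm_num)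
  rw [← Real.rpow_mul hn0.le] at h1
  have h2 : (-(3/2) : ℝ) * (2/3) = -1 := by norm_num
  rw [h2, Real.rpow_neg_one] at h1
  calc (1 / (n:ℝ)) * S ^ (1/3 : ℝ) ≤ S ^ (2/3 : ℝ) * S ^ (1/3 : ℝ) := by
        apply mul_le_mul_of_nonneg_right _ (Real.rpow_nonneg hS0.le _)
        rw [one_div]
        exact h1
    _ = S := by
        rw [← Real.rpow_add hS0]
        norm_num

theorem kap_lip : ∃ c : ℝ, 0 < c ∧ c ≤ 1 ∧ ∀ n : ℕ, 1 ≤ n → ∀ z z' : ℂ, max |z.re| |z.im| ≤ 1 →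
    max |z'.re| |z'.im| ≤ 1 → ‖z - z'‖ ≤ c * kap n z →
    kap n z' ≤ 2 * kap n z ∧ kap n z ≤ 2 * kap n z' := by
  refine ⟨1 / 27, by norm_num, by norm_num, ?_⟩
  intro n hn z z' hz hz' hzz
  have hn0 : (0:ℝ) < n := by exact_mod_cast hn
  have hN := Real.rpow_pos_of_pos hn0 (-(3/2) : ℝ)
  unfold kap at hzz ⊢
  obtain ⟨e, he⟩ : ∃ e, e = (n:ℝ) ^ (-(3/2) : ℝ) := ⟨_, rfl⟩
  have h1 := h400_kapS n hn (‖z ^ 4 + 4‖ + (n:ℝ) ^ (-(3/2) : ℝ))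
    (le_add_of_nonneg_left (norm_nonneg _))
  have h2 := h400_pow4 z z' (h400_norm_le z hz) (h400_norm_le z' hz')
  rw [← he] at h1 hzz hN ⊢
  have h3 : |‖z ^ 4 + 4‖ - ‖z' ^ 4 + 4‖| ≤ ‖z ^ 4 - z' ^ 4‖ := by
    have := abs_norm_sub_norm_le (z ^ 4 + 4) (z' ^ 4 + 4)
    rwa [add_sub_add_right_eq_sub] at this
  have h4 := abs_le.mp h3
  have h5 : (0:ℝ) ≤ ‖z ^ 4 + 4‖ := norm_nonneg _
  have h6 : (0:ℝ) ≤ ‖z' ^ 4 + 4‖ := norm_nonneg _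
  have h7 : (0:ℝ) < 1 / (n:ℝ) := by positivity
  have h8 := h400_third (‖z' ^ 4 + 4‖ + e) (‖z ^ 4 + 4‖ + e) (by linarith) (by linarith)
    (by linarith [h4.1, h4.2])
  have h9 := h400_third (‖z ^ 4 + 4‖ + e) (‖z' ^ 4 + 4‖ + e) (by linarith) (by linarith)
    (by linarith [h4.1, h4.2])
  constructor
  · calc 1 / (n:ℝ) * (‖z' ^ 4 + 4‖ + e) ^ (1/3 : ℝ)
        ≤ 1 / (n:ℝ) * (2 * (‖z ^ 4 + 4‖ + e) ^ (1/3 : ℝ)) :=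
          mul_le_mul_of_nonneg_left h8 h7.le
      _ = 2 * (1 / (n:ℝ) * (‖z ^ 4 + 4‖ + e) ^ (1/3 : ℝ)) := by ring
  · calc 1 / (n:ℝ) * (‖z ^ 4 + 4‖ + e) ^ (1/3 : ℝ)
        ≤ 1 / (n:ℝ) * (2 * (‖z' ^ 4 + 4‖ + e) ^ (1/3 : ℝ)) :=
          mul_le_mul_of_nonneg_left h9 h7.le
      _ = 2 * (1 / (n:ℝ) * (‖z' ^ 4 + 4‖ + e) ^ (1/3 : ℝ)) := by ring

end Pool.Agent.Helper606.Fek
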