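import Pool.Agent.Helper606.Fek.Defs
import Pool.Agent.Helper606.Fek.P_psi_sym
import Pool.Agent.Helper606.Fek.P_sector_decomp
import Pool.Agent.Helper606.Fek.P_sq_rot
import Pool.Agent.Helper606.Fek.P_psi_bdry
import Pool.Agent.Helper606.Fek.P_right_side
import Pool.Agent.Helper606.Fek.P_s_del

set_option autoImplicit false

namespace Pool.Agent.Helper606.Fek
open Complex Set Filter Topology


theorem pf_rot (m : ℕ) (w : ℂ) : psi (I ^ m * w) = I ^ m * psi w := by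
  induction m with
  | zero => simp
  | succ m ih => rw [pow_succ', mul_assoc, psi_rot, ih, mul_assoc]

theorem pf_four (m : ℕ) (w : ℂ) : (I ^ m * w) ^ 4 = w ^ 4 := by
  rw [mul_pow, ← pow_mul, mul_comm m 4, pow_mul, I_pow_four, one_pow, one_mul]

theorem pf_side (u : ℂ) (hu : ‖u‖ = 1) : ∃ m : ℕ, (psi (I ^ m * u)).re = 1 := by
  have h : max |(psi u).re| |(psi u).im| = 1 := psi_bdry u hu
  rcases max_choice |(psi u).re| |(psi u).im| with h1 | h1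
  · rw [h1] at h
    rcases (abs_eq zero_le_one).mp h with h2 | h2
    · exact ⟨0, by simpa using h2⟩
    · refine ⟨2, ?_⟩
      rw [pf_rot, I_sq]
      simp [h2]
  · rw [h1] at h
    rcases (abs_eq zero_le_one).mp h with h2 | h2
    · refine ⟨3, ?_⟩
      rw [pf_rot, I_pow_three]
      simp [h2]
    · refine ⟨1, ?_⟩
      rw [pf_rot, pow_one]
      simp [h2]

theorem pf_norm (z : ℂ) (hre : z.re = 1) (him : |z.im| ≤ 1) :
    5 * (1 - |z.im|) ≤ ‖z ^ 4 + 4‖ ∧ ‖z ^ 4 + 4‖ ≤ 12 * (1 - |z.im|) := by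
  obtain ⟨x, hx⟩ : ∃ x : ℝ, x = z.im := ⟨_, rfl⟩
  rw [← hx] at him ⊢
  have hz : z = 1 + I * x := by
    apply Complex.ext
    · simp [hre]
    · simp [hx]
  have h1 : z ^ 4 + 4 = ((1 - x ^ 2 : ℝ) : ℂ) * (((5 - x ^ 2 : ℝ) : ℂ) + ((4 * x : ℝ) : ℂ) * I) := by
    rw [hz]
    push_cast
    have hI : I ^ 2 = -1 := I_sq
    linear_combination ((x : ℂ) ^ 4 * (I ^ 2 - 1) + 4 * (x : ℂ) ^ 3 * I + 6 * (x : ℂ) ^ 2) * hI
  have hx2 : x ^ 2 = |x| ^ 2 := (sq_abs x).symm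
  have h0 : 0 ≤ |x| := abs_nonneg x
  have h2 : ‖((1 - x ^ 2 : ℝ) : ℂ)‖ = (1 - |x|) * (1 + |x|) := by
    rw [Complex.norm_real, Real.norm_of_nonneg (by nlinarith), hx2]
    ring
  obtain ⟨N, hN⟩ : ∃ N, N = ‖(((5 - x ^ 2 : ℝ) : ℂ) + ((4 * x : ℝ) : ℂ) * I)‖ := ⟨_, rfl⟩
  have hN0 : 0 ≤ N := by rw [hN]; exact norm_nonneg _
  have hN2 : N ^ 2 = (5 - x ^ 2) ^ 2 + (4 * x) ^ 2 := by
    rw [hN, Complex.sq_norm, Complex.normSq_add_mul_I]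
  have hN5 : 5 ≤ N := by nlinarith [sq_nonneg x, sq_nonneg (x ^ 2)]
  have hN6 : N ≤ 6 := by
    have h3 : x ^ 2 ≤ 1 := by nlinarith
    nlinarith [sq_nonneg x, sq_nonneg (x ^ 2)]
  rw [h1, norm_mul, h2, ← hN]
  have hs : 0 ≤ 1 - |x| := by linarith
  constructor
  · have h4 : 5 * (1 - |x|) ≤ N * (1 - |x|) := mul_le_mul_of_nonneg_right hN5 hs
    nlinarith [mul_nonneg (mul_nonneg hN0 hs) h0]
  · have h4 : (1 - |x|) * (1 + |x|) ≤ (1 - |x|) * 2 :=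
      mul_le_mul_of_nonneg_left (by linarith) hs
    have h5 : (1 - |x|) * (1 + |x|) * N ≤ ((1 - |x|) * 2) * 6 := by
      apply mul_le_mul h4 hN6 hN0
      linarith
    linarith

theorem psi_four : ∃ c C : ℝ, 0 < c ∧ 0 < C ∧ ∀ u : ℂ, ‖u‖ = 1 →
    c * ‖u ^ 4 + 1‖ ^ (3/2 : ℝ) ≤ ‖(psi u) ^ 4 + 4‖ ∧
    ‖(psi u) ^ 4 + 4‖ ≤ C * ‖u ^ 4 + 1‖ ^ (3/2 : ℝ) := by
  obtain ⟨c0, C0, hc0, hC0, h⟩ := s_del
  refine ⟨5 / C0 ^ (3 / 2 : ℝ), 12 / c0 ^ (3 / 2 : ℝ), by positivity, by positivity, ?_⟩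
  intro u hu
  obtain ⟨m, hm⟩ := pf_side u hu
  have hu' : ‖I ^ m * u‖ = 1 := by rw [norm_mul, norm_pow, norm_I, one_pow, one_mul, hu]
  have h1 := h (I ^ m * u) hu' hm
  have hb : max |(psi (I ^ m * u)).re| |(psi (I ^ m * u)).im| = 1 := psi_bdry _ hu'
  have him : |(psi (I ^ m * u)).im| ≤ 1 := by rw [← hb]; exact le_max_right _ _
  have h2 := pf_norm _ hm him
  have e1 : (psi (I ^ m * u)) ^ 4 = (psi u) ^ 4 := by rw [pf_rot, pf_four]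
  rw [pf_four] at h1
  rw [e1] at h2
  obtain ⟨s, hs⟩ : ∃ s, s = 1 - |(psi (I ^ m * u)).im| := ⟨_, rfl⟩
  rw [← hs] at h1 h2
  have hs0 : 0 ≤ s := by rw [hs]; linarith
  have hδ0 : 0 ≤ ‖u ^ 4 + 1‖ := norm_nonneg _
  have e2 : (s ^ (2 / 3 : ℝ)) ^ (3 / 2 : ℝ) = s := by
    rw [← Real.rpow_mul hs0]
    norm_num
  have h3 : c0 ^ (3 / 2 : ℝ) * s ≤ ‖u ^ 4 + 1‖ ^ (3 / 2 : ℝ) := by
    have h4 := Real.rpow_le_rpow (by positivity) h1.1 (by norm_num : (0 : ℝ) ≤ 3 / 2)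
    rwa [Real.mul_rpow hc0.le (by positivity), e2] at h4
  have h4 : ‖u ^ 4 + 1‖ ^ (3 / 2 : ℝ) ≤ C0 ^ (3 / 2 : ℝ) * s := by
    have h5 := Real.rpow_le_rpow hδ0 h1.2 (by norm_num : (0 : ℝ) ≤ 3 / 2)
    rwa [Real.mul_rpow hC0.le (by positivity), e2] at h5
  constructor
  · refine le_trans ?_ h2.1
    rw [div_mul_eq_mul_div, div_le_iff₀ (by positivity)]
    linarith
  · refine h2.2.trans ?_
    rw [div_mul_eq_mul_div, le_div_iff₀ (by positivity)]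
    linarith

end Pool.Agent.Helper606.Fek
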