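import Pool.Agent.Helper606.Fek.Defs
import Pool.Agent.Helper606.Fek.P_kap_def
import Pool.Agent.Helper606.Fek.P_psi_four

set_option autoImplicit false

namespace Pool.Agent.Helper606.Fek
open Complex Set Filter Topology


theorem kap_rho_aux {c C a b X : ℝ} (hc : 0 < c) (hC : 0 < C) (ha : 0 ≤ a) (hb : 0 < b)
    (h1 : c * a ^ (3/2 : ℝ) ≤ X) (h2 : X ≤ C * a ^ (3/2 : ℝ)) :
    (min c 1 / 4) ^ (1/3 : ℝ) * Real.sqrt (a + b) ≤ (X + b ^ (3/2 : ℝ)) ^ (1/3 : ℝ) ∧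
    (X + b ^ (3/2 : ℝ)) ^ (1/3 : ℝ) ≤ (2 * max C 1) ^ (1/3 : ℝ) * Real.sqrt (a + b) := by
  have hab : 0 ≤ a + b := by linarith
  have hA : 0 ≤ a ^ (3/2 : ℝ) := Real.rpow_nonneg ha _
  have hB : 0 ≤ b ^ (3/2 : ℝ) := Real.rpow_nonneg hb.le _
  have hAB : 0 ≤ (a + b) ^ (3/2 : ℝ) := Real.rpow_nonneg hab _
  have h22 : (2:ℝ) ^ (3/2 : ℝ) ≤ 4 := by
    have : (2:ℝ) ^ (3/2 : ℝ) ≤ (2:ℝ) ^ (2 : ℝ) :=
      Real.rpow_le_rpow_of_exponent_le (by norm_num) (by norm_num)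
    have e : (2:ℝ) ^ (2 : ℝ) = 4 := by
      rw [show (2:ℝ) ^ (2 : ℝ) = (2:ℝ) ^ ((2:ℕ) : ℝ) by norm_num, Real.rpow_natCast]
      norm_num
    linarith
  have k1 : (a + b) ^ (3/2 : ℝ) ≤ 4 * (a ^ (3/2 : ℝ) + b ^ (3/2 : ℝ)) := by
    rcases le_total a b with h | h
    · have e1 : (a + b) ^ (3/2 : ℝ) ≤ (2 * b) ^ (3/2 : ℝ) :=
        Real.rpow_le_rpow hab (by linarith) (by norm_num)
      rw [Real.mul_rpow (by norm_num) hb.le] at e1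
      have e2 : (2:ℝ) ^ (3/2 : ℝ) * b ^ (3/2 : ℝ) ≤ 4 * b ^ (3/2 : ℝ) :=
        mul_le_mul_of_nonneg_right h22 hB
      linarith
    · have e1 : (a + b) ^ (3/2 : ℝ) ≤ (2 * a) ^ (3/2 : ℝ) :=
        Real.rpow_le_rpow hab (by linarith) (by norm_num)
      rw [Real.mul_rpow (by norm_num) ha] at e1
      have e2 : (2:ℝ) ^ (3/2 : ℝ) * a ^ (3/2 : ℝ) ≤ 4 * a ^ (3/2 : ℝ) :=
        mul_le_mul_of_nonneg_right h22 hA
      linarith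
  have k2 : a ^ (3/2 : ℝ) + b ^ (3/2 : ℝ) ≤ 2 * (a + b) ^ (3/2 : ℝ) := by
    have e1 : a ^ (3/2 : ℝ) ≤ (a + b) ^ (3/2 : ℝ) :=
      Real.rpow_le_rpow ha (by linarith) (by norm_num)
    have e2 : b ^ (3/2 : ℝ) ≤ (a + b) ^ (3/2 : ℝ) :=
      Real.rpow_le_rpow hb.le (by linarith) (by norm_num)
    linarith
  have hsq : ((a + b) ^ (3/2 : ℝ)) ^ (1/3 : ℝ) = Real.sqrt (a + b) := by
    rw [← Real.rpow_mul hab, Real.sqrt_eq_rpow]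
    norm_num
  have hm0 : 0 ≤ min c 1 := (lt_min hc one_pos).le
  have hM0 : 0 ≤ max C 1 := le_trans zero_le_one (le_max_right _ _)
  have l1 : (min c 1 / 4) * (a + b) ^ (3/2 : ℝ) ≤ X + b ^ (3/2 : ℝ) := by
    have e1 : (min c 1 / 4) * (a + b) ^ (3/2 : ℝ) ≤
        (min c 1 / 4) * (4 * (a ^ (3/2 : ℝ) + b ^ (3/2 : ℝ))) :=
      mul_le_mul_of_nonneg_left k1 (by positivity)
    have e2 : min c 1 * a ^ (3/2 : ℝ) ≤ c * a ^ (3/2 : ℝ) :=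
      mul_le_mul_of_nonneg_right (min_le_left _ _) hA
    have e3 : min c 1 * b ^ (3/2 : ℝ) ≤ 1 * b ^ (3/2 : ℝ) :=
      mul_le_mul_of_nonneg_right (min_le_right _ _) hB
    linarith
  have l2 : X + b ^ (3/2 : ℝ) ≤ (2 * max C 1) * (a + b) ^ (3/2 : ℝ) := by
    have e1 : max C 1 * (a ^ (3/2 : ℝ) + b ^ (3/2 : ℝ)) ≤
        max C 1 * (2 * (a + b) ^ (3/2 : ℝ)) :=
      mul_le_mul_of_nonneg_left k2 hM0
    have e2 : C * a ^ (3/2 : ℝ) ≤ max C 1 * a ^ (3/2 : ℝ) :=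
      mul_le_mul_of_nonneg_right (le_max_left _ _) hA
    have e3 : 1 * b ^ (3/2 : ℝ) ≤ max C 1 * b ^ (3/2 : ℝ) :=
      mul_le_mul_of_nonneg_right (le_max_right _ _) hB
    linarith
  have hX : 0 ≤ X + b ^ (3/2 : ℝ) := by
    have : 0 ≤ c * a ^ (3/2 : ℝ) := mul_nonneg hc.le hA
    linarith
  constructor
  · rw [← hsq, ← Real.mul_rpow (by positivity) hAB]
    exact Real.rpow_le_rpow (by positivity) l1 (by norm_num)
  · rw [← hsq, ← Real.mul_rpow (by positivity) hAB]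
    exact Real.rpow_le_rpow hX l2 (by norm_num)

theorem kap_rho : ∃ c C : ℝ, 0 < c ∧ 0 < C ∧ ∀ n : ℕ, 1 ≤ n → ∀ u : ℂ, ‖u‖ = 1 →
    c * rho n u ≤ kap n (psi u) ∧ kap n (psi u) ≤ C * rho n u := by
  obtain ⟨c, C, hc, hC, h⟩ := psi_four
  have hm : 0 < min c 1 := lt_min hc one_pos
  have hM : 0 < max C 1 := lt_of_lt_of_le one_pos (le_max_right _ _)
  refine ⟨(min c 1 / 4) ^ (1/3 : ℝ), (2 * max C 1) ^ (1/3 : ℝ), Real.rpow_pos_of_pos (by positivity) _,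
    Real.rpow_pos_of_pos (by positivity) _, ?_⟩
  intro n hn u hu
  obtain ⟨h1, h2⟩ := h u hu
  have hn0 : (0:ℝ) < n := by exact_mod_cast hn
  have hb : 0 < 1 / (n:ℝ) := by positivity
  obtain ⟨r1, r2⟩ := kap_rho_aux hc hC (norm_nonneg (u ^ 4 + 1)) hb h1 h2
  have e : (n:ℝ) ^ (-(3/2) : ℝ) = (1 / (n:ℝ)) ^ (3/2 : ℝ) := by
    rw [Real.rpow_neg hn0.le, one_div, Real.inv_rpow hn0.le]
  unfold kap rho
  rw [e]
  constructor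
  · calc _ = 1 / (n:ℝ) * ((min c 1 / 4) ^ (1/3 : ℝ) * Real.sqrt (‖u ^ 4 + 1‖ + 1 / (n:ℝ))) := by
          ring
      _ ≤ _ := mul_le_mul_of_nonneg_left r1 hb.le
  · calc _ ≤ 1 / (n:ℝ) * ((2 * max C 1) ^ (1/3 : ℝ) * Real.sqrt (‖u ^ 4 + 1‖ + 1 / (n:ℝ))) :=
          mul_le_mul_of_nonneg_left r2 hb.le
      _ = _ := by ring

end Pool.Agent.Helper606.Fek
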