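import Pool.Agent.Helper606.Fek.Defs
import Pool.Agent.Helper606.Fek.P_psi_bdry
import Pool.Agent.Helper606.Fek.P_rho_basic
import Pool.Agent.Helper606.Fek.P_kap_def
import Pool.Agent.Helper606.Fek.P_psi_four
import Pool.Agent.Helper606.Fek.P_kap_rho
import Pool.Agent.Helper606.Fek.P_kap_lip

set_option autoImplicit false

namespace Pool.Agent.Helper606.Fek
open Complex Set Filter Topology


theorem h400_kap_cube (n : ℕ) (hn : 1 ≤ n) (z : ℂ) :
    ((n:ℝ) * kap n z) ^ 3 = ‖z ^ 4 + 4‖ + (n:ℝ) ^ (-(3/2) : ℝ) := by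
  have hn0 : (0:ℝ) < n := by exact_mod_cast hn
  have hS : 0 ≤ ‖z ^ 4 + 4‖ + (n:ℝ) ^ (-(3/2) : ℝ) := by positivity
  unfold kap
  rw [← mul_assoc, mul_one_div_cancel hn0.ne', one_mul, ← Real.rpow_natCast, ← Real.rpow_mul hS]
  norm_num

theorem h400_rho_sq (n : ℕ) (hn : 1 ≤ n) (u : ℂ) :
    ((n:ℝ) * rho n u) ^ 2 = ‖u ^ 4 + 1‖ + 1 / (n:ℝ) := by
  have hn0 : (0:ℝ) < n := by exact_mod_cast hn
  have hS : 0 ≤ ‖u ^ 4 + 1‖ + 1 / (n:ℝ) := by positivity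
  unfold rho
  rw [← mul_assoc, mul_one_div_cancel hn0.ne', one_mul, Real.sq_sqrt hS]

theorem h400_kap_lower (n : ℕ) (hn : 1 ≤ n) (z : ℂ) : (n:ℝ) ^ (-(3/2) : ℝ) ≤ kap n z := by
  have hn0 : (0:ℝ) < n := by exact_mod_cast hn
  have h0 : 0 < (n:ℝ) ^ (-(3/2) : ℝ) := Real.rpow_pos_of_pos hn0 _
  have h1 : ((n:ℝ) ^ (-(3/2) : ℝ)) ^ (1/3 : ℝ) ≤
      (‖z ^ 4 + 4‖ + (n:ℝ) ^ (-(3/2) : ℝ)) ^ (1/3 : ℝ) :=
    Real.rpow_le_rpow h0.le (le_add_of_nonneg_left (norm_nonneg _)) (by norm_num)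
  have h2 : (n:ℝ) ^ (-(3/2) : ℝ) = (1 / (n:ℝ)) * ((n:ℝ) ^ (-(3/2) : ℝ)) ^ (1/3 : ℝ) := by
    rw [← Real.rpow_mul hn0.le, one_div, ← Real.rpow_neg_one, ← Real.rpow_add hn0]
    norm_num
  unfold kap
  rw [h2]
  refine mul_le_mul_of_nonneg_left ?_ (by positivity)
  rw [← h2]
  exact h1

theorem h400_sq_closed : IsClosed sq := by
  have h : Continuous (fun z : ℂ => max |z.re| |z.im|) :=
    (continuous_abs.comp Complex.continuous_re).max (continuous_abs.comp Complex.continuous_im)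
  exact isClosed_singleton.preimage h

theorem h400_prod4 (d a b e f : ℝ) (hd0 : 0 < d) (hd1 : d ≤ 1) (ha : d ≤ a) (hb : d ≤ b)
    (he : d ≤ e) (hf : d ≤ f) (hab : 2 ≤ a + b) (hae : 2 ≤ a + e) (haf : 2 ≤ a + f)
    (hbe : 2 ≤ b + e) (hbf : 2 ≤ b + f) (hef : 2 ≤ e + f) : d ≤ a * b * e * f := by
  by_cases h1 : a < 1
  · have hb1 : 1 ≤ b := by linarith
    have he1 : 1 ≤ e := by linarith
    have hf1 : 1 ≤ f := by linarith
    have h2 : 1 ≤ b * e * f := one_le_mul_of_one_le_of_one_le (one_le_mul_of_one_le_of_one_le hb1 he1) hf1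
    calc d ≤ a := ha
      _ = a * 1 := (mul_one a).symm
      _ ≤ a * (b * e * f) := mul_le_mul_of_nonneg_left h2 (by linarith)
      _ = a * b * e * f := by ring
  · have ha1 : 1 ≤ a := not_lt.mp h1
    by_cases h2 : b < 1
    · have he1 : 1 ≤ e := by linarith
      have hf1 : 1 ≤ f := by linarith
      have h2 : 1 ≤ a * e * f := one_le_mul_of_one_le_of_one_le (one_le_mul_of_one_le_of_one_le ha1 he1) hf1
      calc d ≤ b := hb
        _ = b * 1 := (mul_one b).symm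
        _ ≤ b * (a * e * f) := mul_le_mul_of_nonneg_left h2 (by linarith)
        _ = a * b * e * f := by ring
    · have hb1 : 1 ≤ b := not_lt.mp h2
      by_cases h3 : e < 1
      · have hf1 : 1 ≤ f := by linarith
        have h2 : 1 ≤ a * b * f := one_le_mul_of_one_le_of_one_le (one_le_mul_of_one_le_of_one_le ha1 hb1) hf1
        calc d ≤ e := he
          _ = e * 1 := (mul_one e).symm
          _ ≤ e * (a * b * f) := mul_le_mul_of_nonneg_left h2 (by linarith)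
          _ = a * b * e * f := by ring
      · have he1 : 1 ≤ e := not_lt.mp h3
        have h2 : 1 ≤ a * b * e := one_le_mul_of_one_le_of_one_le (one_le_mul_of_one_le_of_one_le ha1 hb1) he1
        calc d ≤ f := hf
          _ = 1 * f := (one_mul f).symm
          _ ≤ a * b * e * f := mul_le_mul_of_nonneg_right h2 (by linarith)

theorem h400_corner (z p q : ℂ) (h : 2 ≤ ‖p - q‖) : 2 ≤ ‖z - p‖ + ‖z - q‖ := by
  have h1 : p - q = (z - q) - (z - p) := by ring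
  rw [h1] at h
  linarith [norm_sub_le (z - q) (z - p)]

theorem h400_two_le_re (w : ℂ) (h : |w.re| = 2) : 2 ≤ ‖w‖ := by
  rw [← h]
  exact Complex.abs_re_le_norm w

theorem h400_two_le_im (w : ℂ) (h : |w.im| = 2) : 2 ≤ ‖w‖ := by
  rw [← h]
  exact Complex.abs_im_le_norm w

theorem h400_fac (z : ℂ) (d : ℝ) (hd0 : 0 < d) (hd1 : d ≤ 1)
    (h : ∀ p ∈ sq, d ≤ ‖z - p‖) : d ≤ ‖z ^ 4 + 4‖ := by
  have h1 : z ^ 4 + 4 = (z - (1 + I)) * (z - (1 - I)) * (z - (-1 + I)) * (z - (-1 - I)) := by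
    have hI : I ^ 2 = -1 := Complex.I_sq
    linear_combination (2 * z ^ 2 + 3 - I ^ 2) * hI
  rw [h1, norm_mul, norm_mul, norm_mul]
  have m1 : (1 + I : ℂ) ∈ sq := by
    show max |(1 + I : ℂ).re| |(1 + I : ℂ).im| = 1
    simp
  have m2 : (1 - I : ℂ) ∈ sq := by
    show max |(1 - I : ℂ).re| |(1 - I : ℂ).im| = 1
    simp
  have m3 : (-1 + I : ℂ) ∈ sq := by
    show max |(-1 + I : ℂ).re| |(-1 + I : ℂ).im| = 1
    simp
  have m4 : (-1 - I : ℂ) ∈ sq := by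
    show max |(-1 - I : ℂ).re| |(-1 - I : ℂ).im| = 1
    simp
  refine h400_prod4 d _ _ _ _ hd0 hd1 (h _ m1) (h _ m2) (h _ m3) (h _ m4) ?_ ?_ ?_ ?_ ?_ ?_
  · apply h400_corner
    apply h400_two_le_im
    simp
    norm_num
  · apply h400_corner
    apply h400_two_le_re
    simp
    norm_num
  · apply h400_corner
    apply h400_two_le_re
    simp
    norm_num
  · apply h400_corner
    apply h400_two_le_re
    simp
    norm_num
  · apply h400_corner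
    apply h400_two_le_re
    simp
    norm_num
  · apply h400_corner
    apply h400_two_le_im
    simp
    norm_num

/-- a point of the square at distance `c * kap` from the boundary is admissible for `fek_profile` -/
theorem inner_point : ∃ c D c₃ C : ℝ, 0 < c ∧ c ≤ 1 ∧ 0 < D ∧ 0 < c₃ ∧ 0 < C ∧ ∀ n : ℕ, 1 ≤ n →
    ∀ z : ℂ, max |z.re| |z.im| ≤ 1 → Metric.infDist z sq = c * kap n z →
    ∃ u₀ : ℂ, ‖u₀‖ = 1 ∧ ‖z - psi u₀‖ ≤ D * rho n u₀ ∧
      (∀ v : ℂ, ‖v‖ = 1 → c₃ * rho n v ≤ ‖z - psi v‖) ∧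
      (‖u₀ ^ 4 + 1‖ + 1 / (n:ℝ)) ^ 3 ≤ C * ‖z ^ 4 + 4‖ ^ 2 ∧
      ‖z ^ 4 + 4‖ ^ 2 ≤ C * (‖u₀ ^ 4 + 1‖ + 1 / (n:ℝ)) ^ 3 := by
  obtain ⟨c, hc0, hc1, hlip⟩ := kap_lip
  obtain ⟨ck, Ck, hck, hCk, hkr⟩ := kap_rho
  refine ⟨c, 2 * Ck, ck * c / 4, 64 * (1 + 1 / c) ^ 2 / ck ^ 6 + 64 * Ck ^ 6, hc0, hc1,
    by positivity, by positivity, by positivity, ?_⟩
  intro n hn z hz hinf
  have hn0 : (0:ℝ) < n := by exact_mod_cast hn
  have he : 0 < (n:ℝ) ^ (-(3/2) : ℝ) := Real.rpow_pos_of_pos hn0 _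
  have he1 : (n:ℝ) ^ (-(3/2) : ℝ) ≤ 1 :=
    Real.rpow_le_one_of_one_le_of_nonpos (by exact_mod_cast hn) (by norm_num)
  have hkz := h400_kap_lower n hn z
  have hkz0 : 0 < kap n z := he.trans_le hkz
  have hmem : ∀ p ∈ sq, c * kap n z ≤ ‖z - p‖ := by
    intro p hp
    rw [← hinf, ← dist_eq_norm]
    exact Metric.infDist_le_dist_of_mem hp
  obtain ⟨p, hp, hpd⟩ := h400_sq_closed.exists_infDist_eq_dist
    ⟨(1:ℂ), by show max |(1:ℂ).re| |(1:ℂ).im| = 1; simp⟩ z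
  obtain ⟨u₀, hu₀, rfl⟩ := psi_surj p hp
  rw [hinf, dist_eq_norm] at hpd
  have hp' : max |(psi u₀).re| |(psi u₀).im| = 1 := hp
  obtain ⟨l1, l2⟩ := hlip n hn z (psi u₀) hz hp'.le hpd.ge
  obtain ⟨r1, r2⟩ := hkr n hn u₀ hu₀
  have hrho := rho_pos n hn u₀
  refine ⟨u₀, hu₀, ?_, ?_, ?_⟩
  · rw [← hpd]
    calc c * kap n z ≤ 1 * kap n z := mul_le_mul_of_nonneg_right hc1 hkz0.le
      _ = kap n z := one_mul _
      _ ≤ 2 * kap n (psi u₀) := l2
      _ ≤ 2 * (Ck * rho n u₀) := by linarith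
      _ = 2 * Ck * rho n u₀ := by ring
  · intro v hv
    by_contra hcon
    push Not at hcon
    obtain ⟨s1, -⟩ := hkr n hn v hv
    have hv' : max |(psi v).re| |(psi v).im| = 1 := psi_bdry v hv
    have hkv : 0 < kap n (psi v) := he.trans_le (h400_kap_lower n hn (psi v))
    have t1 : ‖z - psi v‖ < c / 4 * kap n (psi v) := by
      calc ‖z - psi v‖ < ck * c / 4 * rho n v := hcon
        _ = c / 4 * (ck * rho n v) := by ring
        _ ≤ c / 4 * kap n (psi v) := mul_le_mul_of_nonneg_left s1 (by positivity)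
    have t2 : ‖psi v - z‖ ≤ c * kap n (psi v) := by
      rw [norm_sub_rev]
      nlinarith
    obtain ⟨l3, -⟩ := hlip n hn (psi v) z hv'.le hz t2
    obtain ⟨-, l4⟩ := hlip n hn (psi v) z hv'.le hz t2
    have t3 := hmem (psi v) (psi_bdry v hv)
    have t4 : c / 4 * kap n (psi v) ≤ c / 4 * (2 * kap n z) :=
      mul_le_mul_of_nonneg_left l4 (by positivity)
    have t5 : 0 < c * kap n z := mul_pos hc0 hkz0
    linarith
  · obtain ⟨e, hee⟩ : ∃ e, e = (n:ℝ) ^ (-(3/2) : ℝ) := ⟨_, rfl⟩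
    have q1 := h400_kap_cube n hn z
    have q2 := h400_rho_sq n hn u₀
    have hA : c * e ≤ ‖z ^ 4 + 4‖ := by
      apply h400_fac z (c * e)
      · rw [hee]
        positivity
      · rw [hee]
        exact mul_le_one₀ hc1 he.le he1
      · intro p hp
        refine le_trans ?_ (hmem p hp)
        rw [hee]
        exact mul_le_mul_of_nonneg_left hkz hc0.le
    rw [← hee] at q1
    have he0 : 0 < e := by rw [hee]; exact he
    obtain ⟨A, hAA⟩ : ∃ A, A = ‖z ^ 4 + 4‖ := ⟨_, rfl⟩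
    obtain ⟨T, hT⟩ : ∃ T, T = ‖u₀ ^ 4 + 1‖ + 1 / (n:ℝ) := ⟨_, rfl⟩
    obtain ⟨K, hK⟩ : ∃ K, K = (n:ℝ) * kap n z := ⟨_, rfl⟩
    obtain ⟨Kp, hKp⟩ : ∃ Kp, Kp = (n:ℝ) * kap n (psi u₀) := ⟨_, rfl⟩
    obtain ⟨R, hR⟩ : ∃ R, R = (n:ℝ) * rho n u₀ := ⟨_, rfl⟩
    rw [← hAA] at hA q1 ⊢
    rw [← hT] at q2 ⊢
    rw [← hK] at q1
    rw [← hR] at q2
    have hA0 : 0 < A := lt_of_lt_of_le (by positivity) hA
    have hK0 : 0 < K := by rw [hK]; positivity
    have hR0 : 0 < R := by rw [hR]; positivity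
    have g1 : K ≤ 2 * Kp := by
      rw [hK, hKp]
      calc (n:ℝ) * kap n z ≤ n * (2 * kap n (psi u₀)) := mul_le_mul_of_nonneg_left l2 hn0.le
        _ = 2 * (n * kap n (psi u₀)) := by ring
    have g2 : Kp ≤ 2 * K := by
      rw [hK, hKp]
      calc (n:ℝ) * kap n (psi u₀) ≤ n * (2 * kap n z) := mul_le_mul_of_nonneg_left l1 hn0.le
        _ = 2 * (n * kap n z) := by ring
    have g3 : ck * R ≤ Kp := by
      rw [hR, hKp]
      calc ck * ((n:ℝ) * rho n u₀) = n * (ck * rho n u₀) := by ring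
        _ ≤ n * kap n (psi u₀) := mul_le_mul_of_nonneg_left r1 hn0.le
    have g4 : Kp ≤ Ck * R := by
      rw [hR, hKp]
      calc (n:ℝ) * kap n (psi u₀) ≤ n * (Ck * rho n u₀) := mul_le_mul_of_nonneg_left r2 hn0.le
        _ = Ck * (n * rho n u₀) := by ring
    have hKp0 : 0 < Kp := lt_of_lt_of_le (by positivity) g3
    have e1 : K ^ 6 = (A + e) ^ 2 := by rw [← q1]; ring
    have e2 : R ^ 6 = T ^ 3 := by rw [← q2]; ring
    have e3 : A + e ≤ (1 + 1 / c) * A := by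
      have : e ≤ 1 / c * A := by
        rw [one_div, ← div_eq_inv_mul, le_div_iff₀ hc0]
        linarith
      linarith
    have e4 : (A + e) ^ 2 ≤ (1 + 1 / c) ^ 2 * A ^ 2 := by
      rw [← mul_pow]
      exact pow_le_pow_left₀ (by positivity) e3 2
    constructor
    · have f1 : (ck * R) ^ 6 ≤ (2 * K) ^ 6 :=
        pow_le_pow_left₀ (by positivity) (g3.trans g2) 6
      rw [mul_pow, mul_pow, e1, e2] at f1
      have f2 : T ^ 3 ≤ 64 * (1 + 1 / c) ^ 2 / ck ^ 6 * A ^ 2 := by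
        rw [div_mul_eq_mul_div, le_div_iff₀ (by positivity)]
        calc T ^ 3 * ck ^ 6 = ck ^ 6 * T ^ 3 := mul_comm _ _
          _ ≤ 2 ^ 6 * (A + e) ^ 2 := f1
          _ ≤ 2 ^ 6 * ((1 + 1 / c) ^ 2 * A ^ 2) := mul_le_mul_of_nonneg_left e4 (by norm_num)
          _ = 64 * (1 + 1 / c) ^ 2 * A ^ 2 := by ring
      have f3 : 0 ≤ 64 * Ck ^ 6 * A ^ 2 := by positivity
      rw [add_mul]
      linarith
    · have f1 : K ^ 6 ≤ (2 * (Ck * R)) ^ 6 :=
        pow_le_pow_left₀ hK0.le (g1.trans (by linarith)) 6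
      rw [mul_pow, mul_pow, e1, e2] at f1
      have f2 : A ^ 2 ≤ (A + e) ^ 2 := pow_le_pow_left₀ hA0.le (by linarith) 2
      have hT0 : 0 ≤ T ^ 3 := by rw [← e2]; positivity
      have f3 : 0 ≤ 64 * (1 + 1 / c) ^ 2 / ck ^ 6 * T ^ 3 := by positivity
      rw [add_mul]
      have f4 : 2 ^ 6 * (Ck ^ 6 * T ^ 3) = 64 * Ck ^ 6 * T ^ 3 := by ring
      linarith

end Pool.Agent.Helper606.Fek
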