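import Pool.Agent.Helper606.Fek.Defs
import Pool.Agent.Helper606.Fek.P_fek_profile
import Pool.Agent.Helper606.Fek.P_kap_def
import Pool.Agent.Helper606.Fek.P_inner_point

set_option autoImplicit false

namespace Pool.Agent.Helper606.Fek
open Complex Set Filter Topology


theorem int_circle : ∃ c C : ℝ, 0 < c ∧ c ≤ 1 ∧ 0 < C ∧ ∃ n₀ : ℕ,
    ∀ n : ℕ, n₀ ≤ n → ∀ u : Fin n → ℂ, FekData n u → ∀ k₀ : Fin n, ∀ Λ : ℝ,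
    Λ = (MM u k₀ ^ 2 * rho n (u k₀)) ^ 2 / (n:ℝ) ^ 2 →
    ∀ z : ℂ, max |z.re| |z.im| ≤ 1 → Metric.infDist z sq = c * kap n z →
      Λ ^ 3 * ‖z ^ 4 + 4‖ ^ 2 ≤ C * (∏ k, ‖z - psi (u k)‖) ^ 12 ∧
      (∏ k, ‖z - psi (u k)‖) ^ 12 ≤ C * (Λ ^ 3 * ‖z ^ 4 + 4‖ ^ 2) := by
  obtain ⟨c, D, c₃, C1, hc, hc1, hD, hc3, hC1, hin⟩ := inner_point
  obtain ⟨C2, hC2, n₀, hprof⟩ := fek_profile D c₃ hD hc3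
  refine ⟨c, C1 * C2 ^ 3, hc, hc1, by positivity, max n₀ 1, ?_⟩
  intro n hn u hu k₀ Λ hΛ z hz hdist
  have hn0 : n₀ ≤ n := (le_max_left _ _).trans hn
  have hn1 : 1 ≤ n := (le_max_right _ _).trans hn
  obtain ⟨u₀, hu₀, hzu, hsep, h3, h4⟩ := hin n hn1 z hz hdist
  obtain ⟨h1, h2⟩ := hprof n hn0 u hu k₀ Λ hΛ u₀ z hu₀ hzu (Or.inl hz)
    (fun k => hsep (u k) (hu.norm_u k))
  obtain ⟨X, hX⟩ : ∃ X : ℝ, X = ‖u₀ ^ 4 + 1‖ + 1 / (n:ℝ) := ⟨_, rfl⟩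
  obtain ⟨Q, hQ⟩ : ∃ Q : ℝ, Q = ∏ k, ‖z - psi (u k)‖ := ⟨_, rfl⟩
  obtain ⟨Z, hZ⟩ : ∃ Z : ℝ, Z = ‖z ^ 4 + 4‖ ^ 2 := ⟨_, rfl⟩
  rw [← hX, ← hZ] at h3 h4
  rw [← hX, ← hQ] at h1 h2
  rw [← hQ, ← hZ]
  have hX0 : 0 ≤ X := by rw [hX]; positivity
  have hQ0 : 0 ≤ Q := by rw [hQ]; exact Finset.prod_nonneg fun k _ => norm_nonneg _
  have hΛ0 : 0 ≤ Λ := by rw [hΛ]; positivity
  constructor
  · calc Λ ^ 3 * Z ≤ Λ ^ 3 * (C1 * X ^ 3) := mul_le_mul_of_nonneg_left h4 (by positivity)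
      _ = C1 * (Λ * X) ^ 3 := by ring
      _ ≤ C1 * (C2 * Q ^ 4) ^ 3 :=
          mul_le_mul_of_nonneg_left (pow_le_pow_left₀ (by positivity) h1 3) hC1.le
      _ = C1 * C2 ^ 3 * Q ^ 12 := by ring
  · calc Q ^ 12 = (Q ^ 4) ^ 3 := by ring
      _ ≤ (C2 * (Λ * X)) ^ 3 := pow_le_pow_left₀ (by positivity) h2 3
      _ = C2 ^ 3 * Λ ^ 3 * X ^ 3 := by ring
      _ ≤ C2 ^ 3 * Λ ^ 3 * (C1 * Z) := mul_le_mul_of_nonneg_left h3 (by positivity)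
      _ = C1 * C2 ^ 3 * (Λ ^ 3 * Z) := by ring

end Pool.Agent.Helper606.Fek
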