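import Pool.Agent.Helper606.Fek.Defs
import Pool.Agent.Helper606.Fek.P_cA_pos
import Pool.Agent.Helper606.Fek.P_psi_bdry
import Pool.Agent.Helper606.Fek.P_rho_basic
import Pool.Agent.Helper606.Fek.P_ext_final
import Pool.Agent.Helper606.Fek.P_kap_def
import Pool.Agent.Helper606.Fek.P_int_circle

set_option autoImplicit false

namespace Pool.Agent.Helper606.Fek
open Complex Set Filter Topology


theorem mx_cont79 : Continuous fun z : ℂ => max |z.re| |z.im| := by fun_prop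

theorem kap_cont79 (n : ℕ) : Continuous fun z : ℂ => kap n z := by
  unfold kap
  refine continuous_const.mul ?_
  exact Continuous.rpow_const (by fun_prop) (fun x => Or.inr (by norm_num))

theorem kap_pos79 (n : ℕ) (hn : 1 ≤ n) (z : ℂ) : 0 < kap n z := by
  unfold kap
  have h0 : (0 : ℝ) < n := by exact_mod_cast hn
  have h1 : (0 : ℝ) < (n : ℝ) ^ (-(3/2) : ℝ) := Real.rpow_pos_of_pos h0 _
  have h2 : (0 : ℝ) < ‖z ^ 4 + 4‖ + (n : ℝ) ^ (-(3/2) : ℝ) := by positivity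
  exact mul_pos (by positivity) (Real.rpow_pos_of_pos h2 _)

theorem nsq79 (z : ℂ) (hz : max |z.re| |z.im| < 1) : ‖z‖ ^ 2 < 2 := by
  rw [max_lt_iff, abs_lt, abs_lt] at hz
  rw [← Complex.normSq_eq_norm_sq, Complex.normSq_apply]
  nlinarith

theorem z4_ne79 (z : ℂ) (hz : max |z.re| |z.im| < 1) : z ^ 4 + 4 ≠ 0 := by
  intro h
  have h1 : z ^ 4 = -4 := by linear_combination h
  have h2 : ‖z‖ ^ 4 = 4 := by
    rw [← norm_pow, h1]
    norm_num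
  have h3 := nsq79 z hz
  nlinarith [sq_nonneg ‖z‖]

theorem z4_le79 (z : ℂ) (hz : max |z.re| |z.im| < 1) : ‖z ^ 4 + 4‖ ≤ 8 := by
  have h3 := nsq79 z hz
  have h4 : ‖z‖ ^ 4 ≤ 4 := by nlinarith [sq_nonneg ‖z‖]
  calc ‖z ^ 4 + 4‖ ≤ ‖z ^ 4‖ + ‖(4:ℂ)‖ := norm_add_le _ _
    _ = ‖z‖ ^ 4 + 4 := by rw [norm_pow]; norm_num
    _ ≤ 8 := by linarith

theorem z4_ge79 (z : ℂ) (δ : ℝ) (hδ : 0 < δ) (hz : δ ≤ Metric.infDist z sq) : δ ^ 4 ≤ ‖z ^ 4 + 4‖ := by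
  have hc : ∀ w : ℂ, w ∈ sq → δ ≤ ‖z - w‖ := by
    intro w hw
    rw [← dist_eq_norm]
    exact hz.trans (Metric.infDist_le_dist_of_mem hw)
  have h1 := hc ⟨1, 1⟩ (by simp [sq])
  have h2 := hc ⟨1, -1⟩ (by simp [sq])
  have h3 := hc ⟨-1, 1⟩ (by simp [sq])
  have h4 := hc ⟨-1, -1⟩ (by simp [sq])
  have e : z ^ 4 + 4 = ((z - ⟨1, 1⟩) * (z - ⟨1, -1⟩)) * ((z - ⟨-1, 1⟩) * (z - ⟨-1, -1⟩)) := by
    have e1 : (⟨1, 1⟩ : ℂ) = 1 + I := by apply Complex.ext <;> simp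
    have e2 : (⟨1, -1⟩ : ℂ) = 1 - I := by apply Complex.ext <;> simp
    have e3 : (⟨-1, 1⟩ : ℂ) = -1 + I := by apply Complex.ext <;> simp
    have e4 : (⟨-1, -1⟩ : ℂ) = -1 - I := by apply Complex.ext <;> simp
    rw [e1, e2, e3, e4]
    have hI : I ^ 2 = -1 := Complex.I_sq
    linear_combination (2 * z ^ 2 + 3 - I ^ 2) * hI
  rw [e, norm_mul, norm_mul, norm_mul]
  calc δ ^ 4 = (δ * δ) * (δ * δ) := by ring
    _ ≤ _ := by gcongr

theorem core79 (n : ℕ) (hn : 1 ≤ n) (u : Fin n → ℂ) (hu : FekData n u) (c C Λ : ℝ) (hc : 0 < c)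
    (hC : 0 < C) (hΛ : 0 < Λ)
    (hcirc : ∀ z : ℂ, max |z.re| |z.im| ≤ 1 → Metric.infDist z sq = c * kap n z →
      Λ ^ 3 * ‖z ^ 4 + 4‖ ^ 2 ≤ C * (∏ k, ‖z - psi (u k)‖) ^ 12 ∧
      (∏ k, ‖z - psi (u k)‖) ^ 12 ≤ C * (Λ ^ 3 * ‖z ^ 4 + 4‖ ^ 2))
    (z : ℂ) (hz : max |z.re| |z.im| < 1) (hz2 : c * kap n z < Metric.infDist z sq) :
    Λ ^ 3 * ‖z ^ 4 + 4‖ ^ 2 ≤ C * (∏ k, ‖z - psi (u k)‖) ^ 12 ∧
      (∏ k, ‖z - psi (u k)‖) ^ 12 ≤ C * (Λ ^ 3 * ‖z ^ 4 + 4‖ ^ 2) := by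
  set U : Set ℂ := {z | max |z.re| |z.im| < 1 ∧ c * kap n z < Metric.infDist z sq} with hU
  have hkc : Continuous fun z : ℂ => c * kap n z := continuous_const.mul (kap_cont79 n)
  have hic : Continuous fun z : ℂ => Metric.infDist z sq := Metric.continuous_infDist_pt sq
  have hUo : IsOpen U := (isOpen_lt mx_cont79 continuous_const).inter (isOpen_lt hkc hic)
  have hUc : ∀ z ∈ closure U, max |z.re| |z.im| < 1 ∧ c * kap n z ≤ Metric.infDist z sq := by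
    have hcl : IsClosed {z : ℂ | max |z.re| |z.im| ≤ 1 ∧ c * kap n z ≤ Metric.infDist z sq} :=
      (isClosed_le mx_cont79 continuous_const).inter (isClosed_le hkc hic)
    have hsub : closure U ⊆ {z : ℂ | max |z.re| |z.im| ≤ 1 ∧ c * kap n z ≤ Metric.infDist z sq} :=
      closure_minimal (fun z hz => ⟨hz.1.le, hz.2.le⟩) hcl
    intro z hz
    have h := hsub hz
    refine ⟨lt_of_le_of_ne h.1 fun heq => ?_, h.2⟩
    have h0 : Metric.infDist z sq = 0 := Metric.infDist_zero_of_mem (show z ∈ sq from heq)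
    have h1 := h.2
    rw [h0] at h1
    have := mul_pos hc (kap_pos79 n hn z)
    linarith
  have hUb : Bornology.IsBounded U := by
    refine (Metric.isBounded_ball (x := (0:ℂ)) (r := 2)).subset fun z hz => ?_
    rw [mem_ball_zero_iff]
    have := nsq79 z hz.1
    nlinarith [norm_nonneg z]
  have hfr : ∀ z ∈ frontier U, max |z.re| |z.im| < 1 ∧ Metric.infDist z sq = c * kap n z := by
    intro z hz
    rw [hUo.frontier_eq] at hz
    have h := hUc z hz.1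
    refine ⟨h.1, le_antisymm ?_ h.2⟩
    by_contra hlt
    exact hz.2 ⟨h.1, not_le.1 hlt⟩
  set F : ℂ → ℂ := fun z => ∏ k, (z - psi (u k)) with hF
  have hFn : ∀ z, ‖F z‖ = ∏ k, ‖z - psi (u k)‖ := fun z => by rw [hF, norm_prod]
  have hFd : Differentiable ℂ F := by
    rw [hF]
    fun_prop
  have hFne : ∀ z : ℂ, max |z.re| |z.im| < 1 → F z ≠ 0 := by
    intro z hz
    rw [hF]
    refine Finset.prod_ne_zero_iff.2 fun k _ h0 => ?_
    have h1 : z = psi (u k) := sub_eq_zero.1 h0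
    have h2 := psi_bdry (u k) (hu.norm_u k)
    rw [← h1] at h2
    have h3 : max |z.re| |z.im| = 1 := h2
    linarith
  have hd1 : DiffContOnCl ℂ (fun z => F z ^ 12 / (z ^ 4 + 4) ^ 2) U := by
    apply DifferentiableOn.diffContOnCl
    intro z hz
    apply DifferentiableAt.differentiableWithinAt
    refine DifferentiableAt.div (by fun_prop) (by fun_prop) (pow_ne_zero _ (z4_ne79 z (hUc z hz).1))
  have hd2 : DiffContOnCl ℂ (fun z => (z ^ 4 + 4) ^ 2 / F z ^ 12) U := by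
    apply DifferentiableOn.diffContOnCl
    intro z hz
    apply DifferentiableAt.differentiableWithinAt
    refine DifferentiableAt.div (by fun_prop) (by fun_prop) (pow_ne_zero _ (hFne z (hUc z hz).1))
  have hzU : z ∈ closure U := subset_closure ⟨hz, hz2⟩
  have hΛ3 : 0 < Λ ^ 3 := by positivity
  have m1 := Complex.norm_le_of_forall_mem_frontier_norm_le hUb hd1 (C := C * Λ ^ 3) (fun w hw => by
    obtain ⟨h1, h2⟩ := hfr w hw
    have h3 := (hcirc w h1.le h2).2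
    have h4 : 0 < ‖w ^ 4 + 4‖ := norm_pos_iff.2 (z4_ne79 w h1)
    rw [norm_div, norm_pow, norm_pow, hFn, div_le_iff₀ (by positivity)]
    linarith) hzU
  have m2 := Complex.norm_le_of_forall_mem_frontier_norm_le hUb hd2 (C := C / Λ ^ 3) (fun w hw => by
    obtain ⟨h1, h2⟩ := hfr w hw
    have h3 := (hcirc w h1.le h2).1
    have h4 : 0 < ‖F w‖ := norm_pos_iff.2 (hFne w h1)
    rw [norm_div, norm_pow, norm_pow, div_le_iff₀ (by positivity), div_mul_eq_mul_div,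
      le_div_iff₀ hΛ3, hFn]
    linarith) hzU
  have h4 : 0 < ‖z ^ 4 + 4‖ := norm_pos_iff.2 (z4_ne79 z hz)
  have h5 : 0 < ‖F z‖ := norm_pos_iff.2 (hFne z hz)
  rw [norm_div, norm_pow, norm_pow, hFn, div_le_iff₀ (by positivity)] at m1
  rw [norm_div, norm_pow, norm_pow, div_le_iff₀ (by positivity), div_mul_eq_mul_div,
      le_div_iff₀ hΛ3, hFn] at m2
  exact ⟨by linarith, by linarith⟩

theorem int_final (δ : ℝ) (hδ : 0 < δ) : ∃ C : ℝ, 0 < C ∧ ∃ n₀ : ℕ,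
    ∀ n : ℕ, n₀ ≤ n → ∀ u : Fin n → ℂ, FekData n u →
    ∀ z : ℂ, max |z.re| |z.im| < 1 → δ ≤ Metric.infDist z sq →
      cA ^ n ≤ C * ∏ k, ‖z - psi (u k)‖ ∧ ∏ k, ‖z - psi (u k)‖ ≤ C * cA ^ n := by
  obtain ⟨c, C1, hc, hc1, hC1, n1, hcirc⟩ := int_circle
  obtain ⟨C2, hC2, n2, hext⟩ := ext_final
  obtain ⟨n3, hn3⟩ := exists_nat_gt (9 / δ)
  set K : ℝ := max (max (64 * C1 * C2 ^ 3) (C1 * C2 ^ 3 / δ ^ 8)) 1 with hK
  have hK1 : 1 ≤ K := le_max_right _ _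
  have hKa : 64 * C1 * C2 ^ 3 ≤ K := (le_max_left _ _).trans (le_max_left _ _)
  have hKb : C1 * C2 ^ 3 / δ ^ 8 ≤ K := (le_max_right _ _).trans (le_max_left _ _)
  have hK0 : 0 < K := by linarith
  have hK12 : K ≤ K ^ 12 := by
    calc K = K ^ 1 := (pow_one K).symm
      _ ≤ K ^ 12 := pow_le_pow_right₀ hK1 (by norm_num)
  refine ⟨K, hK0, max (max n1 n2) (max n3 1), ?_⟩
  intro n hn u hu z hz hzδ
  have hn1 : n1 ≤ n := le_trans (le_trans (le_max_left _ _) (le_max_left _ _)) hn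
  have hn2 : n2 ≤ n := le_trans (le_trans (le_max_right _ _) (le_max_left _ _)) hn
  have hn3' : n3 ≤ n := le_trans (le_trans (le_max_left _ _) (le_max_right _ _)) hn
  have hn4 : 1 ≤ n := le_trans (le_trans (le_max_right _ _) (le_max_right _ _)) hn
  have hn0 : (0 : ℝ) < n := by exact_mod_cast hn4
  set k₀ : Fin n := ⟨0, by omega⟩ with hk0
  set Λ : ℝ := (MM u k₀ ^ 2 * rho n (u k₀)) ^ 2 / (n:ℝ) ^ 2 with hΛ
  obtain ⟨⟨hΛ1, hΛ2⟩, -⟩ := hext n hn2 u hu k₀ Λ hΛ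
  have hcA := cA_pos
  have hΛ0 : 0 < Λ := by
    have h1 : 0 < cA ^ (4 * n) := by positivity
    have h2 : 0 < C2 * Λ := lt_of_lt_of_le h1 hΛ1
    exact (mul_pos_iff_of_pos_left hC2).1 h2
  have hkap : c * kap n z < Metric.infDist z sq := by
    refine lt_of_lt_of_le ?_ hzδ
    have h1 : kap n z ≤ 9 / n := by
      unfold kap
      have h2 : (n : ℝ) ^ (-(3/2) : ℝ) ≤ 1 := by
        apply Real.rpow_le_one_of_one_le_of_nonpos
        · exact_mod_cast hn4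
        · norm_num
      have h3 := z4_le79 z hz
      have h4 : 0 ≤ (n : ℝ) ^ (-(3/2) : ℝ) := by positivity
      have h5 : (‖z ^ 4 + 4‖ + (n:ℝ) ^ (-(3/2) : ℝ)) ^ (1/3 : ℝ) ≤ (9:ℝ) ^ (1/3 : ℝ) :=
        Real.rpow_le_rpow (by positivity) (by linarith) (by norm_num)
      have h6 : (9:ℝ) ^ (1/3 : ℝ) ≤ 9 := by
        calc (9:ℝ) ^ (1/3 : ℝ) ≤ (9:ℝ) ^ (1 : ℝ) :=
              Real.rpow_le_rpow_of_exponent_le (by norm_num) (by norm_num)
          _ = 9 := Real.rpow_one 9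
      calc (1 / (n:ℝ)) * (‖z ^ 4 + 4‖ + (n:ℝ) ^ (-(3/2) : ℝ)) ^ (1/3 : ℝ)
          ≤ (1 / (n:ℝ)) * 9 := by
            apply mul_le_mul_of_nonneg_left (h5.trans h6) (by positivity)
        _ = 9 / n := by ring
    have h2 : c * kap n z ≤ 1 * kap n z :=
      mul_le_mul_of_nonneg_right hc1 (kap_pos79 n hn4 z).le
    have h3 : 9 / (n : ℝ) < δ := by
      rw [div_lt_iff₀ hn0]
      rw [div_lt_iff₀ hδ] at hn3
      have : (n3 : ℝ) ≤ n := by exact_mod_cast hn3'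
      nlinarith
    linarith
  obtain ⟨hA, hB⟩ := core79 n hn4 u hu c C1 Λ hc hC1 hΛ0 (hcirc n hn1 u hu k₀ Λ hΛ) z hz hkap
  have hge := z4_ge79 z δ hδ hzδ
  have hle := z4_le79 z hz
  set F : ℝ := ∏ k, ‖z - psi (u k)‖ with hF
  have hF0 : 0 ≤ F := Finset.prod_nonneg fun _ _ => norm_nonneg _
  have hΛ3 : Λ ^ 3 ≤ C2 ^ 3 * (cA ^ n) ^ 12 := by
    calc Λ ^ 3 ≤ (C2 * cA ^ (4 * n)) ^ 3 := by gcongr
      _ = C2 ^ 3 * (cA ^ n) ^ 12 := by
        rw [mul_pow, ← pow_mul, ← pow_mul]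
        congr 2
        ring
  have hΛ4 : (cA ^ n) ^ 12 ≤ C2 ^ 3 * Λ ^ 3 := by
    calc (cA ^ n) ^ 12 = (cA ^ (4 * n)) ^ 3 := by
          rw [← pow_mul, ← pow_mul]
          congr 1
          ring
      _ ≤ (C2 * Λ) ^ 3 := by gcongr
      _ = C2 ^ 3 * Λ ^ 3 := by ring
  have hsq1 : ‖z ^ 4 + 4‖ ^ 2 ≤ 64 := by
    have := norm_nonneg (z ^ 4 + 4)
    nlinarith
  have hsq2 : δ ^ 8 ≤ ‖z ^ 4 + 4‖ ^ 2 := by
    calc δ ^ 8 = (δ ^ 4) ^ 2 := by ring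
      _ ≤ _ := by gcongr
  have hcAn : 0 < cA ^ n := by positivity
  constructor
  · refine le_of_pow_le_pow_left₀ (n := 12) (by norm_num) (by positivity) ?_
    have h1 : δ ^ 8 * Λ ^ 3 ≤ C1 * F ^ 12 := by
      calc δ ^ 8 * Λ ^ 3 ≤ ‖z ^ 4 + 4‖ ^ 2 * Λ ^ 3 := by gcongr
        _ ≤ C1 * F ^ 12 := by linarith
    have h2 : Λ ^ 3 ≤ C1 * F ^ 12 / δ ^ 8 := by
      rw [le_div_iff₀ (by positivity)]
      linarith
    calc (cA ^ n) ^ 12 ≤ C2 ^ 3 * Λ ^ 3 := hΛ4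
      _ ≤ C2 ^ 3 * (C1 * F ^ 12 / δ ^ 8) := by gcongr
      _ = (C1 * C2 ^ 3 / δ ^ 8) * F ^ 12 := by ring
      _ ≤ K ^ 12 * F ^ 12 := by
        apply mul_le_mul_of_nonneg_right (hKb.trans hK12) (by positivity)
      _ = (K * F) ^ 12 := by ring
  · refine le_of_pow_le_pow_left₀ (n := 12) (by norm_num) (by positivity) ?_
    calc F ^ 12 ≤ C1 * (Λ ^ 3 * ‖z ^ 4 + 4‖ ^ 2) := hB
      _ ≤ C1 * ((C2 ^ 3 * (cA ^ n) ^ 12) * 64) := by gcongr
      _ = (64 * C1 * C2 ^ 3) * (cA ^ n) ^ 12 := by ring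
      _ ≤ K ^ 12 * (cA ^ n) ^ 12 := by
        apply mul_le_mul_of_nonneg_right (hKa.trans hK12) (by positivity)
      _ = (K * cA ^ n) ^ 12 := by ring

end Pool.Agent.Helper606.Fek
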