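import Pool.Agent.Helper606.Fek.Defs
import Pool.Agent.Helper606.Fek.P_cA_pos
import Pool.Agent.Helper606.Fek.P_psi_near
import Pool.Agent.Helper606.Fek.P_psi_bdry

set_option autoImplicit false

namespace Pool.Agent.Helper606.Fek
open Complex Set Filter Topology


theorem sq_norm_le {z : ℂ} (hz : max |z.re| |z.im| ≤ 1) : ‖z‖ ≤ 2 := by
  have h1 : |z.re| ≤ 1 := le_trans (le_max_left _ _) hz
  have h2 : |z.im| ≤ 1 := le_trans (le_max_right _ _) hz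
  have h3 := Complex.norm_le_abs_re_add_abs_im z
  linarith

/-- factor-wise bound, used for small `n` -/
theorem small_ext (δ : ℝ) (hδ : 0 < δ) : ∃ C : ℝ, 1 ≤ C ∧ ∀ w u : ℂ, 1 < ‖w‖ → ‖u‖ = 1 →
    δ ≤ Metric.infDist (psi w) sq →
    cA * ‖w‖ ≤ C * ‖psi w - psi u‖ ∧ ‖psi w - psi u‖ ≤ C * (cA * ‖w‖) := by
  have hc := cA_pos
  have hA : 0 ≤ 2 / cA := by positivity
  have hB : 0 ≤ 2 * (cA / 3 + 2) / δ := by positivity
  refine ⟨2 + 2 / cA + 2 * (cA / 3 + 2) / δ, by linarith, ?_⟩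
  intro w u hw hu hd
  have hus := psi_bdry u hu
  have h1 : δ ≤ ‖psi w - psi u‖ := by
    have := Metric.infDist_le_dist_of_mem (x := psi w) hus
    rw [dist_eq_norm] at this
    linarith
  have h2 : ‖psi u‖ ≤ 2 := sq_norm_le (le_of_eq hus)
  have h3 := psi_near w hw.le
  have h4 : ‖psi w‖ ≤ cA * ‖w‖ + cA / 3 := by
    have e : psi w = (psi w - cA * w) + cA * w := by ring
    calc ‖psi w‖ = ‖(psi w - cA * w) + cA * w‖ := by rw [← e]
      _ ≤ ‖psi w - cA * w‖ + ‖(cA:ℂ) * w‖ := norm_add_le _ _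
      _ ≤ _ := by
        rw [norm_mul, Complex.norm_real, Real.norm_of_nonneg hc.le]; linarith
  have h5 : cA * ‖w‖ - cA / 3 ≤ ‖psi w‖ := by
    have e : (cA:ℂ) * w = psi w - (psi w - cA * w) := by ring
    have : ‖(cA:ℂ) * w‖ ≤ ‖psi w‖ + ‖psi w - cA * w‖ := by
      calc ‖(cA:ℂ) * w‖ = ‖psi w - (psi w - cA * w)‖ := by rw [← e]
        _ ≤ _ := norm_sub_le _ _
    rw [norm_mul, Complex.norm_real, Real.norm_of_nonneg hc.le] at this
    linarith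
  have h6 : ‖psi w - psi u‖ ≤ ‖psi w‖ + ‖psi u‖ := norm_sub_le _ _
  have h7 : ‖psi w‖ - ‖psi u‖ ≤ ‖psi w - psi u‖ := norm_sub_norm_le _ _
  have h8 : cA ≤ cA * ‖w‖ := by nlinarith
  have hN : 0 ≤ ‖psi w - psi u‖ := norm_nonneg _
  constructor
  · by_cases hb : 2 * (cA / 3 + 2) ≤ cA * ‖w‖
    · have : cA * ‖w‖ ≤ 2 * ‖psi w - psi u‖ := by linarith
      have h9 : 0 ≤ (2 / cA + 2 * (cA / 3 + 2) / δ) * ‖psi w - psi u‖ := by positivity
      nlinarith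
    · push_neg at hb
      have h10 : 2 * (cA / 3 + 2) / δ * δ = 2 * (cA / 3 + 2) := by field_simp
      have h11 : 2 * (cA / 3 + 2) / δ * δ ≤ 2 * (cA / 3 + 2) / δ * ‖psi w - psi u‖ :=
        mul_le_mul_of_nonneg_left h1 hB
      have h12 : 0 ≤ (2 + 2 / cA) * ‖psi w - psi u‖ := by positivity
      nlinarith
  · have h13 : 2 / cA * (cA * ‖w‖) = 2 * ‖w‖ := by field_simp
    have h14 : 0 ≤ 2 * (cA / 3 + 2) / δ * (cA * ‖w‖) := by positivity
    have h15 : (2 + 2 / cA + 2 * (cA / 3 + 2) / δ) * (cA * ‖w‖) =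
      2 * (cA * ‖w‖) + 2 / cA * (cA * ‖w‖) + 2 * (cA / 3 + 2) / δ * (cA * ‖w‖) := by ring
    rw [h15, h13]
    nlinarith

theorem small_int (δ : ℝ) (hδ : 0 < δ) : ∃ C : ℝ, 1 ≤ C ∧ ∀ z u : ℂ, max |z.re| |z.im| < 1 →
    ‖u‖ = 1 → δ ≤ Metric.infDist z sq →
    cA ≤ C * ‖z - psi u‖ ∧ ‖z - psi u‖ ≤ C * cA := by
  have hc := cA_pos
  have hA : 0 ≤ 4 / cA := by positivity
  have hB : 0 ≤ cA / δ := by positivity
  refine ⟨1 + cA / δ + 4 / cA, by linarith, ?_⟩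
  intro z u hz hu hd
  have hus := psi_bdry u hu
  have h1 : δ ≤ ‖z - psi u‖ := by
    have := Metric.infDist_le_dist_of_mem (x := z) hus
    rw [dist_eq_norm] at this
    linarith
  have h2 : ‖psi u‖ ≤ 2 := sq_norm_le (le_of_eq hus)
  have h3 : ‖z‖ ≤ 2 := sq_norm_le hz.le
  have h6 : ‖z - psi u‖ ≤ ‖z‖ + ‖psi u‖ := norm_sub_le _ _
  have hN : 0 ≤ ‖z - psi u‖ := norm_nonneg _
  constructor
  · have h10 : cA / δ * δ = cA := by field_simp
    have h11 : cA / δ * δ ≤ cA / δ * ‖z - psi u‖ := mul_le_mul_of_nonneg_left h1 hB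
    have h12 : 0 ≤ (1 + 4 / cA) * ‖z - psi u‖ := by positivity
    nlinarith
  · have h10 : 4 / cA * cA = 4 := by field_simp
    have h12 : 0 ≤ (1 + cA / δ) * cA := by positivity
    nlinarith

end Pool.Agent.Helper606.Fek
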