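import Pool.Agent.Helper606.Fek.Defs
import Pool.Agent.Helper606.Fek.P_cA_pos
import Pool.Agent.Helper606.Fek.P_psi_bdry
import Pool.Agent.Helper606.Fek.P_psi_grow
import Pool.Agent.Helper606.Fek.P_int_final
import Pool.Agent.Helper606.Fek.P_ext_final2
import Pool.Agent.Helper606.Fek.P_small_ext

set_option autoImplicit false

namespace Pool.Agent.Helper606.Fek
open Complex Set Filter Topology


theorem all_n_big {n : ℕ} (f : Fin n → ℝ) (a C : ℝ) (ha : 0 < a) (hf : ∀ k, 0 < f k)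
    (hC : 0 < C) (h1 : a ^ n ≤ C * ∏ k, f k) (h2 : ∏ k, f k ≤ C * a ^ n) :
    |∑ k, Real.log (f k) - n * Real.log a| ≤ |Real.log C| := by
  have hp : 0 < ∏ k, f k := Finset.prod_pos fun k _ => hf k
  have hs : ∑ k, Real.log (f k) = Real.log (∏ k, f k) :=
    (Real.log_prod fun k _ => (hf k).ne').symm
  have e1 : (n : ℝ) * Real.log a = Real.log (a ^ n) := by rw [Real.log_pow]
  have l1 := Real.log_le_log (by positivity) h1
  have l2 := Real.log_le_log hp h2
  rw [Real.log_mul hC.ne' hp.ne'] at l1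
  rw [Real.log_mul hC.ne' (by positivity)] at l2
  rw [hs, e1]
  have h3 := le_abs_self (Real.log C)
  exact abs_le.2 ⟨by linarith, by linarith⟩

theorem all_n_small {n : ℕ} (f : Fin n → ℝ) (a C : ℝ) (ha : 0 < a) (hf : ∀ k, 0 < f k)
    (hC : 1 ≤ C) (h : ∀ k, a ≤ C * f k ∧ f k ≤ C * a) :
    |∑ k, Real.log (f k) - n * Real.log a| ≤ n * Real.log C := by
  have hC0 : 0 < C := by linarith
  have e1 : ∑ k, Real.log (f k) - n * Real.log a = ∑ k : Fin n, (Real.log (f k) - Real.log a) := by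
    rw [Finset.sum_sub_distrib]
    simp
  have h3 : ∀ k, |Real.log (f k) - Real.log a| ≤ Real.log C := by
    intro k
    have l1 := Real.log_le_log ha (h k).1
    have l2 := Real.log_le_log (hf k) (h k).2
    rw [Real.log_mul hC0.ne' (hf k).ne'] at l1
    rw [Real.log_mul hC0.ne' ha.ne'] at l2
    exact abs_le.2 ⟨by linarith, by linarith⟩
  rw [e1]
  calc |∑ k : Fin n, (Real.log (f k) - Real.log a)| ≤ ∑ k : Fin n, |Real.log (f k) - Real.log a| :=
        Finset.abs_sum_le_sum_abs _ _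
    _ ≤ ∑ _k : Fin n, Real.log C := Finset.sum_le_sum fun k _ => h3 k
    _ = n * Real.log C := by simp

theorem all_n_both {n : ℕ} (f : Fin n → ℝ) (a C C' : ℝ) (n₀ : ℕ) (ha : 0 < a)
    (hf : ∀ k, 0 < f k) (hC : 0 < C) (hC' : 1 ≤ C')
    (h1 : n₀ ≤ n → a ^ n ≤ C * ∏ k, f k ∧ ∏ k, f k ≤ C * a ^ n)
    (h : ∀ k, a ≤ C' * f k ∧ f k ≤ C' * a) :
    |∑ k, Real.log (f k) - n * Real.log a| ≤ |Real.log C| + n₀ * Real.log C' := by
  have hl : 0 ≤ Real.log C' := Real.log_nonneg hC'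
  rcases le_or_gt n₀ n with hn | hn
  · have := all_n_big f a C ha hf hC (h1 hn).1 (h1 hn).2
    have h3 : 0 ≤ (n₀ : ℝ) * Real.log C' := by positivity
    linarith
  · have h2 := all_n_small f a C' ha hf hC' h
    have h3 : (n : ℝ) * Real.log C' ≤ n₀ * Real.log C' := by
      have : (n : ℝ) ≤ n₀ := by exact_mod_cast hn.le
      exact mul_le_mul_of_nonneg_right this hl
    have := abs_nonneg (Real.log C)
    linarith

theorem all_n (δ : ℝ) (hδ : 0 < δ) : ∃ C : ℝ, 0 < C ∧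
    ∀ n : ℕ, 2 ≤ n → ∀ u : Fin n → ℂ, FekData n u →
    (∀ w : ℂ, 1 < ‖w‖ → δ ≤ Metric.infDist (psi w) sq →
      |∑ k, Real.log ‖psi w - psi (u k)‖ - n * Real.log (cA * ‖w‖)| ≤ C) ∧
    (∀ z : ℂ, max |z.re| |z.im| < 1 → δ ≤ Metric.infDist z sq →
      |∑ k, Real.log ‖z - psi (u k)‖ - n * Real.log cA| ≤ C) := by
  obtain ⟨C1, hC1, n1, h1⟩ := int_final δ hδ
  obtain ⟨C2, hC2, n2, h2⟩ := ext_final2 δ hδ
  obtain ⟨D2, hD2, g2⟩ := small_ext δ hδ
  obtain ⟨D1, hD1, g1⟩ := small_int δ hδ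
  have hcA := cA_pos
  have l1 := Real.log_nonneg hD1
  have l2 := Real.log_nonneg hD2
  refine ⟨(|Real.log C1| + n1 * Real.log D1) + (|Real.log C2| + n2 * Real.log D2) + 1,
    by positivity, ?_⟩
  intro n _ u hu
  have p1 : 0 ≤ |Real.log C1| + n1 * Real.log D1 := by positivity
  have p2 : 0 ≤ |Real.log C2| + n2 * Real.log D2 := by positivity
  constructor
  · intro w hw hd
    have ha : 0 < cA * ‖w‖ := mul_pos hcA (by linarith)
    have hg := fun k => g2 w (u k) hw (hu.norm_u k) hd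
    have hf : ∀ k, 0 < ‖psi w - psi (u k)‖ := by
      intro k
      by_contra hle
      have h0 : ‖psi w - psi (u k)‖ = 0 := le_antisymm (not_lt.1 hle) (norm_nonneg _)
      have := (hg k).1
      rw [h0, mul_zero] at this
      linarith
    have := all_n_both (fun k => ‖psi w - psi (u k)‖) (cA * ‖w‖) C2 D2 n2 ha hf hC2 hD2
      (fun hn => h2 n hn u hu w hw hd) hg
    linarith
  · intro z hz hd
    have hg := fun k => g1 z (u k) hz (hu.norm_u k) hd
    have hf : ∀ k, 0 < ‖z - psi (u k)‖ := by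
      intro k
      by_contra hle
      have h0 : ‖z - psi (u k)‖ = 0 := le_antisymm (not_lt.1 hle) (norm_nonneg _)
      have := (hg k).1
      rw [h0, mul_zero] at this
      linarith
    have := all_n_both (fun k => ‖z - psi (u k)‖) cA C1 D1 n1 hcA hf hC1 hD1
      (fun hn => h1 n hn u hu z hz hd) hg
    linarith

end Pool.Agent.Helper606.Fek
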