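import Pool.Agent.Helper606.Fek.Defs
import Pool.Agent.Helper606.Fek.P_psi_sym
import Pool.Agent.Helper606.Fek.P_yy_basic
import Pool.Agent.Helper606.Fek.P_psi_arc_val
import Pool.Agent.Helper606.Fek.P_fek_dense
import Pool.Agent.Helper606.Fek.P_right_side
import Pool.Agent.Helper606.Fek.P_s_del
import Pool.Agent.Helper606.Fek.P_chain_rot

set_option autoImplicit false

namespace Pool.Agent.Helper606.Fek
open Complex Set Filter Topology


/-- nearby points of the circle -/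
theorem cg_arg (θ₀ : ℝ) (w : ℂ) (hw : ‖w‖ = 1) :
    ∃ δ : ℝ, w = exp ((θ₀ + δ : ℝ) * I) ∧ |δ| ≤ 2 * ‖w - exp ((θ₀ : ℝ) * I)‖ := by
  have hv : ‖exp ((θ₀ : ℝ) * I)‖ = 1 := Complex.norm_exp_ofReal_mul_I θ₀
  have hw0 : w ≠ 0 := by rintro rfl; simp at hw
  have hv0 : exp ((θ₀ : ℝ) * I) ≠ 0 := Complex.exp_ne_zero _
  refine ⟨(w / exp ((θ₀ : ℝ) * I)).arg, ?_, ?_⟩
  · have h1 : ‖w / exp ((θ₀ : ℝ) * I)‖ = 1 := by rw [norm_div, hw, hv, div_one]
    have h2 := Complex.norm_mul_exp_arg_mul_I (w / exp ((θ₀ : ℝ) * I))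
    rw [h1, Complex.ofReal_one, one_mul] at h2
    rw [Complex.ofReal_add, add_mul, Complex.exp_add, h2]
    field_simp
  · have h3 := Complex.angle_le_mul_norm_sub hw hv
    rw [Complex.angle_eq_abs_arg hw0 hv0] at h3
    have h4 : Real.pi / 2 ≤ 2 := by linarith [Real.pi_le_four]
    exact h3.trans (mul_le_mul_of_nonneg_right h4 (norm_nonneg _))

theorem cg_norm (θ : ℝ) : ‖exp (θ * I) ^ 4 + 1‖ = 2 * |Real.cos (2 * θ)| := by
  have h4 : exp (θ * I) ^ 4 + 1 =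
      exp ((2 * θ : ℝ) * I) * ((2 * Real.cos (2 * θ) : ℝ) : ℂ) := by
    rw [← Complex.exp_nat_mul]
    push_cast
    rw [Complex.two_cos, mul_add, ← Complex.exp_add, ← Complex.exp_add]
    congr 1
    · congr 1
      ring
    · rw [show 2 * (θ : ℂ) * I + -(2 * (θ : ℂ)) * I = 0 by ring, Complex.exp_zero]
  rw [h4, norm_mul, Complex.norm_exp_ofReal_mul_I, one_mul, Complex.norm_real, Real.norm_eq_abs,
    abs_mul, abs_of_pos (by norm_num : (0:ℝ) < 2)]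

theorem cg_dist (a b : ℝ) : ‖exp ((a : ℝ) * I) - exp ((b : ℝ) * I)‖ ≤ |a - b| := by
  have h1 : exp ((a : ℝ) * I) - exp ((b : ℝ) * I) =
      exp ((b : ℝ) * I) * (exp (I * ((a - b : ℝ) : ℂ)) - 1) := by
    rw [mul_sub, ← Complex.exp_add, mul_one]
    congr 2
    push_cast
    ring
  rw [h1, norm_mul, Complex.norm_exp_ofReal_mul_I, one_mul]
  exact Real.norm_exp_I_mul_ofReal_sub_one_le

theorem cg_aux (σ : ℝ) (hσ : σ = 1 ∨ σ = -1) (K : ℝ) (hK : 0 < K) : ∃ T : ℝ, 0 < T ∧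
    ∃ n₀ : ℕ, ∀ n : ℕ, n₀ ≤ n → ∀ u : Fin n → ℂ, FekData n u →
    ∃ i, (psi (u i)).re = 1 ∧ K ≤ (n:ℝ) ^ (3/2 : ℝ) * (1 - |(psi (u i)).im|) ∧
      n * ‖u i - exp ((σ * (Real.pi / 4) : ℝ) * I)‖ ≤ T := by
  obtain ⟨A, hA, hdense⟩ := fek_dense
  obtain ⟨c, C, hc, hC, hs⟩ := s_del
  have hK' : 0 < K ^ (2/3 : ℝ) := Real.rpow_pos_of_pos hK _
  obtain ⟨L, hL⟩ : ∃ L : ℝ, L = 2 * A + C * K ^ (2/3 : ℝ) := ⟨_, rfl⟩
  have hCK : 0 < C * K ^ (2/3 : ℝ) := mul_pos hC hK'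
  have hL0 : 0 < L - 2 * A := by linarith
  refine ⟨L + 2 * A, by linarith, max 9 ⌈2 * (L + 2 * A)⌉₊, fun n hn u hu => ?_⟩
  have hn9 : 9 ≤ n := (le_max_left _ _).trans hn
  have hn0 : (0:ℝ) < n := by exact_mod_cast (by omega : 0 < n)
  have hn1 : 2 * (L + 2 * A) ≤ n := Nat.ceil_le.mp ((le_max_right _ _).trans hn)
  have hσ2 : |σ| = 1 := by rcases hσ with h | h <;> rw [h] <;> norm_num
  have hσσ : σ * σ = 1 := by rcases hσ with h | h <;> rw [h] <;> norm_num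
  obtain ⟨θ₀, hθ₀⟩ : ∃ θ₀ : ℝ, θ₀ = σ * (Real.pi / 4 - L / n) := ⟨_, rfl⟩
  obtain ⟨i, hi⟩ := hdense n hn9 u hu (exp ((θ₀ : ℝ) * I)) (Complex.norm_exp_ofReal_mul_I θ₀)
  obtain ⟨δ, hδ1, hδ2⟩ := cg_arg θ₀ (u i) (hu.norm_u i)
  have hδ3 : |δ| ≤ 2 * A / n := by
    refine hδ2.trans ((mul_le_mul_of_nonneg_left hi zero_le_two).trans_eq ?_)
    ring
  obtain ⟨φ, hφ⟩ : ∃ φ : ℝ, φ = Real.pi / 4 - L / n + σ * δ := ⟨_, rfl⟩
  have hθ : θ₀ + δ = σ * φ := by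
    rw [hθ₀, hφ, mul_add, ← mul_assoc, hσσ, one_mul]
  have hσδ : |σ * δ| ≤ 2 * A / n := by rw [abs_mul, hσ2, one_mul]; exact hδ3
  have hσδ' := abs_le.mp hσδ
  have hx : (L - 2 * A) / n ≤ Real.pi / 4 - φ := by
    have : (L - 2 * A) / n = L / n - 2 * A / n := by ring
    rw [hφ]
    linarith [hσδ'.2]
  have hx0 : 0 < (L - 2 * A) / n := div_pos hL0 hn0
  have hφ2 : 0 < φ := by
    have h1 : L / n + 2 * A / n ≤ 1 / 2 := by
      rw [← add_div, div_le_div_iff₀ hn0 (by norm_num)]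
      linarith
    have h2 := Real.pi_gt_three
    rw [hφ]
    linarith [hσδ'.1]
  have habs : |θ₀ + δ| = φ := by rw [hθ, abs_mul, hσ2, one_mul, abs_of_pos hφ2]
  have hle : |θ₀ + δ| ≤ Real.pi / 4 := by rw [habs]; linarith
  have hpsi := psi_arc_val (θ₀ + δ) hle
  rw [← hδ1] at hpsi
  have hre : (psi (u i)).re = 1 := by rw [hpsi]; simp
  have him : (psi (u i)).im = yy (θ₀ + δ) := by rw [hpsi]; simp
  have hnorm : 2 * ((L - 2 * A) / n) ≤ ‖u i ^ 4 + 1‖ := by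
    rw [hδ1, cg_norm]
    have h1 : Real.cos (2 * (θ₀ + δ)) = Real.cos (2 * φ) := by
      rw [← Real.cos_abs (2 * (θ₀ + δ)), abs_mul, habs, abs_of_pos (by norm_num : (0:ℝ) < 2)]
    have h2 := Real.one_sub_mul_le_cos (x := 2 * φ) (by linarith) (by linarith)
    have h3 : Real.pi / 4 - φ ≤ 1 - 2 / Real.pi * (2 * φ) := by
      have hpi := Real.pi_pos
      have h4 : 1 - 2 / Real.pi * (2 * φ) = 4 * (Real.pi / 4 - φ) / Real.pi := by
        field_simp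
        ring
      rw [h4, le_div_iff₀ hpi]
      have h5 := Real.pi_le_four
      nlinarith
    rw [h1]
    have h6 := le_abs_self (Real.cos (2 * φ))
    linarith
  have hyy : |yy (θ₀ + δ)| ≤ 1 := by
    have hle' := abs_le.mp hle
    have hpi := Real.pi_pos
    have hm := yy_strictMono.monotoneOn
    have h1 := hm (a := θ₀ + δ) (b := Real.pi / 4) hle' ⟨by linarith, le_rfl⟩ hle'.2
    have h2 := hm (a := -(Real.pi / 4)) (b := θ₀ + δ) ⟨le_rfl, by linarith⟩ hle' hle'.1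
    rw [yy_quarter] at h1
    rw [yy_neg, yy_quarter] at h2
    exact abs_le.mpr ⟨h2, h1⟩
  refine ⟨i, hre, ?_, ?_⟩
  · obtain ⟨s, hsdef⟩ : ∃ s : ℝ, s = 1 - |(psi (u i)).im| := ⟨_, rfl⟩
    have hs0 : 0 ≤ s := by rw [hsdef, him]; linarith
    have h1 := (hs (u i) (hu.norm_u i) hre).2
    rw [← hsdef] at h1 ⊢
    have h2 := hnorm.trans h1
    have h3 : K ^ (2/3 : ℝ) ≤ n * s ^ (2/3 : ℝ) := by
      have h4 : L - 2 * A = C * K ^ (2/3 : ℝ) := by linarith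
      rw [h4] at h2
      have h5 : 2 * (C * K ^ (2/3 : ℝ)) ≤ C * s ^ (2/3 : ℝ) * n := by
        rw [← mul_div_assoc, div_le_iff₀ hn0] at h2
        exact h2
      have h6 : C * K ^ (2/3 : ℝ) ≤ C * (n * s ^ (2/3 : ℝ)) := by
        calc C * K ^ (2/3 : ℝ) ≤ 2 * (C * K ^ (2/3 : ℝ)) := by linarith
          _ ≤ C * s ^ (2/3 : ℝ) * n := h5
          _ = _ := by ring
      exact le_of_mul_le_mul_left h6 hC
    have h7 := Real.rpow_le_rpow hK'.le h3 (by norm_num : (0:ℝ) ≤ 3 / 2)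
    rw [Real.mul_rpow hn0.le (Real.rpow_nonneg hs0 _), ← Real.rpow_mul hK.le,
      ← Real.rpow_mul hs0] at h7
    norm_num at h7
    exact h7
  · have h1 : ‖exp ((θ₀ : ℝ) * I) - exp ((σ * (Real.pi / 4) : ℝ) * I)‖ ≤ L / n := by
      refine (cg_dist _ _).trans_eq ?_
      have h2 : θ₀ - σ * (Real.pi / 4) = -σ * (L / n) := by
        rw [hθ₀]; ring
      have h3 : 0 < L / n := div_pos (by linarith) hn0
      rw [h2, abs_mul, abs_neg, hσ2, one_mul, abs_of_pos h3]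
    have h4 : ‖u i - exp ((σ * (Real.pi / 4) : ℝ) * I)‖ ≤ A / n + L / n := by
      have h5 := norm_add_le (u i - exp ((θ₀ : ℝ) * I))
        (exp ((θ₀ : ℝ) * I) - exp ((σ * (Real.pi / 4) : ℝ) * I))
      rw [sub_add_sub_cancel] at h5
      linarith
    calc (n:ℝ) * ‖u i - exp ((σ * (Real.pi / 4) : ℝ) * I)‖ ≤ n * (A / n + L / n) :=
          mul_le_mul_of_nonneg_left h4 hn0.le
      _ = A + L := by field_simp
      _ ≤ L + 2 * A := by linarith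

/-- good indices near the corner `e^{iπ/4}` on the right and on the top side -/
theorem corner_good (K : ℝ) (hK : 0 < K) : ∃ T : ℝ, 0 < T ∧ ∃ n₀ : ℕ, ∀ n : ℕ, n₀ ≤ n →
    ∀ u : Fin n → ℂ, FekData n u →
    (∃ i, (psi (u i)).re = 1 ∧ K ≤ (n:ℝ) ^ (3/2 : ℝ) * (1 - |(psi (u i)).im|) ∧
      n * ‖u i - exp ((Real.pi / 4 : ℝ) * I)‖ ≤ T) ∧
    (∃ i, (psi (u i)).im = 1 ∧ K ≤ (n:ℝ) ^ (3/2 : ℝ) * (1 - |(psi (u i)).re|) ∧
      n * ‖u i - exp ((Real.pi / 4 : ℝ) * I)‖ ≤ T) := by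
  obtain ⟨T1, hT1, n1, h1⟩ := cg_aux 1 (Or.inl rfl) K hK
  obtain ⟨T2, hT2, n2, h2⟩ := cg_aux (-1) (Or.inr rfl) K hK
  refine ⟨max T1 T2, lt_max_of_lt_left hT1, max n1 n2, fun n hn u hu => ⟨?_, ?_⟩⟩
  · obtain ⟨i, a, b, c⟩ := h1 n ((le_max_left _ _).trans hn) u hu
    rw [one_mul] at c
    exact ⟨i, a, b, c.trans (le_max_left _ _)⟩
  · obtain ⟨i, a, b, c⟩ := h2 n ((le_max_right _ _).trans hn) _ (fek_rot n u hu 3)
    have e0 : psi (I ^ 3 * u i) = -I * psi (u i) := by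
      have : I ^ 3 * u i = I * (I * (I * u i)) := by ring
      rw [this, psi_rot, psi_rot, psi_rot]
      have hI : I * I = -1 := Complex.I_mul_I
      linear_combination (I * psi (u i)) * hI
    have e1 : (psi (I ^ 3 * u i)).re = (psi (u i)).im := by rw [e0]; simp
    have e2 : |(psi (I ^ 3 * u i)).im| = |(psi (u i)).re| := by rw [e0]; simp
    simp only [e1, e2] at a b
    refine ⟨i, a, b, ?_⟩
    have hI3 : ‖(I ^ 3 : ℂ)‖ = 1 := by rw [norm_pow, Complex.norm_I, one_pow]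
    have e3 : exp ((-1 * (Real.pi / 4) : ℝ) * I) = I ^ 3 * exp ((Real.pi / 4 : ℝ) * I) := by
      have h3 : exp (((Real.pi / 2 : ℝ) : ℂ) * I) = I := by
        push_cast
        exact Complex.exp_pi_div_two_mul_I
      have h4 : exp (((Real.pi / 4 : ℝ) : ℂ) * I) =
          exp ((-1 * (Real.pi / 4) : ℝ) * I) * exp (((Real.pi / 2 : ℝ) : ℂ) * I) := by
        rw [← Complex.exp_add]
        congr 1
        push_cast
        ring
      rw [h4, h3]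
      have hI : I * I = -1 := Complex.I_mul_I
      linear_combination (-(I * I - 1) * exp ((-1 * (Real.pi / 4) : ℝ) * I)) * hI
    have e4 : ‖I ^ 3 * u i - exp ((-1 * (Real.pi / 4) : ℝ) * I)‖ =
        ‖u i - exp ((Real.pi / 4 : ℝ) * I)‖ := by
      rw [e3, ← mul_sub, norm_mul, hI3, one_mul]
    simp only [e4] at c
    exact c.trans (le_max_right _ _)

end Pool.Agent.Helper606.Fek
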