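import Pool.Agent.Helper606.Fek.Defs
import Pool.Agent.Helper606.Fek.P_psi_bdry

set_option autoImplicit false

namespace Pool.Agent.Helper606.Fek
open Complex Set Filter Topology


theorem fekom_split {n : ℕ} (g : Fin n → Fin n → ℝ) (hg : ∀ i j, g i j = g j i) (k : Fin n) :
    ∏ p ∈ Finset.univ.filter (fun p : Fin n × Fin n => p.1 < p.2), g p.1 p.2 =
      (∏ j ∈ Finset.univ.erase k, g k j) *
      ∏ p ∈ (Finset.univ.filter (fun p : Fin n × Fin n => p.1 < p.2)).filter
        (fun p => ¬ (p.1 = k ∨ p.2 = k)), g p.1 p.2 := by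
  classical
  rw [← Finset.prod_filter_mul_prod_filter_not
    (Finset.univ.filter (fun p : Fin n × Fin n => p.1 < p.2)) (fun p => p.1 = k ∨ p.2 = k)]
  congr 1
  symm
  refine Finset.prod_nbij' (fun j => if k < j then (k, j) else (j, k))
    (fun p => if p.1 = k then p.2 else p.1) ?_ ?_ ?_ ?_ ?_
  · intro j hj
    have hj' : j ≠ k := (Finset.mem_erase.1 hj).1
    by_cases h : k < j
    · simp [h]
    · have h2 : j < k := lt_of_le_of_ne (not_lt.1 h) hj'
      simp [h, h2]
  · rintro ⟨a, b⟩ hp
    simp only [Finset.mem_filter, Finset.mem_univ, true_and] at hp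
    obtain ⟨hab, h | h⟩ := hp
    · subst h
      simp [hab.ne']
    · subst h
      simp [hab.ne]
  · intro j hj
    have hj' : j ≠ k := (Finset.mem_erase.1 hj).1
    by_cases h : k < j
    · simp [h]
    · simp [h, hj']
  · rintro ⟨a, b⟩ hp
    simp only [Finset.mem_filter, Finset.mem_univ, true_and] at hp
    obtain ⟨hab, h | h⟩ := hp
    · subst h
      simp [hab]
    · subst h
      simp [hab.ne, not_lt.2 hab.le]
  · intro j hj
    by_cases h : k < j
    · simp [h]
    · simp only [h, if_false]
      exact hg _ _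

/-- Fekete tuples satisfy `FekData` -/
theorem fek_of_max (n : ℕ) (hn : 2 ≤ n) (z : Fin n → ℂ)
    (hz : ∀ k, max |(z k).re| |(z k).im| = 1)
    (hm : ∀ w : Fin n → ℂ, (∀ k, max |(w k).re| |(w k).im| = 1) →
        ∏ p ∈ Finset.univ.filter (fun p : Fin n × Fin n => p.1 < p.2), ‖w p.1 - w p.2‖ ≤
        ∏ p ∈ Finset.univ.filter (fun p : Fin n × Fin n => p.1 < p.2), ‖z p.1 - z p.2‖) :
    ∃ u : Fin n → ℂ, (∀ k, psi (u k) = z k) ∧ FekData n u := by
  classical
  have hn0 : (0 : ℝ) < n := by
    have : 0 < n := by omega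
    exact_mod_cast this
  have hinj : ∀ i j : Fin n, i ≠ j → z i ≠ z j := by
    set w : Fin n → ℂ := fun k => ⟨1, ((k : ℕ) : ℝ) / n⟩ with hw
    have hw1 : ∀ k, max |(w k).re| |(w k).im| = 1 := by
      intro k
      have h1 : (0 : ℝ) ≤ ((k : ℕ) : ℝ) / n := by positivity
      have h2 : ((k : ℕ) : ℝ) / n ≤ 1 := by
        rw [div_le_one hn0]
        exact_mod_cast k.2.le
      simp only [hw]
      rw [abs_one, abs_of_nonneg h1]
      exact max_eq_left h2
    have h3 := hm w hw1
    have h4 : 0 < ∏ p ∈ Finset.univ.filter (fun p : Fin n × Fin n => p.1 < p.2),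
        ‖w p.1 - w p.2‖ := by
      refine Finset.prod_pos fun p hp => ?_
      have hp' : p.1 < p.2 := (Finset.mem_filter.1 hp).2
      rw [norm_pos_iff, sub_ne_zero]
      intro h
      have h5 := congrArg Complex.im h
      simp only [hw] at h5
      rw [div_left_inj' hn0.ne'] at h5
      have h6 : (p.1 : ℕ) = (p.2 : ℕ) := by exact_mod_cast h5
      exact absurd (Fin.ext h6) hp'.ne
    have h5 := h4.trans_le h3
    have h6 : ∀ i j : Fin n, i < j → z i ≠ z j := by
      intro i j hij h
      have h7 : ∏ p ∈ Finset.univ.filter (fun p : Fin n × Fin n => p.1 < p.2),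
          ‖z p.1 - z p.2‖ = 0 := by
        refine Finset.prod_eq_zero (i := (i, j)) (by simp [hij]) ?_
        simp [h]
      linarith
    intro i j hij
    rcases lt_or_gt_of_ne hij with h | h
    · exact h6 i j h
    · exact (h6 j i h).symm
  choose u hu1 hu2 using fun k => psi_surj (z k) (hz k)
  refine ⟨u, hu2, hu1, ?_, ?_⟩
  · intro k
    unfold MM
    refine Finset.prod_pos fun j hj => ?_
    rw [hu2, hu2, norm_pos_iff, sub_ne_zero]
    exact hinj k j (Finset.mem_erase.1 hj).1.symm
  · intro k x hx
    unfold MM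
    simp only [hu2]
    have h1 := hm (Function.update z k x) (by
      intro j
      by_cases hj : j = k
      · subst hj
        rw [Function.update_self]
        exact hx
      · rw [Function.update_of_ne hj]
        exact hz j)
    rw [fekom_split (fun i j => ‖Function.update z k x i - Function.update z k x j‖)
      (fun i j => norm_sub_rev _ _) k,
      fekom_split (fun i j => ‖z i - z j‖) (fun i j => norm_sub_rev _ _) k] at h1
    have h2 : ∏ p ∈ (Finset.univ.filter (fun p : Fin n × Fin n => p.1 < p.2)).filter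
        (fun p => ¬ (p.1 = k ∨ p.2 = k)),
          ‖Function.update z k x p.1 - Function.update z k x p.2‖ =
        ∏ p ∈ (Finset.univ.filter (fun p : Fin n × Fin n => p.1 < p.2)).filter
        (fun p => ¬ (p.1 = k ∨ p.2 = k)), ‖z p.1 - z p.2‖ := by
      refine Finset.prod_congr rfl fun p hp => ?_
      have hp' := (Finset.mem_filter.1 hp).2
      rw [not_or] at hp'
      rw [Function.update_of_ne hp'.1, Function.update_of_ne hp'.2]
    have h3 : 0 < ∏ p ∈ (Finset.univ.filter (fun p : Fin n × Fin n => p.1 < p.2)).filter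
        (fun p => ¬ (p.1 = k ∨ p.2 = k)), ‖z p.1 - z p.2‖ := by
      refine Finset.prod_pos fun p hp => ?_
      have hp' := (Finset.mem_filter.1 (Finset.mem_filter.1 hp).1).2
      rw [norm_pos_iff, sub_ne_zero]
      exact hinj _ _ hp'.ne
    have h4 : ∏ j ∈ Finset.univ.erase k,
        ‖Function.update z k x k - Function.update z k x j‖ =
        ∏ j ∈ Finset.univ.erase k, ‖x - z j‖ := by
      refine Finset.prod_congr rfl fun j hj => ?_
      rw [Function.update_self, Function.update_of_ne (Finset.mem_erase.1 hj).1]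
    rw [h2, h4] at h1
    exact le_of_mul_le_mul_right h1 h3

end Pool.Agent.Helper606.Fek
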