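import Pool.Agent.Helper606.Fek.Defs

set_option autoImplicit false

namespace Pool.Agent.Helper606.Fek
open Complex Set Filter Topology


theorem phi_bdry (φ : ℂ → ℂ) (c : ℂ)
    (hd : DifferentiableOn ℂ φ {z : ℂ | 1 < max |z.re| |z.im|})
    (hi : Set.InjOn φ {z : ℂ | 1 < max |z.re| |z.im|})
    (him : φ '' {z : ℂ | 1 < max |z.re| |z.im|} = {w : ℂ | 1 < ‖w‖})
    (hl : Filter.Tendsto (fun z => φ z / z) (Filter.cocompact ℂ) (nhds c)) (hc : c ≠ 0)
    (ε : ℝ) (hε : 0 < ε) : ∃ η : ℝ, 0 < η ∧ ∀ x : ℂ, 1 < max |x.re| |x.im| →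
      max |x.re| |x.im| < 1 + η → ‖φ x‖ ≤ 1 + ε := by
  classical
  obtain ⟨m, hm⟩ : ∃ m : ℂ → ℝ, m = fun z => max |z.re| |z.im| := ⟨_, rfl⟩
  have hmc : Continuous m := by rw [hm]; fun_prop
  have hΩ : {z : ℂ | 1 < max |z.re| |z.im|} = {z | 1 < m z} := by rw [hm]
  have hmn : ∀ z, ‖z‖ ≤ 2 * m z := by
    intro z
    have h1 := Complex.norm_le_abs_re_add_abs_im z
    have h2 : |z.re| ≤ m z := by rw [hm]; exact le_max_left _ _
    have h3 : |z.im| ≤ m z := by rw [hm]; exact le_max_right _ _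
    linarith
  rw [hΩ] at hd hi him
  have hopen : IsOpen {z : ℂ | 1 < m z} := isOpen_lt continuous_const hmc
  have hgood : ∀ z, 1 < m z → 𝓝 (φ z) ≤ Filter.map φ (𝓝 z) := by
    intro z hz
    have hA : AnalyticAt ℂ φ z := hd.analyticAt (hopen.mem_nhds hz)
    rcases hA.eventually_constant_or_nhds_le_map_nhds with h | h
    · exfalso
      have h1 : ∀ᶠ z' in 𝓝[≠] z, φ z' = φ z := h.filter_mono nhdsWithin_le_nhds
      have h2 : ∀ᶠ z' in 𝓝[≠] z, z' ∈ {z | 1 < m z} :=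
        (hopen.eventually_mem hz).filter_mono nhdsWithin_le_nhds
      have h3 : ∀ᶠ z' in 𝓝[≠] z, z' ≠ z := eventually_mem_nhdsWithin
      obtain ⟨z', h4, h5, h6⟩ := (h1.and (h2.and h3)).exists
      exact h6 (hi h5 hz h4)
    · exact h
  have hex : ∀ w : ℂ, 1 < ‖w‖ → ∃ z, 1 < m z ∧ φ z = w := by
    intro w hw
    have : w ∈ φ '' {z | 1 < m z} := by rw [him]; exact hw
    obtain ⟨z, hz, h⟩ := this
    exact ⟨z, hz, h⟩
  choose! ψ hψ1 hψ2 using hex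
  have hφ1 : ∀ z, 1 < m z → 1 < ‖φ z‖ := by
    intro z hz
    have : φ z ∈ φ '' {z | 1 < m z} := ⟨z, hz, rfl⟩
    rw [him] at this
    exact this
  have hψφ : ∀ z, 1 < m z → ψ (φ z) = z := by
    intro z hz
    exact hi (hψ1 _ (hφ1 z hz)) hz (hψ2 _ (hφ1 z hz))
  have hψc : ∀ w, 1 < ‖w‖ → ContinuousAt ψ w := by
    intro w hw V hV
    have hV' : V ∩ {z | 1 < m z} ∈ 𝓝 (ψ w) := inter_mem hV (hopen.mem_nhds (hψ1 w hw))
    have h1 : φ '' (V ∩ {z | 1 < m z}) ∈ 𝓝 w := by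
      have := hgood (ψ w) (hψ1 w hw)
      rw [hψ2 w hw] at this
      exact this (Filter.image_mem_map hV')
    rw [Filter.mem_map]
    filter_upwards [h1] with w' hw'
    obtain ⟨z, ⟨hzV, hz⟩, rfl⟩ := hw'
    show ψ (φ z) ∈ V
    rw [hψφ z hz]; exact hzV
  -- bound on the curve `m = 5/2`
  have hS : IsCompact {z : ℂ | m z = 5 / 2} := by
    refine Metric.isCompact_of_isClosed_isBounded (isClosed_eq hmc continuous_const) ?_
    refine (Metric.isBounded_closedBall (x := (0:ℂ)) (r := 5)).subset ?_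
    intro z hz
    rw [mem_closedBall_zero_iff]
    have := hmn z
    have hz' : m z = 5 / 2 := hz
    rw [hz'] at this
    linarith
  have hφS : ContinuousOn φ {z : ℂ | m z = 5 / 2} := by
    refine hd.continuousOn.mono ?_
    intro z hz
    have hz' : m z = 5 / 2 := hz
    show 1 < m z
    rw [hz']; norm_num
  obtain ⟨C, hC⟩ := hS.exists_bound_of_continuousOn hφS
  obtain ⟨R, hR⟩ : ∃ R : ℝ, R = max C (1 + ε) := ⟨_, rfl⟩
  have hRC : C ≤ R := by rw [hR]; exact le_max_left _ _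
  have hR1 : 1 + ε ≤ R := by rw [hR]; exact le_max_right _ _
  -- a point with large `m`
  obtain ⟨z₁, hz₁, hz₁'⟩ : ∃ z, R < ‖φ z‖ ∧ 5 / 2 < m z := by
    have hcp : 0 < ‖c‖ := norm_pos_iff.2 hc
    have h1 : ∀ᶠ z in Filter.cocompact ℂ, ‖c‖ / 2 < ‖φ z / z‖ :=
      hl.norm.eventually (lt_mem_nhds (by linarith))
    have h2 : ∀ᶠ z in Filter.cocompact ℂ, max 10 (2 * R / ‖c‖) < ‖z‖ :=
      (tendsto_norm_cocompact_atTop (E := ℂ)).eventually_gt_atTop _
    obtain ⟨z, h3, h4⟩ := (h1.and h2).exists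
    have h5 : 10 < ‖z‖ := (le_max_left _ _).trans_lt h4
    have h6 : 2 * R / ‖c‖ < ‖z‖ := (le_max_right _ _).trans_lt h4
    refine ⟨z, ?_, ?_⟩
    · have h7 : ‖φ z‖ = ‖φ z / z‖ * ‖z‖ := by
        rw [norm_div, div_mul_cancel₀]
        exact (by linarith : (0:ℝ) < ‖z‖).ne'
      rw [h7]
      have h8 : R = ‖c‖ / 2 * (2 * R / ‖c‖) := by field_simp
      rw [h8]
      have hRp : 0 < 2 * R / ‖c‖ := by
        have : 0 < R := by linarith
        positivity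
      exact mul_lt_mul'' h3 h6 (by positivity) hRp.le
    · have := hmn z
      linarith
  -- connectedness
  have hTc : IsPreconnected {w : ℂ | R < ‖w‖} := by
    have h1 : {w : ℂ | R < ‖w‖} =
        (fun p : ℝ × ℝ => (p.1 : ℂ) * Complex.exp (p.2 * Complex.I)) '' (Set.Ioi R ×ˢ Set.univ) := by
      ext w
      constructor
      · intro hw
        exact ⟨(‖w‖, Complex.arg w), ⟨hw, Set.mem_univ _⟩, Complex.norm_mul_exp_arg_mul_I w⟩
      · rintro ⟨⟨r, θ⟩, ⟨hr, _⟩, rfl⟩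
        show R < ‖(r : ℂ) * Complex.exp (θ * Complex.I)‖
        have hr' : R < r := hr
        rw [norm_mul, Complex.norm_exp_ofReal_mul_I, mul_one, Complex.norm_real, Real.norm_eq_abs,
          abs_of_pos (by linarith)]
        exact hr'
    rw [h1]
    refine ((convex_Ioi R).prod convex_univ).isPreconnected.image _ ?_
    fun_prop
  have hmψ : ContinuousOn (fun w => m (ψ w)) {w : ℂ | 1 < ‖w‖} := by
    intro w hw
    exact (hmc.continuousAt.comp (hψc w hw)).continuousWithinAt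
  have hbd : ∀ x, 1 < m x → m x < 5 / 2 → ‖φ x‖ ≤ R := by
    intro x hx hx2
    by_contra hcon
    push Not at hcon
    have h1 : (5 / 2 : ℝ) ∈ Set.Icc (m (ψ (φ x))) (m (ψ (φ z₁))) := by
      rw [hψφ x hx, hψφ z₁ (by linarith)]
      exact ⟨hx2.le, hz₁'.le⟩
    obtain ⟨w, hw, hw2⟩ := hTc.intermediate_value (a := φ x) (b := φ z₁) hcon hz₁
      (hmψ.mono (fun w (hw : R < ‖w‖) => show 1 < ‖w‖ by linarith)) h1
    have hw' : R < ‖w‖ := hw
    have h2 := hC (ψ w) hw2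
    rw [hψ2 w (by linarith)] at h2
    linarith
  -- the compact annulus
  have hBc : IsCompact {w : ℂ | 1 + ε ≤ ‖w‖ ∧ ‖w‖ ≤ R} := by
    refine Metric.isCompact_of_isClosed_isBounded ?_ ?_
    · exact (isClosed_le continuous_const continuous_norm).inter
        (isClosed_le continuous_norm continuous_const)
    · refine (Metric.isBounded_closedBall (x := (0:ℂ)) (r := R)).subset ?_
      intro z hz
      rw [mem_closedBall_zero_iff]
      exact hz.2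
  have hBn : {w : ℂ | 1 + ε ≤ ‖w‖ ∧ ‖w‖ ≤ R}.Nonempty := by
    refine ⟨((1 + ε : ℝ) : ℂ), ?_⟩
    show 1 + ε ≤ ‖((1 + ε : ℝ) : ℂ)‖ ∧ ‖((1 + ε : ℝ) : ℂ)‖ ≤ R
    rw [Complex.norm_real, Real.norm_eq_abs, abs_of_pos (by linarith)]
    exact ⟨le_rfl, hR1⟩
  obtain ⟨w₀, hw₀, hmin⟩ := hBc.exists_isMinOn hBn
    (hmψ.mono (fun w (hw : 1 + ε ≤ ‖w‖ ∧ ‖w‖ ≤ R) => show 1 < ‖w‖ by linarith [hw.1]))
  have hw₀' : 1 < m (ψ w₀) := hψ1 w₀ (by linarith [hw₀.1])
  refine ⟨min (m (ψ w₀) - 1) 1, lt_min (by linarith) one_pos, ?_⟩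
  intro x hx hx2
  have hx' : 1 < m x := by rw [hm]; exact hx
  have hx2' : m x < 1 + min (m (ψ w₀) - 1) 1 := by rw [hm] at hx2 ⊢; exact hx2
  have h1 : min (m (ψ w₀) - 1) 1 ≤ 1 := min_le_right _ _
  have h2 : min (m (ψ w₀) - 1) 1 ≤ m (ψ w₀) - 1 := min_le_left _ _
  have h3 := hbd x hx' (by linarith)
  by_contra hcon
  push Not at hcon
  have h4 : m (ψ w₀) ≤ m (ψ (φ x)) := hmin (show 1 + ε ≤ ‖φ x‖ ∧ ‖φ x‖ ≤ R from ⟨hcon.le, h3⟩)
  rw [hψφ x hx'] at h4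
  linarith

end Pool.Agent.Helper606.Fek
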