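import Pool.Agent.Helper606.Fek.Defs

set_option autoImplicit false

namespace Pool.Agent.Helper606.Fek
open Complex Set Filter Topology


theorem phi_c_ne_open {g : ℂ → ℂ} {U : Set ℂ} (hg : DifferentiableOn ℂ g U) (hUo : IsOpen U)
    (hU : IsPreconnected U) {x y : ℂ} (hx : x ∈ U) (hy : y ∈ U) (hne : g x ≠ g y) :
    IsOpen (g '' U) := by
  rcases (hg.analyticOnNhd hUo).is_constant_or_isOpen hU with ⟨w, hw⟩ | h
  · exact absurd ((hw x hx).trans (hw y hy).symm) hne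
  · exact h U subset_rfl hUo

theorem phi_c_ne (φ : ℂ → ℂ) (c : ℂ)
    (hd : DifferentiableOn ℂ φ {z : ℂ | 1 < max |z.re| |z.im|})
    (hi : Set.InjOn φ {z : ℂ | 1 < max |z.re| |z.im|})
    (him : φ '' {z : ℂ | 1 < max |z.re| |z.im|} = {w : ℂ | 1 < ‖w‖})
    (hl : Filter.Tendsto (fun z => φ z / z) (Filter.cocompact ℂ) (nhds c)) : c ≠ 0 := by
  intro hc
  rw [hc] at hl
  obtain ⟨Ω, hΩ⟩ : ∃ Ω : Set ℂ, Ω = {z : ℂ | 1 < max |z.re| |z.im|} := ⟨_, rfl⟩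
  rw [← hΩ] at hd hi him
  have hopen : IsOpen Ω := by
    rw [hΩ]
    exact isOpen_lt continuous_const (by fun_prop)
  have hΩm : ∀ z : ℂ, 2 < ‖z‖ → z ∈ Ω := by
    intro z hz
    rw [hΩ]
    change 1 < max |z.re| |z.im|
    by_contra h
    rw [not_lt, max_le_iff] at h
    have := Complex.norm_le_abs_re_add_abs_im z
    linarith [h.1, h.2]
  have hφ1 : ∀ z ∈ Ω, 1 < ‖φ z‖ := by
    intro z hz
    have h : φ z ∈ φ '' Ω := ⟨z, hz, rfl⟩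
    rw [him] at h
    exact h
  have hφ0 : ∀ z ∈ Ω, φ z ≠ 0 := by
    intro z hz h
    have := hφ1 z hz
    rw [h, norm_zero] at this
    linarith
  have hB : ∀ ξ ∈ Metric.ball (0:ℂ) (1/2) \ {0}, ξ⁻¹ ∈ Ω := by
    rintro ξ ⟨h1, h2⟩
    apply hΩm
    rw [mem_ball_zero_iff] at h1
    have h3 : 0 < ‖ξ‖ := norm_pos_iff.2 h2
    rw [norm_inv, lt_inv_comm₀ (by norm_num) h3]
    linarith
  obtain ⟨Φ, hΦ⟩ : ∃ Φ : ℂ → ℂ, ∀ ξ, Φ ξ = (φ ξ⁻¹)⁻¹ := ⟨fun ξ => (φ ξ⁻¹)⁻¹, fun _ => rfl⟩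
  have hΦd : DifferentiableOn ℂ Φ (Metric.ball (0:ℂ) (1/2) \ {0}) := by
    have h1 : DifferentiableOn ℂ (fun ξ : ℂ => (φ ξ⁻¹)⁻¹) (Metric.ball (0:ℂ) (1/2) \ {0}) := by
      have h2 : DifferentiableOn ℂ (fun ξ : ℂ => ξ⁻¹) (Metric.ball (0:ℂ) (1/2) \ {0}) :=
        differentiableOn_inv.mono fun ξ hξ => hξ.2
      exact (hd.comp h2 fun ξ hξ => hB ξ hξ).inv fun ξ hξ => hφ0 _ (hB ξ hξ)
    exact h1.congr fun ξ _ => hΦ ξ
  have hΦb : ∀ ξ ∈ Metric.ball (0:ℂ) (1/2) \ {0}, ‖Φ ξ‖ ≤ 1 := by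
    intro ξ hξ
    rw [hΦ, norm_inv]
    exact inv_le_one_of_one_le₀ (hφ1 _ (hB ξ hξ)).le
  obtain ⟨Ψ, hΨd, hΨe⟩ : ∃ Ψ : ℂ → ℂ, DifferentiableOn ℂ Ψ (Metric.ball (0:ℂ) (1/2)) ∧
      ∀ ξ, ξ ≠ 0 → Ψ ξ = Φ ξ := by
    refine ⟨_, Complex.differentiableOn_update_limUnder_of_bddAbove
      (Metric.ball_mem_nhds (0:ℂ) (by norm_num : (0:ℝ) < 1/2)) hΦd ⟨1, ?_⟩, ?_⟩
    · rintro _ ⟨ξ, hξ, rfl⟩
      exact hΦb ξ hξ
    · intro ξ hξ
      exact Function.update_of_ne hξ _ _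
  have h0mem : (0:ℂ) ∈ Metric.ball (0:ℂ) (1/2) := Metric.mem_ball_self (by norm_num)
  have hΨdiff : DifferentiableAt ℂ Ψ 0 :=
    hΨd.differentiableAt (Metric.ball_mem_nhds (0:ℂ) (by norm_num))
  have hΨc : Tendsto Ψ (𝓝[≠] 0) (𝓝 (Ψ 0)) :=
    hΨdiff.continuousAt.tendsto.mono_left nhdsWithin_le_nhds
  have hinv : Tendsto (fun ξ : ℂ => ξ⁻¹) (𝓝[≠] (0:ℂ)) (cocompact ℂ) := by
    rw [← Metric.cobounded_eq_cocompact]
    exact tendsto_inv₀_nhdsNE_zero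
  have hmemB : ∀ᶠ ξ in 𝓝[≠] (0:ℂ), ξ ∈ Metric.ball (0:ℂ) (1/2) \ {0} := by
    have h1 : ∀ᶠ ξ in 𝓝[≠] (0:ℂ), ξ ∈ Metric.ball (0:ℂ) (1/2) :=
      nhdsWithin_le_nhds (Metric.ball_mem_nhds (0:ℂ) (by norm_num))
    have h2 : ∀ᶠ ξ in 𝓝[≠] (0:ℂ), ξ ∈ ({0}ᶜ : Set ℂ) := self_mem_nhdsWithin
    exact (h1.and h2).mono fun ξ h => ⟨h.1, h.2⟩
  by_cases ha : Ψ 0 = 0
  · -- `Ψ(ξ)/ξ` tends to the derivative
    have h1 : Tendsto (slope Ψ 0) (𝓝[≠] 0) (𝓝 (deriv Ψ 0)) :=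
      hasDerivAt_iff_tendsto_slope.1 hΨdiff.hasDerivAt
    have h2 := (hl.comp hinv).mul h1
    rw [zero_mul] at h2
    have h3 : Tendsto (fun _ : ℂ => (1:ℂ)) (𝓝[≠] (0:ℂ)) (𝓝 0) := by
      refine h2.congr' (hmemB.mono fun ξ hξ => ?_)
      have hξ0 : ξ ≠ 0 := hξ.2
      have hφξ := hφ0 _ (hB ξ hξ)
      rw [Function.comp_apply, slope_def_field, ha, hΨe ξ hξ0, hΦ]
      obtain ⟨w, hw⟩ : ∃ w, w = φ ξ⁻¹ := ⟨_, rfl⟩
      change φ ξ⁻¹ / ξ⁻¹ * (((φ ξ⁻¹)⁻¹ - 0) / (ξ - 0)) = 1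
      rw [← hw] at hφξ ⊢
      rw [sub_zero, sub_zero, div_inv_eq_mul]
      field_simp
    exact one_ne_zero (tendsto_nhds_unique tendsto_const_nhds h3)
  · -- `a = Ψ 0` has norm less than one
    have hnb : ∀ ξ ∈ Metric.ball (0:ℂ) (1/2), ‖Ψ ξ‖ ≤ 1 := by
      intro ξ hξ
      by_cases h : ξ = 0
      · rw [h]
        refine le_of_tendsto hΨc.norm (hmemB.mono fun η hη => ?_)
        rw [hΨe η hη.2]
        exact hΦb η hη
      · rw [hΨe ξ h]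
        exact hΦb ξ ⟨hξ, h⟩
    have hinjΨ : ∀ ξ ∈ Metric.ball (0:ℂ) (1/2) \ {0}, ∀ η ∈ Metric.ball (0:ℂ) (1/2) \ {0},
        Ψ ξ = Ψ η → ξ = η := by
      intro ξ hξ η hη h
      rw [hΨe ξ hξ.2, hΨe η hη.2, hΦ, hΦ, inv_inj] at h
      exact inv_injective (hi (hB ξ hξ) (hB η hη) h)
    have hx4 : ((1/4 : ℝ) : ℂ) ∈ Metric.ball (0:ℂ) (1/2) \ {0} := by
      refine ⟨?_, ?_⟩
      · rw [mem_ball_zero_iff, Complex.norm_real, Real.norm_eq_abs, abs_of_pos (by norm_num)]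
        norm_num
      · intro h
        rw [Set.mem_singleton_iff] at h
        have := Complex.ofReal_eq_zero.1 h
        norm_num at this
    have hx8 : ((1/8 : ℝ) : ℂ) ∈ Metric.ball (0:ℂ) (1/2) \ {0} := by
      refine ⟨?_, ?_⟩
      · rw [mem_ball_zero_iff, Complex.norm_real, Real.norm_eq_abs, abs_of_pos (by norm_num)]
        norm_num
      · intro h
        rw [Set.mem_singleton_iff] at h
        have := Complex.ofReal_eq_zero.1 h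
        norm_num at this
    have hne : Ψ ((1/4 : ℝ) : ℂ) ≠ Ψ ((1/8 : ℝ) : ℂ) := by
      intro h
      have := Complex.ofReal_injective (hinjΨ _ hx4 _ hx8 h)
      norm_num at this
    have hΨo := phi_c_ne_open hΨd Metric.isOpen_ball (convex_ball (0:ℂ) (1/2)).isPreconnected
      hx4.1 hx8.1 hne
    have ha1 : ‖Ψ 0‖ < 1 := by
      have h1 : Ψ '' Metric.ball (0:ℂ) (1/2) ⊆ interior (Metric.closedBall (0:ℂ) 1) := by
        refine interior_maximal ?_ hΨo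
        rintro _ ⟨ξ, hξ, rfl⟩
        rw [mem_closedBall_zero_iff]
        exact hnb ξ hξ
      rw [interior_closedBall (0:ℂ) one_ne_zero] at h1
      have h2 := h1 ⟨0, h0mem, rfl⟩
      rwa [mem_ball_zero_iff] at h2
    have hw0 : (Ψ 0)⁻¹ ∈ φ '' Ω := by
      rw [him]
      change 1 < ‖(Ψ 0)⁻¹‖
      rw [norm_inv]
      exact (one_lt_inv₀ (norm_pos_iff.2 ha)).2 ha1
    obtain ⟨z0, hz0, hz0e⟩ := hw0
    obtain ⟨r, hr, hrΩ⟩ := Metric.isOpen_iff.1 hopen z0 hz0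
    have hy : z0 + ((r/2 : ℝ) : ℂ) ∈ Metric.ball z0 r := by
      rw [Metric.mem_ball, dist_eq_norm, add_sub_cancel_left, Complex.norm_real, Real.norm_eq_abs,
        abs_of_pos (by linarith)]
      linarith
    have hne2 : φ z0 ≠ φ (z0 + ((r/2 : ℝ) : ℂ)) := by
      intro h
      have h1 := hi hz0 (hrΩ hy) h
      have h2 : ((r/2 : ℝ) : ℂ) = 0 := by
        have h3 : z0 + 0 = z0 + ((r/2 : ℝ) : ℂ) := by rw [add_zero]; exact h1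
        exact (add_left_cancel h3).symm
      have h4 := Complex.ofReal_eq_zero.1 h2
      linarith
    have hVo := phi_c_ne_open (hd.mono hrΩ) Metric.isOpen_ball (convex_ball z0 r).isPreconnected
      (Metric.mem_ball_self hr) hy hne2
    have hVn : φ '' Metric.ball z0 r ∈ 𝓝 (Ψ 0)⁻¹ :=
      hVo.mem_nhds ⟨z0, Metric.mem_ball_self hr, hz0e⟩
    have h5 : ∀ᶠ ξ in 𝓝[≠] (0:ℂ), (Ψ ξ)⁻¹ ∈ φ '' Metric.ball z0 r :=
      (hΨc.inv₀ ha).eventually hVn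
    have h6 : ∀ᶠ ξ in 𝓝[≠] (0:ℂ), ξ⁻¹ ∈ (Metric.closedBall z0 r)ᶜ :=
      hinv.eventually (isCompact_closedBall z0 r).compl_mem_cocompact
    obtain ⟨ξ, h7, h8, h9⟩ := (h5.and (h6.and hmemB)).exists
    rw [hΨe ξ h9.2, hΦ, inv_inv] at h7
    obtain ⟨z, hz, hzz⟩ := h7
    have h10 := hi (hrΩ hz) (hB ξ h9) hzz
    apply h8
    rw [← h10]
    exact Metric.ball_subset_closedBall hz

end Pool.Agent.Helper606.Fek
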