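import Pool.Agent.Helper606.Fek.Defs
import Pool.Agent.Helper606.Fek.P_cA_pos
import Pool.Agent.Helper606.Fek.P_psi_deriv
import Pool.Agent.Helper606.Fek.P_psi_cont
import Pool.Agent.Helper606.Fek.P_psi_near
import Pool.Agent.Helper606.Fek.P_psi_bdry
import Pool.Agent.Helper606.Fek.P_psi_grow
import Pool.Agent.Helper606.Fek.P_ext_max
import Pool.Agent.Helper606.Fek.P_phi_c_ne
import Pool.Agent.Helper606.Fek.P_phi_bdry

set_option autoImplicit false

namespace Pool.Agent.Helper606.Fek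
open Complex Set Filter Topology


theorem phi_psi_mem (w : ℂ) (hw : 1 < ‖w‖) : 1 < max |(psi w).re| |(psi w).im| := by
  obtain ⟨c, hc, h⟩ := psi_grow
  have h1 := h w hw.le
  have h2 : 0 < min (‖w‖ - 1) 1 := lt_min (by linarith) one_pos
  have h3 : 0 < c * (min (‖w‖ - 1) 1) ^ 2 := by positivity
  linarith

theorem phi_psi_ne (w : ℂ) (hw : 1 < ‖w‖) : psi w ≠ 0 := by
  intro h
  have h1 := phi_psi_mem w hw
  rw [h] at h1
  norm_num at h1

theorem phi_psi_near (η : ℝ) (hη : 0 < η) : ∃ δ : ℝ, 0 < δ ∧ ∀ w : ℂ, 1 < ‖w‖ → ‖w‖ < 1 + δ →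
    max |(psi w).re| |(psi w).im| < 1 + η := by
  have hK : IsCompact (Metric.closedBall (0 : ℂ) 2 ∩ {w : ℂ | 1 ≤ ‖w‖}) :=
    (isCompact_closedBall (0 : ℂ) 2).inter_right (isClosed_le continuous_const continuous_norm)
  have hu := hK.uniformContinuousOn_of_continuous (psi_cont.mono inter_subset_right)
  rw [Metric.uniformContinuousOn_iff] at hu
  obtain ⟨δ, hδ, h⟩ := hu η hη
  refine ⟨min δ 1, lt_min hδ one_pos, fun w hw1 hw2 => ?_⟩
  have h1 : ‖w‖ - 1 < δ := by linarith [min_le_left δ 1]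
  have h2 : ‖w‖ < 2 := by linarith [min_le_right δ 1]
  have hw0 : (0 : ℝ) < ‖w‖ := by linarith
  have hwne : w ≠ 0 := norm_pos_iff.mp hw0
  have hun : ‖w / (‖w‖ : ℂ)‖ = 1 := by
    rw [norm_div, Complex.norm_real, norm_norm, div_self hw0.ne']
  have hdist : dist w (w / (‖w‖ : ℂ)) < δ := by
    have hne : ((‖w‖ : ℝ) : ℂ) ≠ 0 := by exact_mod_cast hw0.ne'
    have e : w - w / (‖w‖ : ℂ) = (w / (‖w‖ : ℂ)) * ((‖w‖ - 1 : ℝ) : ℂ) := by
      push_cast
      field_simp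
    rw [dist_eq_norm, e, norm_mul, hun, one_mul, Complex.norm_real, Real.norm_eq_abs,
      abs_of_pos (by linarith)]
    exact h1
  have h3 := h w ⟨by rw [mem_closedBall_zero_iff]; exact h2.le, hw1.le⟩ (w / (‖w‖ : ℂ))
    ⟨by rw [mem_closedBall_zero_iff, hun]; norm_num, hun.ge⟩ hdist
  have h4 : max |(psi (w / (‖w‖ : ℂ))).re| |(psi (w / (‖w‖ : ℂ))).im| = 1 := psi_bdry _ hun
  have h5 := (max_le_iff.mp h4.le)
  rw [dist_eq_norm] at h3
  have h6 := (Complex.abs_re_le_norm (psi w - psi (w / (‖w‖ : ℂ)))).trans_lt h3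
  have h7 := (Complex.abs_im_le_norm (psi w - psi (w / (‖w‖ : ℂ)))).trans_lt h3
  rw [Complex.sub_re] at h6
  rw [Complex.sub_im] at h7
  rw [max_lt_iff]
  constructor
  · have h8 := abs_sub_abs_le_abs_sub (psi w).re (psi (w / (‖w‖ : ℂ))).re
    linarith [h5.1]
  · have h8 := abs_sub_abs_le_abs_sub (psi w).im (psi (w / (‖w‖ : ℂ))).im
    linarith [h5.2]

theorem phi_psi (φ : ℂ → ℂ) (c : ℂ)
    (hd : DifferentiableOn ℂ φ {z : ℂ | 1 < max |z.re| |z.im|})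
    (hi : Set.InjOn φ {z : ℂ | 1 < max |z.re| |z.im|})
    (him : φ '' {z : ℂ | 1 < max |z.re| |z.im|} = {w : ℂ | 1 < ‖w‖})
    (hl : Filter.Tendsto (fun z => φ z / z) (Filter.cocompact ℂ) (nhds c)) :
    (∀ w : ℂ, 1 < ‖w‖ → ‖φ (psi w)‖ = ‖w‖) ∧ ‖c‖ * cA = 1 := by
  have hc0 : c ≠ 0 := phi_c_ne φ c hd hi him hl
  have hcA := cA_pos
  have hφ1 : ∀ w : ℂ, 1 < ‖w‖ → 1 < ‖φ (psi w)‖ := by
    intro w hw
    have h1 : φ (psi w) ∈ φ '' {z : ℂ | 1 < max |z.re| |z.im|} := ⟨psi w, phi_psi_mem w hw, rfl⟩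
    rw [him] at h1
    exact h1
  have hcomp : DifferentiableOn ℂ (fun w => φ (psi w)) {w : ℂ | 1 < ‖w‖} :=
    hd.comp (fun w hw => (psi_deriv w hw).differentiableAt.differentiableWithinAt)
      (fun w hw => phi_psi_mem w hw)
  have hw0 : ∀ w : ℂ, 1 < ‖w‖ → w ≠ 0 := fun w hw => norm_pos_iff.mp (by linarith)
  have hφ0 : ∀ w : ℂ, 1 < ‖w‖ → φ (psi w) ≠ 0 := fun w hw =>
    norm_pos_iff.mp (by linarith [hφ1 w hw])
  have hY : DifferentiableOn ℂ (fun w => φ (psi w) / w) {w : ℂ | 1 < ‖w‖} :=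
    hcomp.div differentiableOn_id (fun w hw => hw0 w hw)
  have hZ : DifferentiableOn ℂ (fun w => w / φ (psi w)) {w : ℂ | 1 < ‖w‖} :=
    differentiableOn_id.div hcomp (fun w hw => hφ0 w hw)
  have hev : ∀ᶠ w : ℂ in cocompact ℂ, 1 < ‖w‖ :=
    (tendsto_norm_cocompact_atTop (E := ℂ)).eventually (eventually_gt_atTop 1)
  have hYl : Tendsto (fun w => φ (psi w) / w) (cocompact ℂ) (𝓝 (c * (cA : ℂ))) := by
    have h1 := (hl.comp psi_tendsto_cocompact).mul psi_div_tendsto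
    refine h1.congr' ?_
    filter_upwards [hev] with w hw
    have h2 := phi_psi_ne w hw
    have h3 := hw0 w hw
    simp only [Function.comp]
    field_simp
  have hccA : c * (cA : ℂ) ≠ 0 := mul_ne_zero hc0 (by exact_mod_cast hcA.ne')
  have hZl : Tendsto (fun w => w / φ (psi w)) (cocompact ℂ) (𝓝 ((c * (cA : ℂ))⁻¹)) := by
    have h1 := hYl.inv₀ hccA
    refine h1.congr (fun w => ?_)
    rw [inv_div]
  -- lower bound
  have hZr : ∀ r : ℝ, 1 < r → (∀ w : ℂ, r ≤ ‖w‖ → ‖w / φ (psi w)‖ ≤ r) ∧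
      ‖(c * (cA : ℂ))⁻¹‖ ≤ r := by
    intro r hr
    apply ext_max (fun w => w / φ (psi w)) r r _ (by linarith)
      (hZ.mono (fun w hw => lt_trans hr hw)) (hZ.continuousOn.mono (fun w hw => lt_of_lt_of_le hr hw))
      hZl
    intro w hw
    have h1 := hφ1 w (by rw [hw]; exact hr)
    rw [norm_div, hw]
    exact div_le_self (by linarith) h1.le
  have hZ1 : ∀ w : ℂ, 1 < ‖w‖ → ‖w / φ (psi w)‖ ≤ 1 := by
    intro w hw
    apply le_of_forall_gt_imp_ge_of_dense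
    intro r hr
    rcases le_total r ‖w‖ with h | h
    · exact (hZr r hr).1 w h
    · exact ((hZr ‖w‖ hw).1 w le_rfl).trans h
  have hZc : ‖(c * (cA : ℂ))⁻¹‖ ≤ 1 := le_of_forall_gt_imp_ge_of_dense fun r hr => (hZr r hr).2
  -- upper bound
  have hYε : ∀ ε : ℝ, 0 < ε → (∀ w : ℂ, 1 < ‖w‖ → ‖φ (psi w) / w‖ ≤ 1 + ε) ∧
      ‖c * (cA : ℂ)‖ ≤ 1 + ε := by
    intro ε hε
    obtain ⟨η, hη, hφη⟩ := phi_bdry φ c hd hi him hl hc0 ε hε
    obtain ⟨δ, hδ, hpδ⟩ := phi_psi_near η hη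
    have key : ∀ r : ℝ, 1 < r → r < 1 + δ → (∀ w : ℂ, r ≤ ‖w‖ → ‖φ (psi w) / w‖ ≤ 1 + ε) ∧
        ‖c * (cA : ℂ)‖ ≤ 1 + ε := by
      intro r hr hrδ
      apply ext_max (fun w => φ (psi w) / w) r (1 + ε) _ (by linarith)
        (hY.mono (fun w hw => lt_trans hr hw))
        (hY.continuousOn.mono (fun w hw => lt_of_lt_of_le hr hw)) hYl
      intro w hw
      have hw1 : 1 < ‖w‖ := by rw [hw]; exact hr
      have h1 := hφη (psi w) (phi_psi_mem w hw1) (hpδ w hw1 (by rw [hw]; exact hrδ))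
      rw [norm_div]
      exact (div_le_self (norm_nonneg _) hw1.le).trans h1
    constructor
    · intro w hw
      have h1 : 1 < min ‖w‖ (1 + δ / 2) := lt_min hw (by linarith)
      have h2 : min ‖w‖ (1 + δ / 2) < 1 + δ := lt_of_le_of_lt (min_le_right _ _) (by linarith)
      exact (key _ h1 h2).1 w (min_le_left _ _)
    · exact (key (1 + δ / 2) (by linarith) (by linarith)).2
  constructor
  · intro w hw
    have h1 := hZ1 w hw
    have h2 : ‖φ (psi w) / w‖ ≤ 1 := le_of_forall_pos_le_add fun ε hε => (hYε ε hε).1 w hw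
    have h3 := hφ1 w hw
    rw [norm_div, div_le_one (by linarith)] at h1 h2
    exact le_antisymm h2 h1
  · have h2 : ‖c * (cA : ℂ)‖ ≤ 1 := le_of_forall_pos_le_add fun ε hε => (hYε ε hε).2
    have h3 : 0 < ‖c * (cA : ℂ)‖ := norm_pos_iff.mpr hccA
    rw [norm_inv, inv_le_one₀ h3] at hZc
    have h4 := le_antisymm h2 hZc
    rw [norm_mul, Complex.norm_real, Real.norm_eq_abs, abs_of_pos hcA] at h4
    exact h4

end Pool.Agent.Helper606.Fek
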