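import Pool.Agent.Helper606.Fek.Defs
import Pool.Agent.Helper606.Fek.P_cA_pos
import Pool.Agent.Helper606.Fek.P_psi_ext_surj
import Pool.Agent.Helper606.Fek.P_all_n
import Pool.Agent.Helper606.Fek.P_fek_of_max
import Pool.Agent.Helper606.Fek.P_phi_psi

set_option autoImplicit false

namespace Pool.Agent.Helper606.Fek
open Complex Set Filter Topology


theorem final_main :
  ∀ φ : ℂ → ℂ, ∀ c : ℂ,
    DifferentiableOn ℂ φ {z : ℂ | 1 < max |z.re| |z.im|} →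
    Set.InjOn φ {z : ℂ | 1 < max |z.re| |z.im|} →
    φ '' {z : ℂ | 1 < max |z.re| |z.im|} = {w : ℂ | 1 < ‖w‖} →
    Filter.Tendsto (fun z => φ z / z) (Filter.cocompact ℂ) (nhds c) →
    ∀ δ : ℝ, 0 < δ → ∃ C : ℝ, ∀ n : ℕ, 2 ≤ n → ∀ z : Fin n → ℂ,
      (∀ k, max |(z k).re| |(z k).im| = 1) →
      (∀ w : Fin n → ℂ, (∀ k, max |(w k).re| |(w k).im| = 1) →
        ∏ p ∈ Finset.univ.filter (fun p : Fin n × Fin n => p.1 < p.2), ‖w p.1 - w p.2‖ ≤
        ∏ p ∈ Finset.univ.filter (fun p : Fin n × Fin n => p.1 < p.2), ‖z p.1 - z p.2‖) →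
      ∀ x : ℂ, δ ≤ Metric.infDist x {y : ℂ | max |y.re| |y.im| = 1} →
        (1 < max |x.re| |x.im| →
          |(1 / (n : ℝ)) * ∑ k, Real.log ‖x - z k‖ - (Real.log ‖φ x‖ - Real.log ‖c‖)| ≤ C / n) ∧
        (max |x.re| |x.im| < 1 →
          |(1 / (n : ℝ)) * ∑ k, Real.log ‖x - z k‖ + Real.log ‖c‖| ≤ C / n) := by
  intro φ c hd hi him hl δ hδ
  obtain ⟨C, hC, H⟩ := all_n δ hδ
  obtain ⟨hφ, hc⟩ := phi_psi φ c hd hi him hl
  have hcA := cA_pos
  have hc0 : ‖c‖ ≠ 0 := by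
    intro h
    rw [h, zero_mul] at hc
    exact zero_ne_one hc
  have hlog : Real.log ‖c‖ = - Real.log cA := by
    have h := Real.log_mul hc0 hcA.ne'
    rw [hc, Real.log_one] at h
    linarith
  refine ⟨C, ?_⟩
  intro n hn z hz hm x hx
  obtain ⟨u, hu, hF⟩ := fek_of_max n hn z hz hm
  obtain ⟨H1, H2⟩ := H n hn u hF
  have hn0 : (0:ℝ) < n := by
    have : 0 < n := by omega
    exact_mod_cast this
  have hsum : ∑ k, Real.log ‖x - z k‖ = ∑ k, Real.log ‖x - psi (u k)‖ :=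
    Finset.sum_congr rfl (fun k _ => by rw [hu k])
  constructor
  · intro hx1
    obtain ⟨w, hw, hwx⟩ := psi_ext_surj x hx1
    have h1 := H1 w hw (by rw [hwx]; exact hx)
    rw [hwx] at h1
    have h2 : Real.log ‖φ x‖ = Real.log ‖w‖ := by
      rw [← hwx, hφ w hw]
    have hw0 : ‖w‖ ≠ 0 := by
      have : (0:ℝ) < ‖w‖ := lt_trans zero_lt_one hw
      exact this.ne'
    rw [hsum, h2, hlog]
    rw [Real.log_mul hcA.ne' hw0] at h1
    have h3 : (1 / (n : ℝ)) * ∑ k, Real.log ‖x - psi (u k)‖ - (Real.log ‖w‖ - -Real.log cA)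
        = (1 / (n : ℝ)) * (∑ k, Real.log ‖x - psi (u k)‖ - n * (Real.log cA + Real.log ‖w‖)) := by
      field_simp
      ring
    rw [h3, abs_mul, abs_of_pos (by positivity : (0:ℝ) < 1 / (n:ℝ))]
    calc (1 / (n : ℝ)) * |∑ k, Real.log ‖x - psi (u k)‖ - n * (Real.log cA + Real.log ‖w‖)|
        ≤ (1 / (n : ℝ)) * C := mul_le_mul_of_nonneg_left h1 (by positivity)
      _ = C / n := by ring
  · intro hx1
    have h1 := H2 x hx1 hx
    rw [hsum, hlog]
    have h3 : (1 / (n : ℝ)) * ∑ k, Real.log ‖x - psi (u k)‖ + -Real.log cA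
        = (1 / (n : ℝ)) * (∑ k, Real.log ‖x - psi (u k)‖ - n * Real.log cA) := by
      field_simp
      ring
    rw [h3, abs_mul, abs_of_pos (by positivity : (0:ℝ) < 1 / (n:ℝ))]
    calc (1 / (n : ℝ)) * |∑ k, Real.log ‖x - psi (u k)‖ - n * Real.log cA|
        ≤ (1 / (n : ℝ)) * C := mul_le_mul_of_nonneg_left h1 (by positivity)
      _ = C / n := by ring

end Pool.Agent.Helper606.Fek
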